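import Pool.Agent.AD.T.NullB
import Pool.Agent.AD.T.CurvesAll

/-!
# H19T FBr: entire curves in the fibres, lattices
-/

set_option autoImplicit false

open Topology Filter Metric MvPolynomial

noncomputable section

namespace Pool.Agent.H19T

open Pool.Agent.H36.BP (EN fs wd)
open Pool.Agent.H14.PP (IsCone CurveAt Tan)
open Pool.Agent.H62.FC (Homog)
open Pool.Agent.H62.EF (pr)
open Pool.Agent.H22.W (PseudoLength tan_entire)
open Pool.Agent.H17 (PN HolomorphicInto)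
open Pool.Agent.H17EF (projVar coneE LE)
open Pool.Agent.H14.V (IsLift brodyCurves IsNull isLift_mk)
open Pool.Agent.AD (Vd Charts TorusMapV DiscreteSub symLength symLength_zero uV uV_eq sub_mem_iff torusMapV discreteSub_of isCone_coneE deriv_eq_of_mem deriv_comp_lift
  IsHolomorphicTorusMap)

variable {N n : ℕ}

/-- an entire curve in a fibre has `du (F') = 0` -/
theorem du_zero_of_fibre {X : Set (EN N)} {Λ : AddSubgroup (Vd n)} {u : EN N → Vd n} (hu : TorusMapV X Λ u) (hΛ : DiscreteSub Λ) {F : ℂ → EN N}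
    (hF : Differentiable ℂ F) (hFX : ∀ z, F z ∈ X) (h : ∀ z, u (F z) - u (F 0) ∈ Λ) (z : ℂ) : hu.du (F z) (deriv F z) = 0 := by
  have hl := hu.lift_an (hFX z)
  have h1 := deriv_eq_of_mem (Λ := Λ) hΛ (h := fun w => hu.lift (F z) (F w)) (k := fun _ => u (F 0)) (z₀ := z)
    (AnalyticAt.comp (g := hu.lift (F z)) (f := F) hl (hF.analyticAt z)) analyticAt_const (by
      have hc : Tendsto F (𝓝 z) (𝓝 (F z)) := hF.continuous.tendsto z
      filter_upwards [hc.eventually (hu.lift_mem (hFX z))] with w hw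
      have h2 := Λ.sub_mem (h w) (hw (hFX w))
      have h3 : hu.lift (F z) (F w) - u (F 0) = u (F w) - u (F 0) - (u (F w) - hu.lift (F z) (F w)) := by abel
      rw [h3]
      exact h2)
  rw [deriv_comp_lift (hF.analyticAt z) hl, deriv_const] at h1
  exact h1

variable {P : Ideal (MvPolynomial (Fin (N + 1)) ℂ)}

/-- the fibres contain no entire curve with `|F'| ≤ 1` -/
theorem fib_brody (hP : Homog P) {Λ : AddSubgroup (Fin n → ℂ)} {u : PN N → (Fin n → ℂ) ⧸ Λ}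
    (hfib : ∀ f ∈ brodyCurves (projVar P) 1, (∀ z w, u (f z) = u (f w)) → ∀ z w, f z = f w)
    (F : ℂ → EN N) (hF : Differentiable ℂ F) (hFX : ∀ z, F z ∈ coneE P) (hF1 : ∀ z, fs (F z) (deriv F z) ≤ 1)
    (h : ∀ z w, uV Λ u (F z) - uV Λ u (F w) ∈ Λ) (z w : ℂ) : ∃ c : ℂ, F z = c • F w := by
  have h0 : ∀ z, (F z).ofLp ≠ 0 := fun z => (hFX z).1
  have hl := isLift_mk hF h0
  have h1 := hfib _ ⟨fun z => (hl.mem_iff hP z).2 (hFX z), F, hl, hF1⟩ (fun z w => by
    have h2 := h z w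
    rw [sub_mem_iff, uV_eq Λ u (hFX z).1, uV_eq Λ u (hFX w).1] at h2
    exact h2) z w
  rw [Projectivization.mk_eq_mk_iff'] at h1
  obtain ⟨a, ha⟩ := h1
  exact ⟨a, WithLp.ofLp_injective 2 ha.symm⟩

/-- the fibres contain no entire curve -/
theorem fib_all {d : ℕ} (hP : Homog P) (hch : Charts d (coneE P)) {Λ : AddSubgroup (Fin n → ℂ)} [DiscreteTopology Λ] {u : PN N → (Fin n → ℂ) ⧸ Λ}
    (hu : IsHolomorphicTorusMap (projVar P) Λ u)
    (hfib : ∀ f ∈ brodyCurves (projVar P) 1, (∀ z w, u (f z) = u (f w)) → ∀ z w, f z = f w)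
    (F : ℂ → EN N) (hF : Differentiable ℂ F) (hFX : ∀ z, F z ∈ coneE P) (h : ∀ z, uV Λ u (F z) - uV Λ u (F 0) ∈ Λ) (z : ℂ) : pr (F z) = pr (F 0) := by
  have hX := isCone_coneE hP
  have hΛ := discreteSub_of Λ
  have hT := torusMapV hP hu
  obtain ⟨ν, hν⟩ : ∃ ν : PseudoLength (coneE P), ∀ x v, ν.toFun x v = 0 ↔ hT.du x v = 0 := by
    refine ⟨symLength hX hch (m := fun _ : Fin n => 1) (fun _ => le_rfl) (fun j => hT.symDiff hΛ hX j), fun x v => ?_⟩
    rw [symLength_zero]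
    constructor
    · intro h1
      funext j
      exact h1 j
    · intro h1 j
      exact congrFun h1 j
  have hNN : ν.NoNullBrody := by
    intro G hG hGX hG1 hG0
    exact fib_brody hP hfib G hG hGX hG1 (hT.fibre_of_du hΛ hG hGX fun z => (hν _ _).1 (hG0 z))
  obtain ⟨L, hL, hb⟩ := Pool.Agent.H22.W.exists_lipschitz hX ν hNN
  have h0 : ∀ z, fs (F z) (deriv F z) = 0 := by
    intro z
    by_contra hne
    have hpos : 0 < fs (F z) (deriv F z) := lt_of_le_of_ne (Pool.Agent.H36.BP.fs_nonneg _ _) (Ne.symm hne)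
    obtain ⟨a, ha⟩ : ∃ a : ℝ, a = (L + 1) / fs (F z) (deriv F z) := ⟨_, rfl⟩
    have ha0 : 0 < a := by rw [ha]; positivity
    have ha0' : (a : ℂ) ≠ 0 := by exact_mod_cast ha0.ne'
    have h1 := hb (fun w => F ((a : ℂ) * w)) (hF.comp (differentiable_id.const_mul _)) (fun w => hFX _) (fun w => by
      have h2 := ν.comp_affine hF hFX (a : ℂ) 0 w
      simp only [zero_add] at h2
      have h3 : ν.toFun (F ((a : ℂ) * w)) (deriv F ((a : ℂ) * w)) = 0 := (hν _ _).2 (du_zero_of_fibre hT hΛ hF hFX h _)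
      rw [h2, h3, mul_zero]
      exact zero_le_one) (z / a)
    have h2 : deriv (fun w => F ((a : ℂ) * w)) (z / a) = (a : ℂ) • deriv F ((a : ℂ) * (z / a)) := by
      have h3 : HasDerivAt (fun w : ℂ => (a : ℂ) * w) (a : ℂ) (z / a) := by
        simpa using (hasDerivAt_id (z / a)).const_mul (a : ℂ)
      exact ((hF ((a : ℂ) * (z / a))).hasDerivAt.scomp (z / a) h3).deriv
    rw [h2, mul_div_cancel₀ z ha0', Pool.Agent.H36.BP.fs_smul_right, Complex.norm_real, Real.norm_of_nonneg ha0.le, ha,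
      div_mul_cancel₀ _ hpos.ne'] at h1
    linarith
  have hFne : ∀ z, F z ≠ 0 := fun z h1 => (hFX z).1 (by rw [h1]; rfl)
  obtain ⟨c, hc⟩ := hNN F hF hFX (fun z => by rw [h0]; exact zero_le_one) (fun z => (hν _ _).2 (du_zero_of_fibre hT hΛ hF hFX h z)) z 0
  have hc0 : c ≠ 0 := by
    rintro rfl
    rw [zero_smul] at hc
    exact hFne z hc
  rw [hc, Pool.Agent.H62.EF.pr_smul _ hc0]

/-- a spanning subgroup is cocompact -/
theorem cocompact_of_span {Λ : AddSubgroup (Fin n → ℂ)} (h : Submodule.span ℝ (Λ : Set (Fin n → ℂ)) = ⊤) :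
    ∃ C : ℝ, ∀ b : Fin n → ℂ, ∃ l ∈ Λ, ‖b - l‖ ≤ C := by
  classical
  obtain ⟨T, hTs, hT⟩ : ∃ T : Finset (Fin n → ℂ), (T : Set (Fin n → ℂ)) ⊆ (Λ : Set (Fin n → ℂ)) ∧ Submodule.span ℝ (T : Set (Fin n → ℂ)) = ⊤ := by
    have h1 : (Submodule.span ℝ (Λ : Set (Fin n → ℂ))).FG := by
      rw [h]
      exact Module.Finite.fg_top
    obtain ⟨T, hTs, hT⟩ := (Submodule.fg_span_iff_fg_span_finset_subset _).1 h1
    exact ⟨T, hTs, by rw [← hT, h]⟩
  refine ⟨∑ t ∈ T, ‖t‖, fun b => ?_⟩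
  have hb : b ∈ Submodule.span ℝ (T : Set (Fin n → ℂ)) := by rw [hT]; trivial
  obtain ⟨c, -, hc⟩ := Submodule.mem_span_finset.1 hb
  refine ⟨∑ t ∈ T, ⌊c t⌋ • t, Λ.sum_mem fun t ht => Λ.zsmul_mem (hTs ht) _, ?_⟩
  rw [← hc, ← Finset.sum_sub_distrib]
  refine (norm_sum_le _ _).trans (Finset.sum_le_sum fun t _ => ?_)
  have h2 : c t • t - ⌊c t⌋ • t = (Int.fract (c t)) • t := by
    rw [Int.fract, sub_smul]
    congr 1
    exact (Int.cast_smul_eq_zsmul ℝ _ _).symm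
  rw [h2, norm_smul, Real.norm_of_nonneg (Int.fract_nonneg _)]
  exact mul_le_of_le_one_left (norm_nonneg _) (Int.fract_lt_one _).le

end Pool.Agent.H19T
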