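import Pool.Agent.H19T.FSh
import Pool.Agent.AD.T.Ell

/-!
# H19T FCur: entire curves in the hypersurface `D`
-/

set_option autoImplicit false

open Topology Filter Metric

noncomputable section

namespace Pool.Agent.H19T

open Pool.Agent.H36.BP (EN fs wd)
open Pool.Agent.H14.PP (IsCone CurveAt Tan)
open Pool.Agent.H22.W (tan_entire)
open Pool.Agent.H62.EF (MN pr pr_eq_iff pr_smul continuousAt_pr)
open Pool.Agent.AD (Vd Charts TorusMapV DiscreteSub deriv_comp_lift eventually_const_of_mem)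

variable {N n : ℕ} {X : Set (EN N)} {Λ : AddSubgroup (Vd n)} {u : EN N → Vd n}

/-- a primitive of an entire function -/
theorem exists_primitive {E : Type*} [NormedAddCommGroup E] [NormedSpace ℂ E] [CompleteSpace E] {ψ : ℂ → E} (hψ : Differentiable ℂ ψ) :
    ∃ g : ℂ → E, ∀ z, HasDerivAt g (ψ z) z := by
  refine ⟨fun w => Complex.wedgeIntegral 0 w ψ, fun z => ?_⟩
  exact Complex.IsConservativeOn.hasDerivAt_wedgeIntegral (c := 0) (r := ‖z‖ + 1) hψ.continuous.continuousOn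
    (by rw [mem_ball_zero_iff]; linarith) (hψ.differentiableOn.isConservativeOn)

/-- the composition of an entire curve and the map to the torus lifts to `ℂ^n` -/
theorem exists_lift_torus (hX : IsCone X) (hu : TorusMapV X Λ u) (hΛ : DiscreteSub Λ) {F : ℂ → EN N} (hF : Differentiable ℂ F) (hFX : ∀ z, F z ∈ X) :
    ∃ φ : ℂ → Vd n, Differentiable ℂ φ ∧ ∀ z, u (F z) - φ z ∈ Λ := by
  obtain ⟨ψ, hψ⟩ : ∃ ψ : ℂ → Vd n, ψ = fun z => hu.du (F z) (deriv F z) := ⟨_, rfl⟩
  have hψd : Differentiable ℂ ψ := by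
    rw [differentiable_pi]
    intro j z
    have h1 := ((hu.symDiff hΛ hX j).curve_an (F := F) (z₀ := z) ⟨hF.analyticAt z, Eventually.of_forall hFX⟩).differentiableAt
    rw [hψ]
    exact h1
  obtain ⟨g, hg⟩ := exists_primitive hψd
  obtain ⟨φ, hφ⟩ : ∃ φ : ℂ → Vd n, φ = fun z => u (F 0) + (g z - g 0) := ⟨_, rfl⟩
  have hφd : ∀ z, HasDerivAt φ (ψ z) z := by
    intro z
    rw [hφ]
    exact ((hg z).sub_const (g 0)).const_add (u (F 0))
  refine ⟨φ, fun z => (hφd z).differentiableAt, ?_⟩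
  have hlc : IsLocallyConstant fun z => (QuotientAddGroup.mk (u (F z) - φ z) : Vd n ⧸ Λ) := by
    rw [IsLocallyConstant.iff_eventually_eq]
    intro z₀
    have hx := hFX z₀
    have hl := hu.lift_an hx
    have hc : Tendsto F (𝓝 z₀) (𝓝 (F z₀)) := hF.continuous.tendsto z₀
    obtain ⟨h, hh⟩ : ∃ h : ℂ → Vd n, h = fun z => hu.lift (F z₀) (F z) - φ z := ⟨_, rfl⟩
    have hder : ∀ᶠ z in 𝓝 z₀, deriv h z = 0 ∧ DifferentiableAt ℂ h z := by
      filter_upwards [hc.eventually hl.eventually_analyticAt, hc.eventually (hu.lift_mem hx).eventually_nhds] with z h1 h2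
      have h3 : AnalyticAt ℂ (fun z => hu.lift (F z₀) (F z)) z :=
        AnalyticAt.comp (g := hu.lift (F z₀)) (f := F) h1 (hF.analyticAt z)
      have h5 : HasDerivAt h (deriv (fun z => hu.lift (F z₀) (F z)) z - ψ z) z := by
        rw [hh]
        exact h3.differentiableAt.hasDerivAt.sub (hφd z)
      refine ⟨?_, h5.differentiableAt⟩
      rw [h5.deriv, deriv_comp_lift (hF.analyticAt z) h1, ← hu.du_eq hΛ (tan_entire hF hFX z) h1 h2, hψ, sub_self]
    obtain ⟨r, hr, hball⟩ := Metric.eventually_nhds_iff_ball.1 hder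
    have hconst : ∀ z ∈ ball z₀ r, h z = h z₀ := by
      intro z hz
      exact (convex_ball z₀ r).is_const_of_fderivWithin_eq_zero (𝕜 := ℂ) (fun y hy => (hball y hy).2.differentiableWithinAt)
        (fun y hy => by
          rw [fderivWithin_of_isOpen isOpen_ball hy]
          ext1
          exact (hball y hy).1) hz (mem_ball_self hr)
    filter_upwards [hc.eventually (hu.lift_mem hx), isOpen_ball.mem_nhds (mem_ball_self hr)] with z h1 h2
    have h3 := h1 (hFX z)
    have h4 := (hu.lift_mem hx).self_of_nhds hx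
    have h5 := hconst z h2
    rw [hh] at h5
    simp only at h5
    rw [QuotientAddGroup.eq]
    have h6 := Λ.sub_mem h4 h3
    have h7 : -(u (F z) - φ z) + (u (F z₀) - φ z₀) = (u (F z₀) - hu.lift (F z₀) (F z₀)) - (u (F z) - hu.lift (F z₀) (F z)) +
        ((hu.lift (F z₀) (F z₀) - φ z₀) - (hu.lift (F z₀) (F z) - φ z)) := by abel
    rw [h7, h5, sub_self, add_zero]
    exact h6
  intro z
  have h1 := hlc.apply_eq_of_preconnectedSpace 0 z
  rw [QuotientAddGroup.eq] at h1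
  have h2 : u (F 0) - φ 0 = 0 := by
    rw [hφ]
    simp
  rwa [h2, neg_zero, zero_add] at h1

/-- **Entire curves in `D` factor through the sheets.** -/
theorem exists_sheet (hX : IsCone X) (hu : TorusMapV X Λ u) {J : ℕ} {Ψ : Fin J → Vd n → MN N} (hmem : ∀ j, Ψ j ∈ ShV X Λ u)
    (hall : ∀ Φ ∈ ShV X Λ u, ∃ j, Φ = Ψ j) (hdisj : ∀ j k w w', Ψ j w = Ψ k w' → w - w' ∈ Λ ∧ ∀ y, Ψ j (w + y) = Ψ k (w' + y))
    {F : ℂ → EN N} (hF : Differentiable ℂ F) (hFX : ∀ z, F z ∈ X) (hFD : ∀ z, ∃ j w, pr (F z) = Ψ j w)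
    {φ : ℂ → Vd n} (hφc : Continuous φ) (hφ : ∀ z, u (F z) - φ z ∈ Λ) : ∃ j, ∀ z, pr (F z) = Ψ j (φ z) := by
  have h1 : ∀ z, ∃ j, pr (F z) = Ψ j (φ z) := by
    intro z
    obtain ⟨j, w, hw⟩ := hFD z
    have h2 := ShV.mem_of_pr hX hu (hmem j) (hFX z) hw
    have h3 : w - φ z ∈ Λ := by
      have h4 := Λ.sub_mem (hφ z) h2
      rwa [sub_sub_sub_cancel_left] at h4
    obtain ⟨k, hk⟩ := hall _ (ShV.translate (hmem j) h3)
    refine ⟨k, ?_⟩
    rw [← hk, hw]
    simp
  have hne : ∀ z, F z ≠ 0 := fun z h => hX.zero_notMem (h ▸ hFX z)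
  have hcl : ∀ j, IsClosed {z | pr (F z) = Ψ j (φ z)} := by
    intro j
    refine isClosed_eq ?_ ((ShV.continuous hX (hmem j)).comp hφc)
    rw [continuous_iff_continuousAt]
    intro z
    exact (continuousAt_pr (hne z)).comp (f := F) hF.continuous.continuousAt
  obtain ⟨j, hj⟩ := h1 0
  refine ⟨j, ?_⟩
  obtain ⟨B, hB⟩ : ∃ B : Set (Fin J), B = {k | ∃ z, pr (F z) = Ψ k (φ z) ∧ pr (F z) ≠ Ψ j (φ z)} := ⟨_, rfl⟩
  have hBd : ∀ k ∈ B, ∀ z, pr (F z) = Ψ k (φ z) → pr (F z) ≠ Ψ j (φ z) := by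
    intro k hk z hz hz'
    rw [hB] at hk
    obtain ⟨z', h2, h3⟩ := hk
    apply h3
    have h4 := (hdisj k j (φ z) (φ z) (by rw [← hz, hz'])).2 (φ z' - φ z)
    rw [add_sub_cancel] at h4
    rw [h2, h4]
  have hopen : IsOpen {z | pr (F z) = Ψ j (φ z)} := by
    have h2 : {z | pr (F z) = Ψ j (φ z)} = (⋃ k ∈ B, {z | pr (F z) = Ψ k (φ z)})ᶜ := by
      ext z
      simp only [Set.mem_compl_iff, Set.mem_iUnion, Set.mem_ofPred_eq, not_exists]
      constructor
      · intro h k hk hz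
        exact hBd k hk z hz h
      · intro h
        by_contra hcon
        obtain ⟨k, hk⟩ := h1 z
        exact h k (by rw [hB]; exact ⟨z, hk, hcon⟩) hk
    rw [h2, isOpen_compl_iff]
    exact Set.Finite.isClosed_biUnion (Set.toFinite B) fun k _ => hcl k
  have huniv := IsClopen.eq_univ ⟨hcl j, hopen⟩ ⟨0, hj⟩
  intro z
  have h2 : z ∈ {z | pr (F z) = Ψ j (φ z)} := by
    rw [huniv]
    trivial
  exact h2

/-- a continuous function with values in a discrete subgroup is constant -/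
theorem const_of_mem (hΛ : DiscreteSub Λ) {h : ℂ → Vd n} (hc : Continuous h) (hm : ∀ z, h z ∈ Λ) (z : ℂ) : h z = h 0 := by
  have hlc : IsLocallyConstant h := by
    rw [IsLocallyConstant.iff_eventually_eq]
    intro z₀
    exact eventually_const_of_mem hΛ hc.continuousAt (Eventually.of_forall hm)
  exact hlc.apply_eq_of_preconnectedSpace z 0

end Pool.Agent.H19T
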