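import Pool.Agent.H19T.Kob
import Pool.Agent.AD.F.Sep

/-!
# H19T Bro: nonconstant entire curves lie in `D`
-/

set_option autoImplicit false

open Topology Filter Metric

namespace Pool.Agent.H19T

open Pool.Agent.H36.BP (EN fs wd Sub Curve fs_nonneg BrodyMod)
open Pool.Agent.H14.PP (IsCone CurveAt Tan)
open Pool.Agent.H22.W (PseudoLength)
open Pool.Agent.H62.EF (pr limit_curves pr_eq_iff)
open Pool.Agent.AD (Vd Chart Charts exists_bound_disc const_of_bounded)
open Pool.Agent.AD.F (vel vel_affine fs_affine)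
open Pool.Agent.AD.F.Sp (curve_uniq)

variable {N : ℕ} {X D : Set (EN N)} {ν : PseudoLength X} {κ C η : ℝ} {σ : EN N → ℝ}

/-- the bound on discs of radius `r` -/
theorem kob_disc {K : ℝ} (hK : ∀ F : ℂ → EN N, Curve X (ball 0 1) F → σ (F 0) * fs (F 0) (deriv F 0) ≤ K) {F : ℂ → EN N} {a : ℂ} {r : ℝ} (hr : 0 < r)
    (hF : Curve X (ball a r) F) : σ (F a) * (r * fs (F a) (deriv F a)) ≤ K := by
  have hmaps : ∀ z ∈ ball (0 : ℂ) 1, a + (r : ℂ) * z ∈ ball a r := by
    intro z hz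
    rw [mem_ball_zero_iff] at hz
    rw [mem_ball_iff_norm, add_sub_cancel_left, norm_mul, Complex.norm_real, Real.norm_of_nonneg hr.le]
    calc r * ‖z‖ < r * 1 := mul_lt_mul_of_pos_left hz hr
      _ = r := mul_one r
  have hG : Curve X (ball 0 1) (fun z : ℂ => F (a + (r : ℂ) * z)) := Pool.Agent.AD.F.Curve.comp hF (by fun_prop) hmaps
  have h1 := hK _ hG
  have h2 := fs_affine isOpen_ball hF.1 (r : ℂ) a (z := 0) (hmaps 0 (mem_ball_self one_pos))
  simp only [mul_zero, add_zero] at h1 h2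
  rw [h2, Complex.norm_real, Real.norm_of_nonneg hr.le] at h1
  exact h1

theorem Sig.brody (hX : IsCone X) (h : Sig X D ν κ C η σ) (hNT : ν.NoNullBrody) (hlin : LinIn X D ν) : BrodyMod X D := by
  obtain ⟨K, hK0, hK⟩ := h.kob hX hNT hlin
  intro F hF hFX hne z₁
  by_contra hz₁
  have hF0 : ∀ z, F z ≠ 0 := fun z e => hX.zero_notMem (e ▸ hFX z)
  have hσ1 : σ (F z₁) ≠ 0 := fun e => hz₁ ((h.zero_iff _ (hFX z₁)).1 e)
  have hzero : ∀ z, σ (F z) * fs (F z) (deriv F z) = 0 := by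
    intro z
    have h0 : 0 ≤ σ (F z) * fs (F z) (deriv F z) := mul_nonneg (h.nonneg _ (hFX z)) (fs_nonneg _ _)
    refine le_antisymm (le_of_forall_pos_le_add fun ε hε => ?_) h0
    have h1 := kob_disc hK (F := F) (a := z) (r := K / ε) (by positivity) ⟨hF.differentiableOn, fun w _ => hFX w⟩
    have h2 : σ (F z) * (K / ε * fs (F z) (deriv F z)) = K / ε * (σ (F z) * fs (F z) (deriv F z)) := by ring
    rw [h2, div_mul_eq_mul_div, div_le_iff₀ hε] at h1
    have h3 := le_of_mul_le_mul_left h1 hK0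
    linarith
  have hcont : Continuous fun z => σ (F z) := by
    rw [← continuousOn_univ]
    exact h.cont.comp hF.continuous.continuousOn (fun z _ => hFX z)
  have hev : ∀ᶠ w in 𝓝 z₁, wd (F w) (deriv F w) = 0 := by
    filter_upwards [hcont.continuousAt.eventually_ne hσ1] with w hw
    have h1 : fs (F w) (deriv F w) = 0 := (mul_eq_zero.1 (hzero w)).resolve_left hw
    unfold fs at h1
    have h2 : ‖F w‖ ^ 2 ≠ 0 := pow_ne_zero 2 (norm_ne_zero_iff.2 (hF0 w))
    exact (div_eq_zero_iff.1 h1).resolve_right h2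
  have hc := Pool.Agent.H36.BP.const_of_wedge (hF.analyticAt z₁) (hF0 z₁) hev
  have hall := curve_uniq hF (differentiable_const (F z₁)) hF0 (fun _ => hF0 z₁) (z₀ := z₁) (by
    filter_upwards [hc] with w hw
    exact (pr_eq_iff (hF0 w) (hF0 z₁)).2 hw)
  obtain ⟨z, w, hzw⟩ := hne
  have h2 : pr (F z) = pr (F w) := (hall z).trans (hall w).symm
  obtain ⟨c, -, h3⟩ := (pr_eq_iff (hF0 z) (hF0 w)).1 h2
  exact hzw c h3

end Pool.Agent.H19T
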