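import Pool.Agent.H19T.FSh
import Pool.Agent.AD.P.Conv

/-!
# H19T FPic: extension across the puncture, in the projective space
-/

set_option autoImplicit false

open Topology Filter Metric MvPolynomial

noncomputable section

namespace Pool.Agent.H19T

open Pool.Agent.H36.BP (EN fs wd Curve lift_punct ofLp_ne_zero ne_zero_of_ofLp analyticAt_ofLp isOpen_puncturedDisc preconnected_puncturedDisc)
open Pool.Agent.H14.PP (IsCone CurveAt Tan)
open Pool.Agent.H62.FC (Homog)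
open Pool.Agent.H62.EF (MN pr pr_eq_iff pr_smul continuousAt_pr)
open Pool.Agent.H17 (PN HolomorphicInto puncturedDisc)
open Pool.Agent.H17EF (projVar coneE LE mk_symm prP prP_injective mk_mem_projVar mem_coneE)
open Pool.Agent.AD (Vd Chart Charts TorusMapV DiscreteSub isCone_coneE)

variable {N n : ℕ}

/-- the identity principle for curves and submanifolds which are etale over the torus -/
theorem EtaleIn.frequently {p : ℕ} {D X : Set (EN N)} {Λ : AddSubgroup (Vd n)} {u : EN N → Vd n} (hD : EtaleIn p D X Λ u) (h0 : (0 : EN N) ∉ X) {F : ℂ → EN N} {z : ℂ}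
    (hF : CurveAt X F z) (h : ∃ᶠ w in 𝓝[≠] z, F w ∈ D) : ∀ᶠ w in 𝓝 z, F w ∈ D := by
  have hFz : F z ∈ X := hF.2.self_of_nhds
  have hzD : F z ∈ D := by
    have h1 : F z ∈ closure D := by
      rw [mem_closure_iff_frequently]
      exact (hF.1.continuousAt.tendsto.mono_left nhdsWithin_le_nhds).frequently h
    have h2 := hD.closed.closure_subset_iff.2 (Set.subset_insert (0 : EN N) D) h1
    rcases h2 with h2 | h2
    · exact absurd (h2 ▸ hFz) h0
    · exact h2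
  obtain ⟨s, -, χ, hχ⟩ := hD.chart _ hzD
  have hU : ∀ᶠ w in 𝓝 z, F w ∈ χ.U := hF.1.continuousAt.tendsto.eventually (χ.isOpen_U.mem_nhds hχ.mem_U)
  have hq : AnalyticAt ℂ (fun w => ll (χ.q (F w))) z := by
    have h1 : AnalyticAt ℂ χ.q (F z) := χ.q_an _ hχ.mem_U
    have h2 : AnalyticAt ℂ (fun w => χ.q (F w)) z := AnalyticAt.comp (g := χ.q) (f := F) h1 hF.1
    exact analyticAt_pi_iff.2 fun j => (analyticAt_pi_iff.1 h2) (Fin.natAdd n j)
  have hfr : ∃ᶠ w in 𝓝[≠] z, ll (χ.q (F w)) = 0 := by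
    refine (h.and_eventually ((hU.and hF.2).filter_mono nhdsWithin_le_nhds)).mono ?_
    rintro w ⟨h1, h2, h3⟩
    exact (hχ.mem_iff _ h3 h2).1 h1
  have h1 := hq.frequently_zero_iff_eventually_zero.1 hfr
  filter_upwards [h1, hU, hF.2] with w h2 h3 h4
  exact (hχ.mem_iff _ h4 h3).2 h2

variable {P : Ideal (MvPolynomial (Fin (N + 1)) ℂ)}

theorem extends_of_cone (hP : Homog P) {D : Set (EN N)} {Ξ : Set (PN N)}
    (hΞ : ∀ (y : EN N) (h : y.ofLp ≠ 0), y ∈ coneE P → (Projectivization.mk ℂ y.ofLp h ∈ Ξ ↔ y ∈ D))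
    (hid : ∀ (F : ℂ → EN N) (z : ℂ), CurveAt (coneE P) F z → (∃ᶠ w in 𝓝[≠] z, F w ∈ D) → ∀ᶠ w in 𝓝 z, F w ∈ D)
    (hpic : ∀ F : ℂ → EN N, Curve (coneE P) (ball 0 1 \ {0}) F → (∃ z ∈ ball (0 : ℂ) 1 \ {0}, F z ∉ D) →
      ∃ Q : ℂ → EN N, AnalyticAt ℂ Q 0 ∧ Q 0 ≠ 0 ∧ ∀ᶠ z in 𝓝[≠] (0 : ℂ), ∃ k : ℂ, k ≠ 0 ∧ Q z = k • F z)
    (f : ℂ → PN N) (hf : HolomorphicInto f puncturedDisc) (hfX : ∀ z ∈ puncturedDisc, f z ∈ projVar P) (hfD : ∃ z ∈ puncturedDisc, f z ∉ Ξ) :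
    ∃ g : ℂ → PN N, HolomorphicInto g (ball 0 1) ∧ ∀ z ∈ puncturedDisc, g z = f z := by
  classical
  obtain ⟨F, hFd, hFf⟩ := lift_punct hf (r := 1 / 2) (by norm_num) (by norm_num)
  have hhalf : ∀ z ∈ ball (0 : ℂ) 1 \ {0}, z / 2 ∈ ball (0 : ℂ) (1 / 2) \ {0} := by
    rintro z ⟨hz1, hz2⟩
    rw [mem_ball_zero_iff] at hz1
    refine ⟨?_, ?_⟩
    · rw [mem_ball_zero_iff, norm_div]
      simp only [Complex.norm_ofNat]
      linarith
    · simpa using hz2
  have hsubp : ball (0 : ℂ) (1 / 2) \ {0} ⊆ puncturedDisc := by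
    rintro z ⟨hz1, hz2⟩
    exact ⟨ball_subset_ball (by norm_num) hz1, hz2⟩
  have hopen : IsOpen (ball (0 : ℂ) (1 / 2) \ {0}) := isOpen_ball.sdiff isClosed_singleton
  have hopen1 : IsOpen (ball (0 : ℂ) 1 \ {0}) := isOpen_ball.sdiff isClosed_singleton
  obtain ⟨F₁, hF₁⟩ : ∃ F₁ : ℂ → EN N, F₁ = fun z => F (z / 2) := ⟨_, rfl⟩
  have hF₁2 : ∀ w : ℂ, F₁ (2 * w) = F w := by
    intro w
    rw [hF₁]
    simp only
    rw [mul_div_cancel_left₀ w (two_ne_zero)]
  have hF1c : Curve (coneE P) (ball 0 1 \ {0}) F₁ := by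
    rw [hF₁]
    refine ⟨?_, ?_⟩
    · intro z hz
      have h1 : DifferentiableAt ℂ F (z / 2) := hFd.differentiableAt (hopen.mem_nhds (hhalf z hz))
      exact (h1.comp z (differentiableAt_id.div_const 2)).differentiableWithinAt
    · intro z hz
      obtain ⟨h1, h2⟩ := hFf _ (hhalf z hz)
      have h3 := hfX _ (hsubp (hhalf z hz))
      rw [h2] at h3
      exact (mk_mem_projVar hP h1).1 h3
  -- the curve is not a map into `D`
  have hne : ∃ z ∈ ball (0 : ℂ) 1 \ {0}, F₁ z ∉ D := by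
    by_contra hcon
    push Not at hcon
    obtain ⟨z₁, hz₁, hz₁D⟩ := hfD
    apply hz₁D
    obtain ⟨A, hA⟩ : ∃ A : Set ℂ, A = {z | ∀ᶠ w in 𝓝 z, f w ∈ Ξ} := ⟨_, rfl⟩
    have hAo : IsOpen A := by
      rw [hA, isOpen_iff_mem_nhds]
      intro z hz
      exact eventually_eventually_nhds.2 hz
    have hlocal : ∀ y ∈ puncturedDisc, ∃ φ : ℂ → EN N, CurveAt (coneE P) φ y ∧ ∀ᶠ w in 𝓝 y, (f w ∈ Ξ ↔ φ w ∈ D) := by
      intro y hy
      obtain ⟨φ, hφ, he⟩ := hf y hy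
      have hmem : ∀ᶠ w in 𝓝 y, (WithLp.toLp 2 (φ w) : EN N) ∈ coneE P := by
        filter_upwards [he, isOpen_puncturedDisc.mem_nhds hy] with w hw hw2
        obtain ⟨h1, h2⟩ := hw
        have h3 := hfX w hw2
        rw [h2] at h3
        exact (mk_mem_projVar hP h1).1 h3
      refine ⟨fun w => WithLp.toLp 2 (φ w), ⟨Pool.Agent.H36.BP.analyticAt_toLp hφ, hmem⟩, ?_⟩
      filter_upwards [he, hmem] with w hw hw2
      obtain ⟨h1, h2⟩ := hw
      rw [h2]
      exact hΞ (WithLp.toLp 2 (φ w)) h1 hw2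
    have hcl : closure A ∩ puncturedDisc ⊆ A := by
      rintro y ⟨hy1, hy2⟩
      by_cases hyA : y ∈ A
      · exact hyA
      obtain ⟨φ, hφ, he⟩ := hlocal y hy2
      have hfreq : ∃ᶠ w in 𝓝[≠] y, φ w ∈ D := by
        have h1 : ∃ᶠ w in 𝓝 y, w ∈ A := mem_closure_iff_frequently.mp hy1
        have h3 : ∃ᶠ w in 𝓝[≠] y, w ∈ A := by
          rw [frequently_nhdsWithin_iff]
          refine h1.mono fun w hw => ⟨hw, ?_⟩
          rintro rfl
          exact hyA hw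
        refine (h3.and_eventually (he.filter_mono nhdsWithin_le_nhds)).mono ?_
        rintro w ⟨hw1, hw2⟩
        rw [hA] at hw1
        have h7 : ∀ᶠ v in 𝓝 w, f v ∈ Ξ := hw1
        exact hw2.1 h7.self_of_nhds
      have h8 := hid φ y hφ hfreq
      rw [hA]
      show ∀ᶠ w in 𝓝 y, f w ∈ Ξ
      filter_upwards [h8, he] with w hw hw2
      exact hw2.2 hw
    have h4 : (1 / 4 : ℂ) ∈ ball (0 : ℂ) (1 / 2) \ {0} := by
      refine ⟨?_, by simp⟩
      rw [mem_ball_zero_iff]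
      norm_num
    have h4A : (1 / 4 : ℂ) ∈ A := by
      rw [hA]
      show ∀ᶠ w in 𝓝 (1 / 4 : ℂ), f w ∈ Ξ
      filter_upwards [hopen.mem_nhds h4] with w hw
      obtain ⟨h5, h6⟩ := hFf w hw
      have h8 : F w ∈ coneE P := by
        have h9 := hfX w (hsubp hw)
        rw [h6] at h9
        exact (mk_mem_projVar hP h5).1 h9
      rw [h6, hΞ (F w) h5 h8, ← hF₁2]
      apply hcon
      refine ⟨?_, ?_⟩
      · have := hw.1
        rw [mem_ball_zero_iff] at this ⊢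
        rw [norm_mul, Complex.norm_ofNat]
        linarith
      · have h7 : w ≠ 0 := hw.2
        show 2 * w ≠ 0
        exact mul_ne_zero two_ne_zero h7
    have hsub : puncturedDisc ⊆ A := preconnected_puncturedDisc.subset_of_closure_inter_subset hAo ⟨_, hsubp h4, h4A⟩ hcl
    have h9 := hsub hz₁
    rw [hA] at h9
    have h10 : ∀ᶠ w in 𝓝 z₁, f w ∈ Ξ := h9
    exact h10.self_of_nhds
  obtain ⟨G, hGa, hG0, hG⟩ := hpic F₁ hF1c hne
  -- gluing
  obtain ⟨q₀, hq₀⟩ : ∃ q₀ : PN N, q₀ = Projectivization.mk ℂ (G 0).ofLp (ofLp_ne_zero hG0) := ⟨_, rfl⟩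
  refine ⟨fun z => if z = 0 then q₀ else f z, ?_, ?_⟩
  · intro z hz
    by_cases hz0 : z = 0
    · subst hz0
      refine ⟨fun w => (G (2 * w)).ofLp, ?_, ?_⟩
      · apply analyticAt_ofLp
        have h1 : AnalyticAt ℂ G ((fun w : ℂ => 2 * w) 0) := by simpa using hGa
        exact h1.comp (analyticAt_const.mul analyticAt_id)
      · have h2 : Tendsto (fun w : ℂ => 2 * w) (𝓝 0) (𝓝 0) := by
          have : Tendsto (fun w : ℂ => 2 * w) (𝓝 0) (𝓝 (2 * 0)) := (continuous_const.mul continuous_id).tendsto _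
          rwa [mul_zero] at this
        have h3 : ∀ᶠ w in 𝓝 (0 : ℂ), w ≠ 0 → ∃ k : ℂ, k ≠ 0 ∧ G (2 * w) = k • F₁ (2 * w) := by
          filter_upwards [h2.eventually (eventually_nhdsWithin_iff.mp hG)] with w hw hw0
          exact hw (by simpa using hw0)
        have h4 : ∀ᶠ w in 𝓝 (0 : ℂ), G (2 * w) ≠ 0 := by
          have h5 : ∀ᶠ y in 𝓝 (0 : ℂ), G y ≠ 0 := hGa.continuousAt.eventually_ne hG0
          exact h2.eventually h5
        filter_upwards [h3, h4, ball_mem_nhds (0 : ℂ) (show (0 : ℝ) < 1 / 2 by norm_num)] with w hw1 hw2 hw3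
        refine ⟨ofLp_ne_zero hw2, ?_⟩
        by_cases hw0 : w = 0
        · subst hw0
          simp only [if_true, hq₀, mul_zero]
        · rw [if_neg hw0]
          obtain ⟨k, hk0, hk⟩ := hw1 hw0
          rw [hF₁2] at hk
          obtain ⟨h5, h6⟩ := hFf w ⟨hw3, hw0⟩
          rw [h6, Projectivization.mk_eq_mk_iff']
          refine ⟨k⁻¹, ?_⟩
          rw [hk]
          show k⁻¹ • (k • (F w).ofLp) = _
          rw [smul_smul, inv_mul_cancel₀ hk0, one_smul]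
    · obtain ⟨φ, hφ, he⟩ := hf z ⟨hz, hz0⟩
      refine ⟨φ, hφ, ?_⟩
      filter_upwards [he, isOpen_ne.mem_nhds hz0] with w hw1 hw2
      rw [if_neg hw2]
      exact hw1
  · intro z hz
    have hz0 : z ≠ 0 := hz.2
    simp only
    rw [if_neg hz0]

end Pool.Agent.H19T
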