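import Pool.Agent.AD.T.Torus

/-!
# H19T Defs: forms on planes of tangent vectors, submanifolds which are etale over a torus

`X` is the cone (without `0`) over a smooth projective variety of dimension `d` (`AD.Charts d X`).  `TForm k d X m` are the sections of `O(m)` on the Pluecker bundle of the `k`-planes in the
tangent spaces, twisted by `O(-1)`, as functions of a point and `k` tangent vectors (`k = d`: the sections of `K_X^m (-1)`).  `ECh D X Λ u s χ x`: `χ` is a chart of the `(n+p)`-dimensional `X`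
centred at the point `x` of the submanifold `D` of codimension `p`, in which the first `n` coordinates are `u / s` and `D` is the zero set of the last `p` (so `D` is etale over the torus
`ℂ^n/Λ`).
-/

set_option autoImplicit false

open Topology Filter Metric

namespace Pool.Agent.H19T

open Pool.Agent.H36.BP (EN fs wd)
open Pool.Agent.H14.PP (IsCone CurveAt Tan)
open Pool.Agent.AD (Vd Chart Charts TorusMapV DiscreteSub)

variable {N : ℕ}

/-- A function of a point of `X` (of dimension `d`) and `k` tangent vectors `v`, homogeneous of degree `m` in `v 0 ∧ ... ∧ v (k-1)`, with values in `O(-1)`. -/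
structure TForm (k d : ℕ) (X : Set (EN N)) (m : ℕ) where
  /-- the form -/
  toFun : EN N → (Fin k → EN N) → ℂ
  add_smul : ∀ x ∈ X, ∀ v : Fin k → EN N, (∀ i, Tan X x (v i)) → ∀ a : Fin k → ℂ, toFun x (fun i => v i + a i • x) = toFun x v
  det : ∀ x ∈ X, ∀ v : Fin k → EN N, (∀ i, Tan X x (v i)) → ∀ A : Matrix (Fin k) (Fin k) ℂ,
    toFun x (fun i => ∑ j, A i j • v j) = A.det ^ m * toFun x v
  scale : ∀ x ∈ X, ∀ v : Fin k → EN N, (∀ i, Tan X x (v i)) → ∀ c : ℂ, c ≠ 0 → c * toFun (c • x) (fun i => c • v i) = toFun x v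
  analytic : ∀ (φ : Vd d → EN N) (p : Vd d) (w : Fin k → Vd d), AnalyticAt ℂ φ p → (∀ᶠ y in 𝓝 p, φ y ∈ X) →
    AnalyticAt ℂ (fun y : Vd d × (Fin k → Vd d) => toFun (φ y.1) fun i => fderiv ℂ φ y.1 (y.2 i)) (p, w)

/-- the forms have no common zero on `k` independent tangent vectors -/
def TNoZero {k d : ℕ} {X : Set (EN N)} {m K : ℕ} (Ω : Fin K → TForm k d X m) : Prop :=
  ∀ x ∈ X, ∀ v : Fin k → EN N, (∀ i, Tan X x (v i)) → LinearIndependent ℂ (Fin.cons x v : Fin (k + 1) → EN N) → ∃ j, (Ω j).toFun x v ≠ 0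

/-- the first `n` coordinates -/
def bb {n p : ℕ} (q : Vd (n + p)) : Vd n := fun j => q (Fin.castAdd p j)

/-- the last `p` coordinates -/
def ll {n p : ℕ} (q : Vd (n + p)) : Vd p := fun j => q (Fin.natAdd n j)

/-- `χ` is a chart centred at `x` in which `u` is `s` times the first `n` coordinates and `D` is the zero set of the last `p` -/
structure ECh {n p : ℕ} (D X : Set (EN N)) (Λ : AddSubgroup (Vd n)) (u : EN N → Vd n) (s : ℝ) (χ : Chart (n + p) X) (x : EN N) : Prop where
  mem_U : x ∈ χ.U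
  q_zero : χ.q x = 0
  tor : ∀ y ∈ X, y ∈ χ.U → u y - u x - (s : ℂ) • bb (χ.q y) ∈ Λ
  mem_iff : ∀ y ∈ X, y ∈ χ.U → (y ∈ D ↔ ll (χ.q y) = 0)

/-- `D` is a closed submanifold of codimension `p` in `X`, etale over the torus -/
structure EtaleIn {n : ℕ} (p : ℕ) (D X : Set (EN N)) (Λ : AddSubgroup (Vd n)) (u : EN N → Vd n) : Prop where
  sub : D ⊆ X
  closed : IsClosed (insert 0 D)
  smul_mem : ∀ x ∈ D, ∀ c : ℂ, c ≠ 0 → c • x ∈ D
  chart : ∀ x ∈ D, ∃ s : ℝ, 0 < s ∧ ∃ χ : Chart (n + p) X, ECh D X Λ u s χ x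

end Pool.Agent.H19T
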