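import Pool.Agent.AD.T.NCDefs
import Pool.Agent.H22.TB.Defs
import Pool.Agent.H23.GU.Defs

/-!
# H19T FDefs: projective manifolds of dimension `n + 1` over complex tori of dimension `n`, the definitions of the final theorem

`P` is a homogeneous prime ideal, `X` the projective variety given by it, `cone P` its affine cone without the vertex and `conTan P x` the tangent space of
the cone at `x` (so `T_x X = conTan P x / ℂ x`).
-/

open MvPolynomial Topology Filter
open Pool.Agent.H17 (PN VanishesAt ZariskiClosedIn HolomorphicInto puncturedDisc)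
open Pool.Agent.H62.FC (Homog)
open Pool.Agent.H17LG.Variety (FunField IsLogGeneralType)
open Pool.Agent.H13.SM (conTan cone)
open Pool.Agent.H14.KB (KobayashiHyperbolicModulo)
open Pool.Agent.H13.OT (OrderTwo)
open Pool.Agent.H17EF (projVar)
open Pool.Agent.H22.TB (GGLC closureIn)
open Pool.Agent.H23.GU (IsEtaleCovering)

noncomputable section

namespace Pool.Agent.H19T

variable {N : ℕ}

/-- the `n × n` minors of the vectors `v 0, …, v (n - 1)` -/
def mi {n : ℕ} {ι R : Type*} [CommRing R] (v : Fin n → ι → R) (p : Fin n → ι) : R := (Matrix.of fun i j => v i (p j)).det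

/-- A section of `K_X^m (-1)`, where `X` is the projective manifold of dimension `n` given by `P`: a function of a point `x` of the cone and `n` tangent
vectors `v j` of the cone, which is given, up to powers of `x i`, by a polynomial in `x` and the `n × n` minors of the `v j`, homogeneous of degree `m` in the
minors, and which descends to `X`. -/
structure KSec (P : Ideal (MvPolynomial (Fin (N + 1)) ℂ)) (n m : ℕ) where
  /-- the section -/
  toFun : (Fin (N + 1) → ℂ) → (Fin n → Fin (N + 1) → ℂ) → ℂ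
  regular : ∀ i, ∃ (e : ℕ) (A : MvPolynomial (Fin n → Fin (N + 1)) (MvPolynomial (Fin (N + 1)) ℂ)), A.IsHomogeneous m ∧
    ∀ x ∈ cone P, ∀ v : Fin n → Fin (N + 1) → ℂ, (∀ j, v j ∈ conTan P x) → x i ^ e * toFun x v = eval (mi v) (map (eval x) A)
  add_smul : ∀ x ∈ cone P, ∀ v : Fin n → Fin (N + 1) → ℂ, (∀ j, v j ∈ conTan P x) → ∀ a : Fin n → ℂ,
    toFun x (fun j => v j + a j • x) = toFun x v
  scale : ∀ x ∈ cone P, ∀ v : Fin n → Fin (N + 1) → ℂ, (∀ j, v j ∈ conTan P x) → ∀ c : ℂ, c ≠ 0 →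
    c * toFun (c • x) (fun j => c • v j) = toFun x v

/-- The sections `Ω k` of `K_X^m (-1)` have no common zero: at every point some `Ω k` is not zero on independent tangent vectors. -/
def NoCommonZero {P : Ideal (MvPolynomial (Fin (N + 1)) ℂ)} {n m K : ℕ} (Ω : Fin K → KSec P n m) : Prop :=
  ∀ x ∈ cone P, ∀ v : Fin n → Fin (N + 1) → ℂ, (∀ j, v j ∈ conTan P x) → LinearIndependent ℂ (Fin.cons x v : Fin (n + 1) → Fin (N + 1) → ℂ) →
    ∃ k, (Ω k).toFun x v ≠ 0

/-- The canonical bundle of the projective manifold of dimension `n` given by `P` is ample: for some `m ≥ 1` the line bundle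
`K_X^m (-1)` is generated by global sections. -/
def CanonicalAmple (P : Ideal (MvPolynomial (Fin (N + 1)) ℂ)) (n : ℕ) : Prop :=
  ∃ (m K : ℕ) (Ω : Fin K → KSec P n m), 1 ≤ m ∧ NoCommonZero Ω

/-- The holomorphic maps `Φ : ℂ^n → X` with `u (Φ w) = w` modulo `Λ`. -/
def sheets {n : ℕ} (X : Set (PN N)) (Λ : AddSubgroup (Fin n → ℂ)) (u : PN N → (Fin n → ℂ) ⧸ Λ) : Set ((Fin n → ℂ) → PN N) :=
  {Φ | (∀ w, ∃ φ : (Fin n → ℂ) → Fin (N + 1) → ℂ, AnalyticAt ℂ φ w ∧
    ∀ᶠ y in 𝓝 w, ∃ h : φ y ≠ 0, Φ y = Projectivization.mk ℂ (φ y) h) ∧ (∀ w, Φ w ∈ X) ∧ ∀ w, u (Φ w) = (w : (Fin n → ℂ) ⧸ Λ)}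

/-- The union of the images of the maps in `sheets X Λ u`. -/
def sheetSet {n : ℕ} (X : Set (PN N)) (Λ : AddSubgroup (Fin n → ℂ)) (u : PN N → (Fin n → ℂ) ⧸ Λ) : Set (PN N) :=
  ⋃ Φ ∈ sheets X Λ u, Set.range Φ

/-- `X` is the projective manifold given by `P`.  The holomorphic maps `Φ : ℂ^n → X` over the torus `ℂ^n / Λ` are finitely many, they factor through complex tori, their
images are disjoint or equal, and the union `D` of their images lies in a hypersurface which does not contain `X`. -/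
structure TorusSheets {n : ℕ} (P : Ideal (MvPolynomial (Fin (N + 1)) ℂ)) (Λ : AddSubgroup (Fin n → ℂ)) (u : PN N → (Fin n → ℂ) ⧸ Λ) : Prop where
  finite : (sheets (projVar P) Λ u).Finite
  periodic : ∃ M : ℕ, 1 ≤ M ∧ ∀ Φ ∈ sheets (projVar P) Λ u, ∀ l ∈ Λ, ∀ w, Φ (w + M • l) = Φ w
  disjoint : ∀ Φ ∈ sheets (projVar P) Λ u, ∀ Φ' ∈ sheets (projVar P) Λ u, ∀ w w', Φ w = Φ' w' →
    w - w' ∈ Λ ∧ ∀ y, Φ (w + y) = Φ' (w' + y)
  proper : ∃ (Q : MvPolynomial (Fin (N + 1)) ℂ) (e : ℕ), Q.IsHomogeneous e ∧ (∀ x ∈ sheetSet (projVar P) Λ u, VanishesAt Q x) ∧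
    ∃ x ∈ projVar P, ¬ VanishesAt Q x

/-- The line `ℂ v` contains two vectors of `Λ` which are linearly independent over the real numbers: its image in the torus is an elliptic curve. -/
def EllipticDirection {n : ℕ} (Λ : AddSubgroup (Fin n → ℂ)) (v : Fin n → ℂ) : Prop :=
  ∃ ω₁ ω₂ : ℂ, LinearIndependent ℝ ![ω₁, ω₂] ∧ ω₁ • v ∈ Λ ∧ ω₂ • v ∈ Λ

/-- For some complex subspace `U` different from the whole space the line `ℂ v` lies in the real span of `Λ ∩ U` (for lattices in `ℂ²`: the image of the line `ℂ v`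
in the torus is an elliptic curve). -/
def SpecialDir {n : ℕ} (Λ : AddSubgroup (Fin n → ℂ)) (v : Fin n → ℂ) : Prop :=
  ∃ U : Submodule ℂ (Fin n → ℂ), U ≠ ⊤ ∧ v ∈ Submodule.span ℝ {l : Fin n → ℂ | l ∈ Λ ∧ l ∈ U} ∧
    Complex.I • v ∈ Submodule.span ℝ {l : Fin n → ℂ | l ∈ Λ ∧ l ∈ U}

/-- `X` is the projective manifold of dimension `n + 1` given by `P`.  Every non-constant entire curve `f` in `X` is `Φ ∘ φ` for a holomorphic map `Φ : ℂ^n → X` over
the torus `ℂ^n / Λ`, with `φ : ℂ → ℂ^n` entire, and `φ` is affine if `T_f(r) = O(r²)`; the union `D` of the images of the maps `Φ` is the set of the points which lie on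
non-constant entire curves; every holomorphic map from the punctured disc to `X` which is not a map into `D` extends to the disc; `|Q(h(0))|^M |h'(0)| ≤ C` for all
holomorphic `h : 𝔻 → X`, for every form `Q` which is zero on `D`, and for `Q = 1` if there are no maps `Φ`; `X` has the properties of `GGLC` with the exceptional set the
Zariski closure of `D`; every closed subvariety of dimension one of `X` is of general type or `Φ(ℂ a + b)`, where the image of `ℂ a` in the torus is an elliptic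
curve; and every projective variety `Y` of general type, of the dimension of `X`, which has a finite étale covering `Y'` with a dominant rational map from `Y'` to `X`, has the properties of `GGLC` with some
exceptional set. -/
structure TorusCurves {n : ℕ} (P : Ideal (MvPolynomial (Fin (N + 1)) ℂ)) [P.IsPrime] (Λ : AddSubgroup (Fin n → ℂ))
    (u : PN N → (Fin n → ℂ) ⧸ Λ) : Prop where
  curves : ∀ f : ℂ → PN N, HolomorphicInto f Set.univ → (∀ z, f z ∈ projVar P) → (∃ z w, f z ≠ f w) →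
    ∃ Φ ∈ sheets (projVar P) Λ u, ∃ φ : ℂ → (Fin n → ℂ), Differentiable ℂ φ ∧ (OrderTwo f → ∃ a b : Fin n → ℂ, ∀ z, φ z = z • a + b) ∧
      ∀ z, f z = Φ (φ z)
  special : sheetSet (projVar P) Λ u =
    {x | ∃ f : ℂ → PN N, HolomorphicInto f Set.univ ∧ (∀ z, f z ∈ projVar P) ∧ (∃ z w, f z ≠ f w) ∧ ∃ z, f z = x}
  picard : ∀ f : ℂ → PN N, HolomorphicInto f puncturedDisc → (∀ z ∈ puncturedDisc, f z ∈ projVar P) →
    (∃ z ∈ puncturedDisc, f z ∉ sheetSet (projVar P) Λ u) →
    ∃ g : ℂ → PN N, HolomorphicInto g (Metric.ball 0 1) ∧ ∀ z ∈ puncturedDisc, g z = f z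
  kobayashi : ∀ (Q : MvPolynomial (Fin (N + 1)) ℂ) (e : ℕ), Q.IsHomogeneous e → (∀ x ∈ sheetSet (projVar P) Λ u, VanishesAt Q x) →
    KobayashiHyperbolicModulo (projVar P) Q e
  hyperbolic : sheets (projVar P) Λ u = ∅ → KobayashiHyperbolicModulo (projVar P) 1 0
  ggl : GGLC P (closureIn (projVar P) (sheetSet (projVar P) Λ u))
  algebraicCurves : ∀ (Q : Ideal (MvPolynomial (Fin (N + 1)) ℂ)) [Q.IsPrime], Homog Q → P ≤ Q → (∃ z : Fin 1 → FunField Q, IsTranscendenceBasis ℂ z) →
    IsLogGeneralType (K := FunField Q) (k := 1) (fun _ => False) ∨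
    ∃ Φ ∈ sheets (projVar P) Λ u, ∃ a b : Fin n → ℂ, a ≠ 0 ∧ EllipticDirection Λ a ∧ projVar Q = Set.range fun z : ℂ => Φ (z • a + b)
  virtual : ∀ (M L : ℕ) (P' : Ideal (MvPolynomial (Fin (M + 1)) ℂ)) [P'.IsPrime] (Q : Ideal (MvPolynomial (Fin (L + 1)) ℂ)) [Q.IsPrime] (p : PN M → PN L),
    Homog P' → Homog Q → (∃ z : Fin (n + 1) → FunField P', IsTranscendenceBasis ℂ z) → (∃ z : Fin (n + 1) → FunField Q, IsTranscendenceBasis ℂ z) →
    Nonempty (FunField P →ₐ[ℂ] FunField P') → IsEtaleCovering Q P' p → IsLogGeneralType (K := FunField Q) (k := n + 1) (fun _ => False) →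
    ∃ Ξ' : Set (PN L), GGLC Q Ξ'

end Pool.Agent.H19T
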