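import Pool.Agent.H19T.PicA
import Pool.Agent.AD.F.Rem

/-!
# H19T PicB: curves on the punctured disc extend
-/

set_option autoImplicit false

open Topology Filter Metric

namespace Pool.Agent.H19T

open Pool.Agent.H36.BP (EN fs wd Sub Curve fs_nonneg)
open Pool.Agent.H14.PP (IsCone CurveAt Tan)
open Pool.Agent.H22.W (PseudoLength)
open Pool.Agent.AD (exists_bound_disc)
open Pool.Agent.AD.F (vel removable_of_small)

variable {N : ℕ} {X D : Set (EN N)} {ν : PseudoLength X} {κ C η : ℝ} {σ : EN N → ℝ}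

theorem log_inv_norm_exp (w : ℂ) : Real.log (1 / ‖Complex.exp w‖) = -w.re := by
  rw [Complex.norm_exp, one_div, ← Real.exp_neg, Real.log_exp]

theorem re_gt {w₀ w : ℂ} {r : ℝ} (hw : w ∈ ball w₀ r) : w.re < w₀.re + r := by
  rw [mem_ball_iff_norm] at hw
  have h1 := Complex.abs_re_le_norm (w - w₀)
  rw [Complex.sub_re] at h1
  have h2 := (abs_le.1 h1).2
  linarith

/-- the speed is small near the puncture -/
theorem Sig.pic_vel (h : Sig X D ν κ C η σ) {K : ℝ} (hK0 : 0 < K) (hK : ∀ F : ℂ → EN N, Curve X (ball 0 1) F → σ (F 0) * fs (F 0) (deriv F 0) ≤ K)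
    {F : ℂ → EN N} (hF : Curve X (ball 0 1 \ {0}) F) {z₁ : ℂ} (hz₁ : z₁ ∈ ball (0 : ℂ) 1 \ {0}) (hpos : 0 < σ (F z₁)) {δ : ℝ} (hδ : 0 < δ) :
    ∃ y₀ : ℝ, 0 < y₀ ∧ ∀ z : ℂ, z ≠ 0 → y₀ ≤ Real.log (1 / ‖z‖) → ‖z‖ * vel ν F z ≤ δ := by
  obtain ⟨k, hk⟩ := h.pic_growth hK0 hK hF hz₁ hpos
  obtain ⟨c, hc, hspeed⟩ := h.speed
  have hC := h.C_pos
  have hη := h.η_pos
  have hn1 : 0 < ‖z₁‖ := norm_pos_iff.2 hz₁.2
  obtain ⟨c₃, hc₃⟩ : ∃ c₃ : ℝ, c₃ = -Real.log (σ (F z₁) / 2) + C * (K / η) ^ 2 := ⟨_, rfl⟩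
  have hc₃0 : 0 ≤ c₃ := by
    have h1 : Real.log (σ (F z₁) / 2) ≤ 0 := Real.log_nonpos (by positivity) (by
      have := h.le_one _ (hF.2 z₁ hz₁)
      linarith)
    have h2 : 0 ≤ C * (K / η) ^ 2 := by positivity
    rw [hc₃]
    linarith
  refine ⟨max (max 8 (Real.log (1 / ‖z₁‖) + 1)) (4 * (k + c₃) / (c * δ ^ 2)), lt_of_lt_of_le (by norm_num) ((le_max_left _ _).trans (le_max_left _ _)), fun z hz hy => ?_⟩
  have hn : 0 < ‖z‖ := norm_pos_iff.2 hz
  obtain ⟨y, hyd⟩ : ∃ y : ℝ, y = Real.log (1 / ‖z‖) := ⟨_, rfl⟩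
  rw [← hyd] at hy
  have hy8 : 8 ≤ y := ((le_max_left _ _).trans (le_max_left _ _)).trans hy
  have hy1 : Real.log (1 / ‖z₁‖) + 1 ≤ y := ((le_max_right _ _).trans (le_max_left _ _)).trans hy
  have hy2 : 4 * (k + c₃) / (c * δ ^ 2) ≤ y := (le_max_right _ _).trans hy
  have hy0 : 0 < y := by linarith
  have hlz : Real.log ‖z‖ = -y := by rw [hyd, one_div, Real.log_inv, neg_neg]
  have hlt : ‖z‖ < ‖z₁‖ := by
    rw [← Real.log_lt_log_iff hn hn1, hlz]
    rw [one_div, Real.log_inv] at hy1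
    linarith
  have hzb : z ∈ ball (0 : ℂ) 1 \ {0} := by
    refine ⟨?_, hz⟩
    have := hz₁.1
    rw [mem_ball_zero_iff] at this ⊢
    linarith
  obtain ⟨z', hz', hσ'⟩ := hk ‖z‖ hn hlt
  have hz'0 : z' ≠ 0 := norm_pos_iff.1 (by rw [hz']; exact hn)
  have hre : (Complex.log z').re = -y := by rw [Complex.log_re, hz', hlz]
  have hσpos : 0 < σ (F z') := lt_of_lt_of_le (by positivity) hσ'
  obtain ⟨w, hw⟩ : ∃ w : ℂ, w = Complex.log z' + (Complex.arg (z / z') : ℂ) * Complex.I := ⟨_, rfl⟩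
  have hexpw : Complex.exp w = z := by
    rw [hw, Complex.exp_add, Complex.exp_log hz'0]
    have h1 := Complex.norm_mul_exp_arg_mul_I (z / z')
    rw [norm_div, hz', div_self hn.ne', Complex.ofReal_one, one_mul] at h1
    rw [h1, mul_div_cancel₀ _ hz'0]
  have hwn : ‖w - Complex.log z'‖ ≤ 7 / 8 * (y / 2) := by
    rw [hw, add_sub_cancel_left, norm_mul, Complex.norm_I, mul_one, Complex.norm_real, Real.norm_eq_abs]
    have h1 := Complex.abs_arg_le_pi (z / z')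
    have h2 := Real.pi_lt_d2
    linarith
  have hwre : w.re < 0 := by
    rw [hw, Complex.add_re, hre]
    simp only [Complex.mul_re, Complex.ofReal_re, Complex.I_re, mul_zero, Complex.ofReal_im, Complex.I_im, zero_mul, sub_self, add_zero]
    linarith
  have hG : Curve X (ball (Complex.log z') (y / 2)) (fun w => F (Complex.exp w)) := exp_curve hF (by rw [hre]; linarith)
  have h1 := hspeed (fun w => F (Complex.exp w)) (Complex.log z') (y / 2) (K / η / (y / 2)) (by positivity) (by positivity) hG (fun v hv hηv => by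
    have hvre := re_gt hv
    rw [hre] at hvre
    have hv0 : v.re < 0 := by linarith
    rw [fs_exp hF hv0]
    have h2 := h.pic_far hK hF (exp_mem hv0) hηv
    rw [log_inv_norm_exp] at h2
    rw [le_div_iff₀ (by positivity), mul_comm]
    refine le_trans ?_ h2
    refine mul_le_mul_of_nonneg_right (by linarith) (mul_nonneg (norm_nonneg _) (fs_nonneg _ _))) (by
      show 0 < σ (F (Complex.exp (Complex.log z')))
      rw [Complex.exp_log hz'0]
      exact hσpos) w hwn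
  rw [vel_exp hF hwre, hexpw] at h1
  have h2 : (fun w => F (Complex.exp w)) (Complex.log z') = F z' := by
    show F (Complex.exp (Complex.log z')) = F z'
    rw [Complex.exp_log hz'0]
  have h1' : c * ((y / 2) ^ 2 * (‖z‖ * vel ν F z) ^ 2) ≤ -Real.log (σ (F z')) + C * (y / 2 * (K / η / (y / 2))) ^ 2 := by
    rw [← h2]
    exact h1
  have h3 : y / 2 * (K / η / (y / 2)) = K / η := by field_simp
  rw [h3] at h1'
  have h4 : -Real.log (σ (F z')) ≤ -Real.log (σ (F z₁) / 2) + k * y := by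
    have h5 := Real.log_le_log (by positivity) hσ'
    rw [Real.log_mul (by positivity) (by positivity), Real.log_pow, hlz] at h5
    linarith
  have hk0 : (0 : ℝ) ≤ k := Nat.cast_nonneg k
  have h5 : c * ((y / 2) ^ 2 * (‖z‖ * vel ν F z) ^ 2) ≤ (k + c₃) * y := by
    have h6 : c₃ ≤ c₃ * y := le_mul_of_one_le_right hc₃0 (by linarith)
    rw [hc₃] at h6 ⊢
    nlinarith
  have h6 : 4 * (k + c₃) ≤ y * (c * δ ^ 2) := by
    rwa [div_le_iff₀ (by positivity)] at hy2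
  have h7 : (‖z‖ * vel ν F z) ^ 2 ≤ δ ^ 2 := by
    have h8 : c * y ^ 2 * (‖z‖ * vel ν F z) ^ 2 ≤ c * y ^ 2 * δ ^ 2 := by
      calc c * y ^ 2 * (‖z‖ * vel ν F z) ^ 2 = 4 * (c * ((y / 2) ^ 2 * (‖z‖ * vel ν F z) ^ 2)) := by ring
        _ ≤ 4 * ((k + c₃) * y) := by linarith
        _ = (4 * (k + c₃)) * y := by ring
        _ ≤ (y * (c * δ ^ 2)) * y := mul_le_mul_of_nonneg_right h6 hy0.le
        _ = c * y ^ 2 * δ ^ 2 := by ring
    exact le_of_mul_le_mul_left h8 (by positivity)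
  exact abs_le_of_sq_le_sq' h7 hδ.le |>.2

theorem Sig.picard (hX : IsCone X) (h : Sig X D ν κ C η σ) (hNT : ν.NoNullBrody) (hlin : LinIn X D ν)
    {F : ℂ → EN N} (hF : Curve X (ball 0 1 \ {0}) F) (hFD : ∃ z ∈ ball (0 : ℂ) 1 \ {0}, F z ∉ D) :
    ∃ Q : ℂ → EN N, AnalyticAt ℂ Q 0 ∧ Q 0 ≠ 0 ∧ ∀ᶠ z in 𝓝[≠] (0 : ℂ), ∃ k : ℂ, k ≠ 0 ∧ Q z = k • F z := by
  obtain ⟨K, hK0, hK⟩ := h.kob hX hNT hlin
  obtain ⟨K₁, hK₁, hdisc⟩ := exists_bound_disc hX ν hNT
  obtain ⟨z₁, hz₁, hz₁D⟩ := hFD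
  have hpos : 0 < σ (F z₁) := lt_of_le_of_ne (h.nonneg _ (hF.2 z₁ hz₁)) fun e => hz₁D ((h.zero_iff _ (hF.2 z₁ hz₁)).1 e.symm)
  refine removable_of_small hF.1 (fun z hz e => hX.zero_notMem (e ▸ hF.2 z hz)) fun δ hδ => ?_
  obtain ⟨y₀, hy₀, hvel⟩ := h.pic_vel hK0 hK hF hz₁ hpos (δ := δ / K₁) (by positivity)
  obtain ⟨T, hT⟩ : ∃ T : ℝ, T = max (2 * y₀) (2 * K₁ / δ) := ⟨_, rfl⟩
  have hT0 : 0 < T := by
    rw [hT]
    exact lt_of_lt_of_le (by positivity) (le_max_left _ _)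
  refine ⟨Real.exp (-T), Real.exp_pos _, fun z hz hzs => ?_⟩
  have hz0 : z ≠ 0 := norm_pos_iff.1 hz
  obtain ⟨y, hyd⟩ : ∃ y : ℝ, y = Real.log (1 / ‖z‖) := ⟨_, rfl⟩
  have hyT : T ≤ y := by
    have h1 := Real.log_le_log hz hzs.le
    rw [Real.log_exp] at h1
    rw [hyd, one_div, Real.log_inv]
    linarith
  have hy0 : 0 < y := hT0.trans_le hyT
  have hy1 : 2 * y₀ ≤ y := by
    refine le_trans ?_ hyT
    rw [hT]
    exact le_max_left _ _
  have hy2 : 2 * K₁ / δ ≤ y := by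
    refine le_trans ?_ hyT
    rw [hT]
    exact le_max_right _ _
  have hre : (Complex.log z).re = -y := by rw [Complex.log_re, hyd, one_div, Real.log_inv, neg_neg]
  have hG : Curve X (ball (Complex.log z) (y / 2)) (fun w => F (Complex.exp w)) := exp_curve hF (by rw [hre]; linarith)
  have h1 := hdisc (fun w => F (Complex.exp w)) (Complex.log z) (y / 2) (δ / K₁) (by positivity) hG.1 hG.2 (fun v hv => by
    have hvre := re_gt hv
    rw [hre] at hvre
    have hv0 : v.re < 0 := by linarith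
    have h2 := vel_exp (ν := ν) hF hv0
    have h3 := hvel (Complex.exp v) (Complex.exp_ne_zero v) (by
      rw [log_inv_norm_exp]
      linarith)
    rw [← h2] at h3
    exact h3)
  have h2 := fs_exp hF (w := Complex.log z) (by rw [hre]; linarith)
  rw [Complex.exp_log hz0] at h2
  have h3 : max (δ / K₁) (1 / (y / 2)) = δ / K₁ := by
    refine max_eq_left ?_
    rw [div_le_div_iff₀ (by positivity) hK₁]
    rw [div_le_iff₀ hδ] at hy2
    linarith
  rw [h3, mul_div_cancel₀ _ hK₁.ne'] at h1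
  have h4 : fs (F (Complex.exp (Complex.log z))) (deriv (fun w => F (Complex.exp w)) (Complex.log z)) ≤ δ := h1
  rw [Complex.exp_log hz0] at h4
  rw [← h2]
  exact h4

end Pool.Agent.H19T
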