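import Pool.Agent.H19T.QB
import Pool.Agent.H19T.PicB

/-!
# H19T BlockF: hyperbolicity modulo a submanifold which is etale over a torus
-/

set_option autoImplicit false

open Topology Filter Metric

namespace Pool.Agent.H19T

open Pool.Agent.H36.BP (EN fs wd Sub Curve fs_nonneg BrodyMod)
open Pool.Agent.H14.PP (IsCone CurveAt Tan)
open Pool.Agent.H22.W (PseudoLength tan_entire)
open Pool.Agent.AD (Vd Chart Charts TorusMapV DiscreteSub symLength symLength_zero const_of_bounded)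
open Pool.Agent.AD.F (vel)

variable {N : ℕ} {X D : Set (EN N)} {n p m K d : ℕ} {Λ : AddSubgroup (Vd n)} {u : EN N → Vd n}

theorem nuL_zero (hX : IsCone X) (hch : Charts d X) (hΛ : DiscreteSub Λ) (hu : TorusMapV X Λ u) {x v : EN N} :
    (nuL hX hch hΛ hu).toFun x v = 0 ↔ hu.du x v = 0 := by
  unfold nuL
  rw [symLength_zero]
  exact ⟨fun h => funext h, fun h j => congrFun h j⟩

theorem nuL_sq (hX : IsCone X) (hch : Charts d X) (hΛ : DiscreteSub Λ) (hu : TorusMapV X Λ u) (x v : EN N) :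
    (nuL hX hch hΛ hu).toFun x v ^ 2 = ∑ j, ‖hu.du x v j‖ ^ 2 := by
  have h1 : (nuL hX hch hΛ hu).toFun x v = Real.sqrt (∑ j, ‖hu.du x v j‖ ^ ((2 : ℝ) / (1 : ℕ))) := rfl
  rw [h1, Real.sq_sqrt (Finset.sum_nonneg fun j _ => Real.rpow_nonneg (norm_nonneg _) _)]
  refine Finset.sum_congr rfl fun j _ => ?_
  rw [Nat.cast_one, div_one, ← Real.rpow_natCast]
  norm_num

theorem norm_du_le (hX : IsCone X) (hch : Charts d X) (hΛ : DiscreteSub Λ) (hu : TorusMapV X Λ u) {x v : EN N} (hv : Tan X x v) (j : Fin n) :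
    ‖hu.du x v j‖ ≤ (nuL hX hch hΛ hu).toFun x v := by
  have h1 := nuL_sq hX hch hΛ hu x v
  have h2 : ‖hu.du x v j‖ ^ 2 ≤ (nuL hX hch hΛ hu).toFun x v ^ 2 := by
    rw [h1]
    exact Finset.single_le_sum (f := fun j => ‖hu.du x v j‖ ^ 2) (fun _ _ => by positivity) (Finset.mem_univ j)
  exact abs_le_of_sq_le_sq' h2 ((nuL hX hch hΛ hu).nonneg x v hv) |>.2

theorem nuL_null (hX : IsCone X) (hch : Charts d X) (hΛ : DiscreteSub Λ) (hu : TorusMapV X Λ u)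
    (hfib : ∀ F : ℂ → EN N, Differentiable ℂ F → (∀ z, F z ∈ X) → (∀ z, fs (F z) (deriv F z) ≤ 1) → (∀ z w, u (F z) - u (F w) ∈ Λ) → ∀ z w, ∃ c : ℂ, F z = c • F w) :
    (nuL hX hch hΛ hu).NoNullBrody := by
  intro F hF hFX hfs h0
  exact hfib F hF hFX hfs fun z w => hu.fibre_of_du hΛ hF hFX (fun z => (nuL_zero hX hch hΛ hu).1 (h0 z)) z w

theorem nuL_lin (hX : IsCone X) (hch : Charts d X) (hΛ : DiscreteSub Λ) (hu : TorusMapV X Λ u)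
    (hlin : ∀ F : ℂ → EN N, Differentiable ℂ F → (∀ z, F z ∈ X) → ∀ v : Vd n, v ≠ 0 → (∀ z, hu.du (F z) (deriv F z) = v) → ∀ z, F z ∈ D) :
    LinIn X D (nuL hX hch hΛ hu) := by
  intro F hF hFX ⟨v, hv, hvel⟩
  have hconst : ∀ z, hu.du (F z) (deriv F z) = hu.du (F 0) (deriv F 0) := by
    intro z
    funext j
    have han : Differentiable ℂ fun z => hu.du (F z) (deriv F z) j := by
      intro w
      exact (Pool.Agent.AD.SymDiff.curve_an (hu.symDiff hΛ hX j) (F := F) (z₀ := w) ⟨hF.analyticAt w, Eventually.of_forall hFX⟩).differentiableAt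
    have hbd : Bornology.IsBounded (Set.range fun z => hu.du (F z) (deriv F z) j) := by
      rw [isBounded_iff_forall_norm_le]
      refine ⟨v, ?_⟩
      rintro _ ⟨w, rfl⟩
      have h1 := norm_du_le hX hch hΛ hu (tan_entire hF hFX w) j
      have h2 : (nuL hX hch hΛ hu).toFun (F w) (deriv F w) = v := hvel w
      rw [h2] at h1
      exact h1
    exact han.apply_eq_apply_of_bounded hbd z 0
  refine hlin F hF hFX (hu.du (F 0) (deriv F 0)) ?_ hconst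
  intro h0
  have h1 : (nuL hX hch hΛ hu).toFun (F 0) (deriv F 0) = 0 := (nuL_zero hX hch hΛ hu).2 h0
  have h2 : (nuL hX hch hΛ hu).toFun (F 0) (deriv F 0) = v := hvel 0
  linarith

/-- **Block F.** -/
theorem block_F (hX : IsCone X) (hch : Charts (n + p) X) (hm : 1 ≤ m) {Ω : Fin K → TForm (n + 1) (n + p) X m} (hΩ : TNoZero Ω) (hΛ : DiscreteSub Λ)
    (hu : TorusMapV X Λ u) (hD : EtaleIn p D X Λ u)
    (hfib : ∀ F : ℂ → EN N, Differentiable ℂ F → (∀ z, F z ∈ X) → (∀ z, fs (F z) (deriv F z) ≤ 1) → (∀ z w, u (F z) - u (F w) ∈ Λ) → ∀ z w, ∃ c : ℂ, F z = c • F w)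
    (hlin : ∀ F : ℂ → EN N, Differentiable ℂ F → (∀ z, F z ∈ X) → ∀ v : Vd n, v ≠ 0 → (∀ z, hu.du (F z) (deriv F z) = v) → ∀ z, F z ∈ D) :
    BrodyMod X D ∧
    (∀ F : ℂ → EN N, Curve X (ball 0 1 \ {0}) F → (∃ z ∈ ball (0 : ℂ) 1 \ {0}, F z ∉ D) →
      ∃ Q : ℂ → EN N, AnalyticAt ℂ Q 0 ∧ Q 0 ≠ 0 ∧ ∀ᶠ z in 𝓝[≠] (0 : ℂ), ∃ k : ℂ, k ≠ 0 ∧ Q z = k • F z) ∧
    ∀ (Q : EN N → ℂ) (e : ℕ), (∀ x, AnalyticAt ℂ Q x) → (∀ (c : ℂ) (x : EN N), Q (c • x) = c ^ e * Q x) → (∀ x ∈ D, Q x = 0) →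
      ∃ C : ℝ, ∀ F : ℂ → EN N, Curve X (ball 0 1) F → ‖Q (F 0)‖ / ‖F 0‖ ^ e * fs (F 0) (deriv F 0) ≤ C := by
  obtain ⟨κ, B, J, χ, w, W, hmem, hlow⟩ := exists_WData hX hch hm hΩ hΛ hu hD
  obtain ⟨C, η, lam, σ, hσ, hlam, hσw⟩ := exists_sig hX hch hD.sub hD.closed hD.smul_mem W
  have hnull := nuL_null hX hch hΛ hu hfib
  have hL := nuL_lin hX hch hΛ hu hlin
  refine ⟨hσ.brody hX hnull hL, fun F hF hFD => hσ.picard hX hnull hL hF hFD, fun Q e hQ hQs hQD => ?_⟩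
  obtain ⟨K₁, hK₁, hK⟩ := hσ.kob hX hnull hL
  have hlow' : ∀ x ∈ D, ∃ (χ : Chart (n + p) X) (c : ℝ), 0 < c ∧ x ∈ cell χ 1 ∧ (∀ y ∈ X, y ∈ χ.U → (y ∈ D ↔ ll (χ.q y) = 0)) ∧
      ∀ᶠ y in 𝓝[X] x, c * ‖ll (χ.q y)‖ ≤ σ y := by
    intro x hx
    obtain ⟨i, c, hc, hcell, hev⟩ := hlow x hx
    refine ⟨χ i, lam * c, by positivity, hcell, hmem i, ?_⟩
    filter_upwards [hev, cell_nhds hcell] with y h1 h2
    calc lam * c * ‖ll ((χ i).q y)‖ = lam * (c * ‖ll ((χ i).q y)‖) := by ring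
      _ ≤ lam * w i y := mul_le_mul_of_nonneg_left h1 hlam.le
      _ ≤ σ y := hσw i y h2
  obtain ⟨C', hC', hQB⟩ := QB_global hX hσ hlow' hQ hQs hQD
  refine ⟨C' * K₁, fun F hF => ?_⟩
  have hF0 : F 0 ∈ X := hF.2 0 (mem_ball_self one_pos)
  have hn : 0 < ‖F 0‖ := norm_pos_iff.2 (hX.ne_zero hF0)
  have h1 : ‖Q (F 0)‖ / ‖F 0‖ ^ e ≤ C' * σ (F 0) := by
    rw [div_le_iff₀ (by positivity)]
    exact hQB _ hF0
  calc ‖Q (F 0)‖ / ‖F 0‖ ^ e * fs (F 0) (deriv F 0) ≤ C' * σ (F 0) * fs (F 0) (deriv F 0) := mul_le_mul_of_nonneg_right h1 (fs_nonneg _ _)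
    _ = C' * (σ (F 0) * fs (F 0) (deriv F 0)) := by ring
    _ ≤ C' * K₁ := mul_le_mul_of_nonneg_left (hK F hF) hC'

end Pool.Agent.H19T
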