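import Pool.Agent.H19T.Glue

/-!
# H19T Cell: the cells of charts
-/

set_option autoImplicit false

open Topology Filter Metric

namespace Pool.Agent.H19T

open Pool.Agent.H36.BP (EN fs wd Sub Curve)
open Pool.Agent.H14.PP (IsCone CurveAt Tan)
open Pool.Agent.H22.W (PseudoLength)
open Pool.Agent.AD (Vd Chart Charts)
open Pool.Agent.AD.F (vel)

variable {N d : ℕ} {X D : Set (EN N)}

/-- the part `‖q‖ < r` of a chart -/
def cell (χ : Chart d X) (r : ℝ) : Set (EN N) := {x | x ∈ X ∧ x ∈ χ.U ∧ ‖χ.q x‖ < r}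

/-- the part `‖q‖ ≤ 1` of a chart -/
def cellC (χ : Chart d X) : Set (EN N) := {x | x ∈ X ∧ x ∈ χ.U ∧ ‖χ.q x‖ ≤ 1}

theorem cell_sub {χ : Chart d X} : cell χ 1 ⊆ cellC χ := fun _ h => ⟨h.1, h.2.1, h.2.2.le⟩

theorem cell_mono {χ : Chart d X} {r : ℝ} (hr : r ≤ 1) : cell χ r ⊆ cell χ 1 := fun _ h => ⟨h.1, h.2.1, h.2.2.trans_le hr⟩

theorem isOpen_q (χ : Chart d X) (r : ℝ) : IsOpen {x | x ∈ χ.U ∧ ‖χ.q x‖ < r} := by
  have hc : ContinuousOn (fun x => ‖χ.q x‖) χ.U := fun x hx => (χ.q_an x hx).continuousAt.norm.continuousWithinAt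
  have := hc.isOpen_inter_preimage χ.isOpen_U (isOpen_Iio (a := r))
  exact this

theorem cell_nhds {χ : Chart d X} {r : ℝ} {x : EN N} (h : x ∈ cell χ r) : ∀ᶠ y in 𝓝[X] x, y ∈ cell χ r := by
  filter_upwards [mem_nhdsWithin_of_mem_nhds ((isOpen_q χ r).mem_nhds ⟨h.2.1, h.2.2⟩), self_mem_nhdsWithin] with y hy hyX
  exact ⟨hyX, hy.1, hy.2⟩

theorem cellC_nhds (hX : IsCone X) {χ : Chart d X} {x : EN N} (hx : x ∈ X) (h : x ∉ cellC χ) : ∀ᶠ y in 𝓝[X] x, y ∉ cellC χ := by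
  have hcl : IsClosed (insert (0 : EN N) (cellC χ)) := Pool.Agent.AD.Chart.isClosed hX χ (r := 1) zero_le_one one_lt_two
  have h1 : x ∈ (insert (0 : EN N) (cellC χ))ᶜ := by
    intro h2
    rcases h2 with h2 | h2
    · exact hX.zero_notMem (h2 ▸ hx)
    · exact h h2
  filter_upwards [mem_nhdsWithin_of_mem_nhds (hcl.isOpen_compl.mem_nhds h1)] with y hy h2
  exact hy (Set.mem_insert_of_mem _ h2)

theorem cell_smul (hX : IsCone X) {χ : Chart d X} {r : ℝ} {x : EN N} {c : ℂ} (hc : c ≠ 0) (h : x ∈ cell χ r) : c • x ∈ cell χ r :=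
  ⟨hX.smul_mem x h.1 c hc, χ.smul_U x h.2.1 c hc, by rw [χ.q_smul x h.2.1 c hc]; exact h.2.2⟩

theorem cell_smul_iff (hX : IsCone X) {χ : Chart d X} {r : ℝ} {x : EN N} {c : ℂ} (hc : c ≠ 0) : c • x ∈ cell χ r ↔ x ∈ cell χ r := by
  refine ⟨fun h => ?_, cell_smul hX hc⟩
  have := cell_smul hX (inv_ne_zero hc) h
  rwa [smul_smul, inv_mul_cancel₀ hc, one_smul] at this

theorem cellC_smul (hX : IsCone X) {χ : Chart d X} {x : EN N} {c : ℂ} (hc : c ≠ 0) (h : x ∈ cellC χ) : c • x ∈ cellC χ :=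
  ⟨hX.smul_mem x h.1 c hc, χ.smul_U x h.2.1 c hc, by rw [χ.q_smul x h.2.1 c hc]; exact h.2.2⟩

theorem cellC_not {χ : Chart d X} {x : EN N} (h : x ∈ cellC χ) (h' : x ∉ cell χ 1) : ‖χ.q x‖ = 1 :=
  le_antisymm h.2.2 (not_lt.1 fun hlt => h' ⟨h.1, h.2.1, hlt⟩)

/-- the square of the Euclidean norm -/
noncomputable def sq (q : Vd d) : ℝ := ∑ i, ‖q i‖ ^ 2

theorem sq_nonneg' (q : Vd d) : 0 ≤ sq q := Finset.sum_nonneg fun _ _ => by positivity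

theorem sq_le {q : Vd d} {r : ℝ} (h : ‖q‖ ≤ r) : sq q ≤ d * r ^ 2 := by
  have h1 : ∀ i ∈ (Finset.univ : Finset (Fin d)), ‖q i‖ ^ 2 ≤ r ^ 2 := fun i _ =>
    pow_le_pow_left₀ (norm_nonneg _) ((norm_le_pi_norm q i).trans h) 2
  have h2 := Finset.sum_le_sum h1
  simpa [sq, Finset.sum_const, Finset.card_univ, nsmul_eq_mul] using h2

theorem le_sq (q : Vd d) : ‖q‖ ^ 2 ≤ sq q := by
  rcases isEmpty_or_nonempty (Fin d) with he | hne
  · have : q = 0 := Subsingleton.elim _ _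
    rw [this, norm_zero]
    simpa using sq_nonneg' (0 : Vd d)
  · obtain ⟨i, hi⟩ := exists_eq_ciSup_of_finite (f := fun i => ‖q i‖)
    have h1 : ‖q‖ = ‖q i‖ := by
      refine le_antisymm ?_ (norm_le_pi_norm q i)
      rw [pi_norm_le_iff_of_nonneg (norm_nonneg _)]
      intro j
      have h2 : ‖q i‖ = ⨆ j, ‖q j‖ := hi
      rw [h2]
      exact le_ciSup (f := fun j => ‖q j‖) (Set.finite_range _).bddAbove j
    rw [h1]
    exact Finset.single_le_sum (f := fun i => ‖q i‖ ^ 2) (fun _ _ => by positivity) (Finset.mem_univ i)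

theorem exists_pos_le {α : Type*} [Finite α] (β : α → ℝ) (h : ∀ a, 0 < β a) : ∃ b : ℝ, 0 < b ∧ ∀ a, b ≤ β a := by
  rcases isEmpty_or_nonempty α with he | hne
  · exact ⟨1, one_pos, fun a => (he.false a).elim⟩
  · obtain ⟨a₀, ha₀⟩ := Finite.exists_min β
    exact ⟨β a₀, h a₀, ha₀⟩

/-- the local functions near `D` -/
structure WData (X D : Set (EN N)) (ν : PseudoLength X) (κ B : ℝ) (J : ℕ) (χ : Fin J → Chart d X) (w : Fin J → EN N → ℝ) : Prop where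
  κ_pos : 0 < κ
  B_pos : 0 < B
  nonneg : ∀ i x, 0 ≤ w i x
  le : ∀ i, ∀ x ∈ cellC (χ i), w i x ≤ B
  cont : ∀ i, ∀ x ∈ cellC (χ i), ContinuousWithinAt (w i) X x
  smul : ∀ i, ∀ x ∈ cellC (χ i), ∀ c : ℂ, c ≠ 0 → w i (c • x) = w i x
  zero_iff : ∀ i, ∀ x ∈ cellC (χ i), (w i x = 0 ↔ x ∈ D)
  sub : ∀ (i : Fin J) (F : ℂ → EN N) (z₀ : ℂ), CurveAt X F z₀ → F z₀ ∈ cell (χ i) 1 → 0 < w i (F z₀) → Sub (fun z => w i (F z)) z₀ (κ * vel ν F z₀ ^ 2)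
  cover : ∀ x ∈ D, ∃ i, x ∈ cell (χ i) 1
  glue : ∀ x ∈ D, ∀ i, x ∈ cellC (χ i) → x ∉ cell (χ i) 1 → ∃ j, x ∈ cell (χ j) 1 ∧ ∀ᶠ y in 𝓝[X] x, w i y ≤ w j y

end Pool.Agent.H19T
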