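import Pool.Agent.H19T.DefsB

/-!
# H19T Coef: the coefficients of the forms in charts

Models: `AD/BD/NnA.lean` (`Nn_pos`, `Nn_an`, `Nn_cont`, `Nn_smul`, `lift` (private, copy it), `Nn_trans`) for the bivector forms `BForm`.
`cfk_an`: `TForm.analytic` with `φ = χ.σ`, composed with the analytic (affine) map `y ↦ (y.1, wv y.2)`.
`cf_smul`: `TForm.det` with the diagonal matrix `(1, ..., 1, a)` (`wv (a • w)` is `wv w` with the last vector multiplied by `a`).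
`cf_pos`: `σ q`, `∂_j σ q`, `(fderiv σ q) w` are linearly independent: apply `fderiv q (σ q)` (`Chart.fderiv_q_self`, `Chart.fderiv_sigma`); `e_j (j < n)` and the vertical `w ≠ 0` are independent.
`cf_trans`: with `lift`: `σ q = c σ' (T q)`, `fderiv σ q v = c (fderiv σ' (T q) (fderiv T q v)) + c' v • σ' (T q)`; `fderiv T q e_j = e_j` by hypothesis; use `add_smul`, `scale`.
`cf_near`: for `q₀ ∈ ball 0 2`: the function `cf Ω χ q w` is continuous and positive on `(q, w)`, `q = q₀`, `w` vertical of norm one (compact), so it is uniformly continuous near this set;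
homogeneity in `w` (`cf_smul`) (model: `Nn_cmp`).
-/

set_option autoImplicit false

open Topology Filter Metric

namespace Pool.Agent.H19T

open Pool.Agent.H36.BP (EN fs wd Sub Curve)
open Pool.Agent.H14.PP (IsCone CurveAt Tan)
open Pool.Agent.AD (Vd Chart Charts TorusMapV DiscreteSub)

variable {N : ℕ} {X : Set (EN N)} {n p m K : ℕ}

private theorem Coef_openX (hX : IsCone X) : Pool.Agent.H14.PP.IsOpenPart X X :=
  ⟨subset_rfl, hX.smul_mem, fun _ _ => Eventually.of_forall fun _ hy => hy⟩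

private theorem Coef_tan {d : ℕ} (hX : IsCone X) (χ : Chart d X) {p : Vd d} (hp : p ∈ ball (0 : Vd d) 2) (w : Vd d) :
    Tan X (χ.σ p) (fderiv ℂ χ.σ p w) :=
  χ.tan (Coef_openX hX) hp (χ.σ_mem p hp).1 w

/-- The lift: `χ.σ y = c y • χ'.σ (τ y)` near `p`, with `c` differentiable at `p`. -/
private theorem Coef_lift {d : ℕ} (hX : IsCone X) (χ χ' : Chart d X) {p : Vd d}
    (hp : p ∈ ball (0 : Vd d) 2) (hU : χ.σ p ∈ χ'.U) :
    ∃ (c : ℂ) (c' : Vd d →L[ℂ] ℂ), c ≠ 0 ∧ χ'.q (χ.σ p) ∈ ball (0 : Vd d) 2 ∧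
      χ.σ p = c • χ'.σ (χ'.q (χ.σ p)) ∧
      ∀ w : Vd d, fderiv ℂ χ.σ p w =
        c • fderiv ℂ χ'.σ (χ'.q (χ.σ p)) (fderiv ℂ (fun y => χ'.q (χ.σ y)) p w) +
          c' w • χ'.σ (χ'.q (χ.σ p)) := by
  obtain ⟨hτ, c0, hc0, hx⟩ := χ'.surj (χ.σ p) (χ.σ_mem p hp).1 hU
  set x' : EN N := χ'.σ (χ'.q (χ.σ p)) with hx'
  have hx'0 : x' ≠ 0 := χ'.sigma_ne_zero hX hτ
  have hin : inner ℂ x' x' ≠ 0 := by
    rw [Ne, inner_self_eq_zero]
    exact hx'0
  have hτan : AnalyticAt ℂ (fun y => χ'.q (χ.σ y)) p :=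
    AnalyticAt.comp (g := χ'.q) (f := χ.σ) (χ'.q_an _ hU) (χ.σ_an p hp)
  have hσ'an : AnalyticAt ℂ (fun y => χ'.σ (χ'.q (χ.σ y))) p :=
    AnalyticAt.comp (g := χ'.σ) (f := fun y => χ'.q (χ.σ y)) (χ'.σ_an _ hτ) hτan
  have hnum : AnalyticAt ℂ (fun y => innerSL ℂ x' (χ.σ y)) p :=
    AnalyticAt.comp (g := fun v => innerSL ℂ x' v) (f := χ.σ)
      ((innerSL ℂ x').analyticAt _) (χ.σ_an p hp)
  have hden : AnalyticAt ℂ (fun y => innerSL ℂ x' (χ'.σ (χ'.q (χ.σ y)))) p :=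
    AnalyticAt.comp (g := fun v => innerSL ℂ x' v) (f := fun y => χ'.σ (χ'.q (χ.σ y)))
      ((innerSL ℂ x').analyticAt _) hσ'an
  have hden0 : innerSL ℂ x' (χ'.σ (χ'.q (χ.σ p))) ≠ 0 := by
    rw [← hx', innerSL_apply_apply]
    exact hin
  let C : Vd d → ℂ := fun y => innerSL ℂ x' (χ.σ y) / innerSL ℂ x' (χ'.σ (χ'.q (χ.σ y)))
  have hC : AnalyticAt ℂ C p := hnum.div hden hden0
  have hCp : C p = c0 := by
    show innerSL ℂ x' (χ.σ p) / innerSL ℂ x' (χ'.σ (χ'.q (χ.σ p))) = c0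
    rw [div_eq_iff hden0]
    conv_lhs => rw [hx]
    rw [map_smul, smul_eq_mul]
  have hev : ∀ᶠ y in 𝓝 p, χ.σ y = C y • χ'.σ (χ'.q (χ.σ y)) := by
    have h1 : ∀ᶠ y in 𝓝 p, y ∈ ball (0 : Vd d) 2 := isOpen_ball.mem_nhds hp
    have h2 : ∀ᶠ y in 𝓝 p, χ.σ y ∈ χ'.U :=
      (χ.σ_an p hp).continuousAt.eventually (χ'.isOpen_U.mem_nhds hU)
    have h3 : ∀ᶠ y in 𝓝 p, innerSL ℂ x' (χ'.σ (χ'.q (χ.σ y))) ≠ 0 :=
      hden.continuousAt.eventually_ne hden0
    filter_upwards [h1, h2, h3] with y hy1 hy2 hy3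
    obtain ⟨-, b, hb, hxb⟩ := χ'.surj (χ.σ y) (χ.σ_mem y hy1).1 hy2
    have h4 : C y = b := by
      show innerSL ℂ x' (χ.σ y) / innerSL ℂ x' (χ'.σ (χ'.q (χ.σ y))) = b
      rw [div_eq_iff hy3]
      conv_lhs => rw [hxb]
      rw [map_smul, smul_eq_mul]
    rw [h4]
    exact hxb
  refine ⟨c0, fderiv ℂ C p, hc0, hτ, hx, fun w => ?_⟩
  have hD1 : HasFDerivAt (fun y => χ'.σ (χ'.q (χ.σ y)))
      ((fderiv ℂ χ'.σ (χ'.q (χ.σ p))).comp (fderiv ℂ (fun y => χ'.q (χ.σ y)) p)) p :=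
    HasFDerivAt.comp (g := χ'.σ) (f := fun y => χ'.q (χ.σ y)) p
      (χ'.σ_an _ hτ).differentiableAt.hasFDerivAt hτan.differentiableAt.hasFDerivAt
  have hD2 : HasFDerivAt (fun y => C y • χ'.σ (χ'.q (χ.σ y)))
      (C p • ((fderiv ℂ χ'.σ (χ'.q (χ.σ p))).comp (fderiv ℂ (fun y => χ'.q (χ.σ y)) p)) +
        (fderiv ℂ C p).smulRight (χ'.σ (χ'.q (χ.σ p)))) p :=
    hC.differentiableAt.hasFDerivAt.smul hD1
  have hD3 : HasFDerivAt χ.σ
      (C p • ((fderiv ℂ χ'.σ (χ'.q (χ.σ p))).comp (fderiv ℂ (fun y => χ'.q (χ.σ y)) p)) +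
        (fderiv ℂ C p).smulRight (χ'.σ (χ'.q (χ.σ p)))) p :=
    hD2.congr_of_eventuallyEq hev
  rw [hD3.fderiv, hCp]
  rfl

private theorem Coef_tan_smul (hX : IsCone X) {x v : EN N} (h : Tan X x v) {c : ℂ}
    (hc : c ≠ 0) : Tan X (c • x) (c • v) := by
  obtain ⟨F, hF, hF0, hFd⟩ := h
  refine ⟨fun z => c • F z, ⟨AnalyticAt.fun_smul analyticAt_const hF.1, ?_⟩, ?_, ?_⟩
  · filter_upwards [hF.2] with z hz
    exact hX.smul_mem _ hz c hc
  · show c • F 0 = c • x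
    rw [hF0]
  · have h1 : HasDerivAt (fun z => c • F z) (c • deriv F 0) 0 :=
      hF.1.differentiableAt.hasDerivAt.const_smul c
    rw [h1.deriv, hFd]

private theorem Coef_wv_last (w : Vd (n + p)) : wv w (Fin.last n) = w := by
  unfold wv
  rw [Fin.snoc_last]

private theorem Coef_wv_castSucc (w : Vd (n + p)) (j : Fin n) : wv w j.castSucc = (Pi.single (Fin.castAdd p j) 1 : Vd (n + p)) := by
  unfold wv
  rw [Fin.snoc_castSucc]

theorem cfk_an (Ω : Fin K → TForm (n + 1) (n + p) X m) (χ : Chart (n + p) X) (j : Fin K) {q : Vd (n + p)} (hq : q ∈ ball (0 : Vd (n + p)) 2) (w : Vd (n + p)) :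
    AnalyticAt ℂ (fun y : Vd (n + p) × Vd (n + p) => cfk Ω χ j y.1 y.2) (q, w) := by
  have hev : ∀ᶠ y in 𝓝 q, χ.σ y ∈ X := by
    filter_upwards [isOpen_ball.mem_nhds hq] with y hy
    exact (χ.σ_mem y hy).1
  have h1 := (Ω j).analytic χ.σ q (wv w) (χ.σ_an q hq) hev
  have h3 : AnalyticAt ℂ (fun y : Vd (n + p) × Vd (n + p) => wv y.2) (q, w) := by
    rw [analyticAt_pi_iff]
    intro i
    refine Fin.lastCases ?_ (fun k => ?_) i
    · simp_rw [Coef_wv_last]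
      exact analyticAt_snd
    · simp_rw [Coef_wv_castSucc]
      exact analyticAt_const
  have h2 : AnalyticAt ℂ (fun y : Vd (n + p) × Vd (n + p) => ((y.1, wv y.2) : Vd (n + p) × (Fin (n + 1) → Vd (n + p)))) (q, w) :=
    analyticAt_fst.prod h3
  exact AnalyticAt.comp (g := fun y : Vd (n + p) × (Fin (n + 1) → Vd (n + p)) => (Ω j).toFun (χ.σ y.1) fun i => fderiv ℂ χ.σ y.1 (y.2 i))
    (f := fun y : Vd (n + p) × Vd (n + p) => ((y.1, wv y.2) : Vd (n + p) × (Fin (n + 1) → Vd (n + p)))) h1 h2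

theorem cf_cont (Ω : Fin K → TForm (n + 1) (n + p) X m) (χ : Chart (n + p) X) {q : Vd (n + p)} (hq : q ∈ ball (0 : Vd (n + p)) 2) (w : Vd (n + p)) :
    ContinuousAt (fun y : Vd (n + p) × Vd (n + p) => cf Ω χ y.1 y.2) (q, w) := by
  unfold cf
  refine ContinuousAt.mul ?_ ?_
  · have h1 : ∀ k : Fin K, ContinuousAt (fun y : Vd (n + p) × Vd (n + p) => ‖cfk Ω χ k y.1 y.2‖) (q, w) :=
      fun k => (cfk_an Ω χ k hq w).continuousAt.norm
    exact tendsto_finsetSum _ fun k _ => h1 k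
  · have h1 : ContinuousAt χ.σ ((q, w) : Vd (n + p) × Vd (n + p)).1 := (χ.σ_an q hq).continuousAt
    exact (h1.comp continuousAt_fst).norm

theorem cf_nonneg (Ω : Fin K → TForm (n + 1) (n + p) X m) (χ : Chart (n + p) X) (q w : Vd (n + p)) : 0 ≤ cf Ω χ q w := by
  unfold cf
  exact mul_nonneg (Finset.sum_nonneg fun k _ => norm_nonneg _) (norm_nonneg _)

theorem cf_smul (hX : IsCone X) (Ω : Fin K → TForm (n + 1) (n + p) X m) (χ : Chart (n + p) X) {q : Vd (n + p)} (hq : q ∈ ball (0 : Vd (n + p)) 2) (w : Vd (n + p)) (a : ℂ) :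
    cf Ω χ q (a • w) = ‖a‖ ^ m * cf Ω χ q w := by
  unfold cf
  rw [← mul_assoc, Finset.mul_sum]
  congr 1
  refine Finset.sum_congr rfl fun k _ => ?_
  set D : Fin (n + 1) → ℂ := Fin.snoc (fun _ : Fin n => (1 : ℂ)) a with hD
  have h1 := (Ω k).det (χ.σ q) (χ.σ_mem q hq).1 (fun i => fderiv ℂ χ.σ q (wv w i)) (fun i => Coef_tan hX χ hq _) (Matrix.diagonal D)
  have h2 : (fun i => ∑ j, Matrix.diagonal D i j • fderiv ℂ χ.σ q (wv w j)) = fun i => fderiv ℂ χ.σ q (wv (a • w) i) := by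
    ext1 i
    rw [Finset.sum_eq_single i]
    · rw [Matrix.diagonal_apply_eq, ← map_smul]
      congr 1
      refine Fin.lastCases ?_ (fun k => ?_) i
      · rw [Coef_wv_last, Coef_wv_last, hD, Fin.snoc_last]
      · rw [Coef_wv_castSucc, Coef_wv_castSucc, hD, Fin.snoc_castSucc, one_smul]
    · intro j _ hj
      rw [Matrix.diagonal_apply_ne _ hj.symm, zero_smul]
    · intro h
      exact absurd (Finset.mem_univ i) h
  have h3 : (Matrix.diagonal D).det = a := by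
    rw [Matrix.det_diagonal, Fin.prod_univ_castSucc, hD, Fin.snoc_last]
    simp only [Fin.snoc_castSucc]
    rw [Finset.prod_const_one, one_mul]
  rw [h2, h3] at h1
  unfold cfk
  rw [h1, norm_mul, norm_pow]

theorem cf_pos (hX : IsCone X) {Ω : Fin K → TForm (n + 1) (n + p) X m} (hΩ : TNoZero Ω) (χ : Chart (n + p) X) {q : Vd (n + p)} (hq : q ∈ ball (0 : Vd (n + p)) 2)
    {w : Vd (n + p)} (hw : bb w = 0) (hw0 : w ≠ 0) : 0 < cf Ω χ q w := by
  have hσ0 : χ.σ q ≠ 0 := χ.sigma_ne_zero hX hq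
  have hind : LinearIndependent ℂ (Fin.cons (χ.σ q) (fun i => fderiv ℂ χ.σ q (wv w i)) : Fin (n + 1 + 1) → EN N) := by
    rw [Fintype.linearIndependent_iff]
    intro g hg
    rw [Fin.sum_univ_succ] at hg
    simp only [Fin.cons_zero, Fin.cons_succ] at hg
    have h1 := congrArg (fderiv ℂ χ.q (χ.σ q)) hg
    rw [map_add, map_smul, map_sum, χ.fderiv_q_self (χ.σ_mem q hq).2.1, smul_zero, zero_add, map_zero] at h1
    simp_rw [map_smul, χ.fderiv_sigma hq] at h1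
    rw [Fin.sum_univ_castSucc] at h1
    simp_rw [Coef_wv_last, Coef_wv_castSucc] at h1
    have h2 : ∀ j : Fin n, g j.castSucc.succ = 0 := by
      intro j
      have h3 := congrFun h1 (Fin.castAdd p j)
      rw [Pi.add_apply, Finset.sum_apply, Finset.sum_eq_single j] at h3
      · have h4 : w (Fin.castAdd p j) = 0 := congrFun hw j
        rw [Pi.smul_apply, Pi.smul_apply, h4, smul_zero, add_zero, Pi.single_eq_same, smul_eq_mul, mul_one] at h3
        exact h3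
      · intro k _ hk
        have h5 : Fin.castAdd p j ≠ Fin.castAdd p k := fun h => hk (Fin.castAdd_injective n p h).symm
        rw [Pi.smul_apply, Pi.single_eq_of_ne h5, smul_zero]
      · intro h
        exact absurd (Finset.mem_univ j) h
    have h3 : g (Fin.last n).succ = 0 := by
      have h4 : ∑ j : Fin n, g j.castSucc.succ • (Pi.single (Fin.castAdd p j) 1 : Vd (n + p)) = 0 :=
        Finset.sum_eq_zero fun j _ => by rw [h2 j, zero_smul]
      rw [h4, zero_add] at h1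
      exact (smul_eq_zero.1 h1).resolve_right hw0
    have h2' : ∀ i : Fin (n + 1), g i.succ = 0 := fun i => Fin.lastCases h3 h2 i
    have h4 : ∑ i : Fin (n + 1), g i.succ • fderiv ℂ χ.σ q (wv w i) = 0 :=
      Finset.sum_eq_zero fun i _ => by rw [h2' i, zero_smul]
    rw [h4, add_zero] at hg
    have h5 : g 0 = 0 := (smul_eq_zero.1 hg).resolve_right hσ0
    intro i
    exact Fin.cases h5 (fun j => h2' j) i
  obtain ⟨k, hk⟩ := hΩ (χ.σ q) (χ.σ_mem q hq).1 _ (fun i => Coef_tan hX χ hq (wv w i)) hind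
  unfold cf
  refine mul_pos ?_ (norm_pos_iff.2 hσ0)
  exact Finset.sum_pos' (fun k _ => norm_nonneg _) ⟨k, Finset.mem_univ k, norm_pos_iff.2 hk⟩

/-- the change of charts is analytic -/
theorem chg_an {d : ℕ} (hX : IsCone X) (χ χ' : Chart d X) {q : Vd d} (hq : q ∈ ball (0 : Vd d) 2) (hU : χ.σ q ∈ χ'.U) :
    AnalyticAt ℂ (fun y => χ'.q (χ.σ y)) q ∧ χ'.q (χ.σ q) ∈ ball (0 : Vd d) 2 :=
  ⟨AnalyticAt.comp (g := χ'.q) (f := χ.σ) (χ'.q_an _ hU) (χ.σ_an q hq), (χ'.surj (χ.σ q) (χ.σ_mem q hq).1 hU).1⟩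

theorem cf_trans (hX : IsCone X) (Ω : Fin K → TForm (n + 1) (n + p) X m) (χ χ' : Chart (n + p) X) {q : Vd (n + p)} (hq : q ∈ ball (0 : Vd (n + p)) 2) (hU : χ.σ q ∈ χ'.U)
    (hT : ∀ j : Fin n, fderiv ℂ (fun y => χ'.q (χ.σ y)) q (Pi.single (Fin.castAdd p j) 1) = Pi.single (Fin.castAdd p j) 1) (w : Vd (n + p)) :
    cf Ω χ q w = cf Ω χ' (χ'.q (χ.σ q)) (fderiv ℂ (fun y => χ'.q (χ.σ y)) q w) := by
  obtain ⟨c, c', hc, hτ, hx, hD⟩ := Coef_lift hX χ χ' hq hU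
  have hx'X : χ'.σ (χ'.q (χ.σ q)) ∈ X := (χ'.σ_mem _ hτ).1
  have hrow : ∀ i, fderiv ℂ (fun y => χ'.q (χ.σ y)) q (wv w i) = wv (fderiv ℂ (fun y => χ'.q (χ.σ y)) q w) i := by
    intro i
    refine Fin.lastCases ?_ (fun k => ?_) i
    · rw [Coef_wv_last, Coef_wv_last]
    · rw [Coef_wv_castSucc, Coef_wv_castSucc, hT k]
  have key : ∀ k, ‖cfk Ω χ k q w‖ * ‖c‖ = ‖cfk Ω χ' k (χ'.q (χ.σ q)) (fderiv ℂ (fun y => χ'.q (χ.σ y)) q w)‖ := by
    intro k
    have t1 : ∀ i, Tan X (χ'.σ (χ'.q (χ.σ q))) (fderiv ℂ χ'.σ (χ'.q (χ.σ q)) (wv (fderiv ℂ (fun y => χ'.q (χ.σ y)) q w) i)) :=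
      fun i => Coef_tan hX χ' hτ _
    have h1 := (Ω k).scale _ hx'X (fun i => fderiv ℂ χ'.σ (χ'.q (χ.σ q)) (wv (fderiv ℂ (fun y => χ'.q (χ.σ y)) q w) i)) t1 c hc
    have h2 := (Ω k).add_smul (c • χ'.σ (χ'.q (χ.σ q))) (hX.smul_mem _ hx'X c hc)
      (fun i => c • fderiv ℂ χ'.σ (χ'.q (χ.σ q)) (wv (fderiv ℂ (fun y => χ'.q (χ.σ y)) q w) i)) (fun i => Coef_tan_smul hX (t1 i) hc)
      (fun i => c' (wv w i) * c⁻¹)
    have h3 : (fun i => fderiv ℂ χ.σ q (wv w i)) = fun i =>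
        c • fderiv ℂ χ'.σ (χ'.q (χ.σ q)) (wv (fderiv ℂ (fun y => χ'.q (χ.σ y)) q w) i) +
        (c' (wv w i) * c⁻¹) • c • χ'.σ (χ'.q (χ.σ q)) := by
      ext1 i
      rw [hD (wv w i), hrow i, smul_smul, mul_assoc, inv_mul_cancel₀ hc, mul_one]
    have h4 : (Ω k).toFun (χ.σ q) (fun i => fderiv ℂ χ.σ q (wv w i)) = (Ω k).toFun (c • χ'.σ (χ'.q (χ.σ q)))
        (fun i => c • fderiv ℂ χ'.σ (χ'.q (χ.σ q)) (wv (fderiv ℂ (fun y => χ'.q (χ.σ y)) q w) i)) := by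
      rw [h3, ← h2, ← hx]
    unfold cfk
    rw [h4, mul_comm, ← norm_mul, h1]
  have hn : ‖χ.σ q‖ = ‖c‖ * ‖χ'.σ (χ'.q (χ.σ q))‖ := by
    conv_lhs => rw [hx]
    rw [norm_smul]
  unfold cf
  rw [hn, ← mul_assoc, Finset.sum_mul]
  congr 1
  exact Finset.sum_congr rfl fun k _ => key k

/-- comparison of the lengths of two vertical vectors -/
theorem cf_near (hX : IsCone X) {Ω : Fin K → TForm (n + 1) (n + p) X m} (hΩ : TNoZero Ω) (χ : Chart (n + p) X) {q₀ : Vd (n + p)} (hq : q₀ ∈ ball (0 : Vd (n + p)) 2) {δ : ℝ} (hδ : 0 < δ) :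
    ∃ ε : ℝ, 0 < ε ∧ ∀ q ∈ ball q₀ ε, ∀ w w' : Vd (n + p), bb w = 0 → bb w' = 0 → ‖w' - w‖ ≤ ε * ‖w‖ → cf Ω χ q w' ≤ (1 + δ) * cf Ω χ q w := by
  obtain ⟨f, hf⟩ : ∃ f : Vd (n + p) × Vd (n + p) → ℝ, f = fun y => cf Ω χ y.1 y.2 := ⟨_, rfl⟩
  have hbbc : Continuous (fun w : Vd (n + p) => (bb w : Vd n)) := by
    unfold bb
    exact continuous_pi fun j => continuous_apply _
  obtain ⟨S, hS⟩ : ∃ S : Set (Vd (n + p)), S = sphere (0 : Vd (n + p)) 1 ∩ {w | (bb w : Vd n) = 0} := ⟨_, rfl⟩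
  have hSc : IsCompact S := by
    rw [hS]
    exact (isCompact_sphere _ _).inter_right (isClosed_eq hbbc continuous_const)
  have hfat : ∀ y : Vd (n + p) × Vd (n + p), y.1 ∈ ball (0 : Vd (n + p)) 2 → ContinuousAt f y := by
    rintro ⟨a, b⟩ hy
    rw [hf]
    exact cf_cont Ω χ hy b
  obtain ⟨c, hc, hcS⟩ : ∃ c : ℝ, 0 < c ∧ ∀ w ∈ S, c ≤ f (q₀, w) := by
    rcases S.eq_empty_or_nonempty with h | h
    · exact ⟨1, one_pos, fun y hy => absurd hy (by rw [h]; exact Set.notMem_empty y)⟩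
    · have hcont : ContinuousOn (fun w => f (q₀, w)) S := by
        intro w _
        have h1 : ContinuousAt (fun w : Vd (n + p) => ((q₀, w) : Vd (n + p) × Vd (n + p))) w :=
          (Continuous.prodMk continuous_const continuous_id).continuousAt
        exact (ContinuousAt.comp (g := f) (f := fun w : Vd (n + p) => ((q₀, w) : Vd (n + p) × Vd (n + p))) (hfat _ hq) h1).continuousWithinAt
      obtain ⟨w₀, hw₀, hmin⟩ := hSc.exists_isMinOn h hcont
      refine ⟨f (q₀, w₀), ?_, fun w hw => hmin hw⟩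
      rw [hS] at hw₀
      have h0 : w₀ ≠ 0 := by
        rintro rfl
        have h2 := hw₀.1
        rw [mem_sphere_zero_iff_norm, norm_zero] at h2
        exact zero_ne_one h2
      rw [hf]
      exact cf_pos hX hΩ χ hq hw₀.2 h0
  obtain ⟨r, hr, hrb⟩ : ∃ r : ℝ, 0 < r ∧ closedBall q₀ r ⊆ ball (0 : Vd (n + p)) 2 :=
    Metric.nhds_basis_closedBall.mem_iff.1 (isOpen_ball.mem_nhds hq)
  have hcomp : IsCompact (closedBall q₀ r ×ˢ closedBall (0 : Vd (n + p)) 2) :=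
    (isCompact_closedBall _ _).prod (isCompact_closedBall _ _)
  have huc : UniformContinuousOn f (closedBall q₀ r ×ˢ closedBall (0 : Vd (n + p)) 2) := by
    refine hcomp.uniformContinuousOn_of_continuous ?_
    rintro y hy
    exact (hfat y (hrb hy.1)).continuousWithinAt
  have hτ : 0 < min (c / 2) (δ * c / 2) := lt_min (by linarith) (by positivity)
  obtain ⟨η, hη, hη'⟩ := Metric.uniformContinuousOn_iff.1 huc _ hτ
  refine ⟨min (min r 1) (η / 2), lt_min (lt_min hr one_pos) (by linarith), ?_⟩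
  intro q hqb w w' hw hw' hww
  have hqb' : dist q q₀ < min (min r 1) (η / 2) := hqb
  have e1 : dist q q₀ < r := hqb'.trans_le ((min_le_left _ _).trans (min_le_left _ _))
  have e2 : dist q q₀ < η := by
    have := hqb'.trans_le (min_le_right _ _)
    linarith
  have hq2 : q ∈ ball (0 : Vd (n + p)) 2 := hrb (mem_closedBall.2 e1.le)
  rcases eq_or_ne w 0 with h0 | h0
  · subst h0
    rw [norm_zero, mul_zero] at hww
    have h1 : w' = 0 := by
      have := norm_le_zero_iff.1 hww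
      rwa [sub_zero] at this
    rw [h1]
    have h2 := cf_nonneg Ω χ q 0
    nlinarith
  · have hn : 0 < ‖w‖ := norm_pos_iff.2 h0
    have hnC : ((‖w‖ : ℝ) : ℂ) ≠ 0 := by exact_mod_cast hn.ne'
    have hnn : ‖(((‖w‖ : ℝ) : ℂ)⁻¹)‖ = ‖w‖⁻¹ := by rw [norm_inv, Complex.norm_real, norm_norm]
    obtain ⟨v, hv⟩ : ∃ v : Vd (n + p), v = ((‖w‖ : ℝ) : ℂ)⁻¹ • w := ⟨_, rfl⟩
    obtain ⟨v', hv'⟩ : ∃ v' : Vd (n + p), v' = ((‖w‖ : ℝ) : ℂ)⁻¹ • w' := ⟨_, rfl⟩
    have hwv : w = ((‖w‖ : ℝ) : ℂ) • v := by rw [hv, smul_smul, mul_inv_cancel₀ hnC, one_smul]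
    have hwv' : w' = ((‖w‖ : ℝ) : ℂ) • v' := by rw [hv', smul_smul, mul_inv_cancel₀ hnC, one_smul]
    have hvn : ‖v‖ = 1 := by rw [hv, norm_smul, hnn, inv_mul_cancel₀ hn.ne']
    have hvv : ‖v' - v‖ ≤ min (min r 1) (η / 2) := by
      rw [hv, hv', ← smul_sub, norm_smul, hnn, inv_mul_le_iff₀ hn, mul_comm]
      exact hww
    have hvS : v ∈ S := by
      rw [hS]
      refine ⟨mem_sphere_zero_iff_norm.2 hvn, ?_⟩
      show (bb v : Vd n) = 0
      ext j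
      have h1 : w (Fin.castAdd p j) = 0 := congrFun hw j
      show v (Fin.castAdd p j) = 0
      rw [hv, Pi.smul_apply, h1, smul_zero]
    have hv1 : ‖v' - v‖ ≤ 1 := hvv.trans ((min_le_left _ _).trans (min_le_right _ _))
    have hv2 : ‖v' - v‖ < η := by
      have := hvv.trans (min_le_right _ _)
      linarith
    have hv'n : ‖v'‖ ≤ 2 := by
      have h1 := norm_add_le (v' - v) v
      rw [sub_add_cancel] at h1
      linarith
    have m1 : ((q, v) : Vd (n + p) × Vd (n + p)) ∈ closedBall q₀ r ×ˢ closedBall (0 : Vd (n + p)) 2 :=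
      ⟨mem_closedBall.2 e1.le, mem_closedBall_zero_iff.2 (by rw [hvn]; norm_num)⟩
    have m2 : ((q, v') : Vd (n + p) × Vd (n + p)) ∈ closedBall q₀ r ×ˢ closedBall (0 : Vd (n + p)) 2 :=
      ⟨mem_closedBall.2 e1.le, mem_closedBall_zero_iff.2 hv'n⟩
    have m3 : ((q₀, v) : Vd (n + p) × Vd (n + p)) ∈ closedBall q₀ r ×ˢ closedBall (0 : Vd (n + p)) 2 :=
      ⟨mem_closedBall_self hr.le, mem_closedBall_zero_iff.2 (by rw [hvn]; norm_num)⟩
    have d1 : dist (f (q, v')) (f (q, v)) < min (c / 2) (δ * c / 2) := by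
      refine hη' _ m2 _ m1 ?_
      rw [Prod.dist_eq, dist_self, max_eq_right dist_nonneg, dist_eq_norm]
      exact hv2
    have d2 : dist (f (q, v)) (f (q₀, v)) < min (c / 2) (δ * c / 2) := by
      refine hη' _ m1 _ m3 ?_
      rw [Prod.dist_eq, dist_self, max_eq_left dist_nonneg]
      exact e2
    rw [Real.dist_eq, abs_lt] at d1 d2
    have c1 := hcS v hvS
    have c2 := min_le_left (c / 2) (δ * c / 2)
    have c3 := min_le_right (c / 2) (δ * c / 2)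
    have k1 : c / 2 ≤ f (q, v) := by linarith [d2.1]
    have k2 : f (q, v') ≤ (1 + δ) * f (q, v) := by nlinarith [d1.2]
    have k3 : cf Ω χ q w = ‖w‖ ^ m * f (q, v) := by
      conv_lhs => rw [hwv]
      rw [cf_smul hX Ω χ hq2, Complex.norm_real, norm_norm, hf]
    have k4 : cf Ω χ q w' = ‖w‖ ^ m * f (q, v') := by
      conv_lhs => rw [hwv']
      rw [cf_smul hX Ω χ hq2, Complex.norm_real, norm_norm, hf]
    rw [k3, k4]
    have hpow : 0 < ‖w‖ ^ m := pow_pos hn m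
    calc ‖w‖ ^ m * f (q, v') ≤ ‖w‖ ^ m * ((1 + δ) * f (q, v)) := mul_le_mul_of_nonneg_left k2 hpow.le
      _ = _ := by ring

end Pool.Agent.H19T
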