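import Pool.Agent.H19T.Defs
import Pool.Agent.AD.F.Defs
import Pool.Agent.AD.ChartFs
import Pool.Agent.AD.ChartClosed
import Pool.Agent.H36.BP.SubC
import Pool.Agent.AD.F.Vel

/-!
# H19T DefsB: the functions near the hypersurface `D`

`ft q`, `vt q`: the horizontal and the vertical part of `q`.  `cf Ω χ q w`: the length of the forms at the point `q` of the chart, on the vectors `e_1, ..., e_n, w`.
`VV Ω χ x = cf Ω χ (ft (q x)) (vt (q x))`, `WW Ω a χ x = VV^(1/m) * exp (-a * |bb (q x)|²)`.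

`Sig X D ν κ C η σ`: `σ` is a continuous function on `X` with values in `[0, 1]` which vanishes exactly on `D`, and `log σ` grows along holomorphic curves: near `D` its Laplacian is at least
`4 κ ν²`, everywhere at least `4 (κ ν² - C fs²)`.
-/

set_option autoImplicit false

open Topology Filter Metric

namespace Pool.Agent.H19T

open Pool.Agent.H36.BP (EN fs wd Sub Curve)
open Pool.Agent.H14.PP (IsCone CurveAt Tan)
open Pool.Agent.H22.W (PseudoLength)
open Pool.Agent.AD (Vd Chart Charts TorusMapV DiscreteSub)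
open Pool.Agent.AD.F (vel)

variable {N : ℕ} {X : Set (EN N)}

/-- the horizontal part -/
def ft {n p : ℕ} (q : Vd (n + p)) : Vd (n + p) := Fin.append (bb q) 0

/-- the vertical part -/
def vt {n p : ℕ} (q : Vd (n + p)) : Vd (n + p) := Fin.append 0 (ll q)

/-- the first `n` vectors of the basis, and `w` -/
def wv {n p : ℕ} (w : Vd (n + p)) : Fin (n + 1) → Vd (n + p) := Fin.snoc (fun j : Fin n => (Pi.single (Fin.castAdd p j) (1 : ℂ) : Vd (n + p))) w

/-- the component `j` of the forms on the first `n` coordinate vectors of the chart and `w` -/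
noncomputable def cfk {n p m K : ℕ} (Ω : Fin K → TForm (n + 1) (n + p) X m) (χ : Chart (n + p) X) (j : Fin K) (q w : Vd (n + p)) : ℂ :=
  (Ω j).toFun (χ.σ q) (fun i => fderiv ℂ χ.σ q (wv w i))

/-- the length of the forms on the first `n` coordinate vectors of the chart and `w` -/
noncomputable def cf {n p m K : ℕ} (Ω : Fin K → TForm (n + 1) (n + p) X m) (χ : Chart (n + p) X) (q w : Vd (n + p)) : ℝ := (∑ j, ‖cfk Ω χ j q w‖) * ‖χ.σ q‖

/-- the power `m` of the length of the vertical part, measured with the forms -/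
noncomputable def VV {n p m K : ℕ} (Ω : Fin K → TForm (n + 1) (n + p) X m) (χ : Chart (n + p) X) (x : EN N) : ℝ := cf Ω χ (ft (χ.q x)) (vt (χ.q x))

/-- the square of the Euclidean norm of the first coordinates -/
noncomputable def sqb {n p : ℕ} (q : Vd (n + p)) : ℝ := ∑ j, ‖bb q j‖ ^ 2

/-- the local function of the tube -/
noncomputable def WW {n p m K : ℕ} (Ω : Fin K → TForm (n + 1) (n + p) X m) (a : ℝ) (χ : Chart (n + p) X) (x : EN N) : ℝ :=
  VV Ω χ x ^ (1 / (m : ℝ)) * Real.exp (-a * sqb (χ.q x))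

/-- the function which measures the distance to `D` -/
structure Sig (X D : Set (EN N)) (ν : PseudoLength X) (κ C η : ℝ) (σ : EN N → ℝ) : Prop where
  κ_pos : 0 < κ
  C_pos : 0 < C
  η_pos : 0 < η
  cont : ContinuousOn σ X
  nonneg : ∀ x ∈ X, 0 ≤ σ x
  le_one : ∀ x ∈ X, σ x ≤ 1
  smul : ∀ x ∈ X, ∀ c : ℂ, c ≠ 0 → σ (c • x) = σ x
  zero_iff : ∀ x ∈ X, (σ x = 0 ↔ x ∈ D)
  near : ∀ (F : ℂ → EN N) (z₀ : ℂ), CurveAt X F z₀ → 0 < σ (F z₀) → σ (F z₀) < η → Sub (fun z => σ (F z)) z₀ (κ * vel ν F z₀ ^ 2)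
  sub : ∀ (F : ℂ → EN N) (z₀ : ℂ), CurveAt X F z₀ → 0 < σ (F z₀) →
    Sub (fun z => σ (F z)) z₀ (κ * vel ν F z₀ ^ 2 - C * fs (F z₀) (deriv F z₀) ^ 2)

/-- the entire curves of constant speed lie in `D` -/
def LinIn (X D : Set (EN N)) (ν : PseudoLength X) : Prop :=
  ∀ F : ℂ → EN N, Differentiable ℂ F → (∀ z, F z ∈ X) → (∃ v : ℝ, 0 < v ∧ ∀ z, vel ν F z = v) → ∀ z, F z ∈ D

end Pool.Agent.H19T
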