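import Pool.Agent.H19T.FDefs

/-!
# H19T Dir: special directions of a lattice
-/

set_option autoImplicit false

open Topology Filter

noncomputable section

namespace Pool.Agent.H19T

open Pool.Agent.AD (NoEllipticCurve)

variable {n : ℕ}

/-- for all but countably many `t` the vector `(1, t, ..., t^(n-1))` is not a special direction -/
theorem exists_not_special (hn : 1 ≤ n) (Λ : AddSubgroup (Fin n → ℂ)) [DiscreteTopology Λ] : ∃ v : Fin n → ℂ, v ≠ 0 ∧ ¬ SpecialDir Λ v := by
  classical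
  have hc : Countable Λ := TopologicalSpace.separableSpace_iff_countable.1 inferInstance
  obtain ⟨v, hv⟩ : ∃ v : ℂ → (Fin n → ℂ), v = fun t (i : Fin n) => t ^ (i : ℕ) := ⟨_, rfl⟩
  have hex : ∀ F : Finset Λ, ∃ f : (Fin n → ℂ) →ₗ[ℂ] ℂ, Submodule.span ℂ ((fun l : Λ => (l : Fin n → ℂ)) '' (F : Set Λ)) ≠ ⊤ →
      f ≠ 0 ∧ ∀ l ∈ F, f l = 0 := by
    intro F
    by_cases h : Submodule.span ℂ ((fun l : Λ => (l : Fin n → ℂ)) '' (F : Set Λ)) = ⊤
    · exact ⟨0, fun h' => absurd h h'⟩
    · obtain ⟨f, hf0, hf⟩ := Submodule.exists_le_ker_of_lt_top _ (lt_top_iff_ne_top.2 h)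
      exact ⟨f, fun _ => ⟨hf0, fun l hl => hf (Submodule.subset_span ⟨l, hl, rfl⟩)⟩⟩
  choose f hf using hex
  have hfin : ∀ F : Finset Λ, f F ≠ 0 → {t : ℂ | f F (v t) = 0}.Finite := by
    intro F hF
    obtain ⟨p, hp⟩ : ∃ p : Polynomial ℂ, p = ∑ i : Fin n, Polynomial.C (f F (Pi.single i 1)) * Polynomial.X ^ (i : ℕ) := ⟨_, rfl⟩
    have hev : ∀ t, p.eval t = f F (v t) := by
      intro t
      rw [LinearMap.pi_apply_eq_sum_univ (f F) (v t), hp, Polynomial.eval_finsetSum]
      refine Finset.sum_congr rfl fun i _ => ?_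
      rw [Polynomial.eval_mul, Polynomial.eval_C, Polynomial.eval_pow, Polynomial.eval_X, hv, smul_eq_mul, mul_comm]
      congr 2
      funext j
      rw [Pi.single_apply]
      by_cases h : j = i
      · rw [if_pos h, if_pos h.symm]
      · rw [if_neg h, if_neg (Ne.symm h)]
    have hp0 : p ≠ 0 := by
      intro h0
      apply hF
      refine LinearMap.pi_ext' fun i => ?_
      ext
      have h1 : p.coeff (i : ℕ) = f F (Pi.single i 1) := by
        rw [hp, Polynomial.finsetSum_coeff, Finset.sum_eq_single i]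
        · rw [Polynomial.coeff_C_mul, Polynomial.coeff_X_pow, if_pos rfl, mul_one]
        · intro j _ hj
          rw [Polynomial.coeff_C_mul, Polynomial.coeff_X_pow, if_neg (fun h => hj (Fin.ext h.symm)), mul_zero]
        · intro h
          exact absurd (Finset.mem_univ i) h
      rw [h0, Polynomial.coeff_zero] at h1
      simp only [LinearMap.comp_apply, LinearMap.zero_apply]
      exact h1.symm
    refine (Polynomial.finite_setOfPred_isRoot hp0).subset fun t ht => ?_
    show p.eval t = 0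
    rw [hev]
    exact ht
  obtain ⟨t, ht⟩ : ∃ t : ℂ, t ∉ ⋃ F ∈ {F : Finset Λ | f F ≠ 0}, {t : ℂ | f F (v t) = 0} := by
    by_contra hcon
    push Not at hcon
    have h1 : (⋃ F ∈ {F : Finset Λ | f F ≠ 0}, {t : ℂ | f F (v t) = 0}).Countable :=
      (Set.to_countable _).biUnion fun F hF => (hfin F hF).countable
    exact not_countable_complex (h1.mono fun t _ => hcon t)
  refine ⟨v t, fun h => ?_, ?_⟩
  · have h1 := congrFun h ⟨0, hn⟩
    rw [hv] at h1
    simp at h1
  · rintro ⟨U, hU, h1, -⟩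
    obtain ⟨T, hT, hT1⟩ := Submodule.mem_span_finite_of_mem_span h1
    obtain ⟨F, hF⟩ : ∃ F : Finset Λ, ∀ l : Λ, l ∈ F ↔ (l : Fin n → ℂ) ∈ T := by
      refine ⟨T.subtype (fun l => l ∈ Λ), fun l => ?_⟩
      rw [Finset.mem_subtype]
    have h2 : Submodule.span ℂ ((fun l : Λ => (l : Fin n → ℂ)) '' (F : Set Λ)) ≠ ⊤ := by
      intro h3
      apply hU
      rw [eq_top_iff, ← h3, Submodule.span_le]
      rintro _ ⟨l, hl, rfl⟩
      exact (hT ((hF l).1 hl)).2
    obtain ⟨h3, h4⟩ := hf F h2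
    apply ht
    simp only [Set.mem_iUnion]
    refine ⟨F, h3, ?_⟩
    show f F (v t) = 0
    have h5 : ∀ x ∈ Submodule.span ℝ (T : Set (Fin n → ℂ)), f F x = 0 := by
      intro x hx
      induction hx using Submodule.span_induction with
      | mem x hx => exact h4 ⟨x, (hT hx).1⟩ ((hF _).2 hx)
      | zero => exact map_zero _
      | add x y _ _ hx hy => rw [map_add, hx, hy, add_zero]
      | smul a x _ hx =>
        have h6 : a • x = (a : ℂ) • x := by
          funext i
          simp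
        rw [h6, map_smul, hx, smul_zero]
    exact h5 _ hT1

/-- the special directions of a lattice in `ℂ²` are the directions of elliptic curves -/
theorem elliptic_of_special {Λ : AddSubgroup (Fin 2 → ℂ)} {v : Fin 2 → ℂ} (hv : v ≠ 0) (h : SpecialDir Λ v) :
    ∃ ω₁ ω₂ : ℂ, LinearIndependent ℝ ![ω₁, ω₂] ∧ ω₁ • v ∈ Λ ∧ ω₂ • v ∈ Λ := by
  obtain ⟨U, hU, h1, h2⟩ := h
  have hspanU : ∀ x ∈ Submodule.span ℝ {l : Fin 2 → ℂ | l ∈ Λ ∧ l ∈ U}, x ∈ U := by
    intro x hx
    induction hx using Submodule.span_induction with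
    | mem x hx => exact hx.2
    | zero => exact U.zero_mem
    | add x y _ _ hx hy => exact U.add_mem hx hy
    | smul a x _ hx =>
      have h6 : a • x = (a : ℂ) • x := by
        funext i
        simp
      rw [h6]
      exact U.smul_mem _ hx
  have hvU := hspanU v h1
  have hUv : ∀ x ∈ U, ∃ c : ℂ, x = c • v := by
    have h3 : Submodule.span ℂ {v} = U := by
      refine Submodule.eq_of_le_of_finrank_le ((Submodule.span_singleton_le_iff_mem _ _).2 hvU) ?_
      rw [finrank_span_singleton hv]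
      have h4 := Submodule.finrank_lt hU
      have h5 : Module.finrank ℂ (Fin 2 → ℂ) = 2 := by simp
      rw [h5] at h4
      omega
    intro x hx
    rw [← h3, Submodule.mem_span_singleton] at hx
    obtain ⟨c, hc⟩ := hx
    exact ⟨c, hc.symm⟩
  obtain ⟨C, hC⟩ : ∃ C : Set ℂ, C = {c | c • v ∈ Λ} := ⟨_, rfl⟩
  have hspan : ∀ x ∈ Submodule.span ℝ {l : Fin 2 → ℂ | l ∈ Λ ∧ l ∈ U}, ∃ c ∈ Submodule.span ℝ C, x = c • v := by
    intro x hx
    induction hx using Submodule.span_induction with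
    | mem x hx =>
      obtain ⟨c, hc⟩ := hUv x hx.2
      refine ⟨c, Submodule.subset_span ?_, hc⟩
      rw [hC]
      show c • v ∈ Λ
      rw [← hc]
      exact hx.1
    | zero => exact ⟨0, Submodule.zero_mem _, by rw [zero_smul]⟩
    | add x y _ _ hx hy =>
      obtain ⟨c, hc, rfl⟩ := hx
      obtain ⟨d, hd, rfl⟩ := hy
      exact ⟨c + d, Submodule.add_mem _ hc hd, by rw [add_smul]⟩
    | smul a x _ hx =>
      obtain ⟨c, hc, rfl⟩ := hx
      refine ⟨a • c, Submodule.smul_mem _ _ hc, ?_⟩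
      rw [smul_assoc]
  have hone : (1 : ℂ) ∈ Submodule.span ℝ C := by
    obtain ⟨c, hc, h3⟩ := hspan v h1
    have h4 : c = 1 := by
      have h5 : (c - 1) • v = 0 := by rw [sub_smul, one_smul, ← h3, sub_self]
      rcases smul_eq_zero.1 h5 with h6 | h6
      · exact sub_eq_zero.1 h6
      · exact absurd h6 hv
    rwa [← h4]
  have hI : Complex.I ∈ Submodule.span ℝ C := by
    obtain ⟨c, hc, h3⟩ := hspan _ h2
    have h4 : c = Complex.I := by
      have h5 : (c - Complex.I) • v = 0 := by rw [sub_smul, ← h3, sub_self]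
      rcases smul_eq_zero.1 h5 with h6 | h6
      · exact sub_eq_zero.1 h6
      · exact absurd h6 hv
    rwa [← h4]
  have htop : Submodule.span ℝ C = ⊤ := by
    rw [eq_top_iff]
    intro z _
    have h3 : z = z.re • (1 : ℂ) + z.im • Complex.I := by
      simp
    rw [h3]
    exact Submodule.add_mem _ (Submodule.smul_mem _ _ hone) (Submodule.smul_mem _ _ hI)
  have hC' : ∀ c ∈ C, c • v ∈ Λ := fun c hc => by
    rw [hC] at hc
    exact hc
  -- two independent elements
  obtain ⟨g, hg, -, hli⟩ := Submodule.exists_fun_fin_finrank_span_eq ℝ C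
  have hr : Module.finrank ℝ (Submodule.span ℝ C) = 2 := by
    rw [htop, finrank_top, Complex.finrank_real_complex]
  have h3 := hli.comp _ (finCongr hr).symm.injective
  refine ⟨g ((finCongr hr).symm 0), g ((finCongr hr).symm 1), ?_, ?_, ?_⟩
  · have h4 : ![g ((finCongr hr).symm 0), g ((finCongr hr).symm 1)] = g ∘ (finCongr hr).symm := by
      funext i
      fin_cases i <;> rfl
    rw [h4]
    exact h3
  · exact hC' _ (hg _)
  · exact hC' _ (hg _)

theorem not_special_of_noEllipticCurve {Λ : AddSubgroup (Fin 2 → ℂ)} (h : NoEllipticCurve Λ) {v : Fin 2 → ℂ} (hv : v ≠ 0) : ¬ SpecialDir Λ v := by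
  intro hs
  obtain ⟨ω₁, ω₂, hω, h1, h2⟩ := elliptic_of_special hv hs
  exact hv (h v ω₁ ω₂ hω h1 h2)

end Pool.Agent.H19T
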