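import Pool.Agent.H19T.FAsm
import Pool.Agent.H22.TB.OfSheets
import Pool.Agent.H23.GU.Down
import Pool.Agent.H14.TS.Crv

/-!
# H19T FAsmB: the theorem in the projective space, tori without elliptic curves
-/

set_option autoImplicit false

open Topology Filter Metric MvPolynomial

noncomputable section

namespace Pool.Agent.H19T

open Pool.Agent.H36.BP (EN fs wd Curve BrodyMod)
open Pool.Agent.H14.PP (IsCone CurveAt Tan)
open Pool.Agent.H62.FC (Homog)
open Pool.Agent.H62.EF (MN pr pr_eq_iff pr_smul continuousAt_pr)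
open Pool.Agent.H22.W (PseudoLength tan_entire)
open Pool.Agent.H17 (PN VanishesAt HolomorphicInto ZariskiClosedIn puncturedDisc)
open Pool.Agent.H17LG.Variety (FunField IsLogGeneralType)
open Pool.Agent.H17EF (projVar coneE LE mk_symm prP prP_injective mk_mem_projVar mem_coneE)
open Pool.Agent.H13.SM (conTan)
open Pool.Agent.H13.OT (OrderTwo)
open Pool.Agent.H14.KB (KobayashiHyperbolicModulo)
open Pool.Agent.H14.V (IsLift brodyCurves boundedDistortion IsNull isLift_mk exists_isLift)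
open Pool.Agent.AD (Vd Chart Charts TorusMapV DiscreteSub uV uV_eq sub_mem_iff torusMapV discreteSub_of isCone_coneE charts_coneE IsHolomorphicTorusMap exists_scale_down)
open Pool.Agent.AD.P (fQ fQ_smul fQ_analytic vanishes_iff)

variable {N n : ℕ} {P : Ideal (MvPolynomial (Fin (N + 1)) ℂ)} {Λ : AddSubgroup (Fin n → ℂ)} {u : PN N → (Fin n → ℂ) ⧸ Λ} {J : ℕ} {Ψ : Fin J → Vd n → MN N}

/-- a discrete subgroup contains no complex line -/
theorem not_mem_line (hΛ : DiscreteSub Λ) {v : Vd n} (hv : v ≠ 0) : ∃ z : ℂ, z • v ∉ Λ := by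
  obtain ⟨δ, hδ, h⟩ := hΛ
  by_contra hcon
  push Not at hcon
  have hv' : 0 < ‖v‖ := norm_pos_iff.2 hv
  obtain ⟨t, ht⟩ : ∃ t : ℝ, t = δ / (2 * ‖v‖) := ⟨_, rfl⟩
  have ht0 : 0 < t := by rw [ht]; positivity
  have h1 := h _ (hcon (t : ℂ)) (by
    rw [norm_smul, Complex.norm_real, Real.norm_of_nonneg ht0.le, ht]
    have : δ / (2 * ‖v‖) * ‖v‖ = δ / 2 := by field_simp
    rw [this]
    linarith)
  rw [smul_eq_zero] at h1
  rcases h1 with h1 | h1
  · exact ht0.ne' (by exact_mod_cast h1)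
  · exact hv h1

/-- the curves in the image of a sheet -/
theorem sheet_line (hn : 1 ≤ n) [DiscreteTopology Λ] {Φ : (Fin n → ℂ) → PN N} (hΦ : Φ ∈ sheets (projVar P) Λ u) (w : Fin n → ℂ) :
    ∃ f : ℂ → PN N, HolomorphicInto f Set.univ ∧ (∀ z, f z ∈ projVar P) ∧ (∃ z w, f z ≠ f w) ∧ ∃ z, f z = Φ w := by
  have hΛ := discreteSub_of Λ
  obtain ⟨v, hv⟩ : ∃ v : Vd n, v ≠ 0 := by
    have : Nonempty (Fin n) := ⟨⟨0, hn⟩⟩
    exact exists_ne 0
  refine ⟨fun z => Φ (w + z • v), ?_, fun z => hΦ.2.1 _, ?_, 0, by simp⟩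
  · intro z _
    obtain ⟨φ, hφ, h1⟩ := hΦ.1 (w + z • v)
    have hl : AnalyticAt ℂ (fun z : ℂ => w + z • v) z := by fun_prop
    refine ⟨fun z => φ (w + z • v), AnalyticAt.comp (g := φ) (f := fun z : ℂ => w + z • v) hφ hl, ?_⟩
    exact hl.continuousAt.tendsto.eventually h1
  · obtain ⟨z, hz⟩ := not_mem_line hΛ hv
    refine ⟨z, 0, fun h => hz ?_⟩
    have h1 := congrArg u h
    rw [hΦ.2.2, hΦ.2.2, ← sub_mem_iff] at h1
    simpa using h1

theorem Fam.torusCurves [P.IsPrime] (hn : 1 ≤ n) (hP : Homog P) {z : Fin (n + 1) → FunField P} (hz : IsTranscendenceBasis ℂ z)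
    (hsm : Pool.Agent.AD.NC.IsSmooth P (n + 1)) [DiscreteTopology Λ] (hu : IsHolomorphicTorusMap (projVar P) Λ u)
    (hfib : ∀ f ∈ brodyCurves (projVar P) 1, (∀ z w, u (f z) = u (f w)) → ∀ z w, f z = f w) (h : Fam P Λ u Ψ)
    {m K : ℕ} (hm : 1 ≤ m) {Ω : Fin K → TForm (n + 1) (n + 1) (coneE P) m} (hΩ : TNoZero Ω)
    (hgt : IsLogGeneralType (K := FunField P) (k := n + 1) fun _ => False)
    (hspan : Submodule.span ℝ (Λ : Set (Fin n → ℂ)) = ⊤)
    (hdir : ∀ v, v ≠ 0 → ∀ b, ∀ G : ℂ → EN N, Differentiable ℂ G → (∀ z, G z ∈ coneE P) → (∀ z, uV Λ u (G z) - (b + z • v) ∈ Λ) →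
      ∃ j, ∀ z, pr (G z) = Ψ j (b + z • v)) : TorusCurves P Λ u := by
  obtain ⟨Φ, hΦ, hΦp⟩ := sheets_eq hP h.mem h.all
  have hX := isCone_coneE hP
  have hch := charts_coneE hP hz hsm
  have hΛ := discreteSub_of Λ
  have hT := torusMapV hP hu
  have hlin : ∀ F : ℂ → EN N, Differentiable ℂ F → (∀ z, F z ∈ coneE P) → ∀ v : Vd n, v ≠ 0 → (∀ z, hT.du (F z) (deriv F z) = v) →
      ∀ z, F z ∈ DV (coneE P) Ψ := by
    intro F hF hFX v hv hFv z
    have h1 := hT.affine_of_du hΛ hF hFX hFv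
    obtain ⟨j, hj⟩ := hdir v hv (uV Λ u (F 0)) F hF hFX fun z => by
      have h3 := h1 z 0
      rw [sub_zero] at h3
      rwa [← sub_sub]
    exact ⟨hFX z, j, _, hj z⟩
  obtain ⟨hbr, hpic, hkob⟩ := block_F (p := 1) hX hch hm hΩ hΛ hT h.etale (fib_brody hP hfib) hlin
  have hΞ : ∀ (y : EN N) (h0 : y.ofLp ≠ 0), y ∈ coneE P → (Projectivization.mk ℂ y.ofLp h0 ∈ sheetSet (projVar P) Λ u ↔ y ∈ DV (coneE P) Ψ) :=
    fun y h0 hy => mem_sheetSet_iff hΦ hΦp h0 hy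
  -- all the entire curves
  have hcurves : ∀ f : ℂ → PN N, HolomorphicInto f Set.univ → (∀ z, f z ∈ projVar P) → (∃ z w, f z ≠ f w) →
      ∃ Φ ∈ sheets (projVar P) Λ u, ∃ φ : ℂ → (Fin n → ℂ), Differentiable ℂ φ ∧ (OrderTwo f → ∃ a b : Fin n → ℂ, ∀ z, φ z = z • a + b) ∧
        ∀ z, f z = Φ (φ z) := by
    intro f hf hfX hne
    obtain ⟨F, hF⟩ := exists_isLift hf
    have hFX : ∀ z, F z ∈ coneE P := fun z => (hF.mem_iff hP z).1 (hfX z)
    have hFD := hbr F hF.1 hFX (by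
      obtain ⟨z₁, z₂, hz₁₂⟩ := hne
      refine ⟨z₁, z₂, fun c hc => hz₁₂ ?_⟩
      apply prP_injective
      rw [hF.prP, hF.prP]
      have hc0 : c ≠ 0 := by
        rintro rfl
        rw [zero_smul] at hc
        exact hF.ne_zero z₁ hc
      rw [hc, pr_smul _ hc0])
    obtain ⟨φ, hφ, hφu⟩ := exists_lift_torus hX hT hΛ hF.1 hFX
    obtain ⟨j, hj⟩ := exists_sheet hX hT h.mem h.all h.disj hF.1 hFX (fun z => (hFD z).2) hφ.continuous hφu
    refine ⟨Φ j, by rw [hΦ]; exact ⟨j, rfl⟩, φ, hφ, fun hfo => ?_, fun z => ?_⟩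
    · obtain ⟨c, v, b, G, hc, -, hG, hGX, hGf, hGu⟩ := exists_affine hP hz hsm hu hfib hf hfo hfX hne
      have h1 : ∀ z, φ (c * z) - (b + z • v) ∈ Λ := by
        intro z
        have h2 : ((uV Λ u (G z) : Fin n → ℂ) : (Fin n → ℂ) ⧸ Λ) = (uV Λ u (F (c * z)) : Fin n → ℂ) := by
          rw [coe_uV (hGX z) (hGf z), coe_uV (hFX _) (hF.prP _)]
        rw [← sub_mem_iff] at h2
        have h3 := Λ.sub_mem (Λ.sub_mem (hGu z) h2) (hφu (c * z))
        have h4 : uV Λ u (G z) - (b + z • v) - (uV Λ u (G z) - uV Λ u (F (c * z))) - (uV Λ u (F (c * z)) - φ (c * z)) =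
            φ (c * z) - (b + z • v) := by abel
        rwa [h4] at h3
      have h2 := const_of_mem hΛ (h := fun z => φ (c * z) - (b + z • v)) (by
        have : Continuous fun z : ℂ => φ (c * z) := hφ.continuous.comp (continuous_const.mul continuous_id)
        exact this.sub (continuous_const.add (continuous_id.smul continuous_const))) h1
      refine ⟨c⁻¹ • v, φ 0, fun z => ?_⟩
      have h3 := h2 (c⁻¹ * z)
      simp only [mul_zero, zero_smul, add_zero] at h3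
      rw [mul_inv_cancel_left₀ hc] at h3
      have h4 : φ z = (φ 0 - b) + (b + (c⁻¹ * z) • v) := by rw [← h3]; abel
      rw [h4, smul_smul, mul_comm z]
      abel
    · apply prP_injective
      rw [hF.prP, hj, hΦp]
  have hbrody : ∀ f : ℂ → PN N, HolomorphicInto f Set.univ → (∀ z, f z ∈ projVar P) → (∃ z w, f z ≠ f w) → ∀ z, f z ∈ sheetSet (projVar P) Λ u := by
    intro f hf hfX hne z
    obtain ⟨Φ', hΦ', φ, -, -, h1⟩ := hcurves f hf hfX hne
    simp only [sheetSet, Set.mem_iUnion]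
    exact ⟨Φ', hΦ', φ z, (h1 z).symm⟩
  have hpicard : ∀ f : ℂ → PN N, HolomorphicInto f puncturedDisc → (∀ z ∈ puncturedDisc, f z ∈ projVar P) →
      (∃ z ∈ puncturedDisc, f z ∉ sheetSet (projVar P) Λ u) →
      ∃ g : ℂ → PN N, HolomorphicInto g (Metric.ball 0 1) ∧ ∀ z ∈ puncturedDisc, g z = f z :=
    extends_of_cone hP hΞ (fun F z hF hfr => h.etale.frequently hX.zero_notMem hF hfr) hpic
  have hkobayashi : ∀ (Q : MvPolynomial (Fin (N + 1)) ℂ) (e : ℕ), Q.IsHomogeneous e → (∀ x ∈ sheetSet (projVar P) Λ u, VanishesAt Q x) →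
      KobayashiHyperbolicModulo (projVar P) Q e := by
    intro Q e hQ hQD
    obtain ⟨C, hC⟩ := hkob (fQ Q) e (fQ_analytic Q) (fQ_smul hQ) (fQ_zero hΦ hΦp hQ hQD)
    exact Pool.Agent.AD.kobayashi_of_fs hP hQ (C := C) fun F hF hFX => hC F ⟨hF, hFX⟩
  have hggl := Pool.Agent.H22.TB.gglc_of_sheets ⟨z, hz⟩ (h.torusSheets hP hz) hgt hpicard hbrody
  have hone : ∀ (Q : Ideal (MvPolynomial (Fin (N + 1)) ℂ)) [Q.IsPrime], Homog Q → P ≤ Q → (∃ z : Fin 1 → FunField Q, IsTranscendenceBasis ℂ z) →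
      IsLogGeneralType (K := FunField Q) (k := 1) (fun _ => False) ∨
      ∃ Φ ∈ sheets (projVar P) Λ u, ∃ a b : Fin n → ℂ, a ≠ 0 ∧ EllipticDirection Λ a ∧ projVar Q = Set.range fun z : ℂ => Φ (z • a + b) := by
    intro Q _ hQ hPQ hzQ
    rcases Pool.Agent.H14.TS.curve_or hspan (h.torusSheets hP hz) (fun f hf hfo hfX hne => by
      obtain ⟨Φ', hΦ', φ, -, h4, h5⟩ := hcurves f hf hfX hne
      obtain ⟨a, b, h6⟩ := h4 hfo
      exact ⟨Φ', hΦ', a, b, fun z => by rw [h5, h6]⟩) hQ hPQ hzQ with h7 | ⟨Φ', hΦ', a, b, ha, hell, -, hQr⟩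
    · exact Or.inl h7
    · exact Or.inr ⟨Φ', hΦ', a, b, ha, hell, hQr⟩
  refine ⟨hcurves, ?_, hpicard, hkobayashi, fun h0 => ?_, hggl, hone,
    fun M L P' _ Q _ p hP' hQ hz' hw ⟨e⟩ hp hgt' => Pool.Agent.H23.GU.gglc_virtual ⟨z, hz⟩ hggl hP' hz' e hQ hw hgt' hp⟩
  · ext x
    constructor
    · intro hx
      simp only [sheetSet, Set.mem_iUnion] at hx
      obtain ⟨Φ', hΦ', w, rfl⟩ := hx
      exact sheet_line hn hΦ' w
    · rintro ⟨f, hf, hfX, hne, z, rfl⟩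
      exact hbrody f hf hfX hne z
  · refine hkobayashi 1 0 (isHomogeneous_one _ _) fun x hx => ?_
    simp only [sheetSet, Set.mem_iUnion] at hx
    obtain ⟨Φ', hΦ', -⟩ := hx
    rw [h0] at hΦ'
    exact absurd hΦ' (Set.notMem_empty _)

end Pool.Agent.H19T
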