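import Pool.Agent.AD.G.Spec
import Pool.Agent.H19T.FDefs

/-!
# H19T KSpec: values of the sections of `K_X^m (-1)` at `K`-points

The proofs of `AD/G/Spec.lean` (sections with two tangent vectors, minors `pl v w`) with `n` tangent vectors `v : Fin n → Fin (N + 1) → K` and the minors `mi v`.  `exists_spec`, `coneK`, `conTanK`, `der_aeval`, `der_mem_conTanK`,
`cone_smulK`, `tan_smulK`, `coneK_smul`, `cone_smulC`, `conTan_smulC`, `self_mem_conTan` are used as they are; `transfer` becomes `transferN`; `evp` becomes `evm`; `indep_aux`, `add_aux`, `scale_aux`, `evp_integral` and the theorems on `BSec.val`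
are copied.  `mi_mul`: `Matrix.det_mul`.  `val_det`: `mi_mul` and the homogeneity of the polynomial.
-/

set_option autoImplicit false

open MvPolynomial
open Pool.Agent.H13.SM (conTan cone)
open Pool.Agent.H62.FC (Homog)
open Pool.Agent.AD.G (coneK conTanK)

noncomputable section

namespace Pool.Agent.H19T

variable {N n : ℕ} {K : Type} [Field K] [Algebra ℂ K] {P : Ideal (MvPolynomial (Fin (N + 1)) ℂ)}

/-- the value of the polynomial `A` at `ξ`, `v` -/
def evm {S : Type*} [CommRing S] [Algebra ℂ S] (ξ : Fin (N + 1) → S) (v : Fin n → Fin (N + 1) → S)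
    (A : MvPolynomial (Fin n → Fin (N + 1)) (MvPolynomial (Fin (N + 1)) ℂ)) : S :=
  eval (mi v) (map (aeval ξ).toRingHom A)

private theorem KSpec_mi_map {S S' : Type*} [CommRing S] [CommRing S'] (ψ : S →+* S') (v : Fin n → Fin (N + 1) → S) :
    (fun p => ψ (mi v p)) = mi (fun a i => ψ (v a i)) := by
  funext p
  unfold mi
  rw [RingHom.map_det]
  rfl

/-- naturality -/
theorem evm_map {S S' : Type*} [CommRing S] [Algebra ℂ S] [CommRing S'] [Algebra ℂ S'] (ψ : S →ₐ[ℂ] S')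
    (ξ : Fin (N + 1) → S) (v : Fin n → Fin (N + 1) → S) (A : MvPolynomial (Fin n → Fin (N + 1)) (MvPolynomial (Fin (N + 1)) ℂ)) :
    ψ (evm ξ v A) = evm (fun i => ψ (ξ i)) (fun a i => ψ (v a i)) A := by
  unfold evm
  rw [eval_map, eval_map]
  have h1 := eval₂_comp_left (ψ : S →+* S') (aeval (R := ℂ) ξ).toRingHom (mi v) A
  have h2 : (ψ : S →+* S') ∘ mi v = mi (fun a i => ψ (v a i)) := KSpec_mi_map (ψ : S →+* S') v
  have h3 : (ψ : S →+* S').comp (aeval (R := ℂ) ξ).toRingHom = (aeval (R := ℂ) fun i => ψ (ξ i)).toRingHom := by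
    have h4 : ψ.comp (aeval ξ) = aeval (R := ℂ) fun i => ψ (ξ i) := comp_aeval ξ ψ
    have h5 := congrArg AlgHom.toRingHom h4
    exact h5
  rw [h2, h3] at h1
  exact h1

theorem evm_complex (x : Fin (N + 1) → ℂ) (v : Fin n → Fin (N + 1) → ℂ) (A : MvPolynomial (Fin n → Fin (N + 1)) (MvPolynomial (Fin (N + 1)) ℂ)) :
    evm x v A = eval (mi v) (map (eval x) A) := by
  unfold evm
  congr 2

theorem mi_mul {ι S : Type*} [CommRing S] (G : Matrix (Fin n) (Fin n) S) (v : Fin n → ι → S) (p : Fin n → ι) :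
    mi (fun a i => ∑ c, G a c * v c i) p = G.det * mi v p := by
  unfold mi
  rw [← Matrix.det_mul]
  congr 1

/-! ### The transfer principle -/

private theorem KSpec_transferN {σ : Type} [Finite σ] {ξ : Fin (N + 1) → K} {v : Fin n → Fin (N + 1) → K} {u : σ → K} (hξ : ξ ∈ coneK P K)
    (hv : ∀ j, v j ∈ conTanK P ξ)
    {i₀ : Fin (N + 1)} (h0 : ξ i₀ ≠ 0) (H : MvPolynomial (Fin (N + 1) ⊕ ((Fin n × Fin (N + 1)) ⊕ σ)) ℂ)
    (hH : ∀ x ∈ cone P, x i₀ ≠ 0 → ∀ v : Fin n → Fin (N + 1) → ℂ, (∀ j, v j ∈ conTan P x) → ∀ u : σ → ℂ,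
      eval (Sum.elim x (Sum.elim (fun p => v p.1 p.2) u)) H = 0) :
    aeval (Sum.elim ξ (Sum.elim (fun p => v p.1 p.2) u)) H = 0 := by
  classical
  by_contra hne
  have := Fintype.ofFinite σ
  obtain ⟨y, hy⟩ : ∃ y : Fin (N + 1) ⊕ ((Fin n × Fin (N + 1)) ⊕ σ) → K,
    y = Sum.elim ξ (Sum.elim (fun p => v p.1 p.2) u) := ⟨_, rfl⟩
  rw [← hy] at hne
  obtain ⟨R, φ, hR, hhR, hφ⟩ := Pool.Agent.AD.G.exists_spec (Finset.univ.image y) (mul_ne_zero h0 hne)
  have hyR : ∀ a, y a ∈ R := fun a => hR _ (Finset.mem_image_of_mem _ (Finset.mem_univ a))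
  obtain ⟨z, hz⟩ : ∃ z : Fin (N + 1) ⊕ ((Fin n × Fin (N + 1)) ⊕ σ) → R, ∀ a, (z a : K) = y a :=
    ⟨fun a => ⟨y a, hyR a⟩, fun a => rfl⟩
  have hξz : ∀ i, ((z (Sum.inl i) : R) : K) = ξ i := fun i => by rw [hz, hy]; rfl
  have hvz : ∀ j i, ((z (Sum.inr (Sum.inl (j, i))) : R) : K) = v j i := fun j i => by rw [hz, hy]; rfl
  -- evaluation commutes with the inclusion and with `φ`
  have hinc : ∀ (τ : Type) (q : τ → R) (Q : MvPolynomial τ ℂ), ((aeval q Q : R) : K) = aeval (fun i => (q i : K)) Q := by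
    intro τ q Q
    have h1 := comp_aeval_apply (φ := R.val) q Q
    exact h1
  have hsp : ∀ (τ : Type) (q : τ → R) (Q : MvPolynomial τ ℂ), φ (aeval q Q) = eval (fun i => φ (q i)) Q := by
    intro τ q Q
    rw [comp_aeval_apply, ← coe_aeval_eq_eval]
    rfl
  obtain ⟨ξ', hξ'⟩ : ∃ ξ' : Fin (N + 1) → R, ξ' = fun i => z (Sum.inl i) := ⟨_, rfl⟩
  obtain ⟨v', hv'⟩ : ∃ v' : Fin n → Fin (N + 1) → R, v' = fun j i => z (Sum.inr (Sum.inl (j, i))) := ⟨_, rfl⟩
  have e1 : (fun i => (ξ' i : K)) = ξ := by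
    funext i
    rw [hξ']
    exact hξz i
  have hP0 : ∀ Q ∈ P, eval (fun i => φ (ξ' i)) Q = 0 := by
    intro Q hQ
    rw [← hsp]
    have h1 : aeval ξ' Q = (0 : R) := by
      apply Subtype.ext
      rw [hinc, e1, hξ.2 Q hQ]
      rfl
    rw [h1, map_zero]
  have htan : ∀ (t : Fin (N + 1) → R), (∀ Q ∈ P, ∑ i, (t i : K) * aeval ξ (pderiv i Q) = 0) →
      (fun i => φ (t i)) ∈ conTan P (fun i => φ (ξ' i)) := by
    intro t ht Q hQ
    have h1 : ∑ i, t i * aeval ξ' (pderiv i Q) = (0 : R) := by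
      apply Subtype.ext
      have h2 := ht Q hQ
      rw [← e1] at h2
      rw [← R.coe_val, map_sum]
      simp only [map_mul]
      rw [map_zero, ← h2]
      refine Finset.sum_congr rfl fun i _ => ?_
      rw [R.coe_val, hinc]
    have h2 := congrArg φ h1
    rw [map_sum, map_zero] at h2
    rw [← h2]
    refine Finset.sum_congr rfl fun i _ => ?_
    rw [map_mul, hsp]
  have hmul : φ ⟨ξ i₀ * aeval y H, hhR⟩ = φ (ξ' i₀) * eval (fun a => φ (z a)) H := by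
    have h1 : (⟨ξ i₀ * aeval y H, hhR⟩ : R) = ξ' i₀ * aeval z H := by
      apply Subtype.ext
      show ξ i₀ * aeval y H = (ξ' i₀ : K) * ((aeval z H : R) : K)
      rw [hinc, show (fun a => (z a : K)) = y from funext hz, hξ']
      simp only
      rw [hξz]
    rw [h1, map_mul, hsp]
  rw [hmul] at hφ
  have hx0 : φ (ξ' i₀) ≠ 0 := left_ne_zero_of_mul hφ
  apply right_ne_zero_of_mul hφ
  have h1 := hH (fun i => φ (ξ' i)) ⟨fun h => hx0 (congrFun h i₀), hP0⟩ hx0 (fun j i => φ (v' j i))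
    (fun j => htan (v' j) fun Q hQ => by
      have := hv j Q hQ
      rw [← this]
      exact Finset.sum_congr rfl fun i _ => by rw [hv']; simp only; rw [hvz])
    (fun a => φ (z (Sum.inr (Sum.inr a))))
  have h2 : (Sum.elim (fun i => φ (ξ' i)) (Sum.elim (fun p : Fin n × Fin (N + 1) => φ (v' p.1 p.2))
      fun a => φ (z (Sum.inr (Sum.inr a))))) = fun a => φ (z a) := by
    funext a
    rcases a with a | (a | a)
    · simp only [Sum.elim_inl, hξ']
    · simp only [Sum.elim_inl, Sum.elim_inr, hv']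
    · simp only [Sum.elim_inr]
  rwa [h2] at h1

/-- `A` represents the function `f` on `x i ≠ 0` -/
private def KSpecRep (P : Ideal (MvPolynomial (Fin (N + 1)) ℂ)) (f : (Fin (N + 1) → ℂ) → (Fin n → Fin (N + 1) → ℂ) → ℂ) (i : Fin (N + 1)) (e : ℕ)
    (A : MvPolynomial (Fin n → Fin (N + 1)) (MvPolynomial (Fin (N + 1)) ℂ)) : Prop :=
  ∀ x ∈ cone P, ∀ v : Fin n → Fin (N + 1) → ℂ, (∀ j, v j ∈ conTan P x) → x i ^ e * f x v = evm x v A

section aux

variable {f : (Fin (N + 1) → ℂ) → (Fin n → Fin (N + 1) → ℂ) → ℂ} {i j : Fin (N + 1)} {e e' : ℕ}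
  {A B : MvPolynomial (Fin n → Fin (N + 1)) (MvPolynomial (Fin (N + 1)) ℂ)} {ξ : Fin (N + 1) → K} {v : Fin n → Fin (N + 1) → K}

private theorem KSpec_indep (hA : KSpecRep P f i e A) (hB : KSpecRep P f j e' B) (hξ : ξ ∈ coneK P K) (hv : ∀ j, v j ∈ conTanK P ξ)
    (hi : ξ i ≠ 0) : evm ξ v A * ξ j ^ e' = evm ξ v B * ξ i ^ e := by
  obtain ⟨x', hx'⟩ : ∃ x' : Fin (N + 1) → MvPolynomial (Fin (N + 1) ⊕ ((Fin n × Fin (N + 1)) ⊕ PEmpty)) ℂ,
    x' = fun k => X (Sum.inl k) := ⟨_, rfl⟩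
  obtain ⟨v', hv'⟩ : ∃ v' : Fin n → Fin (N + 1) → MvPolynomial (Fin (N + 1) ⊕ ((Fin n × Fin (N + 1)) ⊕ PEmpty)) ℂ,
    v' = fun l k => X (Sum.inr (Sum.inl (l, k))) := ⟨_, rfl⟩
  -- the value of the polynomial
  have gen : ∀ {S : Type} [CommRing S] [Algebra ℂ S] (x : Fin (N + 1) → S) (v : Fin n → Fin (N + 1) → S) (u : PEmpty → S),
      (aeval (Sum.elim x (Sum.elim (fun p => v p.1 p.2) u)) : _ →ₐ[ℂ] S) (evm x' v' A * x' j ^ e' - evm x' v' B * x' i ^ e) =
        evm x v A * x j ^ e' - evm x v B * x i ^ e := by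
    intro S _ _ x v u
    rw [map_sub, map_mul, map_mul, evm_map, evm_map, map_pow, map_pow, hx', hv']
    simp only [aeval_X, Sum.elim_inl, Sum.elim_inr]
  have key := KSpec_transferN (u := fun a : PEmpty => (a.elim : K)) hξ hv hi
    (evm x' v' A * x' j ^ e' - evm x' v' B * x' i ^ e) (by
      intro x hx _ v hv u
      have h1 := gen x v u
      rw [aeval_eq_eval] at h1
      rw [h1, ← hA x hx v hv, ← hB x hx v hv]
      ring)
  rw [gen] at key
  exact sub_eq_zero.1 key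

private theorem KSpec_add (hP : Homog P) (hA : KSpecRep P f i e A)
    (hadd : ∀ x ∈ cone P, ∀ v : Fin n → Fin (N + 1) → ℂ, (∀ j, v j ∈ conTan P x) → ∀ a : Fin n → ℂ,
      f x (fun j => v j + a j • x) = f x v)
    (hξ : ξ ∈ coneK P K) (hv : ∀ j, v j ∈ conTanK P ξ)
    (hi : ξ i ≠ 0) (a : Fin n → K) : evm ξ (fun j => v j + a j • ξ) A = evm ξ v A := by
  obtain ⟨x', hx'⟩ : ∃ x' : Fin (N + 1) → MvPolynomial (Fin (N + 1) ⊕ ((Fin n × Fin (N + 1)) ⊕ Fin n)) ℂ,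
    x' = fun k => X (Sum.inl k) := ⟨_, rfl⟩
  obtain ⟨v', hv'⟩ : ∃ v' : Fin n → Fin (N + 1) → MvPolynomial (Fin (N + 1) ⊕ ((Fin n × Fin (N + 1)) ⊕ Fin n)) ℂ,
    v' = fun l k => X (Sum.inr (Sum.inl (l, k))) := ⟨_, rfl⟩
  obtain ⟨u', hu'⟩ : ∃ u' : Fin n → MvPolynomial (Fin (N + 1) ⊕ ((Fin n × Fin (N + 1)) ⊕ Fin n)) ℂ,
    u' = fun k => X (Sum.inr (Sum.inr k)) := ⟨_, rfl⟩
  have gen : ∀ {S : Type} [CommRing S] [Algebra ℂ S] (x : Fin (N + 1) → S) (v : Fin n → Fin (N + 1) → S) (u : Fin n → S),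
      (aeval (Sum.elim x (Sum.elim (fun p => v p.1 p.2) u)) : _ →ₐ[ℂ] S)
        (evm x' (fun l => v' l + u' l • x') A - evm x' v' A) =
        evm x (fun l => v l + u l • x) A - evm x v A := by
    intro S _ _ x v u
    rw [map_sub, evm_map, evm_map, hx', hv', hu']
    simp only [aeval_X, Sum.elim_inl, Sum.elim_inr, Pi.add_apply, Pi.smul_apply, smul_eq_mul, map_add, map_mul]
    rfl
  have key := KSpec_transferN (u := a) hξ hv hi
    (evm x' (fun l => v' l + u' l • x') A - evm x' v' A) (by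
      intro x hx _ v hv u
      have h1 := gen x v u
      rw [aeval_eq_eval] at h1
      have hxx := Pool.Agent.AD.G.self_mem_conTan hP hx
      rw [h1, ← hA x hx v hv, ← hA x hx _ (fun l => (conTan P x).add_mem (hv l) ((conTan P x).smul_mem _ hxx)),
        hadd x hx v hv]
      ring)
  rw [gen] at key
  exact sub_eq_zero.1 key

private theorem KSpec_scale (hP : Homog P) (hA : KSpecRep P f i e A)
    (hsc : ∀ x ∈ cone P, ∀ v : Fin n → Fin (N + 1) → ℂ, (∀ j, v j ∈ conTan P x) → ∀ c : ℂ, c ≠ 0 →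
      c * f (c • x) (fun j => c • v j) = f x v)
    (hξ : ξ ∈ coneK P K) (hv : ∀ j, v j ∈ conTanK P ξ)
    (hi : ξ i ≠ 0) {c : K} (hc : c ≠ 0) : c * evm (c • ξ) (fun j => c • v j) A = c ^ e * evm ξ v A := by
  obtain ⟨x', hx'⟩ : ∃ x' : Fin (N + 1) → MvPolynomial (Fin (N + 1) ⊕ ((Fin n × Fin (N + 1)) ⊕ Unit)) ℂ,
    x' = fun k => X (Sum.inl k) := ⟨_, rfl⟩
  obtain ⟨v', hv'⟩ : ∃ v' : Fin n → Fin (N + 1) → MvPolynomial (Fin (N + 1) ⊕ ((Fin n × Fin (N + 1)) ⊕ Unit)) ℂ,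
    v' = fun l k => X (Sum.inr (Sum.inl (l, k))) := ⟨_, rfl⟩
  obtain ⟨u', hu'⟩ : ∃ u' : Unit → MvPolynomial (Fin (N + 1) ⊕ ((Fin n × Fin (N + 1)) ⊕ Unit)) ℂ,
    u' = fun k => X (Sum.inr (Sum.inr k)) := ⟨_, rfl⟩
  have gen : ∀ {S : Type} [CommRing S] [Algebra ℂ S] (x : Fin (N + 1) → S) (v : Fin n → Fin (N + 1) → S) (u : Unit → S),
      (aeval (Sum.elim x (Sum.elim (fun p => v p.1 p.2) u)) : _ →ₐ[ℂ] S)
        (u' () * (u' () * evm (u' () • x') (fun l => u' () • v' l) A - u' () ^ e * evm x' v' A)) =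
        u () * (u () * evm (u () • x) (fun l => u () • v l) A - u () ^ e * evm x v A) := by
    intro S _ _ x v u
    rw [map_mul, map_sub, map_mul, map_mul, map_pow, evm_map, evm_map, hx', hv', hu']
    simp only [aeval_X, Sum.elim_inl, Sum.elim_inr, Pi.smul_apply, smul_eq_mul, map_mul]
    rfl
  have key := KSpec_transferN (u := fun _ : Unit => c) hξ hv hi
    (u' () * (u' () * evm (u' () • x') (fun l => u' () • v' l) A - u' () ^ e * evm x' v' A)) (by
      intro x hx _ v hv u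
      have h1 := gen x v u
      rw [aeval_eq_eval] at h1
      rw [h1]
      rcases eq_or_ne (u ()) 0 with h0 | h0
      · rw [h0, zero_mul]
      · rw [← hA x hx v hv, ← hA _ (Pool.Agent.AD.G.cone_smulC hP hx h0) _ (fun l => Pool.Agent.AD.G.conTan_smulC hP (hv l) _),
          ← hsc x hx v hv _ h0, Pi.smul_apply, smul_eq_mul]
        ring)
  rw [gen] at key
  exact sub_eq_zero.1 ((mul_eq_zero.1 key).resolve_left hc)

/-- the polynomial of a section has integral values at integral points -/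
private theorem KSpec_integral (ord : AddValuation K (WithTop ℤ)) (hc : ∀ c : ℂ, 0 ≤ ord (algebraMap ℂ K c))
    (hξ : ∀ k, 0 ≤ ord (ξ k)) (hv : ∀ l k, 0 ≤ ord (v l k)) : 0 ≤ ord (evm ξ v A) := by
  obtain ⟨O, hO⟩ : ∃ O : Subalgebra ℂ K, ∀ a, a ∈ O ↔ 0 ≤ ord a := by
    refine ⟨{ carrier := {a | 0 ≤ ord a}, mul_mem' := ?_, add_mem' := ?_, algebraMap_mem' := hc }, fun a => Iff.rfl⟩
    · intro a b ha hb
      have ha' : 0 ≤ ord a := ha
      have hb' : 0 ≤ ord b := hb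
      show 0 ≤ ord (a * b)
      rw [ord.map_mul]
      exact add_nonneg ha' hb'
    · intro a b ha hb
      exact le_trans (le_min ha hb) (ord.map_add a b)
  have h1 := evm_map O.val (fun k => (⟨ξ k, (hO _).2 (hξ k)⟩ : O)) (fun l k => (⟨v l k, (hO _).2 (hv l k)⟩ : O)) A
  have h2 : evm ξ v A = O.val (evm (fun k => (⟨ξ k, (hO _).2 (hξ k)⟩ : O)) (fun l k => (⟨v l k, (hO _).2 (hv l k)⟩ : O)) A) := h1.symm
  rw [h2, ← hO]
  exact Subtype.property _

end aux

private theorem KSpec_eval_smul {σ S : Type*} [Fintype σ] [CommRing S] {d : ℕ} {Q : MvPolynomial σ S}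
    (hQ : Q.IsHomogeneous d) (c : S) (x : σ → S) : eval (fun p => c * x p) Q = c ^ d * eval x Q := by
  rw [eval_eq', eval_eq', Finset.mul_sum]
  refine Finset.sum_congr rfl fun m hm => ?_
  have h1 : ∏ i, (c * x i) ^ m i = c ^ d * ∏ i, x i ^ m i := by
    simp only [mul_pow, Finset.prod_mul_distrib]
    rw [Finset.prod_pow_eq_pow_sum]
    have h2 := hQ (mem_support_iff.1 hm)
    rw [Finsupp.weight_apply, Finsupp.sum_fintype _ _ (by simp)] at h2
    simp only [Pi.one_apply, smul_eq_mul, mul_one] at h2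
    rw [h2]
  rw [h1]
  ring

/-- the value at a `K`-point -/
def KSec.val {m : ℕ} (Ω : KSec P n m) (i : Fin (N + 1)) (ξ : Fin (N + 1) → K) (v : Fin n → Fin (N + 1) → K) : K :=
  evm ξ v (Ω.regular i).choose_spec.choose / ξ i ^ (Ω.regular i).choose

theorem KSec.val_det {m : ℕ} (Ω : KSec P n m) (i : Fin (N + 1)) (ξ : Fin (N + 1) → K) (v : Fin n → Fin (N + 1) → K) (G : Matrix (Fin n) (Fin n) K) :
    Ω.val i ξ (fun a k => ∑ c, G a c * v c k) = G.det ^ m * Ω.val i ξ v := by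
  unfold KSec.val
  rw [← mul_div_assoc]
  congr 1
  unfold evm
  have h1 : mi (fun a k => ∑ c, G a c * v c k) = fun p => G.det * mi v p := funext fun p => mi_mul G v p
  have h2 : ((MvPolynomial.map (aeval ξ).toRingHom) (Ω.regular i).choose_spec.choose).IsHomogeneous m :=
    (Ω.regular i).choose_spec.choose_spec.1.map _
  rw [h1, KSpec_eval_smul h2]

private theorem KSpec_rep {m : ℕ} (Ω : KSec P n m) (i : Fin (N + 1)) :
    KSpecRep P Ω.toFun i (Ω.regular i).choose (Ω.regular i).choose_spec.choose := by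
  intro x hx v hv
  rw [evm_complex]
  exact (Ω.regular i).choose_spec.choose_spec.2 x hx v hv

private theorem KSpec_val_indep {m : ℕ} (Ω : KSec P n m) {ξ : Fin (N + 1) → K} {v : Fin n → Fin (N + 1) → K} (hξ : ξ ∈ coneK P K)
    (hv : ∀ j, v j ∈ conTanK P ξ)
    {i j : Fin (N + 1)} (hi : ξ i ≠ 0) (hj : ξ j ≠ 0) : Ω.val i ξ v = Ω.val j ξ v := by
  unfold KSec.val
  rw [div_eq_div_iff (pow_ne_zero _ hi) (pow_ne_zero _ hj)]
  exact KSpec_indep (KSpec_rep Ω i) (KSpec_rep Ω j) hξ hv hi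

private theorem KSpec_val_add {m : ℕ} (Ω : KSec P n m) (hP : Homog P) {ξ : Fin (N + 1) → K} {v : Fin n → Fin (N + 1) → K}
    (hξ : ξ ∈ coneK P K) (hv : ∀ j, v j ∈ conTanK P ξ)
    {i : Fin (N + 1)} (hi : ξ i ≠ 0) (a : Fin n → K) : Ω.val i ξ (fun j => v j + a j • ξ) = Ω.val i ξ v := by
  unfold KSec.val
  rw [KSpec_add hP (KSpec_rep Ω i) Ω.add_smul hξ hv hi]

private theorem KSpec_val_scale {m : ℕ} (Ω : KSec P n m) (hP : Homog P) {ξ : Fin (N + 1) → K} {v : Fin n → Fin (N + 1) → K}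
    (hξ : ξ ∈ coneK P K) (hv : ∀ j, v j ∈ conTanK P ξ)
    {i : Fin (N + 1)} (hi : ξ i ≠ 0) {c : K} (hc : c ≠ 0) :
    c * Ω.val i (c • ξ) (fun j => c • v j) = Ω.val i ξ v := by
  unfold KSec.val
  rw [← mul_div_assoc, KSpec_scale hP (KSpec_rep Ω i) Ω.scale hξ hv hi hc, Pi.smul_apply, smul_eq_mul, mul_pow,
    mul_div_mul_left _ _ (pow_ne_zero _ hc)]

/-- the values of the section on the derivatives of a `K`-point are integral for a valuation, up to the twist -/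
theorem KSec.val_integral {m : ℕ} (Ω : KSec P n m) (hP : Homog P) (ord : AddValuation K (WithTop ℤ)) (hc : ∀ c : ℂ, 0 ≤ ord (algebraMap ℂ K c))
    {ξ : Fin (N + 1) → K} (hξ : ξ ∈ coneK P K) {i j : Fin (N + 1)} (hi : ξ i ≠ 0) (hj : ξ j ≠ 0) (hmin : ∀ k, 0 ≤ ord (ξ k / ξ j))
    {D : Fin n → Derivation ℂ K K} (hD : ∀ a f, 0 ≤ ord f → 0 ≤ ord (D a f)) :
    0 ≤ ord (ξ j * Ω.val i ξ (fun a k => D a (ξ k))) := by
  obtain ⟨η, hη⟩ : ∃ η : Fin (N + 1) → K, η = (ξ j)⁻¹ • ξ := ⟨_, rfl⟩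
  have hcj : (ξ j)⁻¹ ≠ 0 := inv_ne_zero hj
  have hηk : ∀ k, η k = ξ k / ξ j := fun k => by
    rw [hη, Pi.smul_apply, smul_eq_mul]
    ring
  have hηc : η ∈ coneK P K := by
    rw [hη]
    exact Pool.Agent.AD.G.coneK_smul hP hξ hcj
  have hηi : η i ≠ 0 := by
    rw [hηk]
    exact div_ne_zero hi hj
  have hηj : η j = 1 := by
    rw [hηk]
    exact div_self hj
  have hder : ∀ E : Derivation ℂ K K, ((ξ j)⁻¹ • fun k => E (ξ k)) = (fun k => E (η k)) + (-(E (ξ j)⁻¹ * ξ j)) • η := by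
    intro E
    funext k
    rw [Pi.add_apply, Pi.smul_apply, Pi.smul_apply, hη, Pi.smul_apply, smul_eq_mul, smul_eq_mul, smul_eq_mul, Derivation.leibniz,
      smul_eq_mul, smul_eq_mul]
    have : ξ j * (ξ j)⁻¹ = 1 := mul_inv_cancel₀ hj
    linear_combination (E (ξ j)⁻¹ * ξ k) * this
  have h1 := KSpec_val_scale Ω hP hξ (fun l => Pool.Agent.AD.G.der_mem_conTanK hξ (D l)) hi hcj
  have h2 : (fun l => (ξ j)⁻¹ • fun k => D l (ξ k)) = fun l => (fun k => D l (η k)) + (-(D l (ξ j)⁻¹ * ξ j)) • η :=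
    funext fun l => hder (D l)
  rw [← hη, h2, KSpec_val_add Ω hP hηc (fun l => Pool.Agent.AD.G.der_mem_conTanK hηc (D l)) hηi,
    KSpec_val_indep Ω hηc (fun l => Pool.Agent.AD.G.der_mem_conTanK hηc (D l)) hηi (by rw [hηj]; exact one_ne_zero)] at h1
  rw [← h1, ← mul_assoc, mul_inv_cancel₀ hj, one_mul]
  unfold KSec.val
  rw [hηj, one_pow, div_one]
  have hη0 : ∀ k, 0 ≤ ord (η k) := fun k => by
    rw [hηk]
    exact hmin k
  exact KSpec_integral ord hc hη0 (fun l k => hD l _ (hη0 k))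

end Pool.Agent.H19T
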