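import Pool.Agent.AD.G.Gen
import Pool.Agent.H17LG.Variety
import Pool.Agent.H17LG.ModLREG
import Pool.Agent.H17R.Point
import Pool.Agent.H23.Bridge
import Pool.Agent.H19T.KSpec

/-!
# H19T KGen: a projective manifold with ample canonical bundle is of general type

`exists_val_ne` (model: `exists_sections` in `AD/G/Gen.lean`, but shorter): suppose that all the values `(Ω k).val i₀ ξ (D a ξ)` are zero.  The `n` vectors `D a ξ` (`D a = dualDer b a`) are linearly independent (`Gen_li`: `∑ c a * D a (ξ i) = 0` for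
all `i` implies that the derivation `∑ c a D a` kills `K`), so some `n × n` minor `δ` of `(D a ξ i)` is not zero; the coordinate `i₀` of `D a ξ` is `0`, and `ξ i₀ = 1`.  `exists_spec` for the coordinates `ξ i`, `D a ξ i` and `h = δ`: at the closed point
`x = φ ξ ∈ cone P`, `τ a = φ (D a ξ) ∈ conTan P x`, `Fin.cons x τ` is independent (`x i₀ = 1`, `τ a i₀ = 0`, the minor is not zero), and `(Ω k).toFun x τ = 0` for all `k` (`evm_map`): this contradicts `NoCommonZero`.

`generalType_of_noCommonZero` (model: `generalType_of_generates` in `AD/G/Main.lean`, much shorter): `z` a transcendence basis, `b` the basis `d z` of `Ω[K⁄ℂ]` (`exists_basis_kaehler`), `ω = Form.mk 1 z`, `Δ = (Ω k).val i₀ ξ (D a ξ) ≠ 0`,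
`M = m`, `f i = Δ * ξ i` (coordinates permuted so that `f 0 = Δ * ξ i₀`).  For a prime divisor `E` let `g`, `b'` be the coordinates of `exists_divisorCoords`, `ω = γ • Form.mk 1 g`, `γ = det (dualDer b' c (z a))` (as there), `Δ' = (Ω k).val i₀ ξ (D' c ξ)` with
`D' c = dualDer b' c`.  As `D' c = ∑ a, (D' c (z a)) D a`, `val_det` gives `Δ' = γ ^ m * Δ` (up to transposition).  With `ord (ξ j)` minimal: `0 ≤ ord (ξ j * Δ')` (`val_integral`, the derivations `D' c` are regular for `E.ord`), so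
`ord (f i * γ ^ m) = ord (ξ j * Δ') + ord (ξ i / ξ j) ≥ 0`.
-/

set_option autoImplicit false

open MvPolynomial
open Pool.Agent.H13.SM (conTan cone)
open Pool.Agent.H62.FC (Homog)
open Pool.Agent.H17LG.Variety (FunField IsLogGeneralType PoleAtMost ratio)
open Pool.Agent.H17GT (coordFun functionField)
open Pool.Agent.H23.Fano (PrimeDivisorOver Form)
open Pool.Agent.H23 (dualDer dualDer_apply exists_basis_kaehler ιMulti_eq fc fc_ιMulti exists_int det_mem valRing ofFano exists_divisorCoords)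
open Pool.Agent.AD.G (coneK conTanK)

noncomputable section

namespace Pool.Agent.H19T

variable {N n m J : ℕ} {P : Ideal (MvPolynomial (Fin (N + 1)) ℂ)}

/-- if all the maximal minors vanish, there is a vector in the kernel -/
private theorem KGen_ker {F : Type*} [Field F] {r J : ℕ} {M : Fin J → Fin r → F}
    (h : ∀ j : Fin r → Fin J, (Matrix.of fun s k => M (j s) k).det = 0) :
    ∃ y : Fin r → F, y ≠ 0 ∧ ∀ k, ∑ l, M k l * y l = 0 := by
  by_cases htop : Submodule.span F (Set.range M) = ⊤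
  · exfalso
    obtain ⟨f, hf, -, hli⟩ := Submodule.exists_fun_fin_finrank_span_eq F (Set.range M)
    have hr : Module.finrank F (Submodule.span F (Set.range M)) = r := by
      rw [htop, finrank_top, Module.finrank_fin_fun]
    choose j hj using hf
    have h3 : LinearIndependent F (Matrix.of fun s k => M (j ((finCongr hr).symm s)) k).row := by
      have h4 := hli.comp _ (finCongr hr).symm.injective
      have h5 : (Matrix.of fun s k => M (j ((finCongr hr).symm s)) k).row = f ∘ (finCongr hr).symm := by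
        funext s
        exact hj _
      rw [h5]
      exact h4
    rw [Matrix.linearIndependent_rows_iff_isUnit, Matrix.isUnit_iff_isUnit_det] at h3
    exact h3.ne_zero (h (fun s => j ((finCongr hr).symm s)))
  · obtain ⟨f, hf0, hf⟩ := Submodule.exists_le_ker_of_lt_top _ (lt_top_iff_ne_top.2 htop)
    refine ⟨fun l => f (fun j => if l = j then 1 else 0), ?_, ?_⟩
    · intro h0
      apply hf0
      refine LinearMap.ext fun x => ?_
      rw [LinearMap.pi_apply_eq_sum_univ f]
      refine Finset.sum_eq_zero fun i _ => ?_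
      have h1 := congrFun h0 i
      simp only [Pi.zero_apply] at h1
      rw [h1, smul_zero]
    · intro k
      have h1 : f (M k) = 0 := hf (Submodule.subset_span ⟨k, rfl⟩)
      rw [LinearMap.pi_apply_eq_sum_univ f] at h1
      exact h1

private theorem KGen_li {K : Type} [Field K] [Algebra ℂ K] {d : ℕ} (b : Module.Basis (Fin d) K Ω[K⁄ℂ]) {ξ : Fin (N + 1) → K}
    (hgen : IntermediateField.adjoin ℂ (Set.range ξ) = ⊤) {c : Fin d → K}
    (h : ∀ i, ∑ a, c a * dualDer b a (ξ i) = 0) : c = 0 := by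
  have h1 : ∀ f : K, ∑ a, c a * dualDer b a f = 0 := by
    intro f
    have hf : f ∈ IntermediateField.adjoin ℂ (Set.range ξ) := by
      rw [hgen]
      trivial
    induction hf using IntermediateField.adjoin_induction with
    | mem x hx =>
      obtain ⟨i, rfl⟩ := hx
      exact h i
    | algebraMap x =>
      refine Finset.sum_eq_zero fun a _ => ?_
      rw [Derivation.map_algebraMap, mul_zero]
    | add x y _ _ hx hy => simp only [map_add, mul_add, Finset.sum_add_distrib, hx, hy, add_zero]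
    | inv x _ hx =>
      have h2 : ∀ a, c a * dualDer b a x⁻¹ = -x⁻¹ ^ 2 * (c a * dualDer b a x) := by
        intro a
        rw [Derivation.leibniz_inv, smul_eq_mul]
        ring
      simp_rw [h2, ← Finset.mul_sum, hx, mul_zero]
    | mul x y _ _ hx hy =>
      have h2 : ∀ a, c a * dualDer b a (x * y) =
          x * (c a * dualDer b a y) + y * (c a * dualDer b a x) := by
        intro a
        rw [Derivation.leibniz, smul_eq_mul, smul_eq_mul]
        ring
      simp_rw [h2, Finset.sum_add_distrib, ← Finset.mul_sum, hx, hy, mul_zero, add_zero]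
  have h2 : ∀ ω : Ω[K⁄ℂ], ∑ a, c a * b.repr ω a = 0 := by
    intro ω
    have hω : ω ∈ Submodule.span K (Set.range (KaehlerDifferential.D ℂ K)) := by
      rw [KaehlerDifferential.span_range_derivation]
      trivial
    induction hω using Submodule.span_induction with
    | mem x hx =>
      obtain ⟨f, rfl⟩ := hx
      exact h1 f
    | zero => simp
    | add x y _ _ hx hy =>
      simp only [map_add, Finsupp.add_apply, mul_add, Finset.sum_add_distrib, hx, hy, add_zero]
    | smul t x _ hx =>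
      have h3 : ∀ a, c a * b.repr (t • x) a = t * (c a * b.repr x a) := by
        intro a
        rw [map_smul, Finsupp.smul_apply, smul_eq_mul]
        ring
      simp_rw [h3, ← Finset.mul_sum, hx, mul_zero]
  funext a
  have h3 := h2 (b a)
  simp only [Module.Basis.repr_self, Finsupp.single_apply, mul_ite, mul_one, mul_zero,
    Finset.sum_ite_eq, Finset.mem_univ, if_true] at h3
  exact h3

theorem exists_val_ne {K : Type} [Field K] [Algebra ℂ K] (b : Module.Basis (Fin n) K Ω[K⁄ℂ]) {ξ : Fin (N + 1) → K} {i₀ : Fin (N + 1)} (hξ : ξ ∈ coneK P K)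
    (h0 : ξ i₀ = 1) (hgen : IntermediateField.adjoin ℂ (Set.range ξ) = ⊤) {Ω : Fin J → KSec P n m} (hΩ : NoCommonZero Ω) :
    ∃ k, (Ω k).val i₀ ξ (fun a i => dualDer b a (ξ i)) ≠ 0 := by
  classical
  by_contra hcon
  push Not at hcon
  obtain ⟨e, he⟩ : ∃ e : Fin n → Fin (N + 1), (Matrix.of fun s a => dualDer b a (ξ (e s))).det ≠ 0 := by
    by_contra hc
    push Not at hc
    obtain ⟨c, hc0, hc1⟩ := KGen_ker (M := fun i a => dualDer b a (ξ i)) hc
    refine hc0 (KGen_li b hgen fun i => ?_)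
    rw [← hc1 i]
    exact Finset.sum_congr rfl fun a _ => mul_comm _ _
  obtain ⟨R, φ, hR, hh, hφ⟩ := Pool.Agent.AD.G.exists_spec (Finset.univ.image ξ ∪
    Finset.univ.image (fun q : Fin n × Fin (N + 1) => dualDer b q.1 (ξ q.2))) he
  have hξR : ∀ i, ξ i ∈ R := fun i => hR _ (Finset.mem_union_left _
    (Finset.mem_image_of_mem _ (Finset.mem_univ i)))
  have hDR : ∀ a i, dualDer b a (ξ i) ∈ R := by
    intro a i
    apply hR
    refine Finset.mem_union_right _ ?_
    exact Finset.mem_image.2 ⟨(a, i), Finset.mem_univ _, rfl⟩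
  obtain ⟨ξR, hξR'⟩ : ∃ ξR : Fin (N + 1) → R, ∀ i, (ξR i : K) = ξ i := ⟨fun i => ⟨ξ i, hξR i⟩, fun _ => rfl⟩
  obtain ⟨DR, hDR'⟩ : ∃ DR : Fin n → Fin (N + 1) → R, ∀ a i, (DR a i : K) = dualDer b a (ξ i) :=
    ⟨fun a i => ⟨dualDer b a (ξ i), hDR a i⟩, fun _ _ => rfl⟩
  have hinj : ∀ a c : R, (a : K) = c → a = c := fun a c h => Subtype.ext h
  have hδR : (Matrix.of fun s a => φ (DR a (e s))).det ≠ 0 := by
    have h1 : (⟨_, hh⟩ : R) = (Matrix.of fun s a => DR a (e s)).det := by
      apply hinj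
      have h2 : (((Matrix.of fun s a => DR a (e s)).det : R) : K) =
          R.val (Matrix.of fun s a => DR a (e s)).det := rfl
      rw [h2, AlgHom.map_det]
      show (Matrix.of fun s a => dualDer b a (ξ (e s))).det = _
      congr 1
      ext s a
      exact (hDR' a (e s)).symm
    rw [h1, AlgHom.map_det] at hφ
    exact hφ
  obtain ⟨x, hx⟩ : ∃ x : Fin (N + 1) → ℂ, x = fun i => φ (ξR i) := ⟨_, rfl⟩
  obtain ⟨τ, hτ⟩ : ∃ τ : Fin n → Fin (N + 1) → ℂ, τ = fun a i => φ (DR a i) := ⟨_, rfl⟩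
  have hx1 : x i₀ = 1 := by
    have h1 : ξR i₀ = 1 := hinj _ _ (by rw [hξR', h0]; rfl)
    rw [hx]
    show φ (ξR i₀) = 1
    rw [h1, map_one]
  have hτ0 : ∀ a, τ a i₀ = 0 := by
    intro a
    have h1 : DR a i₀ = 0 := hinj _ _ (by
      rw [hDR', h0, Derivation.map_one_eq_zero]
      rfl)
    rw [hτ]
    show φ (DR a i₀) = 0
    rw [h1, map_zero]
  have haev : ∀ Q : MvPolynomial (Fin (N + 1)) ℂ, eval x Q = φ (aeval ξR Q) := by
    intro Q
    have h1 : φ.comp (aeval ξR) = (aeval x : MvPolynomial (Fin (N + 1)) ℂ →ₐ[ℂ] ℂ) := by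
      ext i
      simp [hx]
    have h2 := congrArg (fun g : MvPolynomial (Fin (N + 1)) ℂ →ₐ[ℂ] ℂ => g Q) h1
    simp only [AlgHom.comp_apply] at h2
    rw [h2]
    rw [MvPolynomial.aeval_eq_eval]
  have haev2 : ∀ Q : MvPolynomial (Fin (N + 1)) ℂ, ((aeval ξR Q : R) : K) = aeval ξ Q := by
    intro Q
    have h1 : R.val.comp (aeval ξR) = (aeval ξ : MvPolynomial (Fin (N + 1)) ℂ →ₐ[ℂ] K) := by
      ext i
      simp [hξR']
    have h2 := congrArg (fun g : MvPolynomial (Fin (N + 1)) ℂ →ₐ[ℂ] K => g Q) h1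
    exact h2
  have hxc : x ∈ cone P := by
    refine ⟨fun h => ?_, fun Q hQ => ?_⟩
    · rw [h] at hx1
      exact zero_ne_one hx1
    · rw [haev, hinj (aeval ξR Q) 0 (by rw [haev2, hξ.2 Q hQ]; rfl), map_zero]
  have hτc : ∀ a, τ a ∈ conTan P x := by
    intro a Q hQ
    have h1 := Pool.Agent.AD.G.der_mem_conTanK hξ (dualDer b a) Q hQ
    have h2 : ∑ i, DR a i * aeval ξR (pderiv i Q) = 0 := by
      apply hinj
      have h3 : ((∑ i, DR a i * aeval ξR (pderiv i Q) : R) : K) =
          ∑ i, (DR a i : K) * ((aeval ξR (pderiv i Q) : R) : K) := by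
        push_cast
        rfl
      rw [h3]
      simp only [hDR', haev2]
      exact h1
    have h3 := congrArg φ h2
    rw [map_sum, map_zero] at h3
    rw [← h3]
    refine Finset.sum_congr rfl fun i _ => ?_
    rw [map_mul, haev, hτ]
  have hind : LinearIndependent ℂ (Fin.cons x τ : Fin (n + 1) → Fin (N + 1) → ℂ) := by
    rw [Fintype.linearIndependent_iff]
    intro g hg
    rw [Fin.sum_univ_succ] at hg
    simp only [Fin.cons_zero, Fin.cons_succ] at hg
    have hg0 : g 0 = 0 := by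
      have h1 := congrFun hg i₀
      simp only [Pi.add_apply, Pi.smul_apply, Finset.sum_apply, hx1, hτ0, smul_eq_mul, mul_one,
        mul_zero, Finset.sum_const_zero, add_zero, Pi.zero_apply] at h1
      exact h1
    have h2 : (Matrix.of fun s a => φ (DR a (e s))).mulVec (fun a => g a.succ) = 0 := by
      funext s
      have h1 := congrFun hg (e s)
      simp only [hg0, zero_smul, zero_add, Finset.sum_apply, Pi.smul_apply, smul_eq_mul,
        Pi.zero_apply] at h1
      rw [Matrix.mulVec, dotProduct, Pi.zero_apply, ← h1]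
      refine Finset.sum_congr rfl fun a _ => ?_
      rw [hτ]
      show φ (DR a (e s)) * g a.succ = g a.succ * φ (DR a (e s))
      rw [mul_comm]
    have h3 := Matrix.eq_zero_of_mulVec_eq_zero hδR h2
    intro i
    refine Fin.cases hg0 (fun a => ?_) i
    exact congrFun h3 a
  obtain ⟨k, hk⟩ := hΩ x hxc τ hτc hind
  apply hk
  have hreg := ((Ω k).regular i₀).choose_spec.choose_spec.2 x hxc τ hτc
  rw [hx1, one_pow, one_mul, ← evm_complex] at hreg
  rw [hreg]
  have h1 : evm ξR DR ((Ω k).regular i₀).choose_spec.choose = 0 := by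
    apply hinj
    have h2 := evm_map R.val ξR DR ((Ω k).regular i₀).choose_spec.choose
    have h3 : (fun i => R.val (ξR i)) = ξ := funext fun i => hξR' i
    have h4 : (fun a i => R.val (DR a i)) = fun a i => dualDer b a (ξ i) :=
      funext fun a => funext fun i => hDR' a i
    rw [h3, h4] at h2
    have h5 := hcon k
    unfold KSec.val at h5
    rw [h0, one_pow, div_one] at h5
    show R.val _ = _
    rw [h2, h5]
    rfl
  have h6 := evm_map φ ξR DR ((Ω k).regular i₀).choose_spec.choose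
  rw [h1, map_zero] at h6
  rw [hx, hτ]
  exact h6.symm

private theorem KGen_expand {K : Type} [Field K] [Algebra ℂ K] {d : ℕ} {t : Fin d → K} (b : Module.Basis (Fin d) K Ω[K⁄ℂ])
    (hb : ∀ i, b i = KaehlerDifferential.D ℂ K (t i))
    (X : Derivation ℂ K K) (f : K) : X f = ∑ i, X (t i) * dualDer b i f := by
  have h1 : ∀ g, X g = X.liftKaehlerDifferential (KaehlerDifferential.D ℂ K g) := fun g => by
    rw [Derivation.liftKaehlerDifferential_comp_D]
  rw [h1 f, ← b.sum_repr (KaehlerDifferential.D ℂ K f), map_sum]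
  refine Finset.sum_congr rfl fun i _ => ?_
  rw [map_smul, hb, ← h1, smul_eq_mul, dualDer_apply, mul_comm]

private theorem KGen_quot {K : Type} [Field K] (v : AddValuation K (WithTop ℤ)) {x t : K} (ht : t ≠ 0) (h : v t ≤ v x) : 0 ≤ v (x / t) := by
  rw [div_eq_mul_inv]
  by_cases hx : x = 0
  · rw [hx, zero_mul, v.map_zero]
    exact le_top
  obtain ⟨q, hq⟩ := exists_int v (mul_ne_zero hx (inv_ne_zero ht))
  obtain ⟨p, hp⟩ := exists_int v ht
  have h1 : v (x * t⁻¹) + v t = v x := by rw [← v.map_mul, mul_assoc, inv_mul_cancel₀ ht, mul_one]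
  rw [← h1, hq, hp, ← WithTop.coe_add, WithTop.coe_le_coe] at h
  rw [hq]
  exact_mod_cast (by omega : (0 : ℤ) ≤ q)

/-- a coordinate with minimal order -/
private theorem KGen_min {K : Type} [Field K] (v : AddValuation K (WithTop ℤ)) {ξ : Fin (N + 1) → K} {i₀ : Fin (N + 1)} (h0 : ξ i₀ = 1) :
    ∃ j, ξ j ≠ 0 ∧ ∀ k, 0 ≤ v (ξ k / ξ j) := by
  obtain ⟨j, -, hj⟩ := Finset.exists_min_image Finset.univ (fun k => v (ξ k)) ⟨i₀, Finset.mem_univ _⟩
  have hj0 : ξ j ≠ 0 := by
    intro h
    have h1 := hj i₀ (Finset.mem_univ _)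
    rw [h, v.map_zero, h0, v.map_one] at h1
    exact absurd (top_le_iff.1 h1) (by simp)
  exact ⟨j, hj0, fun k => KGen_quot v hj0 (hj k (Finset.mem_univ _))⟩

/-- a variety of positive dimension has a non-zero coordinate -/
private theorem KGen_coord {Q : Ideal (MvPolynomial (Fin (N + 1)) ℂ)} [Q.IsPrime] {k : ℕ} {z : Fin (k + 1) → FunField Q}
    (hz : IsTranscendenceBasis ℂ z) : ∃ i, coordFun Q i ≠ 0 := by
  by_contra hcon
  push Not at hcon
  have h1 : functionField Q = ⊥ := by
    rw [functionField, IntermediateField.adjoin_eq_bot_iff]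
    rintro f ⟨i, j, rfl⟩
    rw [hcon i, zero_div]
    exact zero_mem _
  have h2 : Transcendental ℂ (z 0) := hz.1.transcendental 0
  apply h2
  set y : functionField Q := z 0 with hy
  have h3 : (y : FractionRing (MvPolynomial (Fin (N + 1)) ℂ ⧸ Q)) ∈
      (⊥ : IntermediateField ℂ (FractionRing (MvPolynomial (Fin (N + 1)) ℂ ⧸ Q))) := by
    rw [← h1]
    exact y.2
  obtain ⟨c, hc⟩ := IntermediateField.mem_bot.mp h3
  have h4 : y = algebraMap ℂ (functionField Q) c := Subtype.ext hc.symm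
  have h5 : IsAlgebraic ℂ y := by
    rw [h4]
    exact isAlgebraic_algebraMap c
  exact h5

theorem generalType_of_noCommonZero [P.IsPrime] (hP : Homog P) (hm : 1 ≤ m) {Ω : Fin J → KSec P n m} (hΩ : NoCommonZero Ω) (hn : 1 ≤ n)
    {z : Fin n → FunField P} (hz : IsTranscendenceBasis ℂ z) : IsLogGeneralType (K := FunField P) (k := n) fun _ => False := by
  classical
  obtain ⟨k, rfl⟩ : ∃ k, n = k + 1 := ⟨n - 1, by omega⟩
  have hess : Algebra.EssFiniteType ℂ (FunField P) := Pool.Agent.H17GT.essFiniteType_functionField P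
  -- the generic point
  obtain ⟨i₀, hi₀⟩ : ∃ i₀, coordFun P i₀ ≠ 0 := KGen_coord hz
  obtain ⟨ξ, hξ⟩ : ∃ ξ : Fin (N + 1) → FunField P, ξ = fun i => ratio P i i₀ := ⟨_, rfl⟩
  have hξ0 : ξ i₀ = 1 := by
    rw [hξ]
    exact Pool.Agent.H17R.ratio_self hi₀
  have hgen : IntermediateField.adjoin ℂ (Set.range ξ) = ⊤ := by
    rw [hξ]
    exact Pool.Agent.H17R.adjoin_ratio hi₀
  have hcone : ξ ∈ coneK P (FunField P) := by
    refine ⟨fun h => ?_, fun R hR => ?_⟩
    · rw [h] at hξ0
      exact zero_ne_one hξ0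
    · rw [hξ, ← MvPolynomial.sum_homogeneousComponent R, map_sum]
      refine Finset.sum_eq_zero fun n _ => ?_
      exact (Pool.Agent.H17R.gen_eq_zero_iff hi₀ (MvPolynomial.homogeneousComponent_isHomogeneous n R)).2 (hP R hR n)
  obtain ⟨b, hb⟩ := exists_basis_kaehler hz
  obtain ⟨k₀, hk₀⟩ := exists_val_ne b hcone hξ0 hgen hΩ
  obtain ⟨Δ, hΔ⟩ : ∃ Δ, Δ = (Ω k₀).val i₀ ξ (fun a i => dualDer b a (ξ i)) := ⟨_, rfl⟩
  have hΔ0 : Δ ≠ 0 := by
    rw [hΔ]
    exact hk₀
  have hω0 : Form.mk (1 : FunField P) z ≠ 0 := by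
    intro h0
    have h1 : fc b ((1 : FunField P) • exteriorPower.ιMulti (FunField P) (k + 1) fun i => KaehlerDifferential.D ℂ (FunField P) (z i)) = 0 := by
      rw [show ((1 : FunField P) • exteriorPower.ιMulti (FunField P) (k + 1) fun i => KaehlerDifferential.D ℂ (FunField P) (z i)) = 0 from h0, map_zero]
    rw [map_smul, fc_ιMulti, smul_eq_mul] at h1
    simp only [← hb, b.det_self, mul_one] at h1
    exact one_ne_zero h1
  refine ⟨m, hm, Form.mk 1 z, hω0, N, fun i => Δ * ξ (Equiv.swap 0 i₀ i), ?_, ?_, ?_⟩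
  · change Δ * ξ (Equiv.swap 0 i₀ 0) ≠ 0
    rw [Equiv.swap_apply_left, hξ0, mul_one]
    exact hΔ0
  · intro i E
    refine ⟨fun _ => ?_, fun h => h.elim⟩
    obtain ⟨g, b', hb', hg0, hg, hreg⟩ := exists_divisorCoords hz (ofFano E)
    change ∀ i, 0 ≤ E.ord (g i) at hg
    change ∀ i f, 0 ≤ E.ord f → 0 ≤ E.ord (dualDer b' i f) at hreg
    obtain ⟨γ, hγ⟩ : ∃ γ, γ = b'.det fun i => KaehlerDifferential.D ℂ (FunField P) (z i) := ⟨_, rfl⟩
    have hη : Form.mk 1 g ∈ Pool.Agent.H23.Fano.regularForms (k + 1) E.localRing := by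
      refine AddSubgroup.subset_closure ⟨1, g, ?_, hg, rfl⟩
      change 0 ≤ E.ord 1
      rw [E.ord.map_one]
    have hω : Form.mk (1 : FunField P) z = γ • Form.mk 1 g := by
      change ((1 : FunField P) • exteriorPower.ιMulti (FunField P) (k + 1) fun i => KaehlerDifferential.D ℂ (FunField P) (z i)) =
        γ • ((1 : FunField P) • exteriorPower.ιMulti (FunField P) (k + 1) fun i => KaehlerDifferential.D ℂ (FunField P) (g i))
      rw [one_smul, one_smul, ιMulti_eq b', ← hγ]
      simp only [hb']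
    refine ⟨γ, Form.mk 1 g, hη, hω, ?_⟩
    rw [Nat.cast_zero, add_zero]
    obtain ⟨G, hG⟩ : ∃ G : Matrix (Fin (k + 1)) (Fin (k + 1)) (FunField P), G = Matrix.of fun c a => dualDer b' c (z a) := ⟨_, rfl⟩
    have hGγ : G.det = γ := by
      rw [hγ, Module.Basis.det_apply, hG]
      rfl
    have hval : (Ω k₀).val i₀ ξ (fun a i => dualDer b' a (ξ i)) = γ ^ m * Δ := by
      rw [hΔ, ← hGγ, ← (Ω k₀).val_det]
      congr 1
      funext a i
      rw [KGen_expand b hb (dualDer b' a) (ξ i), hG]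
      rfl
    obtain ⟨i₁, hi₁, hmin⟩ := KGen_min E.ord hξ0
    have hint := (Ω k₀).val_integral hP E.ord E.ord_const hcone (i := i₀) (by rw [hξ0]; exact one_ne_zero) hi₁ hmin
      (D := fun a => dualDer b' a) (fun a f hf => hreg a f hf)
    rw [hval] at hint
    have hfin : Δ * ξ (Equiv.swap 0 i₀ i) * γ ^ m = (ξ i₁ * (γ ^ m * Δ)) * (ξ (Equiv.swap 0 i₀ i) / ξ i₁) := by
      field_simp
    rw [hfin]
    exact (valRing E.ord E.ord_const).mul_mem hint (hmin _)
  · have h1 : (Set.range fun i => Δ * ξ (Equiv.swap 0 i₀ i) / (Δ * ξ (Equiv.swap 0 i₀ 0))) = Set.range ξ := by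
      ext y
      constructor
      · rintro ⟨i, rfl⟩
        refine ⟨Equiv.swap 0 i₀ i, ?_⟩
        change _ = Δ * ξ (Equiv.swap 0 i₀ i) / (Δ * ξ (Equiv.swap 0 i₀ 0))
        rw [Equiv.swap_apply_left, hξ0, mul_one, mul_div_cancel_left₀ _ hΔ0]
      · rintro ⟨i, rfl⟩
        refine ⟨Equiv.swap 0 i₀ i, ?_⟩
        simp only [Equiv.swap_apply_self, Equiv.swap_apply_left]
        rw [hξ0, mul_one, mul_div_cancel_left₀ _ hΔ0]
    rw [h1, hgen]
    exact ⟨fun x => isAlgebraic_algebraMap (⟨x, IntermediateField.mem_top⟩ : (⊤ : IntermediateField ℂ (FunField P)))⟩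

end Pool.Agent.H19T
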