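import Pool.Agent.AD.P.Bridge
import Pool.Agent.H19T.Defs
import Pool.Agent.H19T.FDefs

/-!
# H19T KTan: algebraic sections of `K_X^m (-1)` as forms on the cone

Model: `AD/P/Bridge.lean` (the same for `BSec`, two tangent vectors).  `toFun' x v = Ω.toFun ((LE N).symm x) fun i => (LE N).symm (v i)`.  `add_smul`, `scale`: those of `KSec` with `conTan_of_tan`.
`det`: choose `i` with `x i ≠ 0`; `x i ^ e * toFun x v = eval (mi v) (map (eval x) A)`; the minors of `A v` are `A.det` times the minors of `v` (`Matrix.det_mul`), and `A` is homogeneous of degree `m`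
(`IsHomogeneous.eval₂`, or `eval_smul`-type lemma used in `Bridge.det_law`).  `analytic`: near `p` the coordinate `i` of `φ` is not zero, and the function is a polynomial in `φ` and the derivatives divided by a power of it.
`TNoZero`: `NoCommonZero` at `(LE N).symm x`, the vectors `(LE N).symm (v i)` are in `conTan` by `conTan_of_tan`, and `Fin.cons x v` stays independent under the linear isomorphism `(LE N).symm`.
-/

set_option autoImplicit false

open Topology Filter Metric MvPolynomial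

noncomputable section

namespace Pool.Agent.H19T

open Pool.Agent.H36.BP (EN fs wd)
open Pool.Agent.H14.PP (IsCone CurveAt Tan)
open Pool.Agent.H62.FC (Homog)
open Pool.Agent.H17EF (coneE LE)
open Pool.Agent.H13.SM (conTan cone)

variable {N : ℕ} {P : Ideal (MvPolynomial (Fin (N + 1)) ℂ)}

theorem KTan_mi_comb {n : ℕ} {ι : Type*} (v : Fin n → ι → ℂ) (A : Matrix (Fin n) (Fin n) ℂ) :
    mi (fun i => ∑ j, A i j • v j) = A.det • mi v := by
  funext p
  simp only [mi, Pi.smul_apply, smul_eq_mul]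
  rw [← Matrix.det_mul]
  congr 1
  ext i j
  simp [Matrix.mul_apply, Finset.sum_apply]

theorem KTan_det_law {n m : ℕ} (Ω : KSec P n m) {x : Fin (N + 1) → ℂ} (hx : x ∈ cone P) {v : Fin n → Fin (N + 1) → ℂ}
    (hv : ∀ i, v i ∈ conTan P x) (A : Matrix (Fin n) (Fin n) ℂ) : Ω.toFun x (fun i => ∑ j, A i j • v j) = A.det ^ m * Ω.toFun x v := by
  obtain ⟨i, hi⟩ : ∃ i, x i ≠ 0 := by
    by_contra h
    push Not at h
    exact hx.1 (funext h)
  obtain ⟨e, B, hB, h⟩ := Ω.regular i
  have h1 := h x hx (fun i => ∑ j, A i j • v j) fun i => (conTan P x).sum_mem fun j _ => (conTan P x).smul_mem _ (hv j)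
  have h2 := h x hx v hv
  rw [KTan_mi_comb, AD.P.eval_smul_of_homog (hB.map _), ← h2] at h1
  have h3 : x i ^ e ≠ 0 := pow_ne_zero _ hi
  apply mul_left_cancel₀ h3
  rw [h1]
  ring

/-- the minors of analytic vectors are analytic -/
theorem KTan_mi_analytic {n : ℕ} {ι G : Type} [Fintype ι] [NormedAddCommGroup G] [NormedSpace ℂ G] {v : G → Fin n → ι → ℂ} {q : G}
    (hv : ∀ i, AnalyticAt ℂ (fun y => v y i) q) : AnalyticAt ℂ (fun y => mi (v y)) q := by
  refine analyticAt_pi_iff.2 fun p => ?_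
  have h1 : (fun y => mi (v y) p) = fun y => ∑ σ : Equiv.Perm (Fin n), ((Equiv.Perm.sign σ : ℤ) : ℂ) * ∏ i, v y (σ i) (p i) := by
    funext y
    simp only [mi, Matrix.det_apply', Matrix.of_apply]
  rw [h1]
  refine Finset.analyticAt_fun_sum _ fun σ _ => ?_
  exact analyticAt_const.mul (Finset.analyticAt_fun_prod _ fun i _ => (analyticAt_pi_iff.1 (hv (σ i))) (p i))

/-- **The section as a form on the cone in the Euclidean space.** -/
noncomputable def KTan_form {n m : ℕ} (Ω : KSec P n m) : TForm n n (coneE P) m where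
  toFun x v := Ω.toFun ((LE N).symm x) fun i => (LE N).symm (v i)
  add_smul x hx v hv a := by
    simp only [map_add, map_smul]
    exact Ω.add_smul _ hx _ (fun j => AD.P.conTan_of_tan (hv j)) a
  det x hx v hv A := by
    simp only [map_sum, map_smul]
    exact KTan_det_law Ω hx (fun j => AD.P.conTan_of_tan (hv j)) A
  scale x hx v hv c hc := by
    simp only [map_smul]
    exact Ω.scale _ hx _ (fun j => AD.P.conTan_of_tan (hv j)) c hc
  analytic φ p w hφ hφX := by
    have hpX : φ p ∈ coneE P := hφX.self_of_nhds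
    obtain ⟨i, hi⟩ := AD.P.exists_ne hpX
    obtain ⟨k, A, -, h⟩ := Ω.regular i
    have hL : ∀ {G : Type} [NormedAddCommGroup G] [NormedSpace ℂ G] {f : G → EN N} {q : G}, AnalyticAt ℂ f q →
        AnalyticAt ℂ (fun y => (LE N).symm (f y)) q := fun hf => ((LE N).symm : EN N →L[ℂ] (Fin (N + 1) → ℂ)).analyticAt _ |>.comp hf
    have hx : AnalyticAt ℂ (fun y : AD.Vd n × (Fin n → AD.Vd n) => (LE N).symm (φ y.1)) (p, w) :=
      hL (AnalyticAt.comp (g := φ) (f := fun y : AD.Vd n × (Fin n → AD.Vd n) => y.1) hφ analyticAt_fst)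
    have h2j : ∀ j, AnalyticAt ℂ (fun y : AD.Vd n × (Fin n → AD.Vd n) => y.2 j) (p, w) := fun j =>
      (analyticAt_pi_iff.1 (analyticAt_snd : AnalyticAt ℂ (fun y : AD.Vd n × (Fin n → AD.Vd n) => y.2) (p, w))) j
    have hv : ∀ j, AnalyticAt ℂ (fun y : AD.Vd n × (Fin n → AD.Vd n) => (LE N).symm (fderiv ℂ φ y.1 (y.2 j))) (p, w) := fun j =>
      hL (AD.P.analyticAt_fderiv_apply (a := fun y : AD.Vd n × (Fin n → AD.Vd n) => y.1) (b := fun y => y.2 j) hφ analyticAt_fst (h2j j))
    have hmi : AnalyticAt ℂ (fun y : AD.Vd n × (Fin n → AD.Vd n) => mi fun j => (LE N).symm (fderiv ℂ φ y.1 (y.2 j))) (p, w) :=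
      KTan_mi_analytic (v := fun (y : AD.Vd n × (Fin n → AD.Vd n)) j => (LE N).symm (fderiv ℂ φ y.1 (y.2 j))) hv
    have hE := AD.P.analyticAt_eval_map A hx hmi
    have hxi : AnalyticAt ℂ (fun y : AD.Vd n × (Fin n → AD.Vd n) => (LE N).symm (φ y.1) i ^ k) (p, w) := ((analyticAt_pi_iff.1 hx) i).pow k
    have hne : (LE N).symm (φ (p, w).1) i ^ k ≠ 0 := pow_ne_zero _ hi
    refine (hE.div hxi hne).congr ?_
    have hc : Tendsto (fun y : AD.Vd n × (Fin n → AD.Vd n) => y.1) (𝓝 (p, w)) (𝓝 p) := continuous_fst.tendsto _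
    filter_upwards [hc.eventually (hφX.eventually_nhds.and hφ.eventually_analyticAt), hxi.continuousAt.eventually_ne hne] with y hy hyi
    obtain ⟨hyX, hyφ⟩ := hy
    have htan : ∀ v : AD.Vd n, Tan (coneE P) (φ y.1) (fderiv ℂ φ y.1 v) := by
      intro v
      have h1 : AnalyticAt ℂ (fun t : ℂ => y.1 + t • v) 0 := by fun_prop
      have h2 : (fun t : ℂ => y.1 + t • v) 0 = y.1 := by simp
      have h3 : AnalyticAt ℂ φ ((fun t : ℂ => y.1 + t • v) 0) := by rw [h2]; exact hyφ
      refine ⟨fun t => φ (y.1 + t • v), ⟨AnalyticAt.comp (g := φ) (f := fun t : ℂ => y.1 + t • v) h3 h1, ?_⟩, by simp, ?_⟩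
      · have h4 : Tendsto (fun t : ℂ => y.1 + t • v) (𝓝 0) (𝓝 y.1) := by
          have := h1.continuousAt.tendsto
          rwa [zero_smul, add_zero] at this
        exact h4.eventually hyX
      · have h5 : HasDerivAt (fun t : ℂ => y.1 + t • v) v 0 := by
          have := ((hasDerivAt_id (0 : ℂ)).smul_const v).const_add y.1
          simpa using this
        have h6 : HasFDerivAt φ (fderiv ℂ φ y.1) ((fun t : ℂ => y.1 + t • v) 0) := by
          rw [h2]
          exact hyφ.differentiableAt.hasFDerivAt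
        exact (h6.comp_hasDerivAt 0 h5).deriv
    have h7 := h _ hyX.self_of_nhds (fun j => (LE N).symm (fderiv ℂ φ y.1 (y.2 j))) fun j => AD.P.conTan_of_tan (htan (y.2 j))
    show eval _ _ / ((LE N).symm (φ y.1) i ^ k) = _
    rw [← h7]
    exact mul_div_cancel_left₀ _ hyi

theorem exists_tforms {n m K : ℕ} {Ω : Fin K → KSec P n m} (hΩ : NoCommonZero Ω) :
    ∃ Ω' : Fin K → TForm n n (coneE P) m, TNoZero Ω' := by
  refine ⟨fun k => KTan_form (Ω k), ?_⟩
  intro x hx v hv hli
  have h1 := hli.map' ((LE N).symm : EN N →ₗ[ℂ] (Fin (N + 1) → ℂ)) (LinearMap.ker_eq_bot.2 (LE N).symm.injective)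
  have h2 : (⇑((LE N).symm : EN N →ₗ[ℂ] (Fin (N + 1) → ℂ)) ∘ (Fin.cons x v : Fin (n + 1) → EN N)) =
      (Fin.cons ((LE N).symm x) (fun i => (LE N).symm (v i)) : Fin (n + 1) → Fin (N + 1) → ℂ) := by
    funext j
    refine Fin.cases ?_ (fun i => ?_) j
    · rfl
    · rfl
  rw [h2] at h1
  exact hΩ _ hx _ (fun j => AD.P.conTan_of_tan (hv j)) h1

end Pool.Agent.H19T
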