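import Pool.Agent.H19T.FAsmB
import Pool.Agent.H19T.KTan
import Pool.Agent.H19T.KGen
import Pool.Agent.TH.Sheets
import Pool.Agent.TH.SetA
import Pool.Agent.H22.HF.Hits

/-!
# H19T FMain: threefolds over two-dimensional complex tori
-/

set_option autoImplicit false

open MvPolynomial Topology Filter
open Pool.Agent.H17 (PN VanishesAt ZariskiClosedIn HolomorphicInto puncturedDisc)
open Pool.Agent.H62.FC (Homog)
open Pool.Agent.H17LG.Variety (FunField IsLogGeneralType)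
open Pool.Agent.H17EF (projVar coneE)
open Pool.Agent.H13.OT (OrderTwo)
open Pool.Agent.H14.V (brodyCurves)
open Pool.Agent.AD (Vd IsHolomorphicTorusMap NoEllipticCurve charts_coneE isCone_coneE torusMapV discreteSub_of uV)
open Pool.Agent.TH (Setting exists_setting)
open Pool.Agent.H36.BP (EN)
open Pool.Agent.H62.EF (MN pr)

noncomputable section

namespace Pool.Agent.H19T

variable {N : ℕ}

theorem exists_direction (Λ : AddSubgroup (Fin 2 → ℂ)) [DiscreteTopology Λ] : ∃ v : Fin 2 → ℂ, v ≠ 0 ∧ ¬ EllipticDirection Λ v := by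
  have hc : Countable Λ := TopologicalSpace.separableSpace_iff_countable.1 inferInstance
  obtain ⟨t, ht⟩ : ∃ t : ℂ, t ∉ Set.range fun l : Λ => (l : Fin 2 → ℂ) 1 / (l : Fin 2 → ℂ) 0 := by
    by_contra hcon
    push Not at hcon
    have h1 : (Set.univ : Set ℂ).Countable := (Set.countable_range fun l : Λ => (l : Fin 2 → ℂ) 1 / (l : Fin 2 → ℂ) 0).mono fun t _ => hcon t
    exact not_countable_complex h1
  refine ⟨![1, t], fun h => ?_, ?_⟩
  · have h1 := congrFun h 0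
    simp at h1
  · rintro ⟨ω₁, ω₂, hω, h1, -⟩
    have hω₁ : ω₁ ≠ 0 := by
      intro h0
      have := hω.ne_zero 0
      exact this h0
    apply ht
    refine ⟨⟨_, h1⟩, ?_⟩
    simp only [Matrix.smul_cons, smul_eq_mul, mul_one, Matrix.cons_val_one, Matrix.cons_val_zero, Matrix.smul_empty]
    rw [mul_div_cancel_left₀ _ hω₁]

theorem fam_of_sheets {X : Set (EN N)} (S : Setting X) {J : ℕ} {Ψ : Fin J → Vd 2 → MN N} (h : S.Sheets J Ψ) {P : Ideal (MvPolynomial (Fin (N + 1)) ℂ)}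
    {Λ : AddSubgroup (Fin 2 → ℂ)} {u : PN N → (Fin 2 → ℂ) ⧸ Λ} (hX : X = coneE P) (hΛ : S.Λ = Λ) (hu : S.u = uV Λ u) : Fam P Λ u Ψ := by
  have hFF : S.FF 0 = ShV (coneE P) Λ (uV Λ u) := by
    unfold Setting.FF ShV
    simp only [zero_add, hX, hΛ, hu]
  refine ⟨fun j => ?_, fun Φ hΦ => ?_, ?_, ?_, ?_⟩
  · rw [← hFF]
    exact h.mem j
  · rw [← hFF] at hΦ
    exact h.all Φ hΦ
  · rw [← hΛ]
    exact h.per
  · rw [← hΛ]
    exact h.disj
  · have h1 := S.exists_etale h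
    rw [hΛ, hu] at h1
    subst hX
    exact h1

/-- **Main theorem.**  `X` a smooth projective threefold with ample canonical bundle, `u` a holomorphic map to a complex torus of dimension two, such that every entire curve `f` in a fibre of `u` with `|f'| ≤ 1` is constant. -/
theorem main (P : Ideal (MvPolynomial (Fin (N + 1)) ℂ)) [P.IsPrime] (hP : Homog P) (hdim : ∃ z : Fin 3 → FunField P, IsTranscendenceBasis ℂ z)
    (hsmooth : Pool.Agent.AD.NC.IsSmooth P 3) (hample : CanonicalAmple P 3) (Λ : AddSubgroup (Fin 2 → ℂ)) [DiscreteTopology Λ]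
    (hspan : Submodule.span ℝ (Λ : Set (Fin 2 → ℂ)) = ⊤) (u : PN N → (Fin 2 → ℂ) ⧸ Λ)
    (hu : IsHolomorphicTorusMap (projVar P) Λ u)
    (hfib : ∀ f ∈ brodyCurves (projVar P) 1, (∀ z w, u (f z) = u (f w)) → ∀ z w, f z = f w) :
    TorusSheets P Λ u ∧
    (∀ f : ℂ → PN N, HolomorphicInto f Set.univ → OrderTwo f → (∀ z, f z ∈ projVar P) → (∃ z w, f z ≠ f w) →
      ∃ a b : Fin 2 → ℂ, a ≠ 0 ∧ (∀ z, u (f z) = ((z • a + b : Fin 2 → ℂ) : (Fin 2 → ℂ) ⧸ Λ)) ∧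
        (EllipticDirection Λ a ∨ ∃ Φ ∈ sheets (projVar P) Λ u, ∀ z, f z = Φ (z • a + b))) ∧
    (NoEllipticCurve Λ → TorusCurves P Λ u) := by
  obtain ⟨z, hz⟩ := hdim
  obtain ⟨m, K, Ω, hm, hΩ⟩ := hample
  have hgt := generalType_of_noCommonZero hP hm hΩ (by norm_num) hz
  obtain ⟨Ω', hΩ'⟩ := exists_tforms hΩ
  have hX := isCone_coneE hP
  have hch := charts_coneE hP hz hsmooth
  have hne : (coneE P).Nonempty := by
    obtain ⟨x, hx, -⟩ := Pool.Agent.H17EF.exists_point hP (exists_coord_of_basis hz) (Q := 1) (fun h => (inferInstance : P.IsPrime).ne_top ((Ideal.eq_top_iff_one P).2 h))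
      (isHomogeneous_one _ _)
    obtain ⟨y, hy, -⟩ := exists_cone_point hP hx
    exact ⟨y, hy⟩
  obtain ⟨S, hSΛ, hSu⟩ := exists_setting hX hch hne (torusMapV hP hu) (discreteSub_of Λ) (cocompact_of_span hspan) hm Ω' hΩ' (fib_all hP hch hu hfib)
  have hDir : ∀ v : Vd 2, v ≠ 0 → ¬ EllipticDirection Λ v → S.Dir v := by
    intro v hv hell
    have h1 : ∀ ω₁ ω₂ : ℂ, LinearIndependent ℝ ![ω₁, ω₂] → ω₁ • v ∈ S.Λ → ω₂ • v ∉ S.Λ := by
      intro ω₁ ω₂ hω h2 h3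
      rw [hSΛ] at h2 h3
      exact hell ⟨ω₁, ω₂, hω, h2, h3⟩
    exact ⟨hv, h1, S.hits_finite hv h1⟩
  obtain ⟨v₀, hv₀, hell₀⟩ := exists_direction Λ
  obtain ⟨J, Ψ, hΨ⟩ := S.exists_sheets (hDir v₀ hv₀ hell₀)
  have hfam := fam_of_sheets S hΨ rfl hSΛ hSu
  have hdir : ∀ v : Vd 2, v ≠ 0 → ¬ EllipticDirection Λ v → ∀ b, ∀ G : ℂ → EN N, Differentiable ℂ G → (∀ z, G z ∈ coneE P) →
      (∀ z, uV Λ u (G z) - (b + z • v) ∈ Λ) → ∃ j, ∀ z, pr (G z) = Ψ j (b + z • v) := by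
    intro v hv hell b G hG hGX hGu
    exact hΨ.curves v (hDir v hv hell) b G ⟨hG, hGX, by rw [hSΛ, hSu]; exact hGu⟩
  refine ⟨hfam.torusSheets hP hz, fun f hf hfo hfX hne => ?_, fun hNE => ?_⟩
  · refine hfam.orderTwo hP hz hsmooth hu hfib (EllipticDirection Λ) ?_ hdir hf hfo hfX hne
    rintro c v hc ⟨ω₁, ω₂, hω, h1, h2⟩
    refine ⟨ω₁ * c⁻¹, ω₂ * c⁻¹, ?_, ?_, ?_⟩
    · have h3 := hω.map' (LinearMap.mulRight ℝ (c⁻¹ : ℂ)) (LinearMap.ker_eq_bot.2 (mul_left_injective₀ (inv_ne_zero hc)))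
      have h4 : ![ω₁ * c⁻¹, ω₂ * c⁻¹] = (LinearMap.mulRight ℝ (c⁻¹ : ℂ)) ∘ ![ω₁, ω₂] := by
        funext i
        fin_cases i <;> rfl
      rw [h4]
      exact h3
    · rw [smul_smul, mul_assoc, inv_mul_cancel₀ hc, mul_one]
      exact h1
    · rw [smul_smul, mul_assoc, inv_mul_cancel₀ hc, mul_one]
      exact h2
  · refine hfam.torusCurves (by norm_num) hP hz hsmooth hu hfib hm hΩ' hgt hspan fun v hv => hdir v hv ?_
    rintro ⟨ω₁, ω₂, hω, h1, h2⟩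
    exact hv (hNE v ω₁ ω₂ hω h1 h2)

end Pool.Agent.H19T
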