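import Pool.Agent.H19T.FAsmB
import Pool.Agent.H19T.KTan
import Pool.Agent.H19T.KGen
import Pool.Agent.H19T.Dir
import Pool.Agent.TN.Sheets
import Pool.Agent.TN.SetA
import Pool.Agent.TN.DirG

/-!
# H19T FMainN: projective manifolds over complex tori of smaller dimension
-/

set_option autoImplicit false

open MvPolynomial Topology Filter
open Pool.Agent.H17 (PN VanishesAt ZariskiClosedIn HolomorphicInto puncturedDisc)
open Pool.Agent.H62.FC (Homog)
open Pool.Agent.H17LG.Variety (FunField IsLogGeneralType)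
open Pool.Agent.H17EF (projVar coneE)
open Pool.Agent.H13.OT (OrderTwo)
open Pool.Agent.H14.V (brodyCurves)
open Pool.Agent.AD (Vd IsHolomorphicTorusMap NoEllipticCurve charts_coneE isCone_coneE torusMapV discreteSub_of uV sub_mem_iff)
open Pool.Agent.TN (Setting exists_setting)
open Pool.Agent.H36.BP (EN)
open Pool.Agent.H62.EF (MN pr)

noncomputable section

namespace Pool.Agent.H19T

variable {N k : ℕ}

theorem fam_of_sheetsN {X : Set (EN N)} (S : Setting k X) {J : ℕ} {Ψ : Fin J → Vd (k + 1) → MN N} (h : S.Sheets J Ψ) {P : Ideal (MvPolynomial (Fin (N + 1)) ℂ)}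
    {Λ : AddSubgroup (Fin (k + 1) → ℂ)} {u : PN N → (Fin (k + 1) → ℂ) ⧸ Λ} (hX : X = coneE P) (hΛ : S.Λ = Λ) (hu : S.u = uV Λ u) : Fam P Λ u Ψ := by
  have hFF : S.FF 0 = ShV (coneE P) Λ (uV Λ u) := by
    unfold Setting.FF ShV
    simp only [zero_add, hX, hΛ, hu]
  refine ⟨fun j => ?_, fun Φ hΦ => ?_, ?_, ?_, ?_⟩
  · rw [← hFF]
    exact h.mem j
  · rw [← hFF] at hΦ
    exact h.all Φ hΦ
  · rw [← hΛ]
    exact h.per
  · rw [← hΛ]
    exact h.disj
  · have h1 := S.exists_etale h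
    rw [hΛ, hu] at h1
    subst hX
    exact h1

theorem special_smul {n : ℕ} {Λ : AddSubgroup (Fin n → ℂ)} (c : ℂ) {v : Fin n → ℂ} (h : SpecialDir Λ v) : SpecialDir Λ (c • v) := by
  obtain ⟨U, hU, h1, h2⟩ := h
  have h3 : ∀ c : ℂ, c • v ∈ Submodule.span ℝ {l : Fin n → ℂ | l ∈ Λ ∧ l ∈ U} := by
    intro c
    have h4 : c • v = c.re • v + c.im • Complex.I • v := by
      funext i
      simp only [Pi.add_apply, Pi.smul_apply, smul_eq_mul, Complex.real_smul]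
      rw [← mul_assoc, ← add_mul, Complex.re_add_im]
    rw [h4]
    exact Submodule.add_mem _ (Submodule.smul_mem _ _ h1) (Submodule.smul_mem _ _ h2)
  exact ⟨U, hU, h3 c, by rw [smul_smul]; exact h3 _⟩

/-- the curves over special lines, if the curves of order two over special lines lie in `D` -/
theorem special_curve {n : ℕ} {P : Ideal (MvPolynomial (Fin (N + 1)) ℂ)} {Λ : AddSubgroup (Fin n → ℂ)} {u : PN N → (Fin n → ℂ) ⧸ Λ} (hP : Homog P)
    [DiscreteTopology Λ] (hu : IsHolomorphicTorusMap (projVar P) Λ u) {J : ℕ} {Ψ : Fin J → Vd n → MN N} (h : Fam P Λ u Ψ) {v b : Vd n} {L : ℝ}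
    (hs : ∀ f : ℂ → PN N, HolomorphicInto f Set.univ → OrderTwo f → (∀ z, f z ∈ projVar P) →
      (∀ z, u (f z) = ((z • v + b : Fin n → ℂ) : (Fin n → ℂ) ⧸ Λ)) → ∀ z, f z ∈ sheetSet (projVar P) Λ u)
    {G : ℂ → EN N} (hG : Differentiable ℂ G) (hGX : ∀ z, G z ∈ coneE P) (hGL : ∀ z, Pool.Agent.H36.BP.fs (G z) (deriv G z) ≤ L)
    (hGu : ∀ z, uV Λ u (G z) - (b + z • v) ∈ Λ) : ∃ j, ∀ z, pr (G z) = Ψ j (b + z • v) := by
  obtain ⟨Φ, hΦ, hΦp⟩ := sheets_eq hP h.mem h.all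
  have hX := isCone_coneE hP
  have hT := torusMapV hP hu
  have h0 : ∀ z, (G z).ofLp ≠ 0 := fun z => (hGX z).1
  have hl := Pool.Agent.H14.V.isLift_mk hG h0
  have hf : HolomorphicInto (fun z => Projectivization.mk ℂ (G z).ofLp (h0 z)) Set.univ := by
    intro z _
    exact ⟨fun z => (G z).ofLp, by
      have := (EuclideanSpace.equiv (Fin (N + 1)) ℂ).toContinuousLinearMap.differentiable.comp hG
      exact this.analyticAt z, Eventually.of_forall fun w => ⟨h0 w, rfl⟩⟩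
  have h1 := hs _ hf (Pool.Agent.H14.V.orderTwo_of hl hGL) (fun z => (hl.mem_iff hP z).2 (hGX z)) (fun z => by
    have h2 := coe_uV (Λ := Λ) (u := u) (hGX z) (hl.prP z)
    rw [← h2, ← sub_mem_iff, add_comm (z • v) b]
    exact hGu z)
  refine exists_sheet hX hT h.mem h.all h.disj hG hGX (fun z => ?_) (φ := fun z => b + z • v) (by fun_prop) hGu
  exact ((mem_sheetSet_iff hΦ hΦp (h0 z) (hGX z)).1 (h1 z)).2

/-- **Main theorem.**  `X` a smooth projective variety of dimension `k + 2` with ample canonical bundle, `u` a holomorphic map to a complex torus of dimension `k + 1`, such that every entire curve `f` in a fibre of `u` with `|f'| ≤ 1` is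
constant. -/
theorem mainN (hk : 1 ≤ k) (P : Ideal (MvPolynomial (Fin (N + 1)) ℂ)) [P.IsPrime] (hP : Homog P) (hdim : ∃ z : Fin (k + 2) → FunField P, IsTranscendenceBasis ℂ z)
    (hsmooth : Pool.Agent.AD.NC.IsSmooth P (k + 2)) (hample : CanonicalAmple P (k + 2)) (Λ : AddSubgroup (Fin (k + 1) → ℂ)) [DiscreteTopology Λ]
    (hspan : Submodule.span ℝ (Λ : Set (Fin (k + 1) → ℂ)) = ⊤) (u : PN N → (Fin (k + 1) → ℂ) ⧸ Λ)
    (hu : IsHolomorphicTorusMap (projVar P) Λ u)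
    (hfib : ∀ f ∈ brodyCurves (projVar P) 1, (∀ z w, u (f z) = u (f w)) → ∀ z w, f z = f w) :
    TorusSheets P Λ u ∧
    (∀ f : ℂ → PN N, HolomorphicInto f Set.univ → OrderTwo f → (∀ z, f z ∈ projVar P) → (∃ z w, f z ≠ f w) →
      ∃ a b : Fin (k + 1) → ℂ, a ≠ 0 ∧ (∀ z, u (f z) = ((z • a + b : Fin (k + 1) → ℂ) : (Fin (k + 1) → ℂ) ⧸ Λ)) ∧
        (SpecialDir Λ a ∨ ∃ Φ ∈ sheets (projVar P) Λ u, ∀ z, f z = Φ (z • a + b))) ∧
    ((∀ f : ℂ → PN N, HolomorphicInto f Set.univ → OrderTwo f → (∀ z, f z ∈ projVar P) → ∀ a b : Fin (k + 1) → ℂ, a ≠ 0 → SpecialDir Λ a →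
      (∀ z, u (f z) = ((z • a + b : Fin (k + 1) → ℂ) : (Fin (k + 1) → ℂ) ⧸ Λ)) → ∀ z, f z ∈ sheetSet (projVar P) Λ u) → TorusCurves P Λ u) := by
  obtain ⟨z, hz⟩ := hdim
  obtain ⟨m, K, Ω, hm, hΩ⟩ := hample
  have hgt := generalType_of_noCommonZero hP hm hΩ (by omega) hz
  obtain ⟨Ω', hΩ'⟩ := exists_tforms hΩ
  have hX := isCone_coneE hP
  have hch := charts_coneE hP hz hsmooth
  have hne : (coneE P).Nonempty := by
    obtain ⟨x, hx, -⟩ := Pool.Agent.H17EF.exists_point hP (exists_coord_of_basis hz) (Q := 1) (fun h => (inferInstance : P.IsPrime).ne_top ((Ideal.eq_top_iff_one P).2 h))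
      (isHomogeneous_one _ _)
    obtain ⟨y, hy, -⟩ := exists_cone_point hP hx
    exact ⟨y, hy⟩
  obtain ⟨S, hSΛ, hSu⟩ := exists_setting hX hch hne (torusMapV hP hu) (discreteSub_of Λ) (cocompact_of_span hspan) hm Ω' hΩ' (fib_all hP hch hu hfib)
  have hDir : ∀ v : Vd (k + 1), v ≠ 0 → ¬ SpecialDir Λ v → S.Dir v := by
    intro v hv hsp
    rw [← hSΛ] at hsp
    exact S.dir_of_not_special hv hsp
  obtain ⟨v₀, hv₀, hsp₀⟩ := exists_not_special (Nat.succ_pos k) Λ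
  obtain ⟨J, Ψ, hΨ⟩ := S.exists_sheets hk (hDir v₀ hv₀ hsp₀)
  have hfam := fam_of_sheetsN S hΨ rfl hSΛ hSu
  have hdir : ∀ v : Vd (k + 1), v ≠ 0 → ¬ SpecialDir Λ v → ∀ b, ∀ G : ℂ → EN N, Differentiable ℂ G → (∀ z, G z ∈ coneE P) →
      (∀ z, uV Λ u (G z) - (b + z • v) ∈ Λ) → ∃ j, ∀ z, pr (G z) = Ψ j (b + z • v) := by
    intro v hv hsp b G hG hGX hGu
    exact hΨ.curves v (hDir v hv hsp) b G ⟨hG, hGX, by rw [hSΛ, hSu]; exact hGu⟩
  refine ⟨hfam.torusSheets hP hz, fun f hf hfo hfX hne => hfam.orderTwo hP hz hsmooth hu hfib (SpecialDir Λ) (fun c v _ h => special_smul c h) hdir hf hfo hfX hne,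
    fun hs => hfam.torusCurves (by omega) hP hz hsmooth hu hfib hm hΩ' hgt hspan fun v hv b G hG hGX hGu => ?_⟩
  by_cases hsp : SpecialDir Λ v
  · obtain ⟨c, L, r₀, c₁, K, hdat⟩ := S.exists_dat hv
    have hGS : G ∈ S.G v b := ⟨hG, hGX, by rw [hSΛ, hSu]; exact hGu⟩
    exact special_curve hP hu hfam (fun f hf hfo hfX hfu => hs f hf hfo hfX v b hv hsp hfu) hG hGX (fun z => ((hdat.sub b hGS).2.2 z).2) hGu
  · exact hdir v hv hsp b G hG hGX hGu

/-- in dimension three: tori without elliptic curves -/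
theorem main3 (P : Ideal (MvPolynomial (Fin (N + 1)) ℂ)) [P.IsPrime] (hP : Homog P) (hdim : ∃ z : Fin 3 → FunField P, IsTranscendenceBasis ℂ z)
    (hsmooth : Pool.Agent.AD.NC.IsSmooth P 3) (hample : CanonicalAmple P 3) (Λ : AddSubgroup (Fin 2 → ℂ)) [DiscreteTopology Λ]
    (hspan : Submodule.span ℝ (Λ : Set (Fin 2 → ℂ)) = ⊤) (hell : NoEllipticCurve Λ) (u : PN N → (Fin 2 → ℂ) ⧸ Λ)
    (hu : IsHolomorphicTorusMap (projVar P) Λ u)
    (hfib : ∀ f ∈ brodyCurves (projVar P) 1, (∀ z w, u (f z) = u (f w)) → ∀ z w, f z = f w) : TorusCurves P Λ u :=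
  (mainN (k := 1) le_rfl P hP hdim hsmooth hample Λ hspan u hu hfib).2.2 fun _ _ _ _ _ _ hv hsp => absurd hsp (not_special_of_noEllipticCurve hell hv)

end Pool.Agent.H19T
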