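import Pool.Agent.H19T.FBr
import Pool.Agent.H19T.FDefs
import Pool.Agent.H19T.Defs

/-!
# H19T FSh: holomorphic maps `ℂ^n → X` over the torus, in the cone and in the projective space
-/

set_option autoImplicit false

open Topology Filter Metric MvPolynomial

noncomputable section

namespace Pool.Agent.H19T

open Pool.Agent.H36.BP (EN fs wd)
open Pool.Agent.H14.PP (IsCone CurveAt Tan)
open Pool.Agent.H62.FC (Homog)
open Pool.Agent.H62.EF (MN pr pr_eq_iff pr_smul continuousAt_pr)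
open Pool.Agent.H17 (PN HolomorphicInto)
open Pool.Agent.H17EF (projVar coneE LE mk_symm prP prP_injective mk_mem_projVar mem_coneE)
open Pool.Agent.AD (Vd Charts TorusMapV DiscreteSub uV uV_eq sub_mem_iff torusMapV discreteSub_of isCone_coneE)

variable {N n : ℕ}

/-- the holomorphic maps to the manifold with the cone `X` over the torus -/
def ShV (X : Set (EN N)) (Λ : AddSubgroup (Vd n)) (u : EN N → Vd n) : Set (Vd n → MN N) :=
  {Ψ | ∀ w, ∃ φ : Vd n → EN N, AnalyticAt ℂ φ w ∧ ∀ᶠ y in 𝓝 w, φ y ∈ X ∧ Ψ y = pr (φ y) ∧ u (φ y) - y ∈ Λ}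

section cone

variable {X : Set (EN N)} {Λ : AddSubgroup (Vd n)} {u : EN N → Vd n}

theorem ShV.point {Ψ : Vd n → MN N} (h : Ψ ∈ ShV X Λ u) (w : Vd n) : ∃ x ∈ X, Ψ w = pr x ∧ u x - w ∈ Λ := by
  obtain ⟨φ, -, h1⟩ := h w
  exact ⟨φ w, h1.self_of_nhds⟩

theorem ShV.mem_of_pr (hX : IsCone X) (hu : TorusMapV X Λ u) {Ψ : Vd n → MN N} (h : Ψ ∈ ShV X Λ u) {x : EN N} (hx : x ∈ X) {w : Vd n}
    (hxw : pr x = Ψ w) : u x - w ∈ Λ := by
  obtain ⟨y, hy, h1, h2⟩ := ShV.point h w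
  rw [h1] at hxw
  obtain ⟨c, hc, rfl⟩ := (pr_eq_iff (fun h => hX.zero_notMem (h ▸ hx)) (fun h => hX.zero_notMem (h ▸ hy))).1 hxw
  have h3 := Λ.add_mem (hu.smul y hy c hc) h2
  rwa [sub_add_sub_cancel] at h3

theorem ShV.continuous (hX : IsCone X) {Ψ : Vd n → MN N} (h : Ψ ∈ ShV X Λ u) : Continuous Ψ := by
  rw [continuous_iff_continuousAt]
  intro w
  obtain ⟨φ, hφ, h1⟩ := h w
  have h2 : φ w ≠ 0 := fun h0 => hX.zero_notMem (h0 ▸ h1.self_of_nhds.1)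
  have h3 : ContinuousAt (fun y => pr (φ y)) w := (continuousAt_pr h2).comp (f := φ) hφ.continuousAt
  exact h3.congr (by filter_upwards [h1] with y hy using hy.2.1.symm)

theorem ShV.translate {Ψ : Vd n → MN N} (h : Ψ ∈ ShV X Λ u) {l : Vd n} (hl : l ∈ Λ) : (fun w => Ψ (w + l)) ∈ ShV X Λ u := by
  intro w
  obtain ⟨φ, hφ, h1⟩ := h (w + l)
  have ht : Tendsto (fun y : Vd n => y + l) (𝓝 w) (𝓝 (w + l)) := (continuous_id.add continuous_const).tendsto w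
  refine ⟨fun y => φ (y + l), ?_, ?_⟩
  · exact AnalyticAt.comp (g := φ) (f := fun y : Vd n => y + l) hφ (analyticAt_id.add analyticAt_const)
  · filter_upwards [ht.eventually h1] with y hy
    refine ⟨hy.1, hy.2.1, ?_⟩
    have h2 := Λ.add_mem hy.2.2 hl
    have h3 : u (φ (y + l)) - (y + l) + l = u (φ (y + l)) - y := by abel
    rwa [h3] at h2

end cone

variable {P : Ideal (MvPolynomial (Fin (N + 1)) ℂ)} {Λ : AddSubgroup (Fin n → ℂ)} {u : PN N → (Fin n → ℂ) ⧸ Λ}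

/-- a point of the cone over a point of `X` -/
theorem exists_cone_point (hP : Homog P) {x : PN N} (hx : x ∈ projVar P) : ∃ y ∈ coneE P, prP x = pr y ∧ ∃ h : y.ofLp ≠ 0, x = Projectivization.mk ℂ y.ofLp h := by
  refine ⟨(LE N) x.rep, ?_, rfl, x.rep_nonzero, x.mk_rep.symm⟩
  rw [mem_coneE hP]
  refine ⟨x.rep_nonzero, ?_⟩
  have h1 : Projectivization.mk ℂ ((LE N).symm ((LE N) x.rep)) x.rep_nonzero = x := x.mk_rep
  rw [h1]
  exact hx

theorem sheets_to (hP : Homog P) {Φ : (Fin n → ℂ) → PN N} (h : Φ ∈ sheets (projVar P) Λ u) : (fun w => prP (Φ w)) ∈ ShV (coneE P) Λ (uV Λ u) := by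
  intro w
  obtain ⟨φ, hφ, h1⟩ := h.1 w
  refine ⟨fun y => (LE N) (φ y), ?_, ?_⟩
  · exact AnalyticAt.comp (g := fun y : Fin (N + 1) → ℂ => (LE N) y) (f := φ) (((LE N) : (Fin (N + 1) → ℂ) →L[ℂ] EN N).analyticAt _) hφ
  · filter_upwards [h1] with y hy
    obtain ⟨h2, h3⟩ := hy
    have h4 : (LE N).symm ((LE N) (φ y)) = φ y := (LE N).symm_apply_apply _
    have h5 : (LE N).symm ((LE N) (φ y)) ≠ 0 := by rw [h4]; exact h2
    have h6 : Projectivization.mk ℂ ((LE N).symm ((LE N) (φ y))) h5 = Φ y := by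
      rw [h3]
      congr 1
    refine ⟨?_, ?_, ?_⟩
    · rw [mem_coneE hP]
      exact ⟨h5, by rw [h6]; exact h.2.1 y⟩
    · rw [← h6]
      exact mk_symm h5
    · rw [sub_mem_iff, uV_eq Λ u h5, h6]
      exact h.2.2 y

theorem sheets_of (hP : Homog P) {Ψ : Vd n → MN N} (h : Ψ ∈ ShV (coneE P) Λ (uV Λ u)) :
    ∃ Φ ∈ sheets (projVar P) Λ u, ∀ w, prP (Φ w) = Ψ w := by
  choose x hxX hx hxu using fun w => ShV.point h w
  have hx0 : ∀ w, (LE N).symm (x w) ≠ 0 := fun w => (hxX w).1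
  have key : ∀ w (y : EN N), y ∈ coneE P → Ψ w = pr y → ∃ h : (LE N).symm y ≠ 0, Projectivization.mk ℂ ((LE N).symm (x w)) (hx0 w) = Projectivization.mk ℂ ((LE N).symm y) h := by
    intro w y hy hwy
    refine ⟨hy.1, ?_⟩
    apply prP_injective
    rw [mk_symm, mk_symm, ← hx, hwy]
  refine ⟨fun w => Projectivization.mk ℂ ((LE N).symm (x w)) (hx0 w), ⟨fun w => ?_, fun w => ?_, fun w => ?_⟩, fun w => ?_⟩
  · obtain ⟨φ, hφ, h1⟩ := h w
    refine ⟨fun y => (LE N).symm (φ y), ?_, ?_⟩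
    · exact AnalyticAt.comp (g := fun y : EN N => (LE N).symm y) (f := φ) (((LE N).symm : EN N →L[ℂ] (Fin (N + 1) → ℂ)).analyticAt _) hφ
    · filter_upwards [h1] with y hy
      exact key y _ hy.1 hy.2.1
  · obtain ⟨h1, h2⟩ := (mem_coneE hP).1 (hxX w)
    exact h2
  · have h1 := hxu w
    rw [sub_mem_iff, uV_eq Λ u (hx0 w)] at h1
    exact h1
  · rw [hx]
    exact mk_symm (hx0 w)

/-- the hypersurface `D` in the cone -/
def DV {J : ℕ} (X : Set (EN N)) (Ψ : Fin J → Vd n → MN N) : Set (EN N) := {x | x ∈ X ∧ ∃ j w, pr x = Ψ j w}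

theorem sheets_eq (hP : Homog P) {J : ℕ} {Ψ : Fin J → Vd n → MN N} (hmem : ∀ j, Ψ j ∈ ShV (coneE P) Λ (uV Λ u))
    (hall : ∀ Φ ∈ ShV (coneE P) Λ (uV Λ u), ∃ j, Φ = Ψ j) :
    ∃ Φ : Fin J → (Fin n → ℂ) → PN N, sheets (projVar P) Λ u = Set.range Φ ∧ ∀ j w, prP (Φ j w) = Ψ j w := by
  choose Φ hΦ hΦp using fun j => sheets_of hP (hmem j)
  refine ⟨Φ, ?_, hΦp⟩
  ext Φ'
  constructor
  · intro h
    obtain ⟨j, hj⟩ := hall _ (sheets_to hP h)
    refine ⟨j, ?_⟩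
    funext w
    apply prP_injective
    rw [hΦp, ← congrFun hj w]
  · rintro ⟨j, rfl⟩
    exact hΦ j

theorem mem_sheetSet_iff {J : ℕ} {Ψ : Fin J → Vd n → MN N} {Φ : Fin J → (Fin n → ℂ) → PN N} (hΦ : sheets (projVar P) Λ u = Set.range Φ)
    (hΦp : ∀ j w, prP (Φ j w) = Ψ j w) {y : EN N} (h : y.ofLp ≠ 0) (hy : y ∈ coneE P) :
    Projectivization.mk ℂ y.ofLp h ∈ sheetSet (projVar P) Λ u ↔ y ∈ DV (coneE P) Ψ := by
  have h1 : prP (Projectivization.mk ℂ y.ofLp h) = pr y := mk_symm (F := y) h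
  constructor
  · intro h2
    simp only [sheetSet, Set.mem_iUnion] at h2
    obtain ⟨Φ', hΦ', w, hw⟩ := h2
    rw [hΦ] at hΦ'
    obtain ⟨j, rfl⟩ := hΦ'
    refine ⟨hy, j, w, ?_⟩
    rw [← h1, ← hw, hΦp]
  · rintro ⟨-, j, w, hw⟩
    simp only [sheetSet, Set.mem_iUnion]
    refine ⟨Φ j, by rw [hΦ]; exact ⟨j, rfl⟩, w, ?_⟩
    apply prP_injective
    rw [hΦp, ← hw, h1]

end Pool.Agent.H19T
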