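import Pool.Agent.H19T.DefsB

/-!
# H19T Glue: the maximum of finitely many local functions
-/

set_option autoImplicit false

open Topology Filter Metric

namespace Pool.Agent.H19T

open Pool.Agent.H36.BP (EN fs wd Sub Curve)
open Pool.Agent.H14.PP (IsCone CurveAt Tan)

variable {N : ℕ} {X : Set (EN N)} {ι : Type}

open Classical in
/-- the maximum of the functions `f i`, where `f i` is defined on `U i` -/
noncomputable def gl (U : ι → Set (EN N)) (f : ι → EN N → ℝ) (x : EN N) : ℝ := ⨆ i, if x ∈ U i then f i x else 0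

variable {U : ι → Set (EN N)} {f : ι → EN N → ℝ}

theorem le_gl [Finite ι] {i : ι} {x : EN N} (hx : x ∈ U i) : f i x ≤ gl U f x := by
  classical
  have h1 := le_ciSup (f := fun i => if x ∈ U i then f i x else 0) (Set.finite_range _).bddAbove i
  simp only [hx, if_true] at h1
  exact h1

theorem gl_nonneg (h0 : ∀ i x, 0 ≤ f i x) (x : EN N) : 0 ≤ gl U f x := by
  classical
  refine Real.iSup_nonneg fun i => ?_
  split_ifs
  · exact h0 i x
  · exact le_rfl

theorem gl_eq [Finite ι] {x : EN N} (h : 0 < gl U f x) : ∃ i, x ∈ U i ∧ gl U f x = f i x := by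
  classical
  rcases isEmpty_or_nonempty ι with he | hne
  · unfold gl at h
    rw [Real.iSup_of_isEmpty] at h
    exact absurd h (lt_irrefl _)
  · obtain ⟨i, hi⟩ := exists_eq_ciSup_of_finite (f := fun i => if x ∈ U i then f i x else 0)
    have hi' : (if x ∈ U i then f i x else 0) = gl U f x := hi
    by_cases hx : x ∈ U i
    · rw [if_pos hx] at hi'
      exact ⟨i, hx, hi'.symm⟩
    · rw [if_neg hx] at hi'
      rw [← hi'] at h
      exact absurd h (lt_irrefl _)

theorem gl_le [Finite ι] {x : EN N} {B : ℝ} (hB : 0 ≤ B) (h : ∀ i, x ∈ U i → f i x ≤ B) : gl U f x ≤ B := by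
  classical
  refine Real.iSup_le (fun i => ?_) hB
  split_ifs with hi
  · exact h i hi
  · exact hB

theorem gl_smul {c : ℂ} {x : EN N} (hU : ∀ i, c • x ∈ U i ↔ x ∈ U i) (hf : ∀ i, x ∈ U i → f i (c • x) = f i x) : gl U f (c • x) = gl U f x := by
  classical
  unfold gl
  congr 1
  funext i
  by_cases hi : x ∈ U i
  · rw [if_pos hi, if_pos ((hU i).2 hi), hf i hi]
  · rw [if_neg hi, if_neg (fun h => hi ((hU i).1 h))]

theorem iSup_cont [Finite ι] {g : ι → EN N → ℝ} {S : Set (EN N)} {x : EN N} (h : ∀ i, ContinuousWithinAt (g i) S x) : ContinuousWithinAt (fun y => ⨆ i, g i y) S x := by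
  classical
  cases nonempty_fintype ι
  rcases isEmpty_or_nonempty ι with he | hne
  · have h1 : (fun y => ⨆ i, g i y) = fun _ => 0 := by
      funext y
      exact Real.iSup_of_isEmpty _
    rw [h1]
    exact continuousWithinAt_const
  · have h1 : (fun y => ⨆ i, g i y) = fun y => Finset.univ.sup' Finset.univ_nonempty (fun i => g i y) := by
      funext y
      exact (Finset.sup'_univ_eq_ciSup _).symm
    rw [h1]
    exact Tendsto.finset_sup'_nhds_apply Finset.univ_nonempty fun i _ => h i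

theorem gl_cont [Finite ι] (hU : ∀ i, ∀ x ∈ U i, ∀ᶠ y in 𝓝[X] x, y ∈ U i) (h0 : ∀ i x, 0 ≤ f i x) (hc : ∀ i, ∀ x ∈ U i, ContinuousWithinAt (f i) X x)
    (hb : ∀ x ∈ X, ∀ i, x ∉ U i → (∀ᶠ y in 𝓝[X] x, y ∉ U i) ∨ ∃ j, x ∈ U j ∧ ∀ᶠ y in 𝓝[X] x, y ∈ U i → f i y ≤ f j y) : ContinuousOn (gl U f) X := by
  classical
  intro x hx
  obtain ⟨g, hg⟩ : ∃ g : EN N → ℝ, g = fun y => ⨆ i, if x ∈ U i then f i y else 0 := ⟨_, rfl⟩
  have hgc : ContinuousWithinAt g X x := by
    rw [hg]
    refine iSup_cont fun i => ?_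
    by_cases hi : x ∈ U i
    · simp only [hi, if_true]
      exact hc i x hi
    · simp only [hi, if_false]
      exact continuousWithinAt_const
  have hgle : ∀ i y, x ∈ U i → f i y ≤ g y := by
    intro i y hi
    have h1 := le_ciSup (f := fun i => if x ∈ U i then f i y else 0) (Set.finite_range _).bddAbove i
    simp only [hi, if_true] at h1
    rw [hg]
    exact h1
  have hg0 : ∀ y, 0 ≤ g y := by
    intro y
    rw [hg]
    refine Real.iSup_nonneg fun i => ?_
    split_ifs
    · exact h0 i y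
    · exact le_rfl
  have hev : ∀ᶠ y in 𝓝[X] x, gl U f y = g y := by
    have h1 : ∀ᶠ y in 𝓝[X] x, ∀ i, (x ∈ U i → y ∈ U i) ∧ (x ∉ U i → y ∈ U i → f i y ≤ g y) := by
      rw [eventually_all]
      intro i
      by_cases hi : x ∈ U i
      · filter_upwards [hU i x hi] with y hy
        exact ⟨fun _ => hy, fun h => absurd hi h⟩
      · rcases hb x hx i hi with h2 | ⟨j, hj, h2⟩
        · filter_upwards [h2] with y hy
          exact ⟨fun h => absurd h hi, fun _ h => absurd h hy⟩
        · filter_upwards [h2] with y hy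
          exact ⟨fun h => absurd h hi, fun _ h => (hy h).trans (hgle j y hj)⟩
    filter_upwards [h1] with y hy
    refine le_antisymm ?_ ?_
    · refine gl_le (hg0 y) fun i hi => ?_
      by_cases hxi : x ∈ U i
      · exact hgle i y hxi
      · exact (hy i).2 hxi hi
    · rw [hg]
      refine Real.iSup_le (fun i => ?_) (gl_nonneg h0 y)
      split_ifs with hi
      · exact le_gl ((hy i).1 hi)
      · exact gl_nonneg h0 y
  exact (hgc.congr_of_eventuallyEq hev (hev.self_of_nhdsWithin hx))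

/-- scaling of a property which holds near a point -/
theorem ev_smul (hX : IsCone X) {P : EN N → Prop} (hP : ∀ z ∈ X, ∀ c : ℂ, c ≠ 0 → P z → P (c • z)) {y : EN N} {c : ℂ} (hc : c ≠ 0)
    (h : ∀ᶠ z in 𝓝[X] y, P z) : ∀ᶠ z in 𝓝[X] (c • y), P z := by
  have h1 : Tendsto (fun z : EN N => c⁻¹ • z) (𝓝[X] (c • y)) (𝓝[X] y) := by
    refine tendsto_nhdsWithin_iff.2 ⟨?_, ?_⟩
    · have h2 : Continuous fun z : EN N => c⁻¹ • z := by fun_prop
      have h3 := h2.tendsto (c • y)
      simp only [smul_smul, inv_mul_cancel₀ hc, one_smul] at h3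
      exact h3.mono_left nhdsWithin_le_nhds
    · filter_upwards [self_mem_nhdsWithin] with z hz
      exact hX.smul_mem z hz c⁻¹ (inv_ne_zero hc)
  filter_upwards [h1.eventually h, self_mem_nhdsWithin] with z hz hzX
  have h2 := hP (c⁻¹ • z) (hX.smul_mem z hzX c⁻¹ (inv_ne_zero hc)) c hc hz
  rwa [smul_smul, mul_inv_cancel₀ hc, one_smul] at h2

/-- lower supports of the maximum -/
theorem gl_sub [Finite ι] (hU : ∀ i, ∀ x ∈ U i, ∀ᶠ y in 𝓝[X] x, y ∈ U i) {F : ℂ → EN N} {z₀ : ℂ} (hF : CurveAt X F z₀) {i : ι} (hi : F z₀ ∈ U i)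
    (he : gl U f (F z₀) = f i (F z₀)) {c : ℝ} (h : Sub (fun z => f i (F z)) z₀ c) : Sub (fun z => gl U f (F z)) z₀ c := by
  refine Pool.Agent.H36.BP.Sub.mono h he.symm ?_
  have h1 : Tendsto F (𝓝 z₀) (𝓝[X] (F z₀)) := tendsto_nhdsWithin_iff.2 ⟨hF.1.continuousAt.tendsto, hF.2⟩
  filter_upwards [h1.eventually (hU i _ hi)] with z hz
  exact le_gl hz

end Pool.Agent.H19T
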