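import Pool.Agent.H19T.DefsB
import Pool.Agent.AD.F.PotC
import Pool.Agent.H36.BP.SubB

/-!
# H19T Spd: the speed is controlled by the distance to `D`
-/

set_option autoImplicit false

open Topology Filter Metric

namespace Pool.Agent.H19T

open Pool.Agent.H36.BP (EN fs wd Sub Curve)
open Pool.Agent.H14.PP (IsCone CurveAt Tan)
open Pool.Agent.H22.W (PseudoLength)
open Pool.Agent.AD (Vd Chart Charts)
open Pool.Agent.AD.F (vel PotHyp potential vel_affine fs_affine)

variable {N : ℕ} {X D : Set (EN N)} {ν : PseudoLength X} {κ C η : ℝ} {σ : EN N → ℝ}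

/-- On a disc of radius `r` where `|F'| ≤ L` away from `D` the speed is bounded by the logarithm of the distance of the centre to `D`. -/
theorem Sig.speed (h : Sig X D ν κ C η σ) : ∃ c : ℝ, 0 < c ∧ ∀ (F : ℂ → EN N) (a : ℂ) (r L : ℝ), 0 < r → 0 ≤ L → Curve X (ball a r) F →
    (∀ z ∈ ball a r, η ≤ σ (F z) → fs (F z) (deriv F z) ≤ L) → 0 < σ (F a) →
    ∀ z₁ : ℂ, ‖z₁ - a‖ ≤ 7 / 8 * r → c * (r ^ 2 * vel ν F z₁ ^ 2) ≤ -Real.log (σ (F a)) + C * (r * L) ^ 2 := by
  obtain ⟨c, hc, hpot⟩ := potential (X := X) ν h.κ_pos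
  refine ⟨c, hc, fun F a r L hr hL hF hfs ha z₁ hz₁ => ?_⟩
  have hmaps : ∀ z ∈ ball (0 : ℂ) 1, a + (r : ℂ) * z ∈ ball a r := by
    intro z hz
    rw [mem_ball_zero_iff] at hz
    rw [mem_ball_iff_norm, add_sub_cancel_left, norm_mul, Complex.norm_real, Real.norm_of_nonneg hr.le]
    calc r * ‖z‖ < r * 1 := mul_lt_mul_of_pos_left hz hr
      _ = r := mul_one r
  have hG : Curve X (ball 0 1) (fun z : ℂ => F (a + (r : ℂ) * z)) := Pool.Agent.AD.F.Curve.comp hF (by fun_prop) hmaps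
  obtain ⟨B, hB⟩ : ∃ B : ℝ, B = C * (r * L) ^ 2 := ⟨_, rfl⟩
  have hB0 : 0 ≤ B := by rw [hB]; exact mul_nonneg h.C_pos.le (sq_nonneg _)
  have hPH : PotHyp ν κ (fun z : ℂ => F (a + (r : ℂ) * z)) (fun z : ℂ => σ (F (a + (r : ℂ) * z)) * Real.exp (-B) * Real.exp (B * ‖z‖ ^ 2)) := by
    refine ⟨hG, ?_, ?_, ?_, ?_⟩
    · refine ContinuousOn.mul (ContinuousOn.mul ?_ continuousOn_const) (Continuous.continuousOn (by fun_prop))
      exact h.cont.comp hG.1.continuousOn hG.2
    · intro z hz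
      have := h.nonneg _ (hG.2 z hz)
      positivity
    · intro z hz
      have h0 := h.nonneg _ (hG.2 z hz)
      have h1 := h.le_one _ (hG.2 z hz)
      rw [mul_assoc, ← Real.exp_add]
      have hz1 : ‖z‖ < 1 := by rwa [mem_ball_zero_iff] at hz
      have h2 : Real.exp (-B + B * ‖z‖ ^ 2) ≤ 1 := by
        rw [Real.exp_le_one_iff]
        nlinarith [norm_nonneg z, mul_nonneg hB0 (show (0 : ℝ) ≤ 1 - ‖z‖ ^ 2 by nlinarith [norm_nonneg z])]
      calc σ (F (a + (r : ℂ) * z)) * Real.exp (-B + B * ‖z‖ ^ 2) ≤ 1 * 1 := mul_le_mul h1 h2 (Real.exp_pos _).le zero_le_one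
        _ = 1 := one_mul 1
    · intro z hz hpos
      have hGz : CurveAt X (fun z : ℂ => F (a + (r : ℂ) * z)) z := Pool.Agent.AD.F.Curve.at isOpen_ball hG hz
      have hσ : 0 < σ (F (a + (r : ℂ) * z)) := by
        rcases (h.nonneg _ (hG.2 z hz)).eq_or_lt with e | e
        · rw [← e] at hpos
          simp at hpos
        · exact e
      have hexp : Sub (fun z : ℂ => Real.exp (B * ‖z‖ ^ 2)) z B := by
        have h1 := Pool.Agent.H36.BP.Sub.exp_sq (t := fun z : ℂ => z) (z₀ := z) analyticAt_id B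
        rw [deriv_id'', norm_one, one_pow, mul_one] at h1
        exact h1
      have hcE : Sub (fun z : ℂ => σ (F (a + (r : ℂ) * z))) z (κ * vel ν (fun z : ℂ => F (a + (r : ℂ) * z)) z ^ 2 - B) := by
        by_cases hη : σ (F (a + (r : ℂ) * z)) < η
        · exact (h.near _ z hGz hσ hη).anti (by linarith)
        · refine (h.sub _ z hGz hσ).anti ?_
          have h1 := hfs _ (hmaps z hz) (not_lt.1 hη)
          have h2 := fs_affine isOpen_ball hF.1 (r : ℂ) a (z := z) (hmaps z hz)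
          have h3 : fs (F (a + (r : ℂ) * z)) (deriv (fun z : ℂ => F (a + (r : ℂ) * z)) z) ≤ r * L := by
            rw [h2, Complex.norm_real, Real.norm_of_nonneg hr.le]
            exact mul_le_mul_of_nonneg_left h1 hr.le
          have h4 : fs (F (a + (r : ℂ) * z)) (deriv (fun z : ℂ => F (a + (r : ℂ) * z)) z) ^ 2 ≤ (r * L) ^ 2 :=
            pow_le_pow_left₀ (Pool.Agent.H36.BP.fs_nonneg _ _) h3 2
          have h5 := mul_le_mul_of_nonneg_left h4 h.C_pos.le
          rw [hB]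
          linarith
      have h2 := ((hcE.const_mul (Real.exp_pos (-B))).mul hexp)
      refine (h2.congr (Eventually.of_forall fun w => ?_)).anti (by linarith)
      ring
  obtain ⟨z, hz⟩ : ∃ z : ℂ, a + (r : ℂ) * z = z₁ := ⟨(z₁ - a) / r, by
    have : (r : ℂ) ≠ 0 := by exact_mod_cast hr.ne'
    field_simp
    ring⟩
  have hz78 : ‖z‖ ≤ 7 / 8 := by
    have h1 : z₁ - a = (r : ℂ) * z := by rw [← hz]; ring
    rw [h1, norm_mul, Complex.norm_real, Real.norm_of_nonneg hr.le, mul_comm] at hz₁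
    exact le_of_mul_le_mul_right hz₁ hr
  have hzb : z ∈ ball (0 : ℂ) 1 := by
    rw [mem_ball_zero_iff]
    linarith
  have h1 := hpot _ _ hPH z hz78 0 (mem_ball_self one_pos)
  have h2 := vel_affine ν isOpen_ball hF (r : ℂ) a (z := z) (hmaps z hzb)
  rw [h2, Complex.norm_real, Real.norm_of_nonneg hr.le, hz] at h1
  simp only [mul_zero, add_zero, norm_zero, ne_eq, OfNat.ofNat_ne_zero, not_false_eq_true, zero_pow, Real.exp_zero, mul_one, sub_zero] at h1
  have h3 := Real.log_le_log (mul_pos ha (Real.exp_pos _)) h1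
  rw [Real.log_exp, Real.log_mul ha.ne' (Real.exp_pos _).ne', Real.log_exp] at h3
  rw [← hB]
  nlinarith

end Pool.Agent.H19T
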