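import Pool.Agent.H19T.Resc
import Pool.Agent.H19T.Spd
import Pool.Agent.AD.W.Scale

/-!
# H19T Kob: discs have bounded derivative, with the weight `σ`
-/

set_option autoImplicit false

open Topology Filter Metric

namespace Pool.Agent.H19T

open Pool.Agent.H36.BP (EN fs wd Sub Curve fs_nonneg)
open Pool.Agent.H14.PP (IsCone CurveAt Tan)
open Pool.Agent.H22.W (PseudoLength)
open Pool.Agent.H62.EF (pr limit_curves)
open Pool.Agent.AD (Vd Chart Charts exists_bound_disc const_of_bounded)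
open Pool.Agent.AD.F (vel potential vel_affine fs_affine)

variable {N : ℕ} {X D : Set (EN N)} {ν : PseudoLength X} {κ C η : ℝ} {σ : EN N → ℝ}

/-- the numerical step: a weighted derivative equal to `1` forces the weight to be large -/
theorem Kob_num {c K B : ℝ} (hc : 0 < c) (hK : 0 < K) (hB : 0 ≤ B) : ∃ c₁ : ℝ, 0 < c₁ ∧ c₁ ≤ 1 ∧ ∀ s f v : ℝ, 0 < s → s ≤ 1 → 0 ≤ v → s * f = 1 → f ≤ K * max v (8 / 7) →
    c * v ^ 2 ≤ -Real.log s + B → c₁ ≤ s := by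
  refine ⟨min 1 (min (c / (K ^ 2 * (1 + B))) (7 / (8 * K))), by positivity, min_le_left _ _, fun s f v hs hs1 hv hsf hf hcv => ?_⟩
  have h1 : 1 ≤ s * (K * max v (8 / 7)) := by
    rw [← hsf]
    exact mul_le_mul_of_nonneg_left hf hs.le
  rcases le_total v (8 / 7) with h | h
  · rw [max_eq_right h] at h1
    refine (min_le_right _ _).trans ((min_le_right _ _).trans ?_)
    rw [div_le_iff₀ (by positivity)]
    linarith
  · rw [max_eq_left h] at h1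
    refine (min_le_right _ _).trans ((min_le_left _ _).trans ?_)
    rw [div_le_iff₀ (by positivity)]
    have h2 : -Real.log s ≤ 1 / s := by
      have h3 := Real.log_le_sub_one_of_pos (show 0 < 1 / s by positivity)
      rw [one_div, Real.log_inv] at h3
      rw [one_div]
      linarith
    have h3 : 1 ≤ (s * (K * v)) ^ 2 := one_le_pow₀ h1
    have h4 : c * v ^ 2 * s ≤ 1 + B := by
      have h5 : c * v ^ 2 * s ≤ (1 / s + B) * s := mul_le_mul_of_nonneg_right (by linarith) hs.le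
      have h6 : (1 / s + B) * s = 1 + B * s := by field_simp
      rw [h6] at h5
      nlinarith
    have h7 : (s * (K * v)) ^ 2 * c = s * K ^ 2 * (c * v ^ 2 * s) := by ring
    calc c = 1 * c := (one_mul c).symm
      _ ≤ (s * (K * v)) ^ 2 * c := mul_le_mul_of_nonneg_right h3 hc.le
      _ = s * K ^ 2 * (c * v ^ 2 * s) := h7
      _ ≤ s * K ^ 2 * (1 + B) := mul_le_mul_of_nonneg_left h4 (by positivity)
      _ = s * (K ^ 2 * (1 + B)) := by ring

theorem Sig.kob (hX : IsCone X) (h : Sig X D ν κ C η σ) (hNT : ν.NoNullBrody) (hlin : LinIn X D ν) :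
    ∃ K : ℝ, 0 < K ∧ ∀ F : ℂ → EN N, Curve X (ball 0 1) F → σ (F 0) * fs (F 0) (deriv F 0) ≤ K := by
  by_contra hcon
  push Not at hcon
  obtain ⟨c, hc, hspeed⟩ := h.speed
  obtain ⟨K₁, hK₁, hdisc⟩ := exists_bound_disc hX ν hNT
  have hbig : ∀ k : ℕ, ∃ F : ℂ → EN N, Curve X (ball 0 1) F ∧ 4 * ((k : ℝ) + 1) < σ (F 0) * fs (F 0) (deriv F 0) := fun k => hcon _ (by positivity)
  choose F hF hFb using hbig
  have hX0 : ∀ x ∈ X, x ≠ 0 := fun x hx h => hX.zero_notMem (h ▸ hx)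
  have hresc := fun k : ℕ => rescale_weight (hF k).1 (fun z hz => hX0 _ ((hF k).2 z hz)) (s := fun z => σ (F k z)) (h.cont.comp (hF k).1.continuousOn (hF k).2)
    (fun z hz => h.nonneg _ ((hF k).2 z hz)) k (hFb k)
  choose z₀ a ha hin h1 h2 using hresc
  have ha0 : ∀ k, 0 < a k := fun k => lt_trans (by positivity) (ha k)
  have hin' : ∀ k : ℕ, ∀ ζ ∈ ball (0 : ℂ) ((k : ℝ) + 1), z₀ k + (((a k)⁻¹ : ℝ) : ℂ) * ζ ∈ ball (0 : ℂ) 1 := by
    intro k ζ hζ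
    rw [mem_ball_zero_iff]
    have := hin k ζ hζ
    linarith
  obtain ⟨G, hGdef⟩ : ∃ G : ℕ → ℂ → EN N, G = fun k ζ => F k (z₀ k + (((a k)⁻¹ : ℝ) : ℂ) * ζ) := ⟨_, rfl⟩
  have hG : ∀ k : ℕ, Curve X (ball 0 ((k : ℝ) + 1)) (G k) := by
    intro k
    rw [hGdef]
    exact Pool.Agent.AD.F.Curve.comp (hF k) (by fun_prop) (hin' k)
  have hG1 : ∀ k : ℕ, σ (G k 0) * fs (G k 0) (deriv (G k) 0) = 1 := by
    intro k
    have := h1 k
    rw [hGdef]
    simpa only [mul_zero, add_zero] using this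
  have hG2 : ∀ k : ℕ, ∀ ζ ∈ ball (0 : ℂ) ((k : ℝ) + 1), σ (G k ζ) * fs (G k ζ) (deriv (G k) ζ) ≤ 2 := by
    intro k ζ hζ
    rw [hGdef]
    exact h2 k ζ hζ
  have hk1 : ∀ k : ℕ, (1 : ℝ) ≤ (k : ℝ) + 1 := fun k => by
    have : (0 : ℝ) ≤ k := Nat.cast_nonneg k
    linarith
  have h00 : ∀ k : ℕ, (0 : ℂ) ∈ ball (0 : ℂ) ((k : ℝ) + 1) := fun k => mem_ball_self (by positivity)
  have hGfs : ∀ k : ℕ, ∀ ζ ∈ ball (0 : ℂ) ((k : ℝ) + 1), η ≤ σ (G k ζ) → fs (G k ζ) (deriv (G k) ζ) ≤ 2 / η := by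
    intro k ζ hζ hη
    rw [le_div_iff₀ h.η_pos]
    have h3 := hG2 k ζ hζ
    have h4 := mul_le_mul_of_nonneg_right hη (fs_nonneg (G k ζ) (deriv (G k) ζ))
    linarith
  have hσ0 : ∀ k, 0 < σ (G k 0) := by
    intro k
    rcases (h.nonneg _ ((hG k).2 0 (h00 k))).eq_or_lt with e | e
    · have := hG1 k
      rw [← e, zero_mul] at this
      exact absurd this zero_ne_one
    · exact e
  have hη := h.η_pos
  have hC := h.C_pos
  -- the weight at the centre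
  obtain ⟨c₁, hc₁, hc₁1, hnum⟩ := Kob_num (B := C * (1 * (2 / η)) ^ 2) hc hK₁ (by positivity)
  have hσ1 : ∀ k, c₁ ≤ σ (G k 0) := by
    intro k
    have hsub1 : ball (0 : ℂ) 1 ⊆ ball 0 ((k : ℝ) + 1) := ball_subset_ball (hk1 k)
    have hsp : ∀ z : ℂ, ‖z‖ ≤ 7 / 8 → c * vel ν (G k) z ^ 2 ≤ -Real.log (σ (G k 0)) + C * (1 * (2 / η)) ^ 2 := by
      intro z hz
      have h3 := hspeed (G k) 0 1 (2 / η) one_pos (by positivity) (Pool.Agent.AD.F.Curve.mono (hG k) hsub1)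
        (fun z hz => hGfs k z (hsub1 hz)) (hσ0 k) z (by rw [sub_zero, mul_one]; exact hz)
      rw [one_pow, one_mul] at h3
      exact h3
    have hQ0 : 0 ≤ -Real.log (σ (G k 0)) + C * (1 * (2 / η)) ^ 2 := by
      have := Real.log_nonpos (hσ0 k).le (h.le_one _ ((hG k).2 0 (h00 k)))
      have h3 : 0 ≤ C * (1 * (2 / η)) ^ 2 := by positivity
      linarith
    obtain ⟨v, hv⟩ : ∃ v : ℝ, v = Real.sqrt (c⁻¹ * (-Real.log (σ (G k 0)) + C * (1 * (2 / η)) ^ 2)) := ⟨_, rfl⟩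
    have hv0 : 0 ≤ v := by rw [hv]; exact Real.sqrt_nonneg _
    have hv2 : c * v ^ 2 = -Real.log (σ (G k 0)) + C * (1 * (2 / η)) ^ 2 := by
      rw [hv, Real.sq_sqrt (by positivity), ← mul_assoc, mul_inv_cancel₀ hc.ne', one_mul]
    have hvel : ∀ z ∈ ball (0 : ℂ) (7 / 8), ν.toFun (G k z) (deriv (G k) z) ≤ v := by
      intro z hz
      rw [mem_ball_zero_iff] at hz
      have h3 := hsp z hz.le
      rw [← hv2] at h3
      have h4 : vel ν (G k) z ^ 2 ≤ v ^ 2 := le_of_mul_le_mul_left h3 hc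
      exact abs_le_of_sq_le_sq' h4 hv0 |>.2
    have hsub2 : ball (0 : ℂ) (7 / 8) ⊆ ball 0 ((k : ℝ) + 1) := ball_subset_ball (by have := hk1 k; linarith)
    have h5 := hdisc (G k) 0 (7 / 8) v (by norm_num) ((hG k).1.mono hsub2) (fun z hz => (hG k).2 z (hsub2 hz)) hvel
    rw [show (1 : ℝ) / (7 / 8) = 8 / 7 by norm_num] at h5
    exact hnum _ _ v (hσ0 k) (h.le_one _ ((hG k).2 0 (h00 k))) hv0 (hG1 k) h5 hv2.le
  -- bounds on large discs
  obtain ⟨M, hM⟩ : ∃ M : ℝ, M = Real.sqrt (c⁻¹ * (-Real.log c₁ + C * (2 / η) ^ 2)) := ⟨_, rfl⟩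
  have hlogc : 0 ≤ -Real.log c₁ := by
    have := Real.log_nonpos hc₁.le hc₁1
    linarith
  have hM0 : 0 ≤ M := by rw [hM]; exact Real.sqrt_nonneg _
  have hM2 : c * M ^ 2 = -Real.log c₁ + C * (2 / η) ^ 2 := by
    rw [hM, Real.sq_sqrt (by positivity), ← mul_assoc, mul_inv_cancel₀ hc.ne', one_mul]
  have hvM : ∀ (k : ℕ) (z : ℂ), ‖z‖ ≤ 7 / 8 * ((k : ℝ) + 1) → vel ν (G k) z ≤ M := by
    intro k z hz
    have h3 := hspeed (G k) 0 ((k : ℝ) + 1) (2 / η) (by positivity) (by positivity) (hG k) (hGfs k) (hσ0 k) z (by rw [sub_zero]; exact hz)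
    have h4 : -Real.log (σ (G k 0)) ≤ -Real.log c₁ := neg_le_neg (Real.log_le_log hc₁ (hσ1 k))
    have hr : (1 : ℝ) ≤ ((k : ℝ) + 1) ^ 2 := one_le_pow₀ (hk1 k)
    have h5 : -Real.log c₁ ≤ ((k : ℝ) + 1) ^ 2 * -Real.log c₁ := le_mul_of_one_le_left hlogc hr
    have h6 : c * (((k : ℝ) + 1) ^ 2 * vel ν (G k) z ^ 2) ≤ c * (((k : ℝ) + 1) ^ 2 * M ^ 2) := by
      calc c * (((k : ℝ) + 1) ^ 2 * vel ν (G k) z ^ 2) ≤ ((k : ℝ) + 1) ^ 2 * -Real.log c₁ + C * ((((k : ℝ) + 1)) * (2 / η)) ^ 2 := by linarith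
        _ = ((k : ℝ) + 1) ^ 2 * (c * M ^ 2) := by rw [hM2]; ring
        _ = c * (((k : ℝ) + 1) ^ 2 * M ^ 2) := by ring
    have h7 : vel ν (G k) z ^ 2 ≤ M ^ 2 := le_of_mul_le_mul_left (le_of_mul_le_mul_left h6 hc) (by positivity)
    exact abs_le_of_sq_le_sq' h7 hM0 |>.2
  obtain ⟨L, hL⟩ : ∃ L : ℝ, L = K₁ * max M 1 := ⟨_, rfl⟩
  have hL0 : 0 < L := by
    rw [hL]
    exact mul_pos hK₁ (lt_of_lt_of_le one_pos (le_max_right _ _))
  have hfsL : ∀ (k : ℕ) (z : ℂ), z ∈ ball (0 : ℂ) (7 / 8 * ((k : ℝ) + 1) - 1) → fs (G k z) (deriv (G k) z) ≤ L := by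
    intro k z hz
    rw [mem_ball_zero_iff] at hz
    have hkk := hk1 k
    have hin1 : ∀ w ∈ ball z 1, ‖w‖ ≤ 7 / 8 * ((k : ℝ) + 1) := by
      intro w hw
      rw [mem_ball_iff_norm] at hw
      have : ‖w‖ ≤ ‖w - z‖ + ‖z‖ := by
        have := norm_add_le (w - z) z
        rwa [sub_add_cancel] at this
      linarith
    have hin2 : ball z 1 ⊆ ball (0 : ℂ) ((k : ℝ) + 1) := by
      intro w hw
      rw [mem_ball_zero_iff]
      have := hin1 w hw
      linarith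
    have h3 := hdisc (G k) z 1 M one_pos ((hG k).1.mono hin2) (fun w hw => (hG k).2 w (hin2 hw)) (fun w hw => hvM k w (hin1 w hw))
    rw [div_one] at h3
    rw [hL]
    exact h3
  -- the limit
  obtain ⟨𝒰, h𝒰⟩ : ∃ 𝒰 : Ultrafilter ℕ, 𝒰 = hyperfilter ℕ := ⟨_, rfl⟩
  have hle : (𝒰 : Filter ℕ) ≤ atTop := by rw [h𝒰]; exact Nat.hyperfilter_le_atTop
  have hρ : Tendsto (fun k : ℕ => 7 / 8 * ((k : ℝ) + 1) - 1) 𝒰 atTop := by
    have h3 : Tendsto (fun k : ℕ => (k : ℝ) + 1) 𝒰 atTop := (tendsto_atTop_add_const_right _ _ tendsto_natCast_atTop_atTop).mono_left hle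
    have h4 : Tendsto (fun k : ℕ => 7 / 8 * ((k : ℝ) + 1)) 𝒰 atTop := h3.const_mul_atTop (by norm_num)
    exact tendsto_atTop_add_const_right _ _ h4
  have hsubρ : ∀ k : ℕ, ball (0 : ℂ) (7 / 8 * ((k : ℝ) + 1) - 1) ⊆ ball 0 ((k : ℝ) + 1) := fun k => ball_subset_ball (by have := hk1 k; linarith)
  obtain ⟨H, hH, hHX, hpr, hfs, hloc⟩ := limit_curves hX hL0 𝒰 G (fun k : ℕ => 7 / 8 * ((k : ℝ) + 1) - 1) hρ
    (Eventually.of_forall fun k => ⟨(hG k).1.mono (hsubρ k), fun z hz => ⟨(hG k).2 z (hsubρ k hz), hfsL k z hz⟩⟩)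
  have hsplit : ∀ z : ℂ, ∃ (φ : ℕ → ℂ → EN N) (ψ : ℂ → EN N), Tendsto (fun k => ν.toFun (φ k z) (deriv (φ k) z)) 𝒰 (𝓝 (vel ν H z)) ∧
      (∀ᶠ k in (𝒰 : Filter ℕ), ν.toFun (φ k z) (deriv (φ k) z) = vel ν (G k) z) ∧ Tendsto (fun k => σ (φ k z)) 𝒰 (𝓝 (σ (H z))) ∧
      (∀ᶠ k in (𝒰 : Filter ℕ), σ (φ k z) = σ (G k z)) := by
    intro z
    obtain ⟨r, φ, ψ, hr, hφ, hψ, hψH, hlim⟩ := hloc z
    have hz : z ∈ ball z r := mem_ball_self hr
    have hnb : ball z r ∈ 𝓝 z := isOpen_ball.mem_nhds hz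
    have hψX : ∀ w ∈ ball z r, ψ w ∈ X := by
      intro w hw
      obtain ⟨c, hc, h3⟩ := hψH w hw
      rw [h3]
      exact hX.smul_mem _ (hHX w) c hc
    have hbig : ∀ᶠ k : ℕ in (𝒰 : Filter ℕ), ∀ w ∈ ball z r, w ∈ ball (0 : ℂ) ((k : ℝ) + 1) := by
      filter_upwards [hρ.eventually_ge_atTop (‖z‖ + r)] with k hk w hw
      refine hsubρ k ?_
      rw [mem_ball_zero_iff]
      rw [mem_ball, dist_eq_norm] at hw
      calc ‖w‖ = ‖(w - z) + z‖ := by rw [sub_add_cancel]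
        _ ≤ ‖w - z‖ + ‖z‖ := norm_add_le _ _
        _ < 7 / 8 * ((k : ℝ) + 1) - 1 := by linarith
    have hφX : ∀ᶠ k in (𝒰 : Filter ℕ), DifferentiableOn ℂ (φ k) (ball z r) ∧ ∀ w ∈ ball z r, φ k w ∈ X := by
      filter_upwards [hφ, hbig] with k hk hkb
      refine ⟨hk.1, fun w hw => ?_⟩
      obtain ⟨c, hc, h3⟩ := hk.2 w hw
      rw [h3]
      exact hX.smul_mem _ ((hG k).2 w (hkb w hw)) c hc
    have h3 := ν.tendsto_curve hr hφX hψ hψX hlim
    refine ⟨φ, ψ, ?_, ?_, ?_, ?_⟩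
    · have h4 : ν.toFun (ψ z) (deriv ψ z) = vel ν H z := by
        refine ν.lift_eq hX ⟨hψ.analyticAt hnb, ?_⟩ ⟨hH.analyticAt z, Eventually.of_forall hHX⟩ ?_
        · filter_upwards [hnb] with w hw using hψX w hw
        · filter_upwards [hnb] with w hw using hψH w hw
      rw [← h4]
      exact h3
    · filter_upwards [hφ, hφX, hbig] with k hk hk2 hkb
      refine ν.lift_eq hX ⟨hk.1.analyticAt hnb, ?_⟩ (Pool.Agent.AD.F.Curve.at isOpen_ball (hG k) (hkb z hz)) ?_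
      · filter_upwards [hnb] with w hw using hk2.2 w hw
      · filter_upwards [hnb] with w hw using hk.2 w hw
    · obtain ⟨c, hc, h4⟩ := hψH z hz
      have h5 : σ (H z) = σ (ψ z) := by rw [h4, h.smul _ (hHX z) c hc]
      rw [h5]
      have h6 : Tendsto (fun k => φ k z) 𝒰 (𝓝[X] (ψ z)) := by
        refine tendsto_nhdsWithin_iff.2 ⟨hlim.tendsto_at hz, ?_⟩
        filter_upwards [hφX] with k hk using hk.2 z hz
      exact (h.cont (ψ z) (hψX z hz)).tendsto.comp h6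
    · filter_upwards [hφ, hbig] with k hk hkb
      obtain ⟨c, hc, h4⟩ := hk.2 z hz
      rw [h4, h.smul _ ((hG k).2 z (hkb z hz)) c hc]
  have hvH : ∀ z, vel ν H z ≤ M := by
    intro z
    obtain ⟨φ, ψ, h3, h4, -, -⟩ := hsplit z
    refine le_of_tendsto h3 ?_
    filter_upwards [h4, hρ.eventually_ge_atTop ‖z‖] with k hk hk2
    rw [hk]
    refine hvM k z ?_
    have := hk1 k
    linarith
  have hσH : σ (H 0) * fs (H 0) (deriv H 0) = 1 := by
    obtain ⟨φ, ψ, -, -, h3, h4⟩ := hsplit 0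
    have h5 : Tendsto (fun k => σ (G k 0)) 𝒰 (𝓝 (σ (H 0))) := h3.congr' h4
    have h6 := h5.mul (hfs 0)
    refine tendsto_nhds_unique h6 ?_
    simp only [hG1]
    exact tendsto_const_nhds
  have hconst := const_of_bounded ν hH hHX hvH
  have hnn : 0 ≤ vel ν H 0 := ν.nonneg _ _ (Pool.Agent.H22.W.tan_entire hH hHX 0)
  rcases hnn.eq_or_lt with e | e
  · -- the curve lies in a fibre
    have h3 : fs (H 0) (deriv H 0) = 0 := by
      refine le_antisymm ?_ (fs_nonneg _ _)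
      refine le_of_forall_pos_le_add fun ε hε => ?_
      have h4 := hdisc H 0 (K₁ / ε) 0 (by positivity) hH.differentiableOn (fun z _ => hHX z) (fun z _ => by
        have := hconst z 0
        rw [this]
        exact e.symm.le)
      rw [max_eq_right (by positivity)] at h4
      have h5 : K₁ * (1 / (K₁ / ε)) = ε := by field_simp
      rw [h5] at h4
      linarith
    rw [h3, mul_zero] at hσH
    exact zero_ne_one hσH
  · have h3 := hlin H hH hHX ⟨vel ν H 0, e, fun z => hconst z 0⟩ 0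
    have h4 := (h.zero_iff _ (hHX 0)).2 h3
    rw [h4, zero_mul] at hσH
    exact zero_ne_one hσH

end Pool.Agent.H19T
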