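import Pool.Agent.H19T.Cell

/-!
# H19T Lin: horizontal and vertical parts
-/

set_option autoImplicit false

open Topology Filter Metric

namespace Pool.Agent.H19T

open Pool.Agent.AD (Vd)

variable {n p : ℕ}

theorem ft_add_vt (q : Vd (n + p)) : ft q + vt q = q := by
  funext i
  refine Fin.addCases (fun j => ?_) (fun j => ?_) i
  · simp [ft, vt, bb]
  · simp [ft, vt, ll]

theorem bb_vt (q : Vd (n + p)) : bb (vt q) = 0 := by
  funext j
  simp [bb, vt]

theorem ll_vt (q : Vd (n + p)) : ll (vt q) = ll q := by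
  funext j
  simp [ll, vt]

theorem bb_ft (q : Vd (n + p)) : bb (ft q) = bb q := by
  funext j
  simp [bb, ft]

theorem ll_ft (q : Vd (n + p)) : ll (ft q) = 0 := by
  funext j
  simp [ll, ft]

theorem vt_eq_zero {q : Vd (n + p)} : vt q = 0 ↔ ll q = 0 := by
  constructor
  · intro h
    rw [← ll_vt, h]
    rfl
  · intro h
    unfold vt
    rw [h]
    funext i
    refine Fin.addCases (fun j => ?_) (fun j => ?_) i <;> simp

theorem norm_append (a : Vd n) (b : Vd p) : ‖(Fin.append a b : Vd (n + p))‖ = max ‖a‖ ‖b‖ := by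
  refine le_antisymm ?_ (max_le ?_ ?_)
  · rw [pi_norm_le_iff_of_nonneg (le_max_of_le_left (norm_nonneg _))]
    intro i
    refine Fin.addCases (fun j => ?_) (fun j => ?_) i
    · rw [Fin.append_left]
      exact (norm_le_pi_norm a j).trans (le_max_left _ _)
    · rw [Fin.append_right]
      exact (norm_le_pi_norm b j).trans (le_max_right _ _)
  · rw [pi_norm_le_iff_of_nonneg (norm_nonneg _)]
    intro j
    have := norm_le_pi_norm (Fin.append a b : Vd (n + p)) (Fin.castAdd p j)
    rwa [Fin.append_left] at this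
  · rw [pi_norm_le_iff_of_nonneg (norm_nonneg _)]
    intro j
    have := norm_le_pi_norm (Fin.append a b : Vd (n + p)) (Fin.natAdd n j)
    rwa [Fin.append_right] at this

theorem norm_vt (q : Vd (n + p)) : ‖vt q‖ = ‖ll q‖ := by
  unfold vt
  rw [norm_append, norm_zero, max_eq_right (norm_nonneg _)]

theorem norm_ft (q : Vd (n + p)) : ‖ft q‖ = ‖bb q‖ := by
  unfold ft
  rw [norm_append, norm_zero, max_eq_left (norm_nonneg _)]

theorem norm_bb_le (q : Vd (n + p)) : ‖bb q‖ ≤ ‖q‖ := by
  rw [pi_norm_le_iff_of_nonneg (norm_nonneg _)]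
  intro j
  exact norm_le_pi_norm q _

theorem norm_ll_le (q : Vd (n + p)) : ‖ll q‖ ≤ ‖q‖ := by
  rw [pi_norm_le_iff_of_nonneg (norm_nonneg _)]
  intro j
  exact norm_le_pi_norm q _

theorem norm_ft_le (q : Vd (n + p)) : ‖ft q‖ ≤ ‖q‖ := by
  rw [norm_ft]
  exact norm_bb_le q

theorem cont_bb : Continuous (bb : Vd (n + p) → Vd n) := continuous_pi fun j => continuous_apply _

theorem cont_ll : Continuous (ll : Vd (n + p) → Vd p) := continuous_pi fun j => continuous_apply _

theorem cont_ft : Continuous (ft : Vd (n + p) → Vd (n + p)) := by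
  refine continuous_pi fun i => ?_
  refine Fin.addCases (fun j => ?_) (fun j => ?_) i
  · simp only [ft, Fin.append_left]
    exact continuous_apply _
  · simp only [ft, Fin.append_right]
    exact continuous_const

theorem cont_vt : Continuous (vt : Vd (n + p) → Vd (n + p)) := by
  refine continuous_pi fun i => ?_
  refine Fin.addCases (fun j => ?_) (fun j => ?_) i
  · simp only [vt, Fin.append_left]
    exact continuous_const
  · simp only [vt, Fin.append_right]
    exact continuous_apply _

theorem eq_ft {q : Vd (n + p)} (h : ll q = 0) : ft q = q := by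
  have h1 := ft_add_vt q
  rwa [vt_eq_zero.2 h, add_zero] at h1

theorem norm_eq_bb {q : Vd (n + p)} (h : ll q = 0) : ‖q‖ = ‖bb q‖ := by
  rw [← norm_ft, eq_ft h]

theorem sqb_eq (q : Vd (n + p)) : sqb q = sq (bb q) := rfl

theorem cont_sqb : Continuous (sqb : Vd (n + p) → ℝ) := by
  unfold sqb
  refine continuous_finset_sum _ fun j _ => ?_
  exact ((continuous_apply j).comp cont_bb).norm.pow 2

end Pool.Agent.H19T
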