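import Pool.Agent.H19T.Bro
import Pool.Agent.H36.BP.SubD
import Pool.Agent.AD.F.Max

/-!
# H19T PicA: curves on the punctured disc, first part
-/

set_option autoImplicit false

open Topology Filter Metric

namespace Pool.Agent.H19T

open Pool.Agent.H36.BP (EN fs wd Sub Curve fs_nonneg)
open Pool.Agent.H14.PP (IsCone CurveAt Tan)
open Pool.Agent.H22.W (PseudoLength)
open Pool.Agent.AD.F (vel potential vel_affine fs_affine vel_comp fs_comp sub_le)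

variable {N : ℕ} {X D : Set (EN N)} {ν : PseudoLength X} {κ C η : ℝ} {σ : EN N → ℝ}

theorem isOpen_pd : IsOpen (ball (0 : ℂ) 1 \ {0}) := isOpen_ball.sdiff isClosed_singleton

theorem exp_mem {w : ℂ} (h : w.re < 0) : Complex.exp w ∈ ball (0 : ℂ) 1 \ {0} := by
  refine ⟨?_, Complex.exp_ne_zero w⟩
  rw [mem_ball_zero_iff, Complex.norm_exp, Real.exp_lt_one_iff]
  exact h

theorem re_lt {w₀ w : ℂ} {r : ℝ} (hr : r ≤ -w₀.re) (hw : w ∈ ball w₀ r) : w.re < 0 := by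
  rw [mem_ball_iff_norm] at hw
  have h1 := Complex.abs_re_le_norm (w - w₀)
  rw [Complex.sub_re] at h1
  have h2 := (abs_le.1 h1).2
  linarith

theorem exp_curve {F : ℂ → EN N} (hF : Curve X (ball 0 1 \ {0}) F) {w₀ : ℂ} {r : ℝ} (hr : r ≤ -w₀.re) :
    Curve X (ball w₀ r) (fun w => F (Complex.exp w)) :=
  Pool.Agent.AD.F.Curve.comp hF Complex.differentiable_exp.differentiableOn fun _ hw => exp_mem (re_lt hr hw)

theorem fs_exp {F : ℂ → EN N} (hF : Curve X (ball 0 1 \ {0}) F) {w : ℂ} (hw : w.re < 0) :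
    fs (F (Complex.exp w)) (deriv (fun w => F (Complex.exp w)) w) = ‖Complex.exp w‖ * fs (F (Complex.exp w)) (deriv F (Complex.exp w)) := by
  have h := fs_comp isOpen_pd hF.1 (φ := Complex.exp) (z := w) Complex.differentiableAt_exp (exp_mem hw)
  rwa [Complex.deriv_exp] at h

theorem vel_exp {F : ℂ → EN N} (hF : Curve X (ball 0 1 \ {0}) F) {w : ℂ} (hw : w.re < 0) :
    vel ν (fun w => F (Complex.exp w)) w = ‖Complex.exp w‖ * vel ν F (Complex.exp w) := by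
  have h := vel_comp ν isOpen_pd hF (φ := Complex.exp) (z := w) Complex.differentiableAt_exp (exp_mem hw)
  rwa [Complex.deriv_exp] at h

/-- the bound of the derivative by the metric of the punctured disc -/
theorem pic_fs {K : ℝ} (hK : ∀ F : ℂ → EN N, Curve X (ball 0 1) F → σ (F 0) * fs (F 0) (deriv F 0) ≤ K) {F : ℂ → EN N} (hF : Curve X (ball 0 1 \ {0}) F)
    {z : ℂ} (hz : z ∈ ball (0 : ℂ) 1 \ {0}) : σ (F z) * (Real.log (1 / ‖z‖) * (‖z‖ * fs (F z) (deriv F z))) ≤ K := by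
  have hz0 : z ≠ 0 := hz.2
  have hz1 : ‖z‖ < 1 := by
    have := hz.1
    rwa [mem_ball_zero_iff] at this
  have hn : 0 < ‖z‖ := norm_pos_iff.2 hz0
  have hre : (Complex.log z).re = Real.log ‖z‖ := Complex.log_re z
  have hL : Real.log (1 / ‖z‖) = -(Complex.log z).re := by rw [hre, one_div, Real.log_inv]
  have hL0 : 0 < Real.log (1 / ‖z‖) := Real.log_pos (by rw [lt_div_iff₀ hn, one_mul]; exact hz1)
  have h1 := kob_disc hK hL0 (exp_curve hF (w₀ := Complex.log z) hL.le)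
  rw [fs_exp hF (by linarith), Complex.exp_log hz0] at h1
  exact h1

theorem Sig.pic_far (h : Sig X D ν κ C η σ) {K : ℝ} (hK : ∀ F : ℂ → EN N, Curve X (ball 0 1) F → σ (F 0) * fs (F 0) (deriv F 0) ≤ K)
    {F : ℂ → EN N} (hF : Curve X (ball 0 1 \ {0}) F) {z : ℂ} (hz : z ∈ ball (0 : ℂ) 1 \ {0}) (hη : η ≤ σ (F z)) :
    Real.log (1 / ‖z‖) * (‖z‖ * fs (F z) (deriv F z)) ≤ K / η := by
  have hz0 : z ≠ 0 := hz.2
  have hn : 0 < ‖z‖ := norm_pos_iff.2 hz0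
  have hz1 : ‖z‖ < 1 := by
    have := hz.1
    rwa [mem_ball_zero_iff] at this
  have hL0 : 0 < Real.log (1 / ‖z‖) := Real.log_pos (by rw [lt_div_iff₀ hn, one_mul]; exact hz1)
  have h1 := pic_fs hK hF hz
  have h2 : 0 ≤ Real.log (1 / ‖z‖) * (‖z‖ * fs (F z) (deriv F z)) := mul_nonneg hL0.le (mul_nonneg hn.le (fs_nonneg _ _))
  rw [le_div_iff₀ h.η_pos]
  have h3 := mul_le_mul_of_nonneg_right hη h2
  linarith

/-- the corrected function is subharmonic -/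
theorem Sig.pic_sub (h : Sig X D ν κ C η σ) {K : ℝ} (hK0 : 0 < K) (hK : ∀ F : ℂ → EN N, Curve X (ball 0 1) F → σ (F 0) * fs (F 0) (deriv F 0) ≤ K)
    {F : ℂ → EN N} (hF : Curve X (ball 0 1 \ {0}) F) {z : ℂ} (hz : z ∈ ball (0 : ℂ) 1 \ {0}) (hpos : 0 < σ (F z)) :
    Sub (fun z => σ (F z) * Real.log (1 / ‖z‖) ^ (-(4 * C * (K / η) ^ 2))) z 0 := by
  have hz0 : z ≠ 0 := hz.2
  have hn : 0 < ‖z‖ := norm_pos_iff.2 hz0
  have hz1 : ‖z‖ < 1 := by
    have := hz.1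
    rwa [mem_ball_zero_iff] at this
  have hL0 : 0 < Real.log (1 / ‖z‖) := Real.log_pos (by rw [lt_div_iff₀ hn, one_mul]; exact hz1)
  have hC := h.C_pos
  have hη := h.η_pos
  have hFz : CurveAt X F z := Pool.Agent.AD.F.Curve.at isOpen_pd hF hz
  have hr : (0 : ℝ) ≤ 4 * C * (K / η) ^ 2 := by positivity
  have h1 := Pool.Agent.H36.BP.Sub.log_rpow hz0 hz1 hr
  have h2 : Sub (fun z => σ (F z)) z (-(4 * C * (K / η) ^ 2 / (4 * ‖z‖ ^ 2 * Real.log (1 / ‖z‖) ^ 2))) := by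
    have hv : 0 ≤ κ * vel ν F z ^ 2 := mul_nonneg h.κ_pos.le (sq_nonneg _)
    by_cases hlt : σ (F z) < η
    · refine (h.near F z hFz hpos hlt).anti ?_
      have : 0 ≤ 4 * C * (K / η) ^ 2 / (4 * ‖z‖ ^ 2 * Real.log (1 / ‖z‖) ^ 2) := by positivity
      linarith
    · refine (h.sub F z hFz hpos).anti ?_
      have h3 := h.pic_far hK hF hz (not_lt.1 hlt)
      have h4 : 0 ≤ Real.log (1 / ‖z‖) * (‖z‖ * fs (F z) (deriv F z)) := mul_nonneg hL0.le (mul_nonneg hn.le (fs_nonneg _ _))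
      have h5 := pow_le_pow_left₀ h4 h3 2
      have h6 : C * fs (F z) (deriv F z) ^ 2 ≤ 4 * C * (K / η) ^ 2 / (4 * ‖z‖ ^ 2 * Real.log (1 / ‖z‖) ^ 2) := by
        rw [le_div_iff₀ (by positivity)]
        have h7 := mul_le_mul_of_nonneg_left h5 (show (0 : ℝ) ≤ 4 * C by positivity)
        calc C * fs (F z) (deriv F z) ^ 2 * (4 * ‖z‖ ^ 2 * Real.log (1 / ‖z‖) ^ 2) =
            4 * C * (Real.log (1 / ‖z‖) * (‖z‖ * fs (F z) (deriv F z))) ^ 2 := by ring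
          _ ≤ _ := h7
      linarith
  have h3 := h2.mul h1
  rwa [neg_add_cancel] at h3

/-- the choice of the exponent -/
theorem exists_pow_lt {a b x y : ℝ} (ha : 0 < a) (hx : 0 < x) (hxy : x < y) : ∃ k : ℕ, b * (y ^ k)⁻¹ < a * (x ^ k)⁻¹ := by
  have hy : 0 < y := hx.trans hxy
  have h1 : 1 < y / x := by rwa [lt_div_iff₀ hx, one_mul]
  obtain ⟨k, hk⟩ := pow_unbounded_of_one_lt (b / a) h1
  refine ⟨k, ?_⟩
  rw [div_pow, div_lt_div_iff₀ ha (by positivity)] at hk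
  rw [← div_eq_mul_inv, ← div_eq_mul_inv, div_lt_div_iff₀ (by positivity) (by positivity)]
  linarith

/-- On every small circle there is a point which is not too close to `D`. -/
theorem Sig.pic_growth (h : Sig X D ν κ C η σ) {K : ℝ} (hK0 : 0 < K) (hK : ∀ F : ℂ → EN N, Curve X (ball 0 1) F → σ (F 0) * fs (F 0) (deriv F 0) ≤ K)
    {F : ℂ → EN N} (hF : Curve X (ball 0 1 \ {0}) F) {z₁ : ℂ} (hz₁ : z₁ ∈ ball (0 : ℂ) 1 \ {0}) (hpos : 0 < σ (F z₁)) :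
    ∃ k : ℕ, ∀ ρ : ℝ, 0 < ρ → ρ < ‖z₁‖ → ∃ z : ℂ, ‖z‖ = ρ ∧ σ (F z₁) / 2 * ρ ^ k ≤ σ (F z) := by
  obtain ⟨r, hr⟩ : ∃ r : ℝ, r = 4 * C * (K / η) ^ 2 := ⟨_, rfl⟩
  have hC := h.C_pos
  have hη := h.η_pos
  have hr0 : 0 ≤ r := by rw [hr]; positivity
  have hz0 : z₁ ≠ 0 := hz₁.2
  have hn : 0 < ‖z₁‖ := norm_pos_iff.2 hz0
  have hz1 : ‖z₁‖ < 1 := by
    have := hz₁.1
    rwa [mem_ball_zero_iff] at this
  obtain ⟨ρ₂, hρ₂, hρ₂1⟩ := exists_between hz1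
  have hρ₂0 : 0 < ρ₂ := hn.trans hρ₂
  have hlog : ∀ t : ℝ, 0 < t → t < 1 → 0 < Real.log (1 / t) := fun t ht ht1 => Real.log_pos (by rw [lt_div_iff₀ ht, one_mul]; exact ht1)
  have hL1 := hlog _ hn hz1
  have hL2 := hlog _ hρ₂0 hρ₂1
  obtain ⟨k, hk⟩ := exists_pow_lt (a := σ (F z₁) * Real.log (1 / ‖z₁‖) ^ (-r)) (b := Real.log (1 / ρ₂) ^ (-r)) (by positivity) hn hρ₂
  refine ⟨k, fun ρ hρ hρz => ?_⟩
  by_contra hcon
  push Not at hcon
  obtain ⟨u, hu⟩ : ∃ u : ℂ → ℝ, u = fun z => (σ (F z) * Real.log (1 / ‖z‖) ^ (-r)) * ‖(z ^ k)⁻¹‖ := ⟨_, rfl⟩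
  obtain ⟨S, hS⟩ : ∃ S : Set ℂ, S = closedBall 0 ρ₂ \ ball 0 ρ := ⟨_, rfl⟩
  obtain ⟨U, hU⟩ : ∃ U : Set ℂ, U = ball 0 ρ₂ \ closedBall 0 ρ := ⟨_, rfl⟩
  have hSm : ∀ z ∈ S, z ∈ ball (0 : ℂ) 1 \ {0} ∧ ρ ≤ ‖z‖ ∧ ‖z‖ ≤ ρ₂ := by
    intro z hz
    rw [hS] at hz
    have h1 : ‖z‖ ≤ ρ₂ := by
      have := hz.1
      rwa [mem_closedBall_zero_iff] at this
    have h2 : ρ ≤ ‖z‖ := by
      have := hz.2
      rw [mem_ball_zero_iff, not_lt] at this
      exact this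
    refine ⟨⟨?_, ?_⟩, h2, h1⟩
    · rw [mem_ball_zero_iff]
      linarith
    · exact norm_pos_iff.1 (hρ.trans_le h2)
  have hUS : U ⊆ S := by
    rw [hU, hS]
    intro z hz
    exact ⟨ball_subset_closedBall hz.1, fun h => hz.2 (ball_subset_closedBall h)⟩
  have hScomp : IsCompact S := by
    rw [hS]
    exact (isCompact_closedBall _ _).diff isOpen_ball
  have hUo : IsOpen U := by
    rw [hU]
    exact isOpen_ball.sdiff isClosed_closedBall
  have huc : ContinuousOn u S := by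
    rw [hu]
    refine ContinuousOn.mul (ContinuousOn.mul ?_ ?_) ?_
    · exact h.cont.comp (hF.1.continuousOn.mono fun z hz => (hSm z hz).1) fun z hz => hF.2 z (hSm z hz).1
    · intro z hz
      have h1 : ‖z‖ ≠ 0 := norm_ne_zero_iff.2 (hSm z hz).1.2
      have h2 : 0 < Real.log (1 / ‖z‖) := hlog _ (norm_pos_iff.2 (hSm z hz).1.2) (by
        have := (hSm z hz).1.1
        rwa [mem_ball_zero_iff] at this)
      have h3 : ContinuousAt (fun z : ℂ => Real.log (1 / ‖z‖)) z :=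
        ContinuousAt.log (continuousAt_const.div continuous_norm.continuousAt h1) (by positivity)
      exact (h3.rpow_const (Or.inl h2.ne')).continuousWithinAt
    · intro z hz
      have h1 : z ≠ 0 := (hSm z hz).1.2
      exact ((continuousAt_id.pow k).inv₀ (pow_ne_zero k h1)).norm.continuousWithinAt
  have hsub : ∀ z ∈ U, 0 < u z → Sub u z 0 := by
    intro z hz hpz
    have hzm := hSm z (hUS hz)
    have hz0' : z ≠ 0 := hzm.1.2
    have hσz : 0 < σ (F z) := by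
      rcases (h.nonneg _ (hF.2 z hzm.1)).eq_or_lt with e | e
      · exfalso
        rw [hu] at hpz
        simp only [← e, zero_mul] at hpz
        exact lt_irrefl _ hpz
      · exact e
    have h1 := h.pic_sub hK0 hK hF hzm.1 hσz
    have h2 : Sub (fun z : ℂ => ‖(z ^ k)⁻¹‖) z 0 :=
      Pool.Agent.H36.BP.Sub.of_holo ((analyticAt_id.pow k).inv (pow_ne_zero k hz0')) (inv_ne_zero (pow_ne_zero k hz0'))
    have h3 := h1.mul h2
    rw [add_zero, ← hr] at h3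
    rw [hu]
    exact h3
  have hnk : ∀ z : ℂ, ‖(z ^ k)⁻¹‖ = (‖z‖ ^ k)⁻¹ := fun z => by rw [norm_inv, norm_pow]
  obtain ⟨A, hA⟩ : ∃ A : ℝ, A = max (Real.log (1 / ρ₂) ^ (-r) * (ρ₂ ^ k)⁻¹) (σ (F z₁) / 2 * Real.log (1 / ‖z₁‖) ^ (-r)) := ⟨_, rfl⟩
  have hA0 : 0 ≤ A := by
    rw [hA]
    exact le_max_of_le_left (by positivity)
  have hbd : ∀ z ∈ S \ U, u z ≤ A := by
    intro z hz
    have hzm := hSm z hz.1
    have hnz : 0 < ‖z‖ := norm_pos_iff.2 hzm.1.2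
    have hcase : ‖z‖ = ρ₂ ∨ ‖z‖ = ρ := by
      by_contra hc
      push Not at hc
      apply hz.2
      rw [hU]
      refine ⟨?_, ?_⟩
      · rw [mem_ball_zero_iff]
        exact lt_of_le_of_ne hzm.2.2 hc.1
      · rw [mem_closedBall_zero_iff, not_le]
        exact lt_of_le_of_ne hzm.2.1 (Ne.symm hc.2)
    rw [hu]
    show (σ (F z) * Real.log (1 / ‖z‖) ^ (-r)) * ‖(z ^ k)⁻¹‖ ≤ A
    rw [hnk]
    rcases hcase with e | e
    · rw [e, hA]
      refine le_max_of_le_left (mul_le_mul_of_nonneg_right ?_ (by positivity))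
      exact mul_le_of_le_one_left (by positivity) (h.le_one _ (hF.2 z hzm.1))
    · rw [hA]
      refine le_max_of_le_right ?_
      have h1 := (hcon z e).le
      have h2 : Real.log (1 / ‖z‖) ^ (-r) ≤ Real.log (1 / ‖z₁‖) ^ (-r) := by
        refine Real.rpow_le_rpow_of_nonpos hL1 ?_ (by linarith)
        refine Real.log_le_log (by positivity) ?_
        rw [e]
        exact one_div_le_one_div_of_le hρ hρz.le
      have h3 : σ (F z) * (‖z‖ ^ k)⁻¹ ≤ σ (F z₁) / 2 := by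
        rw [e, ← div_eq_mul_inv, div_le_iff₀ (by positivity)]
        exact h1
      calc (σ (F z) * Real.log (1 / ‖z‖) ^ (-r)) * (‖z‖ ^ k)⁻¹ = (σ (F z) * (‖z‖ ^ k)⁻¹) * Real.log (1 / ‖z‖) ^ (-r) := by ring
        _ ≤ σ (F z₁) / 2 * Real.log (1 / ‖z₁‖) ^ (-r) := by
          have hLz : 0 < Real.log (1 / ‖z‖) := hlog _ hnz (by
            have := hzm.1.1
            rwa [mem_ball_zero_iff] at this)
          exact mul_le_mul h3 h2 (by positivity) (by positivity)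
  have hz₁S : z₁ ∈ S := by
    rw [hS]
    refine ⟨?_, ?_⟩
    · rw [mem_closedBall_zero_iff]
      exact hρ₂.le
    · rw [mem_ball_zero_iff, not_lt]
      exact hρz.le
  have hfin := sub_le hScomp hUo hUS huc hsub hA0 hbd z₁ hz₁S
  rw [hu, hA] at hfin
  have hfin' : (σ (F z₁) * Real.log (1 / ‖z₁‖) ^ (-r)) * ‖(z₁ ^ k)⁻¹‖ ≤
      max (Real.log (1 / ρ₂) ^ (-r) * (ρ₂ ^ k)⁻¹) (σ (F z₁) / 2 * Real.log (1 / ‖z₁‖) ^ (-r)) := hfin
  rw [hnk] at hfin'
  rcases le_max_iff.1 hfin' with h1 | h1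
  · exact absurd hk (not_lt.2 h1)
  · have h2 : 1 ≤ (‖z₁‖ ^ k)⁻¹ := by
      rw [one_le_inv₀ (by positivity)]
      exact pow_le_one₀ hn.le hz1.le
    have h3 : 0 < σ (F z₁) * Real.log (1 / ‖z₁‖) ^ (-r) := by positivity
    have h4 := mul_le_mul_of_nonneg_left h2 h3.le
    rw [mul_one] at h4
    linarith

end Pool.Agent.H19T
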