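import Pool.Agent.H19T.SigA

/-!
# H19T QB: homogeneous functions which vanish on `D` are bounded by `σ`
-/

set_option autoImplicit false

open Topology Filter Metric

namespace Pool.Agent.H19T

open Pool.Agent.H36.BP (EN fs wd Sub Curve fs_nonneg)
open Pool.Agent.H14.PP (IsCone CurveAt Tan)
open Pool.Agent.H22.W (PseudoLength)
open Pool.Agent.AD (Vd Chart Charts TorusMapV DiscreteSub)
open Pool.Agent.AD.F (vel)

variable {N : ℕ} {X D : Set (EN N)} {n p m K : ℕ} {Λ : AddSubgroup (Vd n)} {u : EN N → Vd n}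

/-- the estimate in a chart -/
theorem QB_local (hX : IsCone X) {χ : Chart (n + p) X} (hmem : ∀ y ∈ X, y ∈ χ.U → (y ∈ D ↔ ll (χ.q y) = 0)) {Q : EN N → ℂ} {e : ℕ} (hQ : ∀ x, AnalyticAt ℂ Q x)
    (hQs : ∀ (c : ℂ) (x : EN N), Q (c • x) = c ^ e * Q x) (hQD : ∀ x ∈ D, Q x = 0) {x₀ : EN N} (h0 : x₀ ∈ cell χ 1) :
    ∃ C : ℝ, 0 ≤ C ∧ ∀ᶠ y in 𝓝[X] x₀, ‖Q y‖ ≤ C * ‖ll (χ.q y)‖ := by
  have hq₀ : χ.q x₀ ∈ ball (0 : Vd (n + p)) 2 := cellC_ball (cell_sub h0)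
  have hx₀ : x₀ ≠ 0 := hX.ne_zero h0.1
  have hlast : ∀ q ∈ ball (0 : Vd (n + p)) 2, Q (χ.σ (ft q)) = 0 := by
    intro q hq
    obtain ⟨h1, h2, h3⟩ := χ.σ_mem _ (ft_mem hq)
    refine hQD _ ((hmem _ h1 h2).2 ?_)
    rw [h3]
    exact ll_ft q
  -- Lipschitz bound at the foot points
  have hft₀ : ft (χ.q x₀) ∈ ball (0 : Vd (n + p)) 2 := ft_mem hq₀
  have hconv : Convex ℝ (closedBall (0 : Vd (n + p)) ‖χ.q x₀‖) := convex_closedBall _ _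
  obtain ⟨r, hr1, hr2⟩ : ∃ r : ℝ, ‖χ.q x₀‖ < r ∧ r < 2 := exists_between (by rwa [mem_ball_zero_iff] at hq₀)
  have hcomp : IsCompact (closedBall (0 : Vd (n + p)) r) := isCompact_closedBall _ _
  obtain ⟨g, hg⟩ : ∃ g : Vd (n + p) → ℂ, g = fun q => Q (χ.σ q) := ⟨_, rfl⟩
  have hgan : ∀ q ∈ ball (0 : Vd (n + p)) 2, AnalyticAt ℂ (fun q => χ.σ q) q ∧ DifferentiableAt ℂ g q := by
    intro q hq
    have h1 := χ.σ_an q hq
    refine ⟨h1, ?_⟩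
    rw [hg]
    exact (hQ _).differentiableAt.comp q h1.differentiableAt
  have hcd : ContinuousOn (fun q => fderiv ℂ g q) (closedBall (0 : Vd (n + p)) r) := by
    intro q hq
    have hq2 : q ∈ ball (0 : Vd (n + p)) 2 := closedBall_subset_ball hr2 hq
    have h1 : ContDiffAt ℂ 1 g q := by
      rw [hg]
      exact ((hQ _).contDiffAt).comp q ((χ.σ_an q hq2).contDiffAt)
    exact ((h1.fderiv_right (m := 0) (by norm_num)).continuousAt).continuousWithinAt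
  obtain ⟨L, hL⟩ := hcomp.exists_bound_of_continuousOn hcd
  have hlip : ∀ q ∈ closedBall (0 : Vd (n + p)) r, ‖g q‖ ≤ L * ‖ll q‖ := by
    intro q hq
    have hqf : ft q ∈ closedBall (0 : Vd (n + p)) r := by
      rw [mem_closedBall_zero_iff] at hq ⊢
      exact (norm_ft_le q).trans hq
    have h1 := (convex_closedBall (0 : Vd (n + p)) r).norm_image_sub_le_of_norm_fderiv_le (𝕜 := ℂ) (f := g) (C := L)
      (fun x hx => (hgan x (closedBall_subset_ball hr2 hx)).2) (fun x hx => hL x hx) hqf hq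
    have h2 : g (ft q) = 0 := by
      rw [hg]
      exact hlast q (closedBall_subset_ball hr2 hq)
    rw [h2, sub_zero] at h1
    have h3 : q - ft q = vt q := by
      have := ft_add_vt q
      nth_rewrite 1 [← this]
      abel
    rwa [h3, norm_vt] at h1
  -- the factor
  have hσ₀ : χ.σ (χ.q x₀) ≠ 0 := χ.sigma_ne_zero hX hq₀
  have hcq : ContinuousAt χ.q x₀ := (χ.q_an x₀ h0.2.1).continuousAt
  have hcσ : ContinuousAt (fun y => ‖y‖ / ‖χ.σ (χ.q y)‖) x₀ := by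
    refine continuous_norm.continuousAt.div ?_ (norm_ne_zero_iff.2 hσ₀)
    exact (ContinuousAt.comp (g := χ.σ) (f := χ.q) (χ.σ_an _ hq₀).continuousAt hcq).norm
  have hbd : ∀ᶠ y in 𝓝[X] x₀, ‖y‖ / ‖χ.σ (χ.q y)‖ < ‖x₀‖ / ‖χ.σ (χ.q x₀)‖ + 1 :=
    (hcσ.eventually_lt_const (lt_add_one _)).filter_mono nhdsWithin_le_nhds
  have hqr : ∀ᶠ y in 𝓝[X] x₀, ‖χ.q y‖ < r := (hcq.norm.eventually_lt_const hr1).filter_mono nhdsWithin_le_nhds
  obtain ⟨M, hM⟩ : ∃ M : ℝ, M = ‖x₀‖ / ‖χ.σ (χ.q x₀)‖ + 1 := ⟨_, rfl⟩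
  have hM0 : 0 ≤ M := by rw [hM]; positivity
  refine ⟨M ^ e * |L|, by positivity, ?_⟩
  filter_upwards [hbd, hqr, cell_nhds h0] with y hy1 hy2 hy3
  obtain ⟨h1, c, hc, h2⟩ := χ.surj y hy3.1 hy3.2.1
  have h3 : Q y = c ^ e * g (χ.q y) := by
    rw [hg]
    conv_lhs => rw [h2]
    rw [hQs]
  have h4 : ‖c‖ ≤ M := by
    have h5 : ‖y‖ = ‖c‖ * ‖χ.σ (χ.q y)‖ := by
      conv_lhs => rw [h2]
      rw [norm_smul]
    have h6 : ‖χ.σ (χ.q y)‖ ≠ 0 := norm_ne_zero_iff.2 (χ.sigma_ne_zero hX h1)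
    rw [h5, mul_div_assoc, div_self h6, mul_one] at hy1
    rw [hM]
    exact hy1.le
  rw [h3, norm_mul, norm_pow]
  have h5 := hlip (χ.q y) (by rw [mem_closedBall_zero_iff]; exact hy2.le)
  have h6 : L * ‖ll (χ.q y)‖ ≤ |L| * ‖ll (χ.q y)‖ := mul_le_mul_of_nonneg_right (le_abs_self L) (norm_nonneg _)
  calc ‖c‖ ^ e * ‖g (χ.q y)‖ ≤ M ^ e * (|L| * ‖ll (χ.q y)‖) :=
        mul_le_mul (pow_le_pow_left₀ (norm_nonneg _) h4 e) (h5.trans h6) (norm_nonneg _) (by positivity)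
    _ = _ := by ring

theorem QB_global (hX : IsCone X) {ν : PseudoLength X} {κ C η : ℝ} {σ : EN N → ℝ} (h : Sig X D ν κ C η σ)
    (hlow : ∀ x ∈ D, ∃ (χ : Chart (n + p) X) (c : ℝ), 0 < c ∧ x ∈ cell χ 1 ∧ (∀ y ∈ X, y ∈ χ.U → (y ∈ D ↔ ll (χ.q y) = 0)) ∧
      ∀ᶠ y in 𝓝[X] x, c * ‖ll (χ.q y)‖ ≤ σ y) {Q : EN N → ℂ} {e : ℕ} (hQ : ∀ x, AnalyticAt ℂ Q x)
    (hQs : ∀ (c : ℂ) (x : EN N), Q (c • x) = c ^ e * Q x) (hQD : ∀ x ∈ D, Q x = 0) :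
    ∃ C' : ℝ, 0 ≤ C' ∧ ∀ x ∈ X, ‖Q x‖ ≤ C' * σ x * ‖x‖ ^ e := by
  have hcomp : IsCompact (sphere (0 : EN N) 1 ∩ insert 0 X) := (isCompact_sphere _ _).inter_right hX.closed
  have hloc : ∀ x ∈ X, ∃ C' : ℝ, 0 ≤ C' ∧ ∀ᶠ y in 𝓝[X] x, ‖Q y‖ ≤ C' * σ y := by
    intro x hx
    by_cases hxD : x ∈ D
    · obtain ⟨χ, c, hc, hcell, hmem, hev⟩ := hlow x hxD
      obtain ⟨C₁, hC₁, hev₁⟩ := QB_local hX hmem hQ hQs hQD hcell
      refine ⟨C₁ / c, by positivity, ?_⟩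
      filter_upwards [hev, hev₁] with y h1 h2
      refine h2.trans ?_
      rw [div_mul_eq_mul_div, le_div_iff₀ hc]
      calc C₁ * ‖ll (χ.q y)‖ * c = C₁ * (c * ‖ll (χ.q y)‖) := by ring
        _ ≤ C₁ * σ y := mul_le_mul_of_nonneg_left h1 hC₁
    · have hpos : 0 < σ x := lt_of_le_of_ne (h.nonneg x hx) fun e => hxD ((h.zero_iff x hx).1 e.symm)
      have h1 : ∀ᶠ y in 𝓝[X] x, σ x / 2 < σ y := (h.cont x hx).eventually (lt_mem_nhds (by linarith))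
      have h2 : ∀ᶠ y in 𝓝[X] x, ‖Q y‖ < ‖Q x‖ + 1 :=
        (((hQ x).continuousAt.norm).eventually_lt_const (lt_add_one _)).filter_mono nhdsWithin_le_nhds
      refine ⟨2 * (‖Q x‖ + 1) / σ x, by positivity, ?_⟩
      filter_upwards [h1, h2] with y hy1 hy2
      have h3 : ‖Q x‖ + 1 ≤ 2 * (‖Q x‖ + 1) / σ x * σ y := by
        rw [div_mul_eq_mul_div, le_div_iff₀ hpos]
        have h4 : 0 ≤ ‖Q x‖ + 1 := by positivity
        nlinarith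
      linarith
  have hP : ∃ C' : ℝ, 0 ≤ C' ∧ ∀ y ∈ sphere (0 : EN N) 1 ∩ insert 0 X, y ∈ X → ‖Q y‖ ≤ C' * σ y := by
    refine hcomp.induction_on (p := fun s => ∃ C' : ℝ, 0 ≤ C' ∧ ∀ y ∈ s, y ∈ X → ‖Q y‖ ≤ C' * σ y) ⟨0, le_rfl, fun y hy => absurd hy (Set.notMem_empty y)⟩ ?_ ?_ ?_
    · rintro s t hst ⟨C', h1, h2⟩
      exact ⟨C', h1, fun y hy => h2 y (hst hy)⟩
    · rintro s t ⟨C₁, h1, h2⟩ ⟨C₂, h3, h4⟩
      refine ⟨max C₁ C₂, le_max_of_le_left h1, ?_⟩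
      rintro y (hy | hy) hyX
      · exact (h2 y hy hyX).trans (mul_le_mul_of_nonneg_right (le_max_left _ _) (h.nonneg y hyX))
      · exact (h4 y hy hyX).trans (mul_le_mul_of_nonneg_right (le_max_right _ _) (h.nonneg y hyX))
    · intro x hx
      have hx0 : x ≠ 0 := by
        rintro rfl
        have := hx.1
        rw [mem_sphere_zero_iff_norm, norm_zero] at this
        exact zero_ne_one this
      have hxX : x ∈ X := hx.2.resolve_left hx0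
      obtain ⟨C', h1, h2⟩ := hloc x hxX
      have h3 := eventually_nhdsWithin_iff.1 h2
      exact ⟨{y | y ∈ X → ‖Q y‖ ≤ C' * σ y}, mem_nhdsWithin_of_mem_nhds h3, C', h1, fun y hy => hy⟩
  obtain ⟨C', h1, h2⟩ := hP
  refine ⟨C', h1, fun x hx => ?_⟩
  have hx0 : x ≠ 0 := hX.ne_zero hx
  have hn : 0 < ‖x‖ := norm_pos_iff.2 hx0
  have hc : (((‖x‖)⁻¹ : ℝ) : ℂ) ≠ 0 := by exact_mod_cast (inv_pos.2 hn).ne'
  have hy : (((‖x‖)⁻¹ : ℝ) : ℂ) • x ∈ X := hX.smul_mem x hx _ hc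
  have h3 := h2 _ ⟨by rw [mem_sphere_zero_iff_norm, norm_smul, Complex.norm_real, norm_inv, norm_norm, inv_mul_cancel₀ hn.ne'],
    Set.mem_insert_of_mem _ hy⟩ hy
  rw [hQs, h.smul x hx _ hc, norm_mul, norm_pow, Complex.norm_real, norm_inv, norm_norm, inv_pow, inv_mul_le_iff₀ (by positivity)] at h3
  linarith

end Pool.Agent.H19T
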