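import Pool.Agent.H19T.Coef

/-!
# H19T Rat: the functions `VV` of two charts agree near `D`

`chg_bb`: near `q₁` the points `σ₁ v` lie in `X ∩ U₁ ∩ U₂`, so `s bb (χ₂.q (σ₁ v)) - s bb v - (u x₁ - u x₂) ∈ Λ` (difference of the two `tor`; `χ₁.q (σ₁ v) = v`).  A continuous function with
values in the discrete `Λ` is locally constant (as in `AD.eventually_const_of_mem`).

`VV_ratio`.  Let `q₁ = χ₁.q x₀`, `ll q₁ = 0` (so `ft q₁ = q₁`), `T = χ₂.q ∘ χ₁.σ`, analytic at `q₁`, `T q₁ = χ₂.q x₀`.  For `v` near `q₁`: `bb (T v) = bb v + e`, and `ll (T v) = 0` if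
`ll v = 0` (`mem_iff` twice).  Hence `T (ft v) = ft (T v)` (same `bb`, and `ll = 0`), `fderiv T (ft v) e_j = e_j` for `j < n` and `bb (fderiv T (ft v) w) = bb w`.  With `v = χ₁.q y`:
`χ₂.q y = T v` (`y = c σ₁ (χ₁.q y)`, `q_smul`).  So by `cf_trans` at `ft v`:
`VV χ₁ y = cf χ₁ (ft v) (vt v) = cf χ₂ (ft (T v)) (fderiv T (ft v) (vt v))`, `VV χ₂ y = cf χ₂ (ft (T v)) (vt (T v))`, and `vt (T v) = T v - T (ft v)`.  Strict differentiability of `T` at `q₁`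
(`v = ft v + vt v`) and continuity of `fderiv T`: `‖T v - T (ft v) - fderiv T (ft v) (vt v)‖ ≤ ε' ‖vt v‖` near `q₁`; `fderiv T q₁` is invertible (with inverse `fderiv (χ₁.q ∘ χ₂.σ) (T q₁)`), so
`‖vt v‖ ≤ C ‖T v - T (ft v)‖`.  `cf_near` at `T q₁`.
-/

set_option autoImplicit false

open Topology Filter Metric

namespace Pool.Agent.H19T

open Pool.Agent.H36.BP (EN fs wd Sub Curve)
open Pool.Agent.H14.PP (IsCone CurveAt Tan)
open Pool.Agent.AD (Vd Chart Charts TorusMapV DiscreteSub)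

variable {N : ℕ} {X D : Set (EN N)} {n p m K : ℕ} {Λ : AddSubgroup (Vd n)} {u : EN N → Vd n}

/-- the first coordinates, as a continuous linear map -/
private noncomputable def Rat_bbL (n p : ℕ) : Vd (n + p) →L[ℂ] Vd n :=
  ContinuousLinearMap.pi fun j => ContinuousLinearMap.proj (Fin.castAdd p j)

private theorem Rat_bbL_apply (q : Vd (n + p)) : Rat_bbL n p q = bb q := rfl

/-- the horizontal part, as a continuous linear map -/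
private noncomputable def Rat_ftL (n p : ℕ) : Vd (n + p) →L[ℂ] Vd (n + p) :=
  LinearMap.toContinuousLinearMap
    { toFun := ft
      map_add' := fun a b => by
        funext i
        refine Fin.addCases (fun j => ?_) (fun j => ?_) i <;> simp [ft, bb]
      map_smul' := fun c a => by
        funext i
        refine Fin.addCases (fun j => ?_) (fun j => ?_) i <;> simp [ft, bb] }

private theorem Rat_ftL_apply (q : Vd (n + p)) : Rat_ftL n p q = ft q := rfl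

private theorem Rat_bb_ft (q : Vd (n + p)) : bb (ft q) = bb q := by
  funext j; simp [ft, bb]

private theorem Rat_ll_ft (q : Vd (n + p)) : ll (ft q) = 0 := by
  funext j; simp [ft, ll]

private theorem Rat_bb_vt (q : Vd (n + p)) : bb (vt q) = 0 := by
  funext j; simp [vt, bb]

private theorem Rat_add (q : Vd (n + p)) : ft q + vt q = q := by
  funext i
  refine Fin.addCases (fun j => ?_) (fun j => ?_) i <;> simp [ft, vt, bb, ll]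

private theorem Rat_ext {a b : Vd (n + p)} (h : bb a = bb b) (h' : ll a = ll b) : a = b := by
  funext i
  refine Fin.addCases (fun j => ?_) (fun j => ?_) i
  · exact congrFun h j
  · exact congrFun h' j

private theorem Rat_ft_of_ll {q : Vd (n + p)} (h : ll q = 0) : ft q = q :=
  Rat_ext (Rat_bb_ft q) (by rw [Rat_ll_ft, h])

private theorem Rat_vt (q : Vd (n + p)) : vt q = q - ft q := by
  have h := Rat_add q
  exact eq_sub_of_add_eq' h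

private theorem Rat_ft_cont : Continuous (ft : Vd (n + p) → Vd (n + p)) := (Rat_ftL n p).continuous

/-- near a point of the domain of the change of charts -/
private theorem Rat_ev {d : ℕ} (χ₁ χ₂ : Chart d X) {q₁ : Vd d} (hq : q₁ ∈ ball (0 : Vd d) 2)
    (hU : χ₁.σ q₁ ∈ χ₂.U) : ∀ᶠ v in 𝓝 q₁, v ∈ ball (0 : Vd d) 2 ∧ χ₁.σ v ∈ χ₂.U := by
  have h1 : ∀ᶠ v in 𝓝 q₁, v ∈ ball (0 : Vd d) 2 := isOpen_ball.mem_nhds hq
  have h2 : ∀ᶠ v in 𝓝 q₁, χ₁.σ v ∈ χ₂.U := (χ₁.σ_an q₁ hq).continuousAt.eventually_mem (χ₂.isOpen_U.mem_nhds hU)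
  exact h1.and h2

theorem chg_bb (hX : IsCone X) (hΛ : DiscreteSub Λ) {s : ℝ} (hs : 0 < s) {χ₁ χ₂ : Chart (n + p) X} {x₁ x₂ : EN N} (h₁ : ECh D X Λ u s χ₁ x₁) (h₂ : ECh D X Λ u s χ₂ x₂)
    {q₁ : Vd (n + p)} (hq : q₁ ∈ ball (0 : Vd (n + p)) 2) (hU : χ₁.σ q₁ ∈ χ₂.U) :
    ∃ e : Vd n, ∀ᶠ v in 𝓝 q₁, bb (χ₂.q (χ₁.σ v)) = bb v + e := by
  obtain ⟨δ, hδ, hδΛ⟩ := hΛ
  have hs' : (s : ℂ) ≠ 0 := by exact_mod_cast hs.ne'
  set h : Vd (n + p) → Vd n := fun v => u x₂ - u x₁ + (s : ℂ) • (bb (χ₂.q (χ₁.σ v)) - bb v) with hh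
  have hTc : ContinuousAt (fun y => χ₂.q (χ₁.σ y)) q₁ := (chg_an hX χ₁ χ₂ hq hU).1.continuousAt
  have hc : ContinuousAt h q₁ := by
    have h1 : ContinuousAt (fun v : Vd (n + p) => bb (χ₂.q (χ₁.σ v))) q₁ :=
      ((Rat_bbL n p).continuous.continuousAt.comp hTc : _)
    have h2 : ContinuousAt (fun v : Vd (n + p) => bb v) q₁ := (Rat_bbL n p).continuous.continuousAt
    exact ((h1.sub h2).const_smul (s : ℂ)).const_add _
  have hmem : ∀ v, v ∈ ball (0 : Vd (n + p)) 2 → χ₁.σ v ∈ χ₂.U → h v ∈ Λ := by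
    intro v hv hvU
    obtain ⟨hX', hU₁, hqq⟩ := χ₁.σ_mem v hv
    have t1 := h₁.tor _ hX' hU₁
    have t2 := h₂.tor _ hX' hvU
    rw [hqq] at t1
    have t3 := Λ.sub_mem t1 t2
    have e1 : u (χ₁.σ v) - u x₁ - (s : ℂ) • bb v - (u (χ₁.σ v) - u x₂ - (s : ℂ) • bb (χ₂.q (χ₁.σ v))) = h v := by
      rw [hh]
      simp only [smul_sub]
      abel
    rwa [e1] at t3
  have h0 : h q₁ ∈ Λ := hmem q₁ hq hU
  refine ⟨bb (χ₂.q (χ₁.σ q₁)) - bb q₁, ?_⟩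
  have hnear : ∀ᶠ v in 𝓝 q₁, ‖h v - h q₁‖ < δ := by
    have := Metric.continuousAt_iff'.1 hc δ hδ
    simpa [dist_eq_norm] using this
  filter_upwards [Rat_ev χ₁ χ₂ hq hU, hnear] with v hv hvn
  have e1 : h v - h q₁ = 0 := hδΛ _ (Λ.sub_mem (hmem v hv.1 hv.2) h0) hvn
  have e2 : (s : ℂ) • ((bb (χ₂.q (χ₁.σ v)) - bb v) - (bb (χ₂.q (χ₁.σ q₁)) - bb q₁)) = 0 := by
    rw [← e1, hh]
    simp only [smul_sub]
    abel
  have e3 := (smul_eq_zero.1 e2).resolve_left hs'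
  have e4 := sub_eq_zero.1 e3
  rw [← e4]
  abel

/-- the structure of the change of charts near `D` -/
private theorem Rat_open (hX : IsCone X) (hΛ : DiscreteSub Λ) {s : ℝ} (hs : 0 < s) {χ₁ χ₂ : Chart (n + p) X} {x₁ x₂ : EN N} (h₁ : ECh D X Λ u s χ₁ x₁)
    (h₂ : ECh D X Λ u s χ₂ x₂) {q₁ : Vd (n + p)} (hq : q₁ ∈ ball (0 : Vd (n + p)) 2) (hU : χ₁.σ q₁ ∈ χ₂.U) :
    ∃ (e : Vd n) (V : Set (Vd (n + p))), IsOpen V ∧ q₁ ∈ V ∧ ∀ v ∈ V, v ∈ ball (0 : Vd (n + p)) 2 ∧ χ₁.σ v ∈ χ₂.U ∧ bb (χ₂.q (χ₁.σ v)) = bb v + e ∧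
      (ll v = 0 → ll (χ₂.q (χ₁.σ v)) = 0) := by
  obtain ⟨e, he⟩ := chg_bb hX hΛ hs h₁ h₂ hq hU
  obtain ⟨V, hV, hVo, hVq⟩ := _root_.eventually_nhds_iff.1 ((Rat_ev χ₁ χ₂ hq hU).and he)
  refine ⟨e, V, hVo, hVq, fun v hv => ?_⟩
  obtain ⟨⟨hv1, hv2⟩, hv3⟩ := hV v hv
  refine ⟨hv1, hv2, hv3, fun hl => ?_⟩
  obtain ⟨hX', hU₁, hqq⟩ := χ₁.σ_mem v hv1
  have hD : χ₁.σ v ∈ D := (h₁.mem_iff _ hX' hU₁).2 (by rw [hqq]; exact hl)
  exact (h₂.mem_iff _ hX' hv2).1 hD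

private theorem Rat_bb_single (j : Fin n) : bb (Pi.single (Fin.castAdd p j) (1 : ℂ) : Vd (n + p)) = Pi.single j 1 := by
  funext i
  by_cases h : i = j
  · subst h; simp [bb]
  · simp [bb, h]

private theorem Rat_ll_single (j : Fin n) : ll (Pi.single (Fin.castAdd p j) (1 : ℂ) : Vd (n + p)) = 0 := by
  funext i
  have : Fin.natAdd n i ≠ Fin.castAdd p j := by
    intro h'
    have := congrArg Fin.val h'
    simp at this
    omega
  simp [ll, this]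

private theorem Rat_hT {T : Vd (n + p) → Vd (n + p)} {e : Vd n} {V : Set (Vd (n + p))} (hVo : IsOpen V) (hb : ∀ v ∈ V, bb (T v) = bb v + e)
    (hl : ∀ v ∈ V, ll v = 0 → ll (T v) = 0) {v : Vd (n + p)} (hv : v ∈ V) (hlv : ll v = 0) (hd : DifferentiableAt ℂ T v) (j : Fin n) :
    fderiv ℂ T v (Pi.single (Fin.castAdd p j) 1) = Pi.single (Fin.castAdd p j) 1 := by
  set ej : Vd (n + p) := Pi.single (Fin.castAdd p j) 1 with hej
  have h1 : HasDerivAt (fun t : ℂ => v + t • ej) ej 0 := by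
    have h3 : HasDerivAt (fun z : ℂ => z • ej) ((1 : ℂ) • ej) 0 := (hasDerivAt_id (0 : ℂ)).smul_const ej
    rw [one_smul] at h3
    exact h3.const_add v
  have hv0 : (fun t : ℂ => v + t • ej) 0 = v := by simp
  have hT : HasFDerivAt T (fderiv ℂ T v) ((fun t : ℂ => v + t • ej) 0) := by
    rw [hv0]; exact hd.hasFDerivAt
  have h2 : HasDerivAt (fun t : ℂ => T (v + t • ej)) (fderiv ℂ T v ej) 0 := hT.comp_hasDerivAt 0 h1
  have h3 : HasDerivAt (fun t : ℂ => T v + t • ej) ej 0 := by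
    have h3 : HasDerivAt (fun z : ℂ => z • ej) ((1 : ℂ) • ej) 0 := (hasDerivAt_id (0 : ℂ)).smul_const ej
    rw [one_smul] at h3
    exact h3.const_add _
  have h4 : HasDerivAt (fun t : ℂ => T (v + t • ej)) ej 0 := by
    refine h3.congr_of_eventuallyEq ?_
    have hmem : ∀ᶠ t : ℂ in 𝓝 0, v + t • ej ∈ V := by
      apply h1.continuousAt.eventually_mem
      have e0 : v + (0 : ℂ) • ej = v := by simp
      rw [e0]; exact hVo.mem_nhds hv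
    filter_upwards [hmem] with t ht
    have hlt : ll (v + t • ej) = 0 := by
      have e1 : ll (v + t • ej) = ll v + t • ll ej := rfl
      rw [e1, hlv, hej, Rat_ll_single]; simp
    refine Rat_ext ?_ ?_
    · rw [hb _ ht]
      have e1 : bb (v + t • ej) = bb v + t • bb ej := rfl
      have e2 : bb (T v + t • ej) = bb (T v) + t • bb ej := rfl
      rw [e1, e2, hb v hv]
      abel
    · rw [hl _ ht hlt]
      have e2 : ll (T v + t • ej) = ll (T v) + t • ll ej := rfl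
      rw [e2, hl v hv hlv, hej, Rat_ll_single]; simp
  exact h2.unique h4

private theorem Rat_hbb {T : Vd (n + p) → Vd (n + p)} {e : Vd n} {V : Set (Vd (n + p))} (hVo : IsOpen V) (hb : ∀ v ∈ V, bb (T v) = bb v + e)
    {v : Vd (n + p)} (hv : v ∈ V) (hd : DifferentiableAt ℂ T v) (w : Vd (n + p)) : bb (fderiv ℂ T v w) = bb w := by
  have h1 : HasFDerivAt (fun y => Rat_bbL n p (T y)) ((Rat_bbL n p).comp (fderiv ℂ T v)) v :=
    (Rat_bbL n p).hasFDerivAt.comp v hd.hasFDerivAt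
  have h2 : HasFDerivAt (fun y => Rat_bbL n p (T y)) (Rat_bbL n p) v := by
    have h3 : HasFDerivAt (fun y => Rat_bbL n p y + e) (Rat_bbL n p) v := (Rat_bbL n p).hasFDerivAt.add_const e
    refine h3.congr_of_eventuallyEq ?_
    filter_upwards [hVo.mem_nhds hv] with y hy
    exact hb y hy
  have h3 := congrArg (fun L : Vd (n + p) →L[ℂ] Vd n => L w) (h1.unique h2)
  exact h3

/-- the estimate of the vertical part -/
private theorem Rat_strict {d : ℕ} {T : Vd d → Vd d} {q₁ : Vd d} (hT : AnalyticAt ℂ T q₁) {L' : Vd d →L[ℂ] Vd d}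
    (hL : ∀ w, L' (fderiv ℂ T q₁ w) = w) {f : Vd d → Vd d} (hf : Continuous f) (hf0 : f q₁ = q₁) {ε : ℝ} (hε : 0 < ε) :
    ∀ᶠ v in 𝓝 q₁, ‖fderiv ℂ T (f v) (v - f v) - (T v - T (f v))‖ ≤ ε * ‖T v - T (f v)‖ := by
  set L := fderiv ℂ T q₁ with hLdef
  set C : ℝ := ‖L'‖ + 1 with hC
  have hC0 : 0 < C := by positivity
  have hlow : ∀ w, ‖w‖ ≤ C * ‖L w‖ := by
    intro w
    calc ‖w‖ = ‖L' (L w)‖ := by rw [hL w]
      _ ≤ ‖L'‖ * ‖L w‖ := L'.le_opNorm _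
      _ ≤ C * ‖L w‖ := by gcongr; rw [hC]; linarith
  obtain ⟨ε', hε', hε1, hε2⟩ : ∃ ε' : ℝ, 0 < ε' ∧ C * ε' ≤ 1 / 2 ∧ 4 * C * ε' ≤ ε := by
    refine ⟨min (1 / (2 * C)) (ε / (4 * C)), by positivity, ?_, ?_⟩
    · calc C * min (1 / (2 * C)) (ε / (4 * C)) ≤ C * (1 / (2 * C)) := by gcongr; exact min_le_left _ _
        _ = 1 / 2 := by field_simp
    · calc 4 * C * min (1 / (2 * C)) (ε / (4 * C)) ≤ 4 * C * (ε / (4 * C)) := by gcongr; exact min_le_right _ _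
        _ = ε := by field_simp
  have hstr : HasStrictFDerivAt T L q₁ := hT.hasStrictFDerivAt
  have h1 : ∀ᶠ x : Vd d × Vd d in 𝓝 (q₁, q₁), ‖T x.1 - T x.2 - L (x.1 - x.2)‖ ≤ ε' * ‖x.1 - x.2‖ := by
    have := hstr.isLittleO.def hε'
    exact this
  have h2 : Tendsto (fun v => (v, f v)) (𝓝 q₁) (𝓝 (q₁, q₁)) := by
    have h3 : ContinuousAt (fun v => (v, f v)) q₁ := continuousAt_id.prodMk hf.continuousAt
    have h4 := h3.tendsto
    rwa [hf0] at h4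
  have h3 : ∀ᶠ v in 𝓝 q₁, ‖fderiv ℂ T (f v) - L‖ < ε' := by
    have h5 : ContinuousAt (fderiv ℂ T) (f q₁) := by rw [hf0]; exact hT.fderiv.continuousAt
    have h6 : ContinuousAt (fun v => fderiv ℂ T (f v)) q₁ := ContinuousAt.comp (g := fderiv ℂ T) h5 hf.continuousAt
    have h7 := Metric.continuousAt_iff'.1 h6 ε' hε'
    rw [hf0] at h7
    simpa [dist_eq_norm] using h7
  filter_upwards [h2.eventually h1, h3] with v hv1 hv2
  set w := v - f v with hw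
  have a1 : ‖fderiv ℂ T (f v) w - L w‖ ≤ ε' * ‖w‖ := by
    have : fderiv ℂ T (f v) w - L w = (fderiv ℂ T (f v) - L) w := rfl
    rw [this]
    calc ‖(fderiv ℂ T (f v) - L) w‖ ≤ ‖fderiv ℂ T (f v) - L‖ * ‖w‖ := ContinuousLinearMap.le_opNorm _ _
      _ ≤ ε' * ‖w‖ := by gcongr
  have a2 : ‖fderiv ℂ T (f v) w - (T v - T (f v))‖ ≤ 2 * ε' * ‖w‖ := by
    have e1 : fderiv ℂ T (f v) w - (T v - T (f v)) = (fderiv ℂ T (f v) w - L w) - (T v - T (f v) - L w) := by abel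
    rw [e1]
    calc _ ≤ ‖fderiv ℂ T (f v) w - L w‖ + ‖T v - T (f v) - L w‖ := norm_sub_le _ _
      _ ≤ ε' * ‖w‖ + ε' * ‖w‖ := add_le_add a1 hv1
      _ = 2 * ε' * ‖w‖ := by ring
  have a3 : ‖w‖ ≤ 2 * C * ‖T v - T (f v)‖ := by
    have b1 := hlow w
    have b2 : ‖L w‖ ≤ ‖T v - T (f v)‖ + ε' * ‖w‖ := by
      have e1 : L w = (T v - T (f v)) - (T v - T (f v) - L w) := by abel
      calc ‖L w‖ = ‖(T v - T (f v)) - (T v - T (f v) - L w)‖ := by rw [← e1]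
        _ ≤ ‖T v - T (f v)‖ + ‖T v - T (f v) - L w‖ := norm_sub_le _ _
        _ ≤ _ := by gcongr
    have b3 : C * ‖L w‖ ≤ C * ‖T v - T (f v)‖ + (C * ε') * ‖w‖ := by
      calc C * ‖L w‖ ≤ C * (‖T v - T (f v)‖ + ε' * ‖w‖) := by gcongr
        _ = _ := by ring
    have b4 : (C * ε') * ‖w‖ ≤ 1 / 2 * ‖w‖ := by gcongr
    linarith
  calc _ ≤ 2 * ε' * ‖w‖ := a2
    _ ≤ 2 * ε' * (2 * C * ‖T v - T (f v)‖) := by gcongr
    _ = (4 * C * ε') * ‖T v - T (f v)‖ := by ring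
    _ ≤ ε * ‖T v - T (f v)‖ := by gcongr

theorem VV_ratio (hX : IsCone X) {Ω : Fin K → TForm (n + 1) (n + p) X m} (hΩ : TNoZero Ω) (hΛ : DiscreteSub Λ) (hD : D ⊆ X) (hDc : ∀ x ∈ D, ∀ c : ℂ, c ≠ 0 → c • x ∈ D)
    {s : ℝ} (hs : 0 < s) {χ₁ χ₂ : Chart (n + p) X} {x₁ x₂ : EN N} (h₁ : ECh D X Λ u s χ₁ x₁) (h₂ : ECh D X Λ u s χ₂ x₂)
    {x₀ : EN N} (h0 : x₀ ∈ D) (hU₁ : x₀ ∈ χ₁.U) (hU₂ : x₀ ∈ χ₂.U) {δ : ℝ} (hδ : 0 < δ) :
    ∀ᶠ y in 𝓝 x₀, y ∈ X → VV Ω χ₁ y ≤ (1 + δ) * VV Ω χ₂ y := by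
  have hx₀ : x₀ ∈ X := hD h0
  obtain ⟨hq₁, c₁, hc₁, e₁⟩ := χ₁.surj x₀ hx₀ hU₁
  obtain ⟨hq₂, c₂, hc₂, e₂⟩ := χ₂.surj x₀ hx₀ hU₂
  set q₁ := χ₁.q x₀ with hq₁def
  set q₂ := χ₂.q x₀ with hq₂def
  have hσ₁ : χ₁.σ q₁ = c₁⁻¹ • x₀ := by
    conv_rhs => rw [e₁]
    rw [smul_smul, inv_mul_cancel₀ hc₁, one_smul]
  have hσ₂ : χ₂.σ q₂ = c₂⁻¹ • x₀ := by
    conv_rhs => rw [e₂]
    rw [smul_smul, inv_mul_cancel₀ hc₂, one_smul]
  have hU : χ₁.σ q₁ ∈ χ₂.U := by rw [hσ₁]; exact χ₂.smul_U _ hU₂ _ (inv_ne_zero hc₁)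
  have hU' : χ₂.σ q₂ ∈ χ₁.U := by rw [hσ₂]; exact χ₁.smul_U _ hU₁ _ (inv_ne_zero hc₂)
  set T : Vd (n + p) → Vd (n + p) := fun y => χ₂.q (χ₁.σ y) with hT
  set T' : Vd (n + p) → Vd (n + p) := fun y => χ₁.q (χ₂.σ y) with hT'
  have hTq : T q₁ = q₂ := by
    show χ₂.q (χ₁.σ q₁) = _
    rw [hσ₁, χ₂.q_smul x₀ hU₂ _ (inv_ne_zero hc₁)]
  have hTan : AnalyticAt ℂ T q₁ := (chg_an hX χ₁ χ₂ hq₁ hU).1
  have hTan' : AnalyticAt ℂ T' q₂ := (chg_an hX χ₂ χ₁ hq₂ hU').1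
  -- the inverse of the derivative
  have hinv : ∀ w, fderiv ℂ T' q₂ (fderiv ℂ T q₁ w) = w := by
    intro w
    have b1 : HasFDerivAt T (fderiv ℂ T q₁) q₁ := hTan.differentiableAt.hasFDerivAt
    have b2 : HasFDerivAt T' (fderiv ℂ T' q₂) (T q₁) := by
      rw [hTq]; exact hTan'.differentiableAt.hasFDerivAt
    have b3 : HasFDerivAt (fun y => T' (T y)) ((fderiv ℂ T' q₂).comp (fderiv ℂ T q₁)) q₁ := b2.comp q₁ b1
    have b4 : HasFDerivAt (fun y => T' (T y)) (ContinuousLinearMap.id ℂ (Vd (n + p))) q₁ := by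
      refine (hasFDerivAt_id q₁).congr_of_eventuallyEq ?_
      filter_upwards [Rat_ev χ₁ χ₂ hq₁ hU] with v hv
      obtain ⟨hX', hU₁', hqq⟩ := χ₁.σ_mem v hv.1
      obtain ⟨-, c, hc, hce⟩ := χ₂.surj _ hX' hv.2
      have e3 : χ₂.σ (χ₂.q (χ₁.σ v)) = c⁻¹ • χ₁.σ v := by
        conv_rhs => rw [hce]
        rw [smul_smul, inv_mul_cancel₀ hc, one_smul]
      show χ₁.q (χ₂.σ (χ₂.q (χ₁.σ v))) = v
      rw [e3, χ₁.q_smul _ hU₁' _ (inv_ne_zero hc), hqq]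
    have b5 := congrArg (fun L : Vd (n + p) →L[ℂ] Vd (n + p) => L w) (b3.unique b4)
    exact b5
  -- the points over `D`
  have hl₁ : ll q₁ = 0 := (h₁.mem_iff _ hx₀ hU₁).1 h0
  have hl₂ : ll q₂ = 0 := (h₂.mem_iff _ hx₀ hU₂).1 h0
  have hf₁ : ft q₁ = q₁ := Rat_ft_of_ll hl₁
  have hf₂ : ft q₂ = q₂ := Rat_ft_of_ll hl₂
  obtain ⟨e, V, hVo, hVq, hV⟩ := Rat_open hX hΛ hs h₁ h₂ hq₁ hU
  obtain ⟨ε, hε, hnear⟩ := cf_near hX hΩ χ₂ hq₂ hδ
  have hstrict := Rat_strict hTan hinv Rat_ft_cont hf₁ hε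
  have ev1 : ∀ᶠ v in 𝓝 q₁, v ∈ V := hVo.mem_nhds hVq
  have ev2 : ∀ᶠ v in 𝓝 q₁, ft v ∈ V := by
    apply Rat_ft_cont.continuousAt.eventually_mem
    rw [hf₁]; exact hVo.mem_nhds hVq
  have ev3 : ∀ᶠ v in 𝓝 q₁, ft (T v) ∈ ball q₂ ε := by
    have b1 : ContinuousAt (fun v => ft (T v)) q₁ := ContinuousAt.comp (g := ft) Rat_ft_cont.continuousAt hTan.continuousAt
    apply b1.eventually_mem
    show ball q₂ ε ∈ 𝓝 (ft (T q₁))
    rw [hTq, hf₂]; exact isOpen_ball.mem_nhds (mem_ball_self hε)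
  have ev4 : ∀ᶠ v in 𝓝 q₁, AnalyticAt ℂ T v := hTan.eventually_analyticAt
  have ev5 : ∀ᶠ v in 𝓝 q₁, AnalyticAt ℂ T (ft v) := by
    have b1 : Tendsto ft (𝓝 q₁) (𝓝 q₁) := by
      have b2 := (Rat_ft_cont (n := n) (p := p)).tendsto q₁
      rwa [hf₁] at b2
    exact b1.eventually ev4
  have hqc : Tendsto χ₁.q (𝓝 x₀) (𝓝 q₁) := (χ₁.q_an x₀ hU₁).continuousAt
  have hall := hqc.eventually (ev1.and (ev2.and (ev3.and (ev5.and hstrict))))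
  filter_upwards [hall, χ₁.isOpen_U.mem_nhds hU₁, χ₂.isOpen_U.mem_nhds hU₂] with y hy hy₁ hy₂ hyX
  obtain ⟨k1, k2, k3, k5, k6⟩ := hy
  set v := χ₁.q y with hv
  obtain ⟨-, c, hc, hce⟩ := χ₁.surj y hyX hy₁
  have hTv : χ₂.q y = T v := by
    conv_lhs => rw [hce]
    exact χ₂.q_smul _ (hV v k1).2.1 c hc
  have hTft : T (ft v) = ft (T v) := by
    refine Rat_ext ?_ ?_
    · rw [Rat_bb_ft]
      have a1 := (hV _ k2).2.2.1
      have a2 := (hV _ k1).2.2.1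
      rw [Rat_bb_ft] at a1
      exact a1.trans a2.symm
    · rw [Rat_ll_ft]
      exact (hV _ k2).2.2.2 (Rat_ll_ft v)
  have hTe : ∀ j : Fin n, fderiv ℂ T (ft v) (Pi.single (Fin.castAdd p j) 1) = Pi.single (Fin.castAdd p j) 1 := fun j =>
    Rat_hT hVo (fun w hw => (hV w hw).2.2.1) (fun w hw => (hV w hw).2.2.2) k2 (Rat_ll_ft v) k5.differentiableAt j
  have e3 : VV Ω χ₁ y = cf Ω χ₂ (ft (T v)) (fderiv ℂ T (ft v) (vt v)) := by
    have a1 := cf_trans hX Ω χ₁ χ₂ (hV _ k2).1 (hV _ k2).2.1 hTe (vt v)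
    have a2 : χ₂.q (χ₁.σ (ft v)) = ft (T v) := hTft
    rw [a2] at a1
    exact a1
  have e4 : VV Ω χ₂ y = cf Ω χ₂ (ft (T v)) (vt (T v)) := by
    show cf Ω χ₂ (ft (χ₂.q y)) (vt (χ₂.q y)) = _
    rw [hTv]
  rw [e3, e4]
  refine hnear _ k3 (vt (T v)) (fderiv ℂ T (ft v) (vt v)) (Rat_bb_vt _) ?_ ?_
  · rw [Rat_hbb hVo (fun w hw => (hV w hw).2.2.1) k2 k5.differentiableAt, Rat_bb_vt]
  · rw [Rat_vt (T v), Rat_vt v, ← hTft]
    exact k6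

end Pool.Agent.H19T
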