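import Pool.Agent.H19T.DefsB

/-!
# H19T Shr: smaller charts, covers of `D`

`exists_shrink`: `σ' v = σ (q y + t v)`, `U' = {x ∈ U | ‖q x - q y‖ < 2 t}`, `q' x = t⁻¹ (q x - q y)`.
`exists_small`: take a chart centred at `y` (`hch`); `{v ∈ ball 0 2 | σ v ∈ O}` is a neighbourhood of `0` (`y = c σ 0`, `O` is a cone), so it contains `ball 0 (2 t)`; shrink by `t`.
`ECh.shrink`: `tor`: `u x' - u y = (u x' - u x) - (u y - u x)`, `bb (q x' - q y) = t bb (q' x')`; `mem_iff`: `ll (q y) = 0` as `y ∈ D`, so `ll (q' x') = t⁻¹ ll (q x')`.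
`EtaleIn.uniform`: `D ∩ sphere` is compact (closed subset: `closed`, `0 ∉` sphere); cover it by the open sets `{y ∈ U_x | ‖q_x y‖ < 1}`; finite subcover with scales `s_1, ..., s_k`; `s = min s_i / 2`
(`s = 1` if `D` is empty); `y ∈ D` (scale it to the sphere; `q` and `U` are invariant) lies in the `i`-th one: shrink by `t = s / s_i ≤ 1/2`.
`EtaleIn.cover`: the same cover with `< θ`.
-/

set_option autoImplicit false

open Topology Filter Metric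

namespace Pool.Agent.H19T

open Pool.Agent.H36.BP (EN fs wd Sub Curve)
open Pool.Agent.H14.PP (IsCone CurveAt Tan)
open Pool.Agent.AD (Vd Chart Charts TorusMapV DiscreteSub)

variable {N : ℕ} {X D : Set (EN N)}

private theorem Shr_norm {d : ℕ} {a p : Vd d} {t : ℝ} (ht : 0 < t) (ha : ‖a‖ + 2 * t ≤ 2) (hp : p ∈ ball (0 : Vd d) 2) : a + (t : ℂ) • p ∈ ball (0 : Vd d) 2 := by
  rw [mem_ball_zero_iff] at hp ⊢
  have h1 : ‖(t : ℂ) • p‖ = t * ‖p‖ := by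
    rw [norm_smul, Complex.norm_real, Real.norm_eq_abs, abs_of_pos ht]
  have h2 := norm_add_le a ((t : ℂ) • p)
  rw [h1] at h2
  nlinarith

theorem exists_shrink {d : ℕ} (χ : Chart d X) {y : EN N} (hU : y ∈ χ.U) {t : ℝ} (ht : 0 < t) (hty : ‖χ.q y‖ + 2 * t ≤ 2) :
    ∃ χ' : Chart d X, y ∈ χ'.U ∧ χ'.q y = 0 ∧ χ'.U = {x | x ∈ χ.U ∧ ‖χ.q x - χ.q y‖ < 2 * t} ∧ ∀ x, χ'.q x = ((t : ℂ))⁻¹ • (χ.q x - χ.q y) := by
  have htc : (t : ℂ) ≠ 0 := by exact_mod_cast ht.ne'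
  have hmem : ∀ p ∈ ball (0 : Vd d) 2, χ.q y + (t : ℂ) • p ∈ ball (0 : Vd d) 2 := fun p hp => Shr_norm ht hty hp
  have hcan : ∀ x, χ.q y + (t : ℂ) • ((t : ℂ)⁻¹ • (χ.q x - χ.q y)) = χ.q x := by
    intro x
    rw [smul_smul, mul_inv_cancel₀ htc, one_smul]
    abel
  refine ⟨{ σ := fun p => χ.σ (χ.q y + (t : ℂ) • p)
            U := {x | x ∈ χ.U ∧ ‖χ.q x - χ.q y‖ < 2 * t}
            q := fun x => ((t : ℂ))⁻¹ • (χ.q x - χ.q y)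
            isOpen_U := ?_
            smul_U := ?_
            σ_an := ?_
            q_an := ?_
            q_smul := ?_
            σ_mem := ?_
            surj := ?_ }, ⟨hU, ?_⟩, ?_, rfl, fun x => rfl⟩
  · have hc : ContinuousOn (fun x => ‖χ.q x - χ.q y‖) χ.U := by
      intro x hx
      exact ((χ.q_an x hx).continuousAt.sub continuousAt_const).norm.continuousWithinAt
    exact hc.isOpen_inter_preimage χ.isOpen_U isOpen_Iio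
  · rintro x ⟨hx, hx2⟩ c hc
    exact ⟨χ.smul_U x hx c hc, by rw [χ.q_smul x hx c hc]; exact hx2⟩
  · intro p hp
    have h1 : AnalyticAt ℂ (fun p : Vd d => χ.q y + (t : ℂ) • p) p := by fun_prop
    exact AnalyticAt.comp (g := χ.σ) (f := fun p : Vd d => χ.q y + (t : ℂ) • p) (χ.σ_an _ (hmem p hp)) h1
  · rintro x ⟨hx, -⟩
    have h1 := χ.q_an x hx
    show AnalyticAt ℂ (fun x => ((t : ℂ))⁻¹ • (χ.q x - χ.q y)) x
    fun_prop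
  · rintro x ⟨hx, -⟩ c hc
    show ((t : ℂ))⁻¹ • (χ.q (c • x) - χ.q y) = ((t : ℂ))⁻¹ • (χ.q x - χ.q y)
    rw [χ.q_smul x hx c hc]
  · intro p hp
    obtain ⟨h1, h2, h3⟩ := χ.σ_mem _ (hmem p hp)
    refine ⟨h1, ⟨h2, ?_⟩, ?_⟩
    · show ‖χ.q (χ.σ (χ.q y + (t : ℂ) • p)) - χ.q y‖ < 2 * t
      rw [h3, add_sub_cancel_left, norm_smul, Complex.norm_real, Real.norm_eq_abs, abs_of_pos ht]
      rw [mem_ball_zero_iff] at hp
      nlinarith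
    · show ((t : ℂ))⁻¹ • (χ.q (χ.σ (χ.q y + (t : ℂ) • p)) - χ.q y) = p
      rw [h3, add_sub_cancel_left, smul_smul, inv_mul_cancel₀ htc, one_smul]
  · rintro x hxX ⟨hx, hx2⟩
    obtain ⟨-, c, hc, h2⟩ := χ.surj x hxX hx
    refine ⟨?_, c, hc, ?_⟩
    · rw [mem_ball_zero_iff, norm_smul, norm_inv, Complex.norm_real, Real.norm_eq_abs, abs_of_pos ht, inv_mul_lt_iff₀ ht]
      linarith
    · show x = c • χ.σ (χ.q y + (t : ℂ) • ((t : ℂ)⁻¹ • (χ.q x - χ.q y)))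
      rw [hcan]
      exact h2
  · rw [sub_self, norm_zero]
    linarith
  · show ((t : ℂ))⁻¹ • (χ.q y - χ.q y) = 0
    rw [sub_self, smul_zero]

theorem exists_small {d : ℕ} (hX : IsCone X) (hch : Charts d X) {y : EN N} (hy : y ∈ X) {O : Set (EN N)} (hO : IsOpen O) (hOc : ∀ x ∈ O, ∀ c : ℂ, c ≠ 0 → c • x ∈ O)
    (hyO : y ∈ O) : ∃ χ : Chart d X, y ∈ χ.U ∧ χ.q y = 0 ∧ ∀ x ∈ X, x ∈ χ.U → x ∈ O := by
  obtain ⟨χ, hU, hq⟩ := hch y hy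
  have h0 : (0 : Vd d) ∈ ball (0 : Vd d) 2 := mem_ball_self (by norm_num)
  have h1 : χ.σ 0 ∈ O := by
    obtain ⟨-, c, hc, h2⟩ := χ.surj y hy hU
    rw [hq] at h2
    have h3 : χ.σ 0 = c⁻¹ • y := by
      rw [h2, smul_smul, inv_mul_cancel₀ hc, one_smul]
    rw [h3]
    exact hOc y hyO _ (inv_ne_zero hc)
  have h2 : ∀ᶠ p in 𝓝 (0 : Vd d), χ.σ p ∈ O := (χ.σ_an 0 h0).continuousAt.eventually_mem (hO.mem_nhds h1)
  obtain ⟨r, hr, hr2⟩ := Metric.eventually_nhds_iff_ball.1 h2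
  have ht : 0 < min (r / 2) 1 := lt_min (by linarith) one_pos
  obtain ⟨χ', hU', hq', hUeq, -⟩ := exists_shrink χ hU ht (by rw [hq, norm_zero]; linarith [min_le_right (r / 2) 1])
  refine ⟨χ', hU', hq', fun x hx hxU => ?_⟩
  rw [hUeq] at hxU
  obtain ⟨h3, h4⟩ := hxU
  rw [hq, sub_zero] at h4
  obtain ⟨-, c, hc, h5⟩ := χ.surj x hx h3
  have h6 : χ.σ (χ.q x) ∈ O := hr2 _ (by rw [mem_ball_zero_iff]; linarith [min_le_left (r / 2) 1])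
  rw [h5]
  exact hOc _ h6 c hc

variable {n p : ℕ} {Λ : AddSubgroup (Vd n)} {u : EN N → Vd n}

theorem ECh.shrink {s : ℝ} {χ : Chart (n + p) X} {x y : EN N} (h : ECh D X Λ u s χ x) (hy : y ∈ D) (hyX : y ∈ X) (hU : y ∈ χ.U) {t : ℝ} (ht : 0 < t)
    (hty : ‖χ.q y‖ + 2 * t ≤ 2) : ∃ χ' : Chart (n + p) X, ECh D X Λ u (s * t) χ' y := by
  have htc : (t : ℂ) ≠ 0 := by exact_mod_cast ht.ne'
  obtain ⟨χ', hU', hq', hUeq, hqe⟩ := exists_shrink χ hU ht hty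
  have hly : ll (χ.q y) = 0 := (h.mem_iff y hyX hU).1 hy
  refine ⟨χ', hU', hq', fun z hz hzU => ?_, fun z hz hzU => ?_⟩
  · have hzU' : z ∈ χ.U := by
      rw [hUeq] at hzU
      exact hzU.1
    have h1 := Λ.sub_mem (h.tor z hz hzU') (h.tor y hyX hU)
    have h2 : u z - u y - ((s * t : ℝ) : ℂ) • bb (χ'.q z) = (u z - u x - (s : ℂ) • bb (χ.q z)) - (u y - u x - (s : ℂ) • bb (χ.q y)) := by
      rw [hqe z]
      funext j
      simp only [bb, Pi.sub_apply, Pi.smul_apply, smul_eq_mul]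
      push_cast
      have h3 : (s : ℂ) * (t : ℂ) * ((t : ℂ)⁻¹ * (χ.q z (Fin.castAdd p j) - χ.q y (Fin.castAdd p j))) = (s : ℂ) * (χ.q z (Fin.castAdd p j) - χ.q y (Fin.castAdd p j)) := by
        rw [mul_assoc, ← mul_assoc (t : ℂ), mul_inv_cancel₀ htc, one_mul]
      rw [h3]
      ring
    rw [h2]
    exact h1
  · have hzU' : z ∈ χ.U := by
      rw [hUeq] at hzU
      exact hzU.1
    rw [h.mem_iff z hz hzU', hqe z]
    have h2 : ll ((t : ℂ)⁻¹ • (χ.q z - χ.q y)) = (t : ℂ)⁻¹ • (ll (χ.q z) - ll (χ.q y)) := rfl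
    rw [h2, hly, sub_zero, smul_eq_zero]
    exact ⟨Or.inr, fun h3 => h3.resolve_left (inv_ne_zero htc)⟩

private theorem Shr_cover (hX : IsCone X) (h : EtaleIn p D X Λ u) (V : {x // x ∈ D} → Set (EN N)) (hVo : ∀ x, IsOpen (V x)) (hVx : ∀ x, x.1 ∈ V x)
    (hVc : ∀ x, ∀ z ∈ V x, ∀ c : ℂ, c ≠ 0 → c • z ∈ V x) : ∃ T : Finset {x // x ∈ D}, ∀ y ∈ D, ∃ x ∈ T, y ∈ V x := by
  have h0 : (0 : EN N) ∉ D := fun h0 => hX.zero_notMem (h.sub h0)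
  have hK : IsCompact (insert 0 D ∩ sphere (0 : EN N) 1) := (isCompact_sphere (0 : EN N) 1).inter_left h.closed
  have hKD : ∀ x ∈ insert 0 D ∩ sphere (0 : EN N) 1, x ∈ D := by
    rintro x ⟨hx, hx2⟩
    rcases Set.mem_insert_iff.1 hx with hx | hx
    · rw [hx, mem_sphere_zero_iff_norm, norm_zero] at hx2
      exact absurd hx2 (by norm_num)
    · exact hx
  obtain ⟨T, hT⟩ := hK.elim_finite_subcover V hVo (fun x hx => Set.mem_iUnion.2 ⟨⟨x, hKD x hx⟩, hVx ⟨x, hKD x hx⟩⟩)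
  refine ⟨T, fun y hy => ?_⟩
  have hy0 : y ≠ 0 := fun h1 => h0 (h1 ▸ hy)
  have hny : (‖y‖ : ℂ) ≠ 0 := by exact_mod_cast (norm_pos_iff.2 hy0).ne'
  have h1 : (‖y‖ : ℂ)⁻¹ • y ∈ insert 0 D ∩ sphere (0 : EN N) 1 := by
    refine ⟨Set.mem_insert_of_mem _ (h.smul_mem y hy _ (inv_ne_zero hny)), ?_⟩
    rw [mem_sphere_zero_iff_norm, norm_smul, norm_inv, Complex.norm_real, norm_norm, inv_mul_cancel₀ (norm_pos_iff.2 hy0).ne']
  obtain ⟨x, hx⟩ := Set.mem_iUnion.1 (hT h1)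
  obtain ⟨hxT, hx2⟩ := Set.mem_iUnion.1 hx
  refine ⟨x, hxT, ?_⟩
  have h2 := hVc x _ hx2 (‖y‖ : ℂ) hny
  rwa [smul_smul, mul_inv_cancel₀ hny, one_smul] at h2

private theorem Shr_nbhd {d : ℕ} (χ : Chart d X) (θ : ℝ) : IsOpen {z | z ∈ χ.U ∧ ‖χ.q z‖ < θ} ∧ ∀ z ∈ {z | z ∈ χ.U ∧ ‖χ.q z‖ < θ}, ∀ c : ℂ, c ≠ 0 →
    c • z ∈ {z | z ∈ χ.U ∧ ‖χ.q z‖ < θ} := by
  constructor
  · have hc : ContinuousOn (fun x => ‖χ.q x‖) χ.U := fun x hx => (χ.q_an x hx).continuousAt.norm.continuousWithinAt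
    exact hc.isOpen_inter_preimage χ.isOpen_U isOpen_Iio
  · rintro x ⟨hx, hx2⟩ c hc
    exact ⟨χ.smul_U x hx c hc, by rw [χ.q_smul x hx c hc]; exact hx2⟩

theorem EtaleIn.uniform (hX : IsCone X) (h : EtaleIn p D X Λ u) : ∃ s : ℝ, 0 < s ∧ ∀ x ∈ D, ∃ χ : Chart (n + p) X, ECh D X Λ u s χ x := by
  choose s hs χ hχ using h.chart
  obtain ⟨T, hT⟩ := Shr_cover hX h (fun x => {z | z ∈ (χ x.1 x.2).U ∧ ‖(χ x.1 x.2).q z‖ < 1}) (fun x => (Shr_nbhd _ _).1)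
    (fun x => ⟨(hχ x.1 x.2).mem_U, by rw [(hχ x.1 x.2).q_zero, norm_zero]; exact one_pos⟩) (fun x => (Shr_nbhd _ _).2)
  have hmin : ∃ m : ℝ, 0 < m ∧ ∀ x ∈ T, m ≤ s x.1 x.2 := by
    rcases T.eq_empty_or_nonempty with hT0 | hT0
    · exact ⟨1, one_pos, fun x hx => by rw [hT0] at hx; exact absurd hx (Finset.notMem_empty x)⟩
    · obtain ⟨x₀, hx₀, hmin⟩ := T.exists_min_image (fun x => s x.1 x.2) hT0
      exact ⟨s x₀.1 x₀.2, hs x₀.1 x₀.2, hmin⟩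
  obtain ⟨m, hm, hmT⟩ := hmin
  refine ⟨m / 2, by linarith, fun y hy => ?_⟩
  obtain ⟨x, hxT, hyU, hyq⟩ := hT y hy
  have hsx := hs x.1 x.2
  have h1 : m / 2 / s x.1 x.2 ≤ 1 / 2 := by
    rw [div_div, div_le_div_iff₀ (by positivity) (by norm_num)]
    linarith [hmT x hxT]
  obtain ⟨χ', hχ'⟩ := (hχ x.1 x.2).shrink hy (h.sub hy) hyU (t := m / 2 / s x.1 x.2) (by positivity) (by linarith)
  refine ⟨χ', ?_⟩
  rwa [mul_div_cancel₀ _ hsx.ne'] at hχ'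

theorem EtaleIn.cover (hX : IsCone X) (h : EtaleIn p D X Λ u) {s : ℝ} (hs : ∀ x ∈ D, ∃ χ : Chart (n + p) X, ECh D X Λ u s χ x) {θ : ℝ} (hθ : 0 < θ) :
    ∃ (J : ℕ) (x : Fin J → EN N) (χ : Fin J → Chart (n + p) X), (∀ i, ECh D X Λ u s (χ i) (x i)) ∧ ∀ y ∈ D, ∃ i, y ∈ (χ i).U ∧ ‖(χ i).q y‖ < θ := by
  choose χ hχ using hs
  obtain ⟨T, hT⟩ := Shr_cover hX h (fun x => {z | z ∈ (χ x.1 x.2).U ∧ ‖(χ x.1 x.2).q z‖ < θ}) (fun x => (Shr_nbhd _ _).1)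
    (fun x => ⟨(hχ x.1 x.2).mem_U, by rw [(hχ x.1 x.2).q_zero, norm_zero]; exact hθ⟩) (fun x => (Shr_nbhd _ _).2)
  refine ⟨T.card, fun i => (T.equivFin.symm i).1.1, fun i => χ (T.equivFin.symm i).1.1 (T.equivFin.symm i).1.2, fun i => hχ _ _, fun y hy => ?_⟩
  obtain ⟨x, hxT, hyU, hyq⟩ := hT y hy
  obtain ⟨i, hi⟩ := T.equivFin.symm.surjective ⟨x, hxT⟩
  refine ⟨i, ?_⟩
  show y ∈ (χ (T.equivFin.symm i).1.1 (T.equivFin.symm i).1.2).U ∧ ‖(χ (T.equivFin.symm i).1.1 (T.equivFin.symm i).1.2).q y‖ < θ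
  rw [hi]
  exact ⟨hyU, hyq⟩

end Pool.Agent.H19T
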