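import Pool.Agent.H19T.Coef

/-!
# H19T SubV: the functions `WW` grow along holomorphic curves

Model: `AD/TB/Sub.lean` (`exists_cen_sub`, private `exists_unit`) — almost the same proof.

`exists_WW_sub`.  `v z = χ.q (F z)`, `P z = χ.σ (ft (v z))`, analytic near `z₀` (`ft (v z₀) ∈ ball 0 2`, `ft`, `vt` are linear), `VV (F z) = (∑ |cfk j (ft (v z)) (vt (v z))|) ‖P z‖`:
`Sub (∑ ..) 0` as in the model, `Sub ‖P‖ (fs (P z₀) (P' z₀)² / 2)` (`Sub.norm_rpow` with exponent `1`); `fs (P z₀) (P' z₀) ≥ C⁻¹ ‖(ft ∘ v)' z₀‖` by `Chart.exists_fs_bound` (first part, with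
`x = P z₀`, `v = P' z₀`: `fderiv q (P z₀) (P' z₀) = (ft ∘ v)' z₀` since `χ.q (P z) = ft (v z)`), and `‖(ft ∘ v)' z₀‖² ≥ (1/(n+1)) ∑_j ‖(v_j)' z₀‖²`.  `Sub.mul`, `Sub.rpow (1/m)`.  The factor
`exp (-a ∑_j |v_j|²)` is the product of the `exp (-a |v_j z|²)`: `Sub.exp_sq` for every `j` (`z ↦ v z (castAdd j)` is analytic), induction over the Finset.

`vel_sq`: `ν` is the Euclidean length of `du`; `u - s bb (q ·)` is locally constant mod `Λ` on `X ∩ U`, so `du (F') = s (bb ∘ q ∘ F)'` (`TorusMapV.du_eq` with the lift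
`x' ↦ u x + s bb (q x')`, analytic, and `deriv_comp_lift`).  `‖·‖ ^ ((2 : ℝ) / 1)` is `‖·‖ ^ 2`.
-/

set_option autoImplicit false

open Topology Filter Metric

namespace Pool.Agent.H19T

open Pool.Agent.H36.BP (EN fs wd Sub Curve)
open Pool.Agent.H14.PP (IsCone CurveAt Tan)
open Pool.Agent.H22.W (PseudoLength)
open Pool.Agent.AD (Vd Chart Charts TorusMapV DiscreteSub symLength)
open Pool.Agent.AD.F (vel)

variable {N : ℕ} {X D : Set (EN N)} {n p m K : ℕ} {Λ : AddSubgroup (Vd n)} {u : EN N → Vd n}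

/-- `bb` is analytic -/
private theorem SubV_bb_an {E : Type} [NormedAddCommGroup E] [NormedSpace ℂ E] {f : E → Vd (n + p)} {y : E} (hf : AnalyticAt ℂ f y) :
    AnalyticAt ℂ (fun x => bb (f x)) y := by
  have h1 : AnalyticAt ℂ (fun q : Vd (n + p) => bb q) (f y) :=
    (ContinuousLinearMap.pi fun j : Fin n => ContinuousLinearMap.proj (R := ℂ) (φ := fun _ : Fin (n + p) => ℂ) (Fin.castAdd p j)).analyticAt _
  exact AnalyticAt.comp (g := fun q : Vd (n + p) => bb q) (f := f) h1 hf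

private theorem SubV_ft_left (q : Vd (n + p)) (j : Fin n) : ft q (Fin.castAdd p j) = q (Fin.castAdd p j) := by
  show Fin.append (bb q) (0 : Vd p) (Fin.castAdd p j) = _
  rw [Fin.append_left]
  rfl

private theorem SubV_ft_right (q : Vd (n + p)) (j : Fin p) : ft q (Fin.natAdd n j) = 0 := by
  show Fin.append (bb q) (0 : Vd p) (Fin.natAdd n j) = _
  rw [Fin.append_right]
  rfl

private theorem SubV_vt_left (q : Vd (n + p)) (j : Fin n) : vt q (Fin.castAdd p j) = 0 := by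
  show Fin.append (0 : Vd n) (ll q) (Fin.castAdd p j) = _
  rw [Fin.append_left]
  rfl

private theorem SubV_vt_right (q : Vd (n + p)) (j : Fin p) : vt q (Fin.natAdd n j) = q (Fin.natAdd n j) := by
  show Fin.append (0 : Vd n) (ll q) (Fin.natAdd n j) = _
  rw [Fin.append_right]
  rfl

/-- `ft` is analytic -/
private theorem SubV_ft_an {E : Type} [NormedAddCommGroup E] [NormedSpace ℂ E] {f : E → Vd (n + p)} {y : E} (hf : AnalyticAt ℂ f y) :
    AnalyticAt ℂ (fun x => ft (f x)) y := by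
  have h1 : AnalyticAt ℂ (fun q : Vd (n + p) => ft q) (f y) := by
    have h2 := (ContinuousLinearMap.pi (Fin.append (fun j : Fin n => ContinuousLinearMap.proj (R := ℂ) (φ := fun _ : Fin (n + p) => ℂ) (Fin.castAdd p j))
      (fun _ : Fin p => (0 : Vd (n + p) →L[ℂ] ℂ)))).analyticAt (f y)
    refine h2.congr (Eventually.of_forall fun q => ?_)
    funext i
    show _ = ft q i
    rw [ContinuousLinearMap.pi_apply]
    refine Fin.addCases (fun j => ?_) (fun j => ?_) i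
    · rw [SubV_ft_left, Fin.append_left]
      rfl
    · rw [SubV_ft_right, Fin.append_right]
      rfl
  exact AnalyticAt.comp (g := fun q : Vd (n + p) => ft q) (f := f) h1 hf

/-- `vt` is analytic -/
private theorem SubV_vt_an {E : Type} [NormedAddCommGroup E] [NormedSpace ℂ E] {f : E → Vd (n + p)} {y : E} (hf : AnalyticAt ℂ f y) :
    AnalyticAt ℂ (fun x => vt (f x)) y := by
  have h1 : AnalyticAt ℂ (fun q : Vd (n + p) => vt q) (f y) := by
    have h2 := (ContinuousLinearMap.pi (Fin.append (fun _ : Fin n => (0 : Vd (n + p) →L[ℂ] ℂ))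
      (fun j : Fin p => ContinuousLinearMap.proj (R := ℂ) (φ := fun _ : Fin (n + p) => ℂ) (Fin.natAdd n j)))).analyticAt (f y)
    refine h2.congr (Eventually.of_forall fun q => ?_)
    funext i
    show _ = vt q i
    rw [ContinuousLinearMap.pi_apply]
    refine Fin.addCases (fun j => ?_) (fun j => ?_) i
    · rw [SubV_vt_left, Fin.append_left]
      rfl
    · rw [SubV_vt_right, Fin.append_right]
      rfl
  exact AnalyticAt.comp (g := fun q : Vd (n + p) => vt q) (f := f) h1 hf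

private theorem SubV_ft_norm (q : Vd (n + p)) : ‖ft q‖ ≤ ‖q‖ := by
  rw [pi_norm_le_iff_of_nonneg (norm_nonneg _)]
  intro i
  refine Fin.addCases (fun j => ?_) (fun j => ?_) i
  · rw [SubV_ft_left]
    exact norm_le_pi_norm q _
  · rw [SubV_ft_right, norm_zero]
    exact norm_nonneg _

private theorem SubV_exists_unit (z : ℂ) : ∃ ζ : ℂ, ‖ζ‖ = 1 ∧ ζ * z = (‖z‖ : ℂ) := by
  rcases eq_or_ne z 0 with h | h
  · exact ⟨1, norm_one, by rw [h]; simp⟩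
  · have hn : (‖z‖ : ℂ) ≠ 0 := by exact_mod_cast (norm_pos_iff.2 h).ne'
    refine ⟨(‖z‖ : ℂ) / z, ?_, div_mul_cancel₀ _ h⟩
    rw [norm_div, Complex.norm_real, norm_norm, div_self (norm_pos_iff.2 h).ne']

/-- sums of absolute values of holomorphic functions -/
private theorem SubV_sum {hk : Fin K → ℂ → ℂ} {z₀ : ℂ} (hkan : ∀ k, AnalyticAt ℂ (hk k) z₀) (hsum0 : 0 < ∑ k, ‖hk k z₀‖) :
    Sub (fun z => ∑ k, ‖hk k z‖) z₀ 0 := by
  choose ζ hζ hζ' using fun k => SubV_exists_unit (hk k z₀)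
  have e0 : ∑ k, ζ k * hk k z₀ = ((∑ k, ‖hk k z₀‖ : ℝ) : ℂ) := by
    push_cast
    exact Finset.sum_congr rfl fun k _ => hζ' k
  have e1 : AnalyticAt ℂ (fun z => ∑ k, ζ k * hk k z) z₀ := Finset.analyticAt_fun_sum _ fun k _ => analyticAt_const.mul (hkan k)
  have e2 : (∑ k, ζ k * hk k z₀) ≠ 0 := by
    rw [e0]
    exact_mod_cast hsum0.ne'
  refine (Sub.of_holo e1 e2).mono ?_ ?_
  · show ‖∑ k, ζ k * hk k z₀‖ = _
    rw [e0, Complex.norm_real, Real.norm_of_nonneg hsum0.le]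
  · refine Eventually.of_forall fun z => ?_
    refine (norm_sum_le _ _).trans (Finset.sum_le_sum fun k _ => ?_)
    rw [norm_mul, hζ k, one_mul]

/-- products of exponentials of squares -/
private theorem SubV_exp_sum {ι : Type} (s : Finset ι) (f : ι → ℂ → ℂ) {z₀ : ℂ} (hf : ∀ j, AnalyticAt ℂ (f j) z₀) (a : ℝ) :
    Sub (fun z => Real.exp (a * ∑ j ∈ s, ‖f j z‖ ^ 2)) z₀ (a * ∑ j ∈ s, ‖deriv (f j) z₀‖ ^ 2) := by
  classical
  induction s using Finset.induction_on with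
  | empty =>
    simp only [Finset.sum_empty, mul_zero, Real.exp_zero]
    exact Sub.const one_pos z₀
  | insert i s hi ih =>
    have h1 := (Sub.exp_sq (hf i) a).mul ih
    rw [← mul_add, ← Finset.sum_insert (f := fun j => ‖deriv (f j) z₀‖ ^ 2) hi] at h1
    refine h1.congr (Eventually.of_forall fun z => ?_)
    show Real.exp (a * ‖f i z‖ ^ 2) * Real.exp (a * ∑ j ∈ s, ‖f j z‖ ^ 2) = _
    rw [← Real.exp_add, ← mul_add, ← Finset.sum_insert (f := fun j => ‖f j z‖ ^ 2) hi]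

/-- the Euclidean length of `du` -/
noncomputable def nuL (hX : IsCone X) {d : ℕ} (hch : Charts d X) (hΛ : DiscreteSub Λ) (hu : TorusMapV X Λ u) : PseudoLength X :=
  symLength hX hch (m := fun _ : Fin n => 1) (fun _ => le_rfl) (fun j => hu.symDiff hΛ hX j)

theorem vel_sq (hX : IsCone X) {d : ℕ} (hch : Charts d X) (hΛ : DiscreteSub Λ) (hu : TorusMapV X Λ u) {s : ℝ} {χ : Chart (n + p) X} {x : EN N} (h : ECh D X Λ u s χ x)
    {F : ℂ → EN N} {z₀ : ℂ} (hF : CurveAt X F z₀) (hU : F z₀ ∈ χ.U) :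
    vel (nuL hX hch hΛ hu) F z₀ ^ 2 = s ^ 2 * ∑ j, ‖deriv (fun z => bb (χ.q (F z)) j) z₀‖ ^ 2 := by
  have hv : AnalyticAt ℂ (fun y => u x + (s : ℂ) • bb (χ.q y)) (F z₀) := by
    have h1 : AnalyticAt ℂ (fun y => bb (χ.q y)) (F z₀) := SubV_bb_an (χ.q_an _ hU)
    have h2 : AnalyticAt ℂ (fun y => (s : ℂ) • bb (χ.q y)) (F z₀) := AnalyticAt.fun_smul analyticAt_const h1
    exact analyticAt_const.add h2
  have hvu : ∀ᶠ y in 𝓝 (F z₀), y ∈ X → u y - (u x + (s : ℂ) • bb (χ.q y)) ∈ Λ := by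
    filter_upwards [χ.isOpen_U.mem_nhds hU] with y hy hyX
    have h1 := h.tor y hyX hy
    rw [sub_sub] at h1
    exact h1
  have ht : Tan X (F z₀) (deriv F z₀) := Pool.Agent.H22.W.tan_curve hF
  have h1 := hu.du_eq hΛ ht hv hvu
  rw [← Pool.Agent.AD.deriv_comp_lift hF.1 hv] at h1
  have hqF : AnalyticAt ℂ (fun z => χ.q (F z)) z₀ := (Chart.curve hX χ hF hU).1
  have hbF : AnalyticAt ℂ (fun z => bb (χ.q (F z))) z₀ := SubV_bb_an hqF
  have h2 : ∀ j, hu.du (F z₀) (deriv F z₀) j = (s : ℂ) * deriv (fun z => bb (χ.q (F z)) j) z₀ := by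
    intro j
    have h3 : HasDerivAt (fun z => bb (χ.q (F z))) (deriv (fun z => bb (χ.q (F z))) z₀) z₀ := hbF.differentiableAt.hasDerivAt
    have h4 : HasDerivAt (fun z => u x + (s : ℂ) • bb (χ.q (F z))) ((s : ℂ) • deriv (fun z => bb (χ.q (F z))) z₀) z₀ := (h3.const_smul (s : ℂ)).const_add (u x)
    have h5 := hasDerivAt_pi.1 h3 j
    rw [h1, h4.deriv, h5.deriv]
    rfl
  have h3 : vel (nuL hX hch hΛ hu) F z₀ = Real.sqrt (∑ j, ‖hu.du (F z₀) (deriv F z₀) j‖ ^ ((2 : ℝ) / ((1 : ℕ) : ℝ))) := rfl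
  have h4 : ∀ j : Fin n, ‖hu.du (F z₀) (deriv F z₀) j‖ ^ ((2 : ℝ) / ((1 : ℕ) : ℝ)) = s ^ 2 * ‖deriv (fun z => bb (χ.q (F z)) j) z₀‖ ^ 2 := by
    intro j
    rw [h2 j, Nat.cast_one, div_one, Real.rpow_two, norm_mul, mul_pow, Complex.norm_real, Real.norm_eq_abs, sq_abs]
  rw [h3, Finset.sum_congr rfl fun j _ => h4 j, ← Finset.mul_sum, Real.sq_sqrt (by positivity)]

theorem exists_WW_sub (hX : IsCone X) (hm : 1 ≤ m) (Ω : Fin K → TForm (n + 1) (n + p) X m) (χ : Chart (n + p) X) :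
    ∃ κ₀ : ℝ, 0 < κ₀ ∧ ∀ (F : ℂ → EN N) (z₀ : ℂ), CurveAt X F z₀ → F z₀ ∈ χ.U → ‖χ.q (F z₀)‖ ≤ 1 → 0 < VV Ω χ (F z₀) → ∀ a : ℝ,
      Sub (fun z => WW Ω a χ (F z)) z₀ ((κ₀ - a) * ∑ j, ‖deriv (fun z => bb (χ.q (F z)) j) z₀‖ ^ 2) := by
  have hm0 : (0 : ℝ) < m := by exact_mod_cast (by omega : 0 < m)
  obtain ⟨C, hC1, hC2, -⟩ := χ.exists_fs_bound hX
  have hC0 : 0 < C := lt_of_lt_of_le one_pos hC1
  have hn0 : (0 : ℝ) < (n : ℝ) + 1 := by positivity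
  refine ⟨1 / (2 * m * ((n : ℝ) + 1) * C ^ 2), by positivity, ?_⟩
  intro F z₀ hF hU hq1 hV a
  obtain ⟨v, hv⟩ : ∃ v : ℂ → Vd (n + p), v = fun z => χ.q (F z) := ⟨_, rfl⟩
  have hvan : AnalyticAt ℂ v z₀ := by
    rw [hv]
    exact (Chart.curve hX χ hF hU).1
  have hq1' : ‖v z₀‖ ≤ 1 := by rw [hv]; exact hq1
  have hft1 : ‖ft (v z₀)‖ ≤ 1 := (SubV_ft_norm _).trans hq1'
  have hft2 : ft (v z₀) ∈ ball (0 : Vd (n + p)) 2 := by
    rw [mem_ball_zero_iff]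
    linarith
  have hftan : AnalyticAt ℂ (fun z => ft (v z)) z₀ := SubV_ft_an hvan
  have hvtan : AnalyticAt ℂ (fun z => vt (v z)) z₀ := SubV_vt_an hvan
  -- the value of `VV`
  have hVz : ∀ z, VV Ω χ (F z) = (∑ k, ‖cfk Ω χ k (ft (v z)) (vt (v z))‖) * ‖χ.σ (ft (v z))‖ := by
    intro z
    rw [hv]
    rfl
  have hV' := hV
  rw [hVz] at hV'
  have hsum0 : 0 < ∑ k, ‖cfk Ω χ k (ft (v z₀)) (vt (v z₀))‖ := by
    rcases (Finset.sum_nonneg fun k (_ : k ∈ Finset.univ) => norm_nonneg (cfk Ω χ k (ft (v z₀)) (vt (v z₀)))).eq_or_lt with h0 | h0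
    · rw [← h0, zero_mul] at hV'
      exact absurd hV' (lt_irrefl _)
    · exact h0
  have hkan : ∀ k, AnalyticAt ℂ (fun z => cfk Ω χ k (ft (v z)) (vt (v z))) z₀ := fun k =>
    AnalyticAt.comp (g := fun y : Vd (n + p) × Vd (n + p) => cfk Ω χ k y.1 y.2) (f := fun z => (ft (v z), vt (v z))) (cfk_an Ω χ k hft2 (vt (v z₀)))
      (hftan.prod hvtan)
  have hS1 : Sub (fun z => ∑ k, ‖cfk Ω χ k (ft (v z)) (vt (v z))‖) z₀ 0 := SubV_sum hkan hsum0
  -- the norm of the point of `D`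
  have hσan : AnalyticAt ℂ (fun z => χ.σ (ft (v z))) z₀ :=
    AnalyticAt.comp (g := χ.σ) (f := fun z => ft (v z)) (χ.σ_an _ hft2) hftan
  have hσ0 : χ.σ (ft (v z₀)) ≠ 0 := χ.sigma_ne_zero hX hft2
  have hS2 : Sub (fun z => ‖χ.σ (ft (v z))‖) z₀ (fs (χ.σ (ft (v z₀))) (deriv (fun z => χ.σ (ft (v z))) z₀) ^ 2 / 2) := by
    have h1 := Sub.norm_rpow hσan hσ0 1
    rw [one_mul] at h1
    exact h1.congr (Eventually.of_forall fun z => Real.rpow_one _)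
  have hS3 : Sub (fun z => VV Ω χ (F z) ^ (1 / (m : ℝ))) z₀
      (1 / m * (0 + fs (χ.σ (ft (v z₀))) (deriv (fun z => χ.σ (ft (v z))) z₀) ^ 2 / 2)) := by
    refine ((hS1.mul hS2).rpow (by positivity)).congr (Eventually.of_forall fun z => ?_)
    rw [hVz z]
  have hbb : ∀ j : Fin n, AnalyticAt ℂ (fun z => bb (v z) j) z₀ := fun j =>
    AnalyticAt.comp (g := fun w : Vd (n + p) => w (Fin.castAdd p j)) (f := v)
      ((ContinuousLinearMap.proj (R := ℂ) (φ := fun _ : Fin (n + p) => ℂ) (Fin.castAdd p j)).analyticAt _) hvan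
  have hS4 : Sub (fun z => Real.exp (-a * ∑ j, ‖bb (v z) j‖ ^ 2)) z₀ (-a * ∑ j, ‖deriv (fun z => bb (v z) j) z₀‖ ^ 2) :=
    SubV_exp_sum Finset.univ (fun j z => bb (v z) j) hbb (-a)
  have hS5 := hS3.mul hS4
  have hS6 : Sub (fun z => WW Ω a χ (F z)) z₀ (1 / m * (0 + fs (χ.σ (ft (v z₀))) (deriv (fun z => χ.σ (ft (v z))) z₀) ^ 2 / 2) +
      -a * ∑ j, ‖deriv (fun z => bb (v z) j) z₀‖ ^ 2) := by
    refine hS5.congr (Eventually.of_forall fun z => ?_)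
    rw [hv]
    rfl
  -- the comparison
  obtain ⟨w, hw⟩ : ∃ w : Vd (n + p), w = deriv (fun z => ft (v z)) z₀ := ⟨_, rfl⟩
  have hwd : HasDerivAt (fun z => ft (v z)) w z₀ := by
    rw [hw]
    exact hftan.differentiableAt.hasDerivAt
  have hPd : deriv (fun z => χ.σ (ft (v z))) z₀ = fderiv ℂ χ.σ (ft (v z₀)) w :=
    (HasFDerivAt.comp_hasDerivAt (l := χ.σ) z₀ (χ.σ_an _ hft2).differentiableAt.hasFDerivAt hwd).deriv
  obtain ⟨hmX, hmU, hmq⟩ := χ.σ_mem _ hft2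
  have hfsw : ‖w‖ ≤ C * fs (χ.σ (ft (v z₀))) (deriv (fun z => χ.σ (ft (v z))) z₀) := by
    have h1 := hC2 (χ.σ (ft (v z₀))) hmX hmU (by rw [hmq]; exact hft1) (fderiv ℂ χ.σ (ft (v z₀)) w)
    rw [χ.fderiv_sigma hft2] at h1
    rw [hPd]
    exact h1
  have hwj : ∀ j : Fin n, deriv (fun z => bb (v z) j) z₀ = w (Fin.castAdd p j) := by
    intro j
    have h1 := hasDerivAt_pi.1 hwd (Fin.castAdd p j)
    have h2 : HasDerivAt (fun z => bb (v z) j) (w (Fin.castAdd p j)) z₀ := by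
      refine h1.congr_of_eventuallyEq (Eventually.of_forall fun z => ?_)
      show v z (Fin.castAdd p j) = ft (v z) (Fin.castAdd p j)
      rw [SubV_ft_left]
    exact h2.deriv
  obtain ⟨S, hS⟩ : ∃ S : ℝ, S = ∑ j : Fin n, ‖deriv (fun z => bb (v z) j) z₀‖ ^ 2 := ⟨_, rfl⟩
  obtain ⟨f, hf⟩ : ∃ f : ℝ, f = fs (χ.σ (ft (v z₀))) (deriv (fun z => χ.σ (ft (v z))) z₀) := ⟨_, rfl⟩
  have hSw : S ≤ ((n : ℝ) + 1) * ‖w‖ ^ 2 := by
    have h1 : S ≤ ∑ _j : Fin n, ‖w‖ ^ 2 := by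
      rw [hS]
      refine Finset.sum_le_sum fun j _ => ?_
      rw [hwj j]
      exact pow_le_pow_left₀ (norm_nonneg _) (norm_le_pi_norm w (Fin.castAdd p j)) 2
    rw [Finset.sum_const, Finset.card_univ, Fintype.card_fin, nsmul_eq_mul] at h1
    have h2 : 0 ≤ ‖w‖ ^ 2 := sq_nonneg _
    linarith
  rw [← hf] at hfsw
  have hw2 : ‖w‖ ^ 2 ≤ (C * f) ^ 2 := pow_le_pow_left₀ (norm_nonneg _) hfsw 2
  have hS8 : 1 / (2 * m * ((n : ℝ) + 1) * C ^ 2) * S ≤ 1 / m * (0 + f ^ 2 / 2) := by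
    have h1 : S ≤ ((n : ℝ) + 1) * (C * f) ^ 2 := hSw.trans (mul_le_mul_of_nonneg_left hw2 hn0.le)
    have h2 : 1 / (2 * m * ((n : ℝ) + 1) * C ^ 2) * S ≤ 1 / (2 * m * ((n : ℝ) + 1) * C ^ 2) * (((n : ℝ) + 1) * (C * f) ^ 2) :=
      mul_le_mul_of_nonneg_left h1 (by positivity)
    have h3 : 1 / (2 * m * ((n : ℝ) + 1) * C ^ 2) * (((n : ℝ) + 1) * (C * f) ^ 2) = 1 / m * (0 + f ^ 2 / 2) := by
      field_simp
      ring
    linarith
  refine hS6.anti ?_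
  have h9 : ∑ j, ‖deriv (fun z => bb (χ.q (F z)) j) z₀‖ ^ 2 = S := by rw [hS, hv]
  rw [h9, ← hf, ← hS]
  linarith

end Pool.Agent.H19T
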