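import Pool.Agent.H19T.SigC
import Pool.Agent.H19T.Rat
import Pool.Agent.H19T.SubV
import Pool.Agent.H19T.Lin

/-!
# H19T SigA: the local functions near `D`
-/

set_option autoImplicit false

open Topology Filter Metric

namespace Pool.Agent.H19T

open Pool.Agent.H36.BP (EN fs wd Sub Curve fs_nonneg)
open Pool.Agent.H14.PP (IsCone CurveAt Tan)
open Pool.Agent.H22.W (PseudoLength)
open Pool.Agent.AD (Vd Chart Charts TorusMapV DiscreteSub)
open Pool.Agent.AD.F (vel)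

variable {N : ℕ} {X D : Set (EN N)} {n p m K : ℕ} {Λ : AddSubgroup (Vd n)} {u : EN N → Vd n}

theorem ft_mem {q : Vd (n + p)} (h : q ∈ ball (0 : Vd (n + p)) 2) : ft q ∈ ball (0 : Vd (n + p)) 2 := by
  rw [mem_ball_zero_iff] at h ⊢
  exact (norm_ft_le q).trans_lt h

theorem cellC_ball {χ : Chart (n + p) X} {x : EN N} (h : x ∈ cellC χ) : χ.q x ∈ ball (0 : Vd (n + p)) 2 := by
  rw [mem_ball_zero_iff]
  linarith [h.2.2]

theorem VV_nonneg (Ω : Fin K → TForm (n + 1) (n + p) X m) (χ : Chart (n + p) X) (x : EN N) : 0 ≤ VV Ω χ x := cf_nonneg Ω χ _ _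

theorem cf_zero (hX : IsCone X) (hm : 1 ≤ m) (Ω : Fin K → TForm (n + 1) (n + p) X m) (χ : Chart (n + p) X) {q : Vd (n + p)} (hq : q ∈ ball (0 : Vd (n + p)) 2) :
    cf Ω χ q 0 = 0 := by
  have h := cf_smul hX Ω χ hq 0 0
  rw [smul_zero, norm_zero, zero_pow (by omega), zero_mul] at h
  exact h

/-- the lower bound of the forms on vertical vectors -/
theorem cf_lower (hX : IsCone X) (hm : 1 ≤ m) {Ω : Fin K → TForm (n + 1) (n + p) X m} (hΩ : TNoZero Ω) (χ : Chart (n + p) X) {q₀ : Vd (n + p)}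
    (hq : q₀ ∈ ball (0 : Vd (n + p)) 2) : ∃ ε c : ℝ, 0 < ε ∧ 0 < c ∧ ∀ q ∈ closedBall q₀ ε, ∀ w : Vd (n + p), bb w = 0 → c * ‖w‖ ^ m ≤ cf Ω χ q w := by
  obtain ⟨ε, hε, hεb⟩ := Metric.isOpen_ball.mem_nhds hq |> Metric.nhds_basis_closedBall.mem_iff.1
  have hS : IsCompact (closedBall q₀ ε ×ˢ (sphere (0 : Vd (n + p)) 1 ∩ {w | bb w = 0})) := by
    refine (isCompact_closedBall _ _).prod ((isCompact_sphere _ _).inter_right ?_)
    exact isClosed_eq cont_bb continuous_const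
  have hc : ContinuousOn (fun y : Vd (n + p) × Vd (n + p) => cf Ω χ y.1 y.2) (closedBall q₀ ε ×ˢ (sphere (0 : Vd (n + p)) 1 ∩ {w | bb w = 0})) := by
    rintro ⟨q, w⟩ ⟨h1, -⟩
    exact (cf_cont Ω χ (hεb h1) w).continuousWithinAt
  have hscale : ∀ c : ℝ, 0 < c → (∀ q ∈ closedBall q₀ ε, ∀ w ∈ sphere (0 : Vd (n + p)) 1 ∩ {w | bb w = 0}, c ≤ cf Ω χ q w) →
      ∀ q ∈ closedBall q₀ ε, ∀ w : Vd (n + p), bb w = 0 → c * ‖w‖ ^ m ≤ cf Ω χ q w := by
    intro c hc h q hq' w hw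
    rcases eq_or_ne w 0 with rfl | hw0
    · rw [norm_zero, zero_pow (by omega), mul_zero]
      exact cf_nonneg Ω χ _ _
    · have hn : ‖w‖ ≠ 0 := norm_ne_zero_iff.2 hw0
      have hnc : ((‖w‖ : ℝ) : ℂ) ≠ 0 := by exact_mod_cast hn
      have h1 : w = ((‖w‖ : ℝ) : ℂ) • ((((‖w‖ : ℝ) : ℂ))⁻¹ • w) := by
        rw [smul_smul, mul_inv_cancel₀ hnc, one_smul]
      have h2 : (((‖w‖ : ℝ) : ℂ))⁻¹ • w ∈ sphere (0 : Vd (n + p)) 1 ∩ {w | bb w = 0} := by
        constructor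
        · rw [mem_sphere_zero_iff_norm, norm_smul, norm_inv, Complex.norm_real, norm_norm, inv_mul_cancel₀ hn]
        · show bb ((((‖w‖ : ℝ) : ℂ))⁻¹ • w) = 0
          funext j
          have := congrFun hw j
          show (((‖w‖ : ℝ) : ℂ))⁻¹ * w (Fin.castAdd p j) = 0
          have h3 : w (Fin.castAdd p j) = 0 := this
          rw [h3, mul_zero]
      have h3 := cf_smul hX Ω χ (hεb hq') ((((‖w‖ : ℝ) : ℂ))⁻¹ • w) ((‖w‖ : ℝ) : ℂ)
      rw [← h1, Complex.norm_real, norm_norm] at h3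
      rw [h3, mul_comm c]
      exact mul_le_mul_of_nonneg_left (h q hq' _ h2) (by positivity)
  rcases (sphere (0 : Vd (n + p)) 1 ∩ {w | bb w = 0}).eq_empty_or_nonempty with he | ⟨w₀, hw₀⟩
  · refine ⟨ε, 1, hε, one_pos, hscale 1 one_pos fun q _ w hw => ?_⟩
    rw [he] at hw
    exact absurd hw (Set.notMem_empty _)
  · obtain ⟨⟨q₁, w₁⟩, h1, hmin⟩ := hS.exists_isMinOn ⟨(q₀, w₀), mem_closedBall_self hε.le, hw₀⟩ hc
    have hw1 : w₁ ≠ 0 := by
      rintro rfl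
      have := h1.2.1
      rw [mem_sphere_zero_iff_norm, norm_zero] at this
      exact zero_ne_one this
    have hpos : 0 < cf Ω χ q₁ w₁ := cf_pos hX hΩ χ (hεb h1.1) h1.2.2 hw1
    exact ⟨ε, cf Ω χ q₁ w₁, hε, hpos, hscale _ hpos fun q hq' w hw => hmin (show (q, w) ∈ _ from ⟨hq', hw⟩)⟩

theorem VV_cont (hX : IsCone X) (Ω : Fin K → TForm (n + 1) (n + p) X m) (χ : Chart (n + p) X) {x : EN N} (hx : x ∈ X) (hU : x ∈ χ.U) : ContinuousAt (VV Ω χ) x := by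
  have h1 : ContinuousAt χ.q x := (χ.q_an x hU).continuousAt
  have h2 : ContinuousAt (fun y => (ft (χ.q y), vt (χ.q y))) x := (cont_ft.continuousAt.comp h1).prodMk (cont_vt.continuousAt.comp h1)
  have h3 := cf_cont Ω χ (ft_mem (χ.surj x hx hU).1) (vt (χ.q x))
  exact ContinuousAt.comp (g := fun y : Vd (n + p) × Vd (n + p) => cf Ω χ y.1 y.2) (f := fun y => (ft (χ.q y), vt (χ.q y))) h3 h2

theorem WW_cont (hX : IsCone X) (Ω : Fin K → TForm (n + 1) (n + p) X m) (a : ℝ) (χ : Chart (n + p) X) {x : EN N} (hx : x ∈ X) (hU : x ∈ χ.U) :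
    ContinuousAt (WW Ω a χ) x := by
  have h1 : ContinuousAt χ.q x := (χ.q_an x hU).continuousAt
  refine ContinuousAt.mul ((VV_cont hX Ω χ hx hU).rpow_const (Or.inr (by positivity))) ?_
  exact Real.continuous_exp.continuousAt.comp (continuousAt_const.mul (cont_sqb.continuousAt.comp h1))

theorem WW_nonneg (Ω : Fin K → TForm (n + 1) (n + p) X m) (a : ℝ) (χ : Chart (n + p) X) (x : EN N) : 0 ≤ WW Ω a χ x :=
  mul_nonneg (Real.rpow_nonneg (VV_nonneg Ω χ x) _) (Real.exp_pos _).le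

theorem exists_WW_le (hX : IsCone X) (Ω : Fin K → TForm (n + 1) (n + p) X m) {a : ℝ} (ha : 0 ≤ a) (χ : Chart (n + p) X) :
    ∃ B : ℝ, 0 < B ∧ ∀ x ∈ cellC χ, WW Ω a χ x ≤ B := by
  have hc : ContinuousOn (fun q : Vd (n + p) => cf Ω χ (ft q) (vt q)) (closedBall (0 : Vd (n + p)) 1) := by
    intro q hq
    have h2 : ContinuousAt (fun q : Vd (n + p) => (ft q, vt q)) q := cont_ft.continuousAt.prodMk cont_vt.continuousAt
    have h3 := cf_cont Ω χ (ft_mem (closedBall_subset_ball one_lt_two hq)) (vt q)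
    exact (ContinuousAt.comp (g := fun y : Vd (n + p) × Vd (n + p) => cf Ω χ y.1 y.2) (f := fun q : Vd (n + p) => (ft q, vt q)) h3 h2).continuousWithinAt
  obtain ⟨M, hM⟩ := (isCompact_closedBall (0 : Vd (n + p)) 1).exists_bound_of_continuousOn hc
  refine ⟨|M| ^ (1 / (m : ℝ)) + 1, by positivity, fun x hx => ?_⟩
  have h1 : VV Ω χ x ≤ |M| := by
    have h2 := hM (χ.q x) (by rw [mem_closedBall_zero_iff]; exact hx.2.2)
    exact (le_abs_self _).trans (h2.trans (le_abs_self M))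
  have h2 : VV Ω χ x ^ (1 / (m : ℝ)) ≤ |M| ^ (1 / (m : ℝ)) := Real.rpow_le_rpow (VV_nonneg Ω χ x) h1 (by positivity)
  have h3 : Real.exp (-a * sqb (χ.q x)) ≤ 1 := by
    rw [Real.exp_le_one_iff]
    have := mul_nonneg ha (Finset.sum_nonneg fun j (_ : j ∈ (Finset.univ : Finset (Fin n))) => sq_nonneg ‖bb (χ.q x) j‖)
    unfold sqb
    linarith
  calc WW Ω a χ x ≤ |M| ^ (1 / (m : ℝ)) * 1 := mul_le_mul h2 h3 (Real.exp_pos _).le (by positivity)
    _ ≤ _ := by linarith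

theorem exists_WData (hX : IsCone X) (hch : Charts (n + p) X) (hm : 1 ≤ m) {Ω : Fin K → TForm (n + 1) (n + p) X m} (hΩ : TNoZero Ω) (hΛ : DiscreteSub Λ)
    (hu : TorusMapV X Λ u) (hD : EtaleIn p D X Λ u) :
    ∃ (κ B : ℝ) (J : ℕ) (χ : Fin J → Chart (n + p) X) (w : Fin J → EN N → ℝ), WData X D (nuL hX hch hΛ hu) κ B J χ w ∧
      (∀ i, ∀ y ∈ X, y ∈ (χ i).U → (y ∈ D ↔ ll ((χ i).q y) = 0)) ∧
      ∀ x ∈ D, ∃ (i : Fin J) (c : ℝ), 0 < c ∧ x ∈ cell (χ i) 1 ∧ ∀ᶠ y in 𝓝[X] x, c * ‖ll ((χ i).q y)‖ ≤ w i y := by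
  have hm0 : (0 : ℝ) < m := by exact_mod_cast (by omega : 0 < m)
  have hm1 : (1 : ℝ) ≤ m := by exact_mod_cast hm
  obtain ⟨s, hs, hunif⟩ := hD.uniform hX
  obtain ⟨θ, hθ0, hθ1, hθn⟩ := theta_num n
  obtain ⟨J, xs, χ, hE, hcov⟩ := hD.cover hX hunif hθ0
  choose κ₀ hκ₀ hsub using fun i => exists_WW_sub hX hm Ω (χ i)
  obtain ⟨κ₁, hκ₁, hκle⟩ := exists_pos_le κ₀ hκ₀
  obtain ⟨a, ha⟩ : ∃ a : ℝ, a = κ₁ / 2 := ⟨_, rfl⟩
  have ha0 : 0 < a := by rw [ha]; positivity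
  choose Bi hBi hBle using fun i => exists_WW_le hX Ω ha0.le (χ i)
  obtain ⟨B, hB⟩ : ∃ B : ℝ, B = 1 + ∑ i, Bi i := ⟨_, rfl⟩
  have hBpos : 0 < B := by
    have := Finset.sum_nonneg fun i (_ : i ∈ Finset.univ) => (hBi i).le
    rw [hB]
    linarith
  have hBi' : ∀ i, Bi i ≤ B := by
    intro i
    have h1 := Finset.single_le_sum (f := fun i => Bi i) (fun i _ => (hBi i).le) (Finset.mem_univ i)
    rw [hB]
    linarith
  have hmem : ∀ i, ∀ y ∈ X, y ∈ (χ i).U → (y ∈ D ↔ ll ((χ i).q y) = 0) := fun i => (hE i).mem_iff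
  have hzero : ∀ i, ∀ x ∈ cellC (χ i), (WW Ω a (χ i) x = 0 ↔ x ∈ D) := by
    intro i x hx
    rw [hmem i x hx.1 hx.2.1]
    constructor
    · intro h
      by_contra hne
      have h1 : 0 < VV Ω (χ i) x := by
        refine cf_pos hX hΩ (χ i) (ft_mem (cellC_ball hx)) (bb_vt _) ?_
        intro h2
        exact hne (vt_eq_zero.1 h2)
      have h2 : 0 < WW Ω a (χ i) x := mul_pos (Real.rpow_pos_of_pos h1 _) (Real.exp_pos _)
      exact h2.ne' h
    · intro h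
      have h1 : VV Ω (χ i) x = 0 := by
        unfold VV
        rw [vt_eq_zero.2 h]
        exact cf_zero hX hm Ω (χ i) (ft_mem (cellC_ball hx))
      unfold WW
      rw [h1, Real.zero_rpow (by positivity), zero_mul]
  refine ⟨κ₁ / 2 / s ^ 2, B, J, χ, fun i => WW Ω a (χ i), ⟨by positivity, hBpos, fun i x => WW_nonneg Ω a (χ i) x, fun i x hx => (hBle i x hx).trans (hBi' i),
    fun i x hx => (WW_cont hX Ω a (χ i) hx.1 hx.2.1).continuousWithinAt, ?_, hzero, ?_, ?_, ?_⟩, hmem, ?_⟩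
  · -- scaling
    intro i x hx c hc
    unfold WW VV
    rw [(χ i).q_smul x hx.2.1 c hc]
  · -- lower supports
    intro i F z₀ hF hcell hpos
    have hV : 0 < VV Ω (χ i) (F z₀) := by
      rcases (VV_nonneg Ω (χ i) (F z₀)).eq_or_lt with e | e
      · exfalso
        unfold WW at hpos
        rw [← e, Real.zero_rpow (by positivity), zero_mul] at hpos
        exact lt_irrefl _ hpos
      · exact e
    refine (hsub i F z₀ hF hcell.2.1 hcell.2.2.le hV a).anti ?_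
    rw [vel_sq hX hch hΛ hu (hE i) hF hcell.2.1]
    have h1 : 0 ≤ ∑ j, ‖deriv (fun z => bb ((χ i).q (F z)) j) z₀‖ ^ 2 := Finset.sum_nonneg fun _ _ => by positivity
    have h2 : κ₁ / 2 ≤ κ₀ i - a := by
      have := hκle i
      rw [ha]
      linarith
    calc κ₁ / 2 / s ^ 2 * (s ^ 2 * ∑ j, ‖deriv (fun z => bb ((χ i).q (F z)) j) z₀‖ ^ 2) = κ₁ / 2 * ∑ j, ‖deriv (fun z => bb ((χ i).q (F z)) j) z₀‖ ^ 2 := by
          field_simp
      _ ≤ _ := mul_le_mul_of_nonneg_right h2 h1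
  · -- cover
    intro x hx
    obtain ⟨i, h1, h2⟩ := hcov x hx
    exact ⟨i, hD.sub hx, h1, h2.trans_le hθ1⟩
  · -- gluing
    intro x hx i hxC hxn
    obtain ⟨j, h1, h2⟩ := hcov x hx
    have hxX := hD.sub hx
    refine ⟨j, ⟨hxX, h1, h2.trans_le hθ1⟩, ?_⟩
    have hr := VV_ratio hX hΩ hΛ hD.sub hD.smul_mem hs (hE i) (hE j) hx hxC.2.1 h1 (δ := 5 * a / 8) (by positivity)
    have hll : ll ((χ i).q x) = 0 := (hmem i x hxX hxC.2.1).1 hx
    have h3 : 1 ≤ sqb ((χ i).q x) := by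
      have h4 := le_sq (bb ((χ i).q x))
      rw [← norm_eq_bb hll, cellC_not hxC hxn, one_pow] at h4
      exact h4
    have h4 : sqb ((χ j).q x) ≤ 1 / 16 := by
      have h5 := sq_le (q := bb ((χ j).q x)) (r := θ) ((norm_bb_le _).trans h2.le)
      exact h5.trans hθn
    have hci : ContinuousAt (fun y => sqb ((χ i).q y)) x := cont_sqb.continuousAt.comp ((χ i).q_an x hxC.2.1).continuousAt
    have hcj : ContinuousAt (fun y => sqb ((χ j).q y)) x := cont_sqb.continuousAt.comp ((χ j).q_an x h1).continuousAt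
    have hei : ∀ᶠ y in 𝓝[X] x, 3 / 4 < sqb ((χ i).q y) := (hci.eventually_const_lt (by linarith)).filter_mono nhdsWithin_le_nhds
    have hej : ∀ᶠ y in 𝓝[X] x, sqb ((χ j).q y) < 1 / 8 := (hcj.eventually_lt_const (by linarith)).filter_mono nhdsWithin_le_nhds
    filter_upwards [hei, hej, eventually_nhdsWithin_iff.2 hr] with y hy1 hy2 hy3
    unfold WW
    have h5 : VV Ω (χ i) y ^ (1 / (m : ℝ)) ≤ Real.exp (5 * a / 8) * VV Ω (χ j) y ^ (1 / (m : ℝ)) := by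
      have h6 : VV Ω (χ i) y ^ (1 / (m : ℝ)) ≤ ((1 + 5 * a / 8) * VV Ω (χ j) y) ^ (1 / (m : ℝ)) :=
        Real.rpow_le_rpow (VV_nonneg _ _ _) hy3 (by positivity)
      rw [Real.mul_rpow (by positivity) (VV_nonneg _ _ _)] at h6
      refine h6.trans (mul_le_mul_of_nonneg_right ?_ (Real.rpow_nonneg (VV_nonneg _ _ _) _))
      have h7 : (1 + 5 * a / 8) ^ (1 / (m : ℝ)) ≤ (1 + 5 * a / 8) ^ (1 : ℝ) := by
        refine Real.rpow_le_rpow_of_exponent_le (by linarith) ?_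
        rw [div_le_one hm0]
        exact hm1
      rw [Real.rpow_one] at h7
      refine h7.trans ?_
      have := Real.add_one_le_exp (5 * a / 8)
      linarith
    have h6 : Real.exp (-a * sqb ((χ i).q y)) ≤ Real.exp (-(5 * a / 8)) * Real.exp (-a * sqb ((χ j).q y)) := by
      rw [← Real.exp_add, Real.exp_le_exp]
      have e1 := mul_lt_mul_of_pos_left hy1 ha0
      have e2 := mul_lt_mul_of_pos_left hy2 ha0
      linarith
    have h8 : Real.exp (5 * a / 8) * Real.exp (-(5 * a / 8)) = 1 := by rw [← Real.exp_add]; simp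
    calc VV Ω (χ i) y ^ (1 / (m : ℝ)) * Real.exp (-a * sqb ((χ i).q y))
        ≤ (Real.exp (5 * a / 8) * VV Ω (χ j) y ^ (1 / (m : ℝ))) * (Real.exp (-(5 * a / 8)) * Real.exp (-a * sqb ((χ j).q y))) :=
          mul_le_mul h5 h6 (Real.exp_pos _).le (mul_nonneg (Real.exp_pos _).le (Real.rpow_nonneg (VV_nonneg _ _ _) _))
      _ = (Real.exp (5 * a / 8) * Real.exp (-(5 * a / 8))) * (VV Ω (χ j) y ^ (1 / (m : ℝ)) * Real.exp (-a * sqb ((χ j).q y))) := by ring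
      _ = _ := by rw [h8, one_mul]
  · -- the lower bound
    intro x hx
    obtain ⟨i, h1, h2⟩ := hcov x hx
    have hxX := hD.sub hx
    have hxc : x ∈ cell (χ i) 1 := ⟨hxX, h1, h2.trans_le hθ1⟩
    obtain ⟨ε, c, hε, hc, hlow⟩ := cf_lower hX hm hΩ (χ i) (ft_mem (cellC_ball (cell_sub hxc)))
    refine ⟨i, c ^ (1 / (m : ℝ)) * Real.exp (-(a * n)), by positivity, hxc, ?_⟩
    have hcft : ContinuousAt (fun y => ft ((χ i).q y)) x := cont_ft.continuousAt.comp ((χ i).q_an x h1).continuousAt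
    have hev : ∀ᶠ y in 𝓝[X] x, ft ((χ i).q y) ∈ closedBall (ft ((χ i).q x)) ε :=
      (hcft.eventually (closedBall_mem_nhds _ hε)).filter_mono nhdsWithin_le_nhds
    filter_upwards [hev, cell_nhds hxc] with y hy hyc
    have h3 := hlow _ hy (vt ((χ i).q y)) (bb_vt _)
    rw [norm_vt] at h3
    have h4 : c ^ (1 / (m : ℝ)) * ‖ll ((χ i).q y)‖ ≤ VV Ω (χ i) y ^ (1 / (m : ℝ)) := by
      have h5 : (c * ‖ll ((χ i).q y)‖ ^ m) ^ (1 / (m : ℝ)) ≤ VV Ω (χ i) y ^ (1 / (m : ℝ)) := Real.rpow_le_rpow (by positivity) h3 (by positivity)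
      rw [Real.mul_rpow hc.le (by positivity), ← Real.rpow_natCast, ← Real.rpow_mul (norm_nonneg _), mul_one_div, div_self hm0.ne', Real.rpow_one] at h5
      exact h5
    have h5 : Real.exp (-(a * n)) ≤ Real.exp (-a * sqb ((χ i).q y)) := by
      rw [Real.exp_le_exp]
      have h6 := sq_le (q := bb ((χ i).q y)) (r := 1) ((norm_bb_le _).trans hyc.2.2.le)
      rw [one_pow, mul_one, ← sqb_eq] at h6
      have := mul_le_mul_of_nonneg_left h6 ha0.le
      linarith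
    unfold WW
    calc c ^ (1 / (m : ℝ)) * Real.exp (-(a * n)) * ‖ll ((χ i).q y)‖ = (c ^ (1 / (m : ℝ)) * ‖ll ((χ i).q y)‖) * Real.exp (-(a * n)) := by ring
      _ ≤ _ := mul_le_mul h4 h5 (Real.exp_pos _).le (Real.rpow_nonneg (VV_nonneg _ _ _) _)

end Pool.Agent.H19T
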