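import Pool.Agent.H19T.Cell
import Pool.Agent.H19T.Shr
import Pool.Agent.AD.W.Def
import Pool.Agent.H36.BP.SubB

/-!
# H19T SigB: the global function
-/

set_option autoImplicit false

open Topology Filter Metric

namespace Pool.Agent.H19T

open Pool.Agent.H36.BP (EN fs wd Sub Curve fs_nonneg)
open Pool.Agent.H14.PP (IsCone CurveAt Tan)
open Pool.Agent.H22.W (PseudoLength)
open Pool.Agent.AD (Vd Chart Charts length_bound)
open Pool.Agent.AD.F (vel)

variable {N d : ℕ} {X D : Set (EN N)} {ν : PseudoLength X} {κ B : ℝ} {J : ℕ} {χ : Fin J → Chart d X} {w : Fin J → EN N → ℝ}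

/-- the property at a point which makes the maximum of the `w i` continuous -/
def GG (χ : Fin J → Chart d X) (w : Fin J → EN N → ℝ) (x : EN N) : Prop :=
  ∀ i, x ∉ cell (χ i) 1 → (∀ᶠ y in 𝓝[X] x, y ∉ cell (χ i) 1) ∨ ∃ j, x ∈ cell (χ j) 1 ∧ ∀ᶠ y in 𝓝[X] x, y ∈ cell (χ i) 1 → w i y ≤ w j y

theorem WData.near (hX : IsCone X) (W : WData X D ν κ B J χ w) {x : EN N} (hx : x ∈ D) (hxX : x ∈ X) :
    ∀ᶠ y in 𝓝[X] x, GG χ w y ∧ ∃ i, y ∈ cell (χ i) 1 := by
  have h1 : ∀ᶠ y in 𝓝[X] x, GG χ w y := by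
    unfold GG
    rw [eventually_all]
    intro i
    by_cases h1 : x ∈ cellC (χ i)
    · by_cases h2 : x ∈ cell (χ i) 1
      · filter_upwards [cell_nhds h2] with y hy
        intro hn
        exact absurd hy hn
      · obtain ⟨j, hj, hev⟩ := W.glue x hx i h1 h2
        have hev' := eventually_eventually_nhdsWithin.2 hev
        filter_upwards [hev', cell_nhds hj] with y hy hyj
        intro _
        exact Or.inr ⟨j, hyj, hy.mono fun z hz _ => hz⟩
    · have hev := eventually_eventually_nhdsWithin.2 (cellC_nhds hX hxX h1)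
      filter_upwards [hev] with y hy
      intro _
      exact Or.inl (hy.mono fun z hz hz' => hz (cell_sub hz'))
  obtain ⟨i, hi⟩ := W.cover x hx
  filter_upwards [h1, cell_nhds hi] with y hy hyi
  exact ⟨hy, i, hyi⟩

theorem WData.GG_smul (hX : IsCone X) (W : WData X D ν κ B J χ w) {y : EN N} {c : ℂ} (hc : c ≠ 0) (h : GG χ w y) : GG χ w (c • y) := by
  intro i hi
  have hi' : y ∉ cell (χ i) 1 := fun h => hi (cell_smul hX hc h)
  rcases h i hi' with h1 | ⟨j, hj, h1⟩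
  · left
    exact ev_smul hX (P := fun z => z ∉ cell (χ i) 1) (fun z _ c hc hz hz' => hz ((cell_smul_iff hX hc).1 hz')) hc h1
  · right
    refine ⟨j, cell_smul hX hc hj, ?_⟩
    have h2 : ∀ᶠ z in 𝓝[X] y, z ∈ cell (χ j) 1 ∧ (z ∈ cell (χ i) 1 → w i z ≤ w j z) := (cell_nhds hj).and h1
    have h3 := ev_smul hX (P := fun z => z ∈ cell (χ j) 1 ∧ (z ∈ cell (χ i) 1 → w i z ≤ w j z)) (fun z _ c hc hz => ⟨cell_smul hX hc hz.1, fun hz' => by
      have h4 := (cell_smul_iff hX hc).1 hz'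
      rw [W.smul i z (cell_sub h4) c hc, W.smul j z (cell_sub hz.1) c hc]
      exact hz.2 h4⟩) hc h2
    exact h3.mono fun z hz => hz.2

/-- a positive lower bound of `w` on the intersection of two closed cells -/
theorem WData.lower (hX : IsCone X) (W : WData X D ν κ B J χ w) (i : Fin J) (χ' : Chart d X) (hχ' : ∀ x ∈ cellC χ', x ∉ D) :
    ∃ b : ℝ, 0 < b ∧ ∀ x ∈ cellC χ', x ∈ cellC (χ i) → b ≤ w i x := by
  have hcl : ∀ ψ : Chart d X, IsClosed (insert (0 : EN N) (cellC ψ)) := fun ψ => Pool.Agent.AD.Chart.isClosed hX ψ (r := 1) zero_le_one one_lt_two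
  have hcomp : IsCompact (sphere (0 : EN N) 1 ∩ (insert (0 : EN N) (cellC χ') ∩ insert (0 : EN N) (cellC (χ i)))) :=
    (isCompact_sphere _ _).inter_right ((hcl χ').inter (hcl (χ i)))
  have hmem : ∀ x ∈ sphere (0 : EN N) 1 ∩ (insert (0 : EN N) (cellC χ') ∩ insert (0 : EN N) (cellC (χ i))), x ∈ cellC χ' ∧ x ∈ cellC (χ i) := by
    rintro x ⟨hx, h1, h2⟩
    have hx0 : x ≠ 0 := by
      rintro rfl
      rw [mem_sphere_zero_iff_norm, norm_zero] at hx
      exact zero_ne_one hx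
    exact ⟨h1.resolve_left hx0, h2.resolve_left hx0⟩
  have hcont : ContinuousOn (w i) (sphere (0 : EN N) 1 ∩ (insert (0 : EN N) (cellC χ') ∩ insert (0 : EN N) (cellC (χ i)))) := by
    intro x hx
    exact (W.cont i x (hmem x hx).2).mono fun y hy => (hmem y hy).1.1
  rcases (sphere (0 : EN N) 1 ∩ (insert (0 : EN N) (cellC χ') ∩ insert (0 : EN N) (cellC (χ i)))).eq_empty_or_nonempty with he | hne
  · refine ⟨1, one_pos, fun x hx hx' => ?_⟩
    exfalso
    have hx0 : x ≠ 0 := fun e => hX.zero_notMem (e ▸ hx.1)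
    have hn : ‖x‖ ≠ 0 := norm_ne_zero_iff.2 hx0
    have hc : (((‖x‖)⁻¹ : ℝ) : ℂ) ≠ 0 := by exact_mod_cast inv_ne_zero hn
    have : (((‖x‖)⁻¹ : ℝ) : ℂ) • x ∈ (∅ : Set (EN N)) := by
      rw [← he]
      refine ⟨?_, Set.mem_insert_of_mem _ (cellC_smul hX hc hx), Set.mem_insert_of_mem _ (cellC_smul hX hc hx')⟩
      rw [mem_sphere_zero_iff_norm, norm_smul, Complex.norm_real, norm_inv, norm_norm, inv_mul_cancel₀ hn]
    exact this
  · obtain ⟨x₀, hx₀, hmin⟩ := hcomp.exists_isMinOn hne hcont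
    have h1 := hmem x₀ hx₀
    have hpos : 0 < w i x₀ := lt_of_le_of_ne (W.nonneg i x₀) fun e => hχ' x₀ h1.1 ((W.zero_iff i x₀ h1.2).1 e.symm)
    refine ⟨w i x₀, hpos, fun x hx hx' => ?_⟩
    have hx0 : x ≠ 0 := fun e => hX.zero_notMem (e ▸ hx.1)
    have hn : ‖x‖ ≠ 0 := norm_ne_zero_iff.2 hx0
    have hc : (((‖x‖)⁻¹ : ℝ) : ℂ) ≠ 0 := by exact_mod_cast inv_ne_zero hn
    have h2 := hmin (show (((‖x‖)⁻¹ : ℝ) : ℂ) • x ∈ sphere (0 : EN N) 1 ∩ (insert (0 : EN N) (cellC χ') ∩ insert (0 : EN N) (cellC (χ i))) from by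
      refine ⟨?_, Set.mem_insert_of_mem _ (cellC_smul hX hc hx), Set.mem_insert_of_mem _ (cellC_smul hX hc hx')⟩
      rw [mem_sphere_zero_iff_norm, norm_smul, Complex.norm_real, norm_inv, norm_norm, inv_mul_cancel₀ hn])
    have h3 : w i x₀ ≤ w i ((((‖x‖)⁻¹ : ℝ) : ℂ) • x) := h2
    rwa [W.smul i x hx' _ hc] at h3

theorem exists_A {B b : ℝ} (hB : 0 < B) (hb : 0 < b) : ∃ A : ℝ, 0 < A ∧ Real.exp (-A) < Real.exp (-(A / 16)) / (2 * B) * b := by
  obtain ⟨L, hL⟩ : ∃ L : ℝ, L = Real.log (2 * B / b) := ⟨_, rfl⟩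
  refine ⟨16 / 15 * (|L| + 1), by positivity, ?_⟩
  have h1 : Real.exp (-(15 / 16 * (16 / 15 * (|L| + 1)))) < b / (2 * B) := by
    have h2 : -(15 / 16 * (16 / 15 * (|L| + 1))) < -L := by
      have := le_abs_self L
      linarith
    refine (Real.exp_lt_exp.2 h2).trans_le ?_
    rw [Real.exp_neg, hL, Real.exp_log (by positivity), inv_div]
  have h3 : Real.exp (-(16 / 15 * (|L| + 1))) = Real.exp (-(16 / 15 * (|L| + 1) / 16)) * Real.exp (-(15 / 16 * (16 / 15 * (|L| + 1)))) := by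
    rw [← Real.exp_add]
    congr 1
    ring
  rw [h3]
  calc Real.exp (-(16 / 15 * (|L| + 1) / 16)) * Real.exp (-(15 / 16 * (16 / 15 * (|L| + 1)))) < Real.exp (-(16 / 15 * (|L| + 1) / 16)) * (b / (2 * B)) :=
        mul_lt_mul_of_pos_left h1 (Real.exp_pos _)
    _ = _ := by ring

/-- the squares of the components of the derivative -/
theorem sq_deriv_le (χ : Chart d X) {C : ℝ} (hC : ∀ x ∈ X, x ∈ χ.U → ‖χ.q x‖ ≤ 1 → ∀ v, ‖fderiv ℂ χ.q x v‖ ≤ C * fs x v) (hX : IsCone X)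
    {F : ℂ → EN N} {z₀ : ℂ} (hF : CurveAt X F z₀) (h : F z₀ ∈ cellC χ) :
    ∑ i, ‖deriv (fun z => χ.q (F z) i) z₀‖ ^ 2 ≤ d * (C * fs (F z₀) (deriv F z₀)) ^ 2 := by
  obtain ⟨han, hqd, -⟩ := Pool.Agent.AD.Chart.curve hX χ hF h.2.1
  have h1 : ∀ i, deriv (fun z => χ.q (F z) i) z₀ = fderiv ℂ χ.q (F z₀) (deriv F z₀) i := by
    intro i
    have h2 := hasDerivAt_pi.1 han.differentiableAt.hasDerivAt i
    rw [h2.deriv, hqd]
  have h3 : ∑ i, ‖deriv (fun z => χ.q (F z) i) z₀‖ ^ 2 = sq (fderiv ℂ χ.q (F z₀) (deriv F z₀)) := by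
    unfold sq
    exact Finset.sum_congr rfl fun i _ => by rw [h1 i]
  rw [h3]
  exact sq_le (hC (F z₀) h.1 h.2.1 h.2.2 _)

/-- lower supports of Gaussians -/
theorem gauss_sub (hX : IsCone X) (χ : Chart d X) (A : ℝ) {F : ℂ → EN N} {z₀ : ℂ} (hF : CurveAt X F z₀) (h : F z₀ ∈ χ.U) :
    Sub (fun z => Real.exp (-A * sq (χ.q (F z)))) z₀ (-A * ∑ i, ‖deriv (fun z => χ.q (F z) i) z₀‖ ^ 2) := by
  obtain ⟨han, -, -⟩ := Pool.Agent.AD.Chart.curve hX χ hF h
  have h1 : ∀ i, AnalyticAt ℂ (fun z => χ.q (F z) i) z₀ := fun i => by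
    have h2 : AnalyticAt ℂ (fun p : Vd d => p i) (χ.q (F z₀)) := (ContinuousLinearMap.proj (R := ℂ) (φ := fun _ : Fin d => ℂ) i).analyticAt _
    exact AnalyticAt.comp (g := fun p : Vd d => p i) (f := fun z => χ.q (F z)) h2 han
  have h3 : ∀ s : Finset (Fin d), Sub (fun z => Real.exp (-A * ∑ i ∈ s, ‖χ.q (F z) i‖ ^ 2)) z₀ (-A * ∑ i ∈ s, ‖deriv (fun z => χ.q (F z) i) z₀‖ ^ 2) := by
    classical
    intro s
    induction s using Finset.induction_on with
    | empty =>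
      simp only [Finset.sum_empty, mul_zero, Real.exp_zero]
      exact Pool.Agent.H36.BP.Sub.const one_pos z₀
    | insert i s hi ih =>
      have h4 := (Pool.Agent.H36.BP.Sub.exp_sq (h1 i) (-A)).mul ih
      rw [Finset.sum_insert hi, mul_add]
      refine h4.congr (Eventually.of_forall fun z => ?_)
      rw [Finset.sum_insert hi, mul_add, Real.exp_add]
  exact h3 Finset.univ

end Pool.Agent.H19T
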