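import Pool.Agent.H19T.SigB

/-!
# H19T SigC: existence of the global function
-/

set_option autoImplicit false

open Topology Filter Metric

namespace Pool.Agent.H19T

open Pool.Agent.H36.BP (EN fs wd Sub Curve fs_nonneg)
open Pool.Agent.H14.PP (IsCone CurveAt Tan)
open Pool.Agent.H22.W (PseudoLength)
open Pool.Agent.AD (Vd Chart Charts length_bound)
open Pool.Agent.AD.F (vel)

variable {N d : ℕ} {X D : Set (EN N)} {ν : PseudoLength X} {κ B : ℝ} {J : ℕ} {χ : Fin J → Chart d X} {w : Fin J → EN N → ℝ}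

theorem theta_num (d : ℕ) : ∃ θ : ℝ, 0 < θ ∧ θ ≤ 1 ∧ (d : ℝ) * θ ^ 2 ≤ 1 / 16 := by
  have hd : (0 : ℝ) ≤ d := Nat.cast_nonneg d
  refine ⟨1 / (4 * (d + 1)), by positivity, ?_, ?_⟩
  · rw [div_le_one (by positivity)]
    linarith
  · rw [div_pow, one_pow, mul_one_div, div_le_div_iff₀ (by positivity) (by norm_num)]
    nlinarith

theorem exists_sig (hX : IsCone X) (hch : Charts d X) (hD : D ⊆ X) (hDcl : IsClosed (insert (0 : EN N) D)) (hDs : ∀ x ∈ D, ∀ c : ℂ, c ≠ 0 → c • x ∈ D)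
    (W : WData X D ν κ B J χ w) :
    ∃ (C η lam : ℝ) (σ : EN N → ℝ), Sig X D ν κ C η σ ∧ 0 < lam ∧ ∀ i, ∀ x ∈ cell (χ i) 1, lam * w i x ≤ σ x := by
  classical
  obtain ⟨θ, hθ0, hθ1, hθd⟩ := theta_num d
  have hB := W.B_pos
  have hκ := W.κ_pos
  -- the neighbourhood of `D`
  obtain ⟨R, hR⟩ : ∃ R : Set (EN N), R = interior {z | z ∈ X → GG χ w z ∧ ∃ i, z ∈ cell (χ i) 1} := ⟨_, rfl⟩
  have hRo : IsOpen R := by rw [hR]; exact isOpen_interior
  have hRp : ∀ z ∈ R, z ∈ X → GG χ w z ∧ ∃ i, z ∈ cell (χ i) 1 := by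
    intro z hz
    rw [hR] at hz
    exact interior_subset hz
  have hDR : ∀ x ∈ D, x ∈ R := by
    intro x hx
    rw [hR, mem_interior_iff_mem_nhds]
    exact eventually_nhdsWithin_iff.1 (W.near hX hx (hD hx))
  -- the compact set away from `D`
  obtain ⟨Y, hY⟩ : ∃ Y : Set (EN N), Y = (sphere (0 : EN N) 1 ∩ insert 0 X) \ R := ⟨_, rfl⟩
  have hYc : IsCompact Y := by
    rw [hY]
    exact ((isCompact_sphere _ _).inter_right hX.closed).diff hRo
  have hYX : ∀ y ∈ Y, y ∈ X ∧ y ∉ D := by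
    intro y hy
    rw [hY] at hy
    have hy0 : y ≠ 0 := by
      rintro rfl
      have := hy.1.1
      rw [mem_sphere_zero_iff_norm, norm_zero] at this
      exact zero_ne_one this
    exact ⟨hy.1.2.resolve_left hy0, fun h => hy.2 (hDR y h)⟩
  have hT : ∀ y : Y, ∃ ψ : Chart d X, (y : EN N) ∈ ψ.U ∧ ψ.q y = 0 ∧ ∀ x ∈ X, x ∈ ψ.U → x ∉ D := by
    intro y
    obtain ⟨h1, h2⟩ := hYX y y.2
    have hy0 : (y : EN N) ≠ 0 := fun e => hX.zero_notMem (e ▸ h1)
    obtain ⟨ψ, h3, h4, h5⟩ := exists_small hX hch h1 (O := (insert (0 : EN N) D)ᶜ) hDcl.isOpen_compl (fun x hx c hc h => by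
        rcases h with h | h
        · exact hx (Or.inl ((smul_eq_zero.1 h).resolve_left hc))
        · refine hx (Or.inr ?_)
          have := hDs _ h c⁻¹ (inv_ne_zero hc)
          rwa [smul_smul, inv_mul_cancel₀ hc, one_smul] at this) (fun h => by
        rcases h with h | h
        · exact hy0 h
        · exact h2 h)
    exact ⟨ψ, h3, h4, fun x hx hU hxD => h5 x hx hU (Or.inr hxD)⟩
  choose ψ hψ1 hψ2 hψ3 using hT
  obtain ⟨t, ht⟩ := hYc.elim_nhds_subcover' (fun y hy => {x | x ∈ (ψ ⟨y, hy⟩).U ∧ ‖(ψ ⟨y, hy⟩).q x‖ < θ}) (fun y hy =>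
    (isOpen_q (ψ ⟨y, hy⟩) θ).mem_nhds ⟨hψ1 ⟨y, hy⟩, by
      have := hψ2 ⟨y, hy⟩
      show ‖(ψ ⟨y, hy⟩).q y‖ < θ
      rw [this, norm_zero]
      exact hθ0⟩)
  have hcov : ∀ y ∈ X, (∃ k : t, y ∈ cell (ψ k.1) θ) ∨ (GG χ w y ∧ ∃ i, y ∈ cell (χ i) 1) := by
    intro y hy
    have hy0 : y ≠ 0 := fun e => hX.zero_notMem (e ▸ hy)
    have hn : ‖y‖ ≠ 0 := norm_ne_zero_iff.2 hy0
    obtain ⟨c, hcd⟩ : ∃ c : ℂ, c = (((‖y‖)⁻¹ : ℝ) : ℂ) := ⟨_, rfl⟩
    have hc : c ≠ 0 := by rw [hcd]; exact_mod_cast inv_ne_zero hn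
    have hcy : c • y ∈ X := hX.smul_mem y hy c hc
    have hcs : c • y ∈ sphere (0 : EN N) 1 := by
      rw [mem_sphere_zero_iff_norm, norm_smul, hcd, Complex.norm_real, norm_inv, norm_norm, inv_mul_cancel₀ hn]
    have hback : c⁻¹ • (c • y) = y := by rw [smul_smul, inv_mul_cancel₀ hc, one_smul]
    by_cases hr : c • y ∈ R
    · right
      obtain ⟨h1, i, h2⟩ := hRp _ hr hcy
      refine ⟨?_, i, (cell_smul_iff hX hc).1 h2⟩
      have h3 := W.GG_smul hX (inv_ne_zero hc) h1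
      rwa [hback] at h3
    · left
      have hyY : c • y ∈ Y := by
        rw [hY]
        exact ⟨⟨hcs, Set.mem_insert_of_mem _ hcy⟩, hr⟩
      have h1 := ht hyY
      simp only [Set.mem_iUnion] at h1
      obtain ⟨k, hk, h2⟩ := h1
      exact ⟨⟨k, hk⟩, (cell_smul_iff hX hc).1 ⟨hcy, h2⟩⟩
  -- the constants
  have hψD : ∀ k : t, ∀ x ∈ cellC (ψ k.1), x ∉ D := fun k x hx => hψ3 k.1 x hx.1 hx.2.1
  choose b hb0 hb using fun p : Fin J × t => W.lower hX p.1 (ψ p.2.1) (hψD p.2)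
  obtain ⟨b₀, hb₀, hb₀le⟩ := exists_pos_le b hb0
  obtain ⟨A, hA0, hA⟩ := exists_A hB hb₀
  obtain ⟨lam, hlam⟩ : ∃ lam : ℝ, lam = Real.exp (-(A / 16)) / (2 * B) := ⟨_, rfl⟩
  have hlam0 : 0 < lam := by rw [hlam]; positivity
  have hlamB : lam * B = Real.exp (-(A / 16)) / 2 := by
    rw [hlam]
    field_simp
  obtain ⟨U, hU⟩ : ∃ U : Fin J ⊕ t → Set (EN N), U = Sum.elim (fun i => cell (χ i) 1) (fun k => cell (ψ k.1) 1) := ⟨_, rfl⟩
  obtain ⟨f, hf⟩ : ∃ f : Fin J ⊕ t → EN N → ℝ, f = Sum.elim (fun i x => lam * w i x) (fun k x => Real.exp (-A * sq ((ψ k.1).q x))) := ⟨_, rfl⟩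
  have hUl : ∀ i, U (Sum.inl i) = cell (χ i) 1 := fun i => by rw [hU]; rfl
  have hUr : ∀ k, U (Sum.inr k) = cell (ψ k.1) 1 := fun k => by rw [hU]; rfl
  have hfl : ∀ i, f (Sum.inl i) = fun x => lam * w i x := fun i => by rw [hf]; rfl
  have hfr : ∀ k, f (Sum.inr k) = fun x => Real.exp (-A * sq ((ψ k.1).q x)) := fun k => by rw [hf]; rfl
  have hUn : ∀ a, ∀ x ∈ U a, ∀ᶠ y in 𝓝[X] x, y ∈ U a := by
    rintro (i | k) x hx
    · rw [hUl] at hx ⊢
      exact cell_nhds hx
    · rw [hUr] at hx ⊢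
      exact cell_nhds hx
  have hf0 : ∀ a x, 0 ≤ f a x := by
    rintro (i | k) x
    · rw [hfl]
      exact mul_nonneg hlam0.le (W.nonneg i x)
    · rw [hfr]
      exact (Real.exp_pos _).le
  have hcl : ∀ i, ∀ x ∈ cellC (χ i), ContinuousWithinAt (f (Sum.inl i)) X x := by
    intro i x hx
    rw [hfl]
    exact continuousWithinAt_const.mul (W.cont i x hx)
  have hcr : ∀ k : t, ∀ x ∈ cellC (ψ k.1), ContinuousWithinAt (f (Sum.inr k)) X x := by
    intro k x hx
    rw [hfr]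
    refine ContinuousAt.continuousWithinAt ?_
    have h1 : ContinuousAt (ψ k.1).q x := ((ψ k.1).q_an x hx.2.1).continuousAt
    refine Real.continuous_exp.continuousAt.comp (continuousAt_const.mul ?_)
    unfold sq
    exact tendsto_finsetSum _ fun i _ => ((continuousAt_pi.1 h1 i).norm.pow 2)
  have hTlow : ∀ k : t, ∀ x ∈ cell (ψ k.1) θ, Real.exp (-(A / 16)) ≤ f (Sum.inr k) x := by
    intro k x hx
    rw [hfr]
    refine Real.exp_le_exp.2 ?_
    have h1 := sq_le hx.2.2.le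
    have h2 := mul_le_mul_of_nonneg_left (h1.trans hθd) hA0.le
    linarith
  have hTbd : ∀ k : t, ∀ x ∈ cellC (ψ k.1), x ∉ cell (ψ k.1) 1 → f (Sum.inr k) x ≤ Real.exp (-A) := by
    intro k x hx hx'
    rw [hfr]
    refine Real.exp_le_exp.2 ?_
    have h1 := le_sq ((ψ k.1).q x)
    rw [cellC_not hx hx', one_pow] at h1
    have h2 := mul_le_mul_of_nonneg_left h1 hA0.le
    linarith
  have hexp : Real.exp (-A) < Real.exp (-(A / 16)) := Real.exp_lt_exp.2 (by linarith)
  have hWle : ∀ i, ∀ x ∈ cellC (χ i), f (Sum.inl i) x ≤ Real.exp (-(A / 16)) / 2 := by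
    intro i x hx
    rw [hfl, ← hlamB]
    exact mul_le_mul_of_nonneg_left (W.le i x hx) hlam0.le
  have hWge : ∀ (k : t) (i : Fin J), ∀ x ∈ cellC (ψ k.1), x ∈ cellC (χ i) → Real.exp (-A) < f (Sum.inl i) x := by
    intro k i x hx hx'
    rw [hfl]
    refine hA.trans_le ?_
    rw [← hlam]
    exact mul_le_mul_of_nonneg_left ((hb₀le (i, k)).trans (hb (i, k) x hx hx')) hlam0.le
  have hcont : ContinuousOn (gl U f) X := by
    refine gl_cont hUn hf0 ?_ ?_
    · rintro (i | k) x hx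
      · rw [hUl] at hx
        exact hcl i x (cell_sub hx)
      · rw [hUr] at hx
        exact hcr k x (cell_sub hx)
    · rintro x hx (i | k) hxa
      · rw [hUl] at hxa ⊢
        by_cases hxC : x ∈ cellC (χ i)
        · rcases hcov x hx with ⟨k, hk⟩ | ⟨hG, -⟩
          · right
            have hk1 := cell_mono hθ1 hk
            refine ⟨Sum.inr k, by rw [hUr]; exact hk1, ?_⟩
            have h1 : f (Sum.inl i) x < f (Sum.inr k) x := by
              have h2 := hWle i x hxC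
              have h3 := hTlow k x hk
              have h4 := Real.exp_pos (-(A / 16))
              linarith
            filter_upwards [(hcl i x hxC).eventually_lt (hcr k x (cell_sub hk1)) h1] with y hy
            intro _
            exact hy.le
          · rcases hG i hxa with h1 | ⟨j, hj, h1⟩
            · exact Or.inl h1
            · right
              refine ⟨Sum.inl j, by rw [hUl]; exact hj, ?_⟩
              filter_upwards [h1] with y hy hyi
              rw [hfl, hfl]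
              exact mul_le_mul_of_nonneg_left (hy hyi) hlam0.le
        · left
          filter_upwards [cellC_nhds hX hx hxC] with y hy hy'
          exact hy (cell_sub hy')
      · rw [hUr] at hxa ⊢
        by_cases hxC : x ∈ cellC (ψ k.1)
        · right
          have h0 := hTbd k x hxC hxa
          rcases hcov x hx with ⟨k', hk'⟩ | ⟨-, i, hi⟩
          · have hk1 := cell_mono hθ1 hk'
            refine ⟨Sum.inr k', by rw [hUr]; exact hk1, ?_⟩
            have h1 : f (Sum.inr k) x < f (Sum.inr k') x := by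
              have h3 := hTlow k' x hk'
              linarith
            filter_upwards [(hcr k x hxC).eventually_lt (hcr k' x (cell_sub hk1)) h1] with y hy
            intro _
            exact hy.le
          · refine ⟨Sum.inl i, by rw [hUl]; exact hi, ?_⟩
            have h1 : f (Sum.inr k) x < f (Sum.inl i) x := by
              have h3 := hWge k i x hxC (cell_sub hi)
              linarith
            filter_upwards [(hcr k x hxC).eventually_lt (hcl i x (cell_sub hi)) h1] with y hy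
            intro _
            exact hy.le
        · left
          filter_upwards [cellC_nhds hX hx hxC] with y hy hy'
          exact hy (cell_sub hy')
  have hlow : ∀ i, ∀ x ∈ cell (χ i) 1, lam * w i x ≤ gl U f x := by
    intro i x hx
    have h1 : f (Sum.inl i) x ≤ gl U f x := le_gl (by rw [hUl]; exact hx)
    rwa [hfl] at h1
  -- bounds for the derivatives
  obtain ⟨C₁, hC₁, hlen⟩ := length_bound hX hch ν
  choose Cψ hCψ1 hCψ2 _ using fun k : t => Pool.Agent.AD.Chart.exists_fs_bound hX (ψ k.1)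
  obtain ⟨P, hP⟩ : ∃ P : ℝ, P = 1 + ∑ k, Cψ k := ⟨_, rfl⟩
  have hPk : ∀ k, Cψ k ≤ P := by
    intro k
    have h1 := Finset.single_le_sum (f := fun k => Cψ k) (fun k _ => zero_le_one.trans (hCψ1 k)) (Finset.mem_univ k)
    rw [hP]
    linarith
  have hP0 : 0 < P := by
    have := Finset.sum_nonneg fun k (_ : k ∈ Finset.univ) => zero_le_one.trans (hCψ1 k)
    rw [hP]
    linarith
  have hd0 : (0 : ℝ) ≤ d := Nat.cast_nonneg d
  have hvel : ∀ (F : ℂ → EN N) (z₀ : ℂ), CurveAt X F z₀ → κ * vel ν F z₀ ^ 2 ≤ κ * C₁ ^ 2 * fs (F z₀) (deriv F z₀) ^ 2 := by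
    intro F z₀ hF
    have h1 := hlen _ _ (Pool.Agent.H22.W.tan_curve hF)
    have h2 : 0 ≤ vel ν F z₀ := ν.nonneg _ _ (Pool.Agent.H22.W.tan_curve hF)
    have h3 : vel ν F z₀ ^ 2 ≤ (C₁ * fs (F z₀) (deriv F z₀)) ^ 2 := pow_le_pow_left₀ h2 h1 2
    have h4 := mul_le_mul_of_nonneg_left h3 hκ.le
    calc κ * vel ν F z₀ ^ 2 ≤ κ * (C₁ * fs (F z₀) (deriv F z₀)) ^ 2 := h4
      _ = _ := by ring
  obtain ⟨C, hC⟩ : ∃ C : ℝ, C = A * (d * P ^ 2) + κ * C₁ ^ 2 + 1 := ⟨_, rfl⟩
  have hC0 : 0 < C := by rw [hC]; positivity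
  have hsubl : ∀ (i : Fin J) (F : ℂ → EN N) (z₀ : ℂ), CurveAt X F z₀ → F z₀ ∈ cell (χ i) 1 → 0 < f (Sum.inl i) (F z₀) →
      Sub (fun z => f (Sum.inl i) (F z)) z₀ (κ * vel ν F z₀ ^ 2) := by
    intro i F z₀ hF hi hpos
    rw [hfl] at hpos ⊢
    have h1 : 0 < w i (F z₀) := by
      rcases (W.nonneg i (F z₀)).eq_or_lt with e | e
      · simp only [← e, mul_zero] at hpos
        exact absurd hpos (lt_irrefl _)
      · exact e
    exact (W.sub i F z₀ hF hi h1).const_mul hlam0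
  have hsubr : ∀ (k : t) (F : ℂ → EN N) (z₀ : ℂ), CurveAt X F z₀ → F z₀ ∈ cell (ψ k.1) 1 →
      Sub (fun z => f (Sum.inr k) (F z)) z₀ (κ * vel ν F z₀ ^ 2 - C * fs (F z₀) (deriv F z₀) ^ 2) := by
    intro k F z₀ hF hk
    rw [hfr]
    refine (gauss_sub hX (ψ k.1) A hF hk.2.1).anti ?_
    have h1 := sq_deriv_le (ψ k.1) (hCψ2 k) hX hF (cell_sub hk)
    have h2 : (d : ℝ) * (Cψ k * fs (F z₀) (deriv F z₀)) ^ 2 ≤ d * P ^ 2 * fs (F z₀) (deriv F z₀) ^ 2 := by
      have h3 : (Cψ k) ^ 2 ≤ P ^ 2 := pow_le_pow_left₀ (zero_le_one.trans (hCψ1 k)) (hPk k) 2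
      have h4 : 0 ≤ fs (F z₀) (deriv F z₀) ^ 2 := sq_nonneg _
      have h5 := mul_le_mul_of_nonneg_left (mul_le_mul_of_nonneg_right h3 h4) hd0
      calc (d : ℝ) * (Cψ k * fs (F z₀) (deriv F z₀)) ^ 2 = d * (Cψ k ^ 2 * fs (F z₀) (deriv F z₀) ^ 2) := by ring
        _ ≤ d * (P ^ 2 * fs (F z₀) (deriv F z₀) ^ 2) := h5
        _ = _ := by ring
    have h6 := hvel F z₀ hF
    have h7 := mul_le_mul_of_nonneg_left (h1.trans h2) hA0.le
    have h8 : 0 ≤ fs (F z₀) (deriv F z₀) ^ 2 := sq_nonneg _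
    have h9 : C * fs (F z₀) (deriv F z₀) ^ 2 = A * (d * P ^ 2 * fs (F z₀) (deriv F z₀) ^ 2) + κ * C₁ ^ 2 * fs (F z₀) (deriv F z₀) ^ 2 + fs (F z₀) (deriv F z₀) ^ 2 := by
      rw [hC]
      ring
    linarith
  refine ⟨C, Real.exp (-(A * d)), lam, gl U f, ⟨hκ, hC0, Real.exp_pos _, hcont, fun x _ => gl_nonneg hf0 x, ?_, ?_, ?_, ?_, ?_⟩, hlam0, hlow⟩
  · -- `σ ≤ 1`
    intro x _
    refine gl_le zero_le_one ?_
    rintro (i | k) hx
    · rw [hUl] at hx
      refine (hWle i x (cell_sub hx)).trans ?_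
      have : Real.exp (-(A / 16)) ≤ 1 := Real.exp_le_one_iff.2 (by linarith)
      linarith
    · rw [hfr]
      refine Real.exp_le_one_iff.2 ?_
      have := mul_nonneg hA0.le (sq_nonneg' ((ψ k.1).q x))
      linarith
  · -- scaling
    intro x _ c hc
    refine gl_smul ?_ ?_
    · rintro (i | k)
      · rw [hUl]
        exact cell_smul_iff hX hc
      · rw [hUr]
        exact cell_smul_iff hX hc
    · rintro (i | k) hx
      · rw [hUl] at hx
        rw [hfl]
        show lam * w i (c • x) = lam * w i x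
        rw [W.smul i x (cell_sub hx) c hc]
      · rw [hUr] at hx
        rw [hfr]
        show Real.exp (-A * sq ((ψ k.1).q (c • x))) = Real.exp (-A * sq ((ψ k.1).q x))
        rw [(ψ k.1).q_smul x hx.2.1 c hc]
  · -- zeros
    intro x hx
    constructor
    · intro h0
      by_contra hxD
      rcases hcov x hx with ⟨k, hk⟩ | ⟨-, i, hi⟩
      · have h1 : f (Sum.inr k) x ≤ gl U f x := le_gl (by rw [hUr]; exact cell_mono hθ1 hk)
        have h2 := hTlow k x hk
        have h3 := Real.exp_pos (-(A / 16))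
        linarith
      · have h1 := hlow i x hi
        have h2 : 0 < w i x := lt_of_le_of_ne (W.nonneg i x) fun e => hxD ((W.zero_iff i x (cell_sub hi)).1 e.symm)
        have h3 := mul_pos hlam0 h2
        linarith
    · intro hxD
      by_contra hne
      have hpos : 0 < gl U f x := lt_of_le_of_ne (gl_nonneg hf0 x) (Ne.symm hne)
      obtain ⟨i | k, h1, h2⟩ := gl_eq hpos
      · rw [hUl] at h1
        rw [hfl] at h2
        have h3 : gl U f x = lam * w i x := h2
        rw [(W.zero_iff i x (cell_sub h1)).2 hxD, mul_zero] at h3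
        exact hne h3
      · rw [hUr] at h1
        exact hψD k x (cell_sub h1) hxD
  · -- near `D`
    intro F z₀ hF hpos hη
    obtain ⟨i | k, h1, h2⟩ := gl_eq hpos
    · have h3 := h1
      rw [hUl] at h1
      refine gl_sub hUn hF h3 h2 (hsubl i F z₀ hF h1 ?_)
      rw [← h2]
      exact hpos
    · exfalso
      rw [hUr] at h1
      rw [hfr] at h2
      have h3 : gl U f (F z₀) = Real.exp (-A * sq ((ψ k.1).q (F z₀))) := h2
      rw [h3, Real.exp_lt_exp] at hη
      have h4 := sq_le h1.2.2.le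
      rw [one_pow, mul_one] at h4
      have h5 := mul_le_mul_of_nonneg_left h4 hA0.le
      linarith
  · intro F z₀ hF hpos
    obtain ⟨i | k, h1, h2⟩ := gl_eq hpos
    · have h3 := h1
      rw [hUl] at h1
      refine gl_sub hUn hF h3 h2 ((hsubl i F z₀ hF h1 ?_).anti ?_)
      · rw [← h2]
        exact hpos
      · have := mul_nonneg hC0.le (sq_nonneg (fs (F z₀) (deriv F z₀)))
        linarith
    · have h3 := h1
      rw [hUr] at h1
      exact gl_sub hUn hF h3 h2 (hsubr k F z₀ hF h1)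

end Pool.Agent.H19T
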